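import Pool.Agent.Helper368.HT.I

open scoped ComplexConjugate
open MeasureTheory Filter

namespace HT

open F96 (H2 ev kz)

noncomputable section

/-- Blaschke factor in the half plane coordinate -/
def bfac (A : Aut) (n : ℤ) (s : ℝ) : ℂ :=
  ((s : ℂ) - (A.lam : ℂ) ^ n * A.β) / ((s : ℂ) - (A.lam : ℂ) ^ n * conj A.β)

/-- the unimodular functions `B_N(s) ^ k` -/
def gN (A : Aut) (s : ℂ → ℝ) (k N : ℕ) (ζ : ℂ) : ℂ :=
  (∏ n ∈ Finset.Icc (-(N : ℤ)) N, bfac A n (s ζ)) ^ k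

lemma auxD1_lam (A : Aut) (n : ℤ) : (0 : ℝ) < A.lam ^ n :=
  zpow_pos (lt_trans zero_lt_one A.hlam) n

lemma auxD1_ne (A : Aut) (n : ℤ) (s : ℝ) : ((s : ℂ) - (A.lam : ℂ) ^ n * A.β) ≠ 0 := by
  intro h
  have h1 := congrArg Complex.im h
  rw [← Complex.ofReal_zpow, Complex.sub_im, Complex.ofReal_im, Complex.im_ofReal_mul,
    Complex.zero_im, zero_sub, neg_eq_zero] at h1
  exact (mul_pos (auxD1_lam A n) A.hβ).ne' h1

lemma auxD1_conj (A : Aut) (n : ℤ) (s : ℝ) :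
    conj ((s : ℂ) - (A.lam : ℂ) ^ n * A.β) = (s : ℂ) - (A.lam : ℂ) ^ n * conj A.β := by
  rw [map_sub, map_mul, Complex.conj_ofReal, ← Complex.ofReal_zpow, Complex.conj_ofReal]

lemma auxD1_ne' (A : Aut) (n : ℤ) (s : ℝ) : ((s : ℂ) - (A.lam : ℂ) ^ n * conj A.β) ≠ 0 := by
  rw [← auxD1_conj]
  exact (map_ne_zero _).2 (auxD1_ne A n s)

lemma auxD1_norm (A : Aut) (n : ℤ) (s : ℝ) : ‖bfac A n s‖ = 1 := by
  unfold bfac
  rw [norm_div, ← auxD1_conj, RCLike.norm_conj, div_self]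
  exact norm_ne_zero_iff.2 (auxD1_ne A n s)

lemma auxD1_bne (A : Aut) (n : ℤ) (s : ℝ) : bfac A n s ≠ 0 := by
  rw [← norm_ne_zero_iff, auxD1_norm]
  exact one_ne_zero

lemma auxD1_mul (A : Aut) (n : ℤ) (s : ℝ) : bfac A n (A.lam * s) = bfac A (n - 1) s := by
  have hl : (A.lam : ℂ) ≠ 0 := by
    exact_mod_cast (lt_trans zero_lt_one A.hlam).ne'
  unfold bfac
  rw [div_eq_div_iff (auxD1_ne' A n _) (auxD1_ne' A (n - 1) s)]
  have h1 : (A.lam : ℂ) ^ n = A.lam * (A.lam : ℂ) ^ (n - 1) := by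
    rw [← zpow_one_add₀ hl]
    congr 1
    ring
  rw [h1]
  push_cast
  ring

lemma auxD1_shift (f : ℤ → ℂ) (N : ℕ) :
    (∏ n ∈ Finset.Icc (-(N : ℤ)) N, f (n - 1)) * f N =
      f (-(N : ℤ) - 1) * ∏ n ∈ Finset.Icc (-(N : ℤ)) N, f n := by
  have h1 : ∏ n ∈ Finset.Icc (-(N : ℤ)) N, f (n - 1) =
      ∏ m ∈ Finset.Icc (-(N : ℤ) - 1) (N - 1), f m := by
    apply Finset.prod_nbij' (fun n => n - 1) (fun m => m + 1)
    · intro a ha
      rw [Finset.mem_Icc] at ha ⊢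
      omega
    · intro a ha
      rw [Finset.mem_Icc] at ha ⊢
      omega
    · intro a _
      ring
    · intro a _
      ring
    · intro a _
      rfl
  have h2 : Finset.Icc (-(N : ℤ) - 1) N = insert (-(N : ℤ) - 1) (Finset.Icc (-(N : ℤ)) N) := by
    ext m
    rw [Finset.mem_insert, Finset.mem_Icc, Finset.mem_Icc]
    omega
  have h3 : Finset.Icc (-(N : ℤ) - 1) N = insert (N : ℤ) (Finset.Icc (-(N : ℤ) - 1) (N - 1)) := by
    ext m
    rw [Finset.mem_insert, Finset.mem_Icc, Finset.mem_Icc]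
    omega
  have h4 : ∏ n ∈ Finset.Icc (-(N : ℤ) - 1) N, f n =
      f (-(N : ℤ) - 1) * ∏ n ∈ Finset.Icc (-(N : ℤ)) N, f n := by
    rw [h2, Finset.prod_insert]
    rw [Finset.mem_Icc]
    omega
  have h5 : ∏ n ∈ Finset.Icc (-(N : ℤ) - 1) N, f n =
      f N * ∏ n ∈ Finset.Icc (-(N : ℤ) - 1) (N - 1), f n := by
    rw [h3, Finset.prod_insert]
    rw [Finset.mem_Icc]
    omega
  rw [h1, ← h4, h5, mul_comm]

lemma auxD1_x (A : Aut) : Filter.Tendsto (fun N : ℕ => ((A.lam : ℂ)⁻¹) ^ N) Filter.atTop (nhds 0) := by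
  apply tendsto_pow_atTop_nhds_zero_of_norm_lt_one
  rw [norm_inv, Complex.norm_real, Real.norm_of_nonneg (lt_trans zero_lt_one A.hlam).le]
  exact inv_lt_one_of_one_lt₀ A.hlam

lemma auxD1_lim1 (A : Aut) (s : ℝ) (hs : s ≠ 0) :
    Filter.Tendsto (fun N : ℕ => bfac A (-(N : ℤ) - 1) s) Filter.atTop (nhds 1) := by
  have h1 : ∀ N : ℕ, (A.lam : ℂ) ^ (-(N : ℤ) - 1) = ((A.lam : ℂ)⁻¹) ^ (N + 1) := by
    intro N
    rw [inv_pow, ← zpow_natCast, ← zpow_neg]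
    congr 1
    push_cast
    ring
  have h2 := (Filter.tendsto_add_atTop_iff_nat 1).2 (auxD1_x A)
  have h3 : Filter.Tendsto (fun N : ℕ => ((s : ℂ) - ((A.lam : ℂ)⁻¹) ^ (N + 1) * A.β) /
      ((s : ℂ) - ((A.lam : ℂ)⁻¹) ^ (N + 1) * conj A.β)) Filter.atTop
      (nhds (((s : ℂ) - 0 * A.β) / ((s : ℂ) - 0 * conj A.β))) := by
    apply Filter.Tendsto.div
    · exact tendsto_const_nhds.sub (h2.mul_const _)
    · exact tendsto_const_nhds.sub (h2.mul_const _)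
    · rw [zero_mul, sub_zero]
      exact_mod_cast hs
  rw [zero_mul, zero_mul, sub_zero, div_self (by exact_mod_cast hs)] at h3
  refine h3.congr (fun N => ?_)
  unfold bfac
  rw [h1]

lemma auxD1_betane (A : Aut) : A.β ≠ 0 := by
  intro h
  have := A.hβ
  rw [h, Complex.zero_im] at this
  exact lt_irrefl _ this

lemma auxD1_lim2 (A : Aut) (s : ℝ) :
    Filter.Tendsto (fun N : ℕ => bfac A (N : ℤ) s) Filter.atTop (nhds (A.β / conj A.β)) := by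
  have hl : (A.lam : ℂ) ≠ 0 := by
    exact_mod_cast (lt_trans zero_lt_one A.hlam).ne'
  have hbc : conj A.β ≠ 0 := (map_ne_zero _).2 (auxD1_betane A)
  have h2 := auxD1_x A
  have h3 : Filter.Tendsto (fun N : ℕ => (((A.lam : ℂ)⁻¹) ^ N * (s : ℂ) - A.β) /
      (((A.lam : ℂ)⁻¹) ^ N * (s : ℂ) - conj A.β)) Filter.atTop
      (nhds ((0 * (s : ℂ) - A.β) / (0 * (s : ℂ) - conj A.β))) := by
    apply Filter.Tendsto.div
    · exact (h2.mul_const _).sub tendsto_const_nhds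
    · exact (h2.mul_const _).sub tendsto_const_nhds
    · rw [zero_mul, zero_sub]
      exact neg_ne_zero.2 hbc
  rw [zero_mul, zero_sub, zero_sub, neg_div_neg_eq] at h3
  refine h3.congr (fun N => ?_)
  unfold bfac
  have hp : (A.lam : ℂ) ^ N ≠ 0 := pow_ne_zero _ hl
  have h4 : ∀ b : ℂ, ((A.lam : ℂ)⁻¹) ^ N * (s : ℂ) - b =
      ((A.lam : ℂ)⁻¹) ^ N * ((s : ℂ) - (A.lam : ℂ) ^ (N : ℤ) * b) := by
    intro b
    rw [zpow_natCast, mul_sub, ← mul_assoc, inv_pow, inv_mul_cancel₀ hp, one_mul]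
  rw [h4, h4, mul_div_mul_left _ _ (pow_ne_zero _ (inv_ne_zero hl))]

lemma gN_meas (A : Aut) {s : ℂ → ℝ} (hs : Measurable s) (k N : ℕ) : Measurable (gN A s k N) := by
  unfold gN
  apply Measurable.pow_const
  apply Finset.measurable_prod
  intro n _
  unfold bfac
  exact ((Complex.measurable_ofReal.comp hs).sub_const _).div
    ((Complex.measurable_ofReal.comp hs).sub_const _)

lemma gN_norm (A : Aut) (s : ℂ → ℝ) (k N : ℕ) (ζ : ℂ) : ‖gN A s k N ζ‖ = 1 := by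
  unfold gN
  rw [norm_pow, norm_prod, Finset.prod_eq_one (fun n _ => auxD1_norm A n _), one_pow]

lemma gN_lim (A : Aut) (s : ℂ → ℝ) (τ : ℂ → ℂ) (k : ℕ) (ζ : ℂ) (h0 : s ζ ≠ 0)
    (h : s (τ ζ) = A.lam * s ζ) :
    Tendsto (fun N : ℕ => conj (gN A s k N ζ) * gN A s k N (τ ζ)) atTop
      (nhds ((conj A.β / A.β) ^ k)) := by
  have h1 : ∀ N : ℕ, conj (gN A s k N ζ) * gN A s k N (τ ζ) =
      (bfac A (-(N : ℤ) - 1) (s ζ) / bfac A (N : ℤ) (s ζ)) ^ k := by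
    intro N
    unfold gN
    rw [h, map_pow, ← mul_pow]
    congr 1
    obtain ⟨P, hP⟩ : ∃ P : ℂ, P = ∏ n ∈ Finset.Icc (-(N : ℤ)) N, bfac A n (s ζ) := ⟨_, rfl⟩
    have h2 := auxD1_shift (fun n => bfac A n (s ζ)) N
    have h3 : ∏ n ∈ Finset.Icc (-(N : ℤ)) N, bfac A n (A.lam * s ζ) =
        ∏ n ∈ Finset.Icc (-(N : ℤ)) N, bfac A (n - 1) (s ζ) :=
      Finset.prod_congr rfl (fun n _ => auxD1_mul A n (s ζ))
    rw [← h3, ← hP] at h2
    rw [← hP]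
    have hPn : ‖P‖ = 1 := by
      rw [hP, norm_prod, Finset.prod_eq_one (fun n _ => auxD1_norm A n _)]
    have hPP : conj P * P = 1 := by
      rw [Complex.conj_mul', hPn]
      norm_num
    rw [eq_div_iff (auxD1_bne A _ _), mul_assoc, h2, mul_comm (bfac A _ _) P, ← mul_assoc, hPP,
      one_mul]
  simp only [h1]
  have h4 := ((auxD1_lim1 A (s ζ) h0).div (auxD1_lim2 A (s ζ))
    (div_ne_zero (auxD1_betane A) ((map_ne_zero _).2 (auxD1_betane A)))).pow k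
  rw [one_div, inv_div] at h4
  exact h4

lemma auxD2_one_sub_ne {η₀ w : ℂ} (hη : ‖η₀‖ = 1) (hw : ‖w‖ < 1) : 1 - η₀ * w ≠ 0 := by
  intro h
  have h1 : η₀ * w = 1 := (sub_eq_zero.1 h).symm
  have h2 : ‖η₀ * w‖ = 1 := by rw [h1, norm_one]
  rw [norm_mul, hη, one_mul] at h2
  linarith

lemma auxD2_sfun_contAt {η₀ β w : ℂ} (h : 1 - η₀ * w ≠ 0) : ContinuousAt (sfun η₀ β) w := by
  unfold sfun
  exact ContinuousAt.div (by fun_prop) (by fun_prop) h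

lemma auxD2_sfun_diffAt {η₀ β w : ℂ} (h : 1 - η₀ * w ≠ 0) : DifferentiableAt ℂ (sfun η₀ β) w := by
  unfold sfun
  exact DifferentiableAt.div (by fun_prop) (by fun_prop) h

lemma auxD2_pim (A : Aut) (n : ℤ) : 0 < ((A.lam : ℂ) ^ n * A.β).im ∧
    (A.lam : ℂ) ^ n * conj A.β = conj ((A.lam : ℂ) ^ n * A.β) := by
  have h1 : (A.lam : ℂ) ^ n = ((A.lam ^ n : ℝ) : ℂ) := by push_cast; rfl
  have h2 : 0 < A.lam ^ n := zpow_pos (by linarith [A.hlam]) n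
  rw [h1]
  constructor
  · rw [Complex.im_ofReal_mul]
    exact mul_pos h2 A.hβ
  · rw [map_mul, Complex.conj_ofReal]

lemma bfac_Hs (A : Aut) {η : ℂ → ℂ} {H : H2} (hH : IsBd η H) (n : ℤ) :
    ∃ x ∈ Hs, (x : ℂ → ℂ) =ᵐ[mT] fun ζ => bfac A n (sR A.η₀ A.β (η ζ)) := by
  set p : ℂ := (A.lam : ℂ) ^ n * A.β with hp
  obtain ⟨hpim, hpc⟩ := auxD2_pim A n
  rw [← hp] at hpim hpc
  set G : ℂ → ℂ := fun w => (sfun A.η₀ A.β w - p) / (sfun A.η₀ A.β w - conj p) with hG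
  have hden : ∀ s : ℂ, 0 ≤ s.im → s - conj p ≠ 0 := by
    intro s hs h
    have := congrArg Complex.im h
    simp at this
    linarith
  have hGd : DifferentiableOn ℂ G (Metric.ball 0 1) := by
    intro w hw
    have hw1 : ‖w‖ < 1 := by simpa using hw
    have h1 := auxD2_sfun_diffAt (β := A.β) (auxD2_one_sub_ne A.hη hw1)
    apply DifferentiableAt.differentiableWithinAt
    exact DifferentiableAt.div (h1.sub_const _) (h1.sub_const _)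
      (hden _ (sfun_im A.hη A.hβ hw1).1.le)
  have hGb : ∀ z : ℂ, ‖z‖ < 1 → ‖G z‖ ≤ 1 := by
    intro z hz
    have h1 := F96.norm_zt_lt (η := 1) (b := p) (s := sfun A.η₀ A.β z) (by simp) hpim
      (sfun_im A.hη A.hβ hz).1
    have h2 : F96.zt 1 p (sfun A.η₀ A.β z) = G z := by
      simp [F96.zt, hG]
    rw [h2] at h1
    exact h1.le
  have hFm : Measurable fun w => bfac A n (sR A.η₀ A.β w) := by
    unfold bfac
    have h1 : Measurable fun w => ((sR A.η₀ A.β w : ℝ) : ℂ) :=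
      Complex.measurable_ofReal.comp (sR_meas A.η₀ A.β)
    exact (h1.sub_const _).div (h1.sub_const _)
  have hrad : ∀ᵐ ζ ∂mT, Tendsto (fun r : ℝ => G (r * ζ)) (nhdsWithin 1 (Set.Iio 1))
      (nhds (bfac A n (sR A.η₀ A.β ζ))) := by
    filter_upwards [norm_one_ae, sR_ne A.hη A.hβ] with ζ h1 h2
    obtain ⟨h3, -⟩ := sfun_real A.hη A.hβ h1 h2.2
    have hne : 1 - A.η₀ * ζ ≠ 0 := fun h => h2.2 (sub_eq_zero.1 h).symm
    have hc := auxD2_sfun_contAt (β := A.β) hne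
    have hGc : ContinuousAt G ζ := by
      refine ContinuousAt.div (hc.sub continuousAt_const) (hc.sub continuousAt_const) ?_
      apply hden
      rw [h3]; simp
    have hval : G ζ = bfac A n (sR A.η₀ A.β ζ) := by
      simp only [hG]
      rw [h3]
      unfold bfac
      rw [hpc]
    rw [← hval]
    have hr : Tendsto (fun r : ℝ => (r : ℂ) * ζ) (nhdsWithin 1 (Set.Iio 1)) (nhds ζ) := by
      have : Continuous fun r : ℝ => (r : ℂ) * ζ := by fun_prop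
      have h4 := (this.tendsto 1).mono_left (nhdsWithin_le_nhds (s := Set.Iio (1:ℝ)))
      simpa using h4
    exact hGc.tendsto.comp hr
  obtain ⟨G2, -, hJG⟩ := bd_general G _ 1 hGd hGb hFm hrad
  obtain ⟨CL, hCL, -, C, hC, -⟩ := exists_CL hH
  refine ⟨J (C G2), J_mem _, ?_⟩
  rw [hC]
  have h5 := (qi_bd hH).ae_eq_comp hJG
  exact (hCL (J G2)).trans h5

lemma bfac_zero (A : Aut) {η : ℂ → ℂ} {H : H2} (hH : IsBd η H) :
    ∀ᵐ ζ ∂mT, bfac A 0 (sR A.η₀ A.β (η ζ)) = A.η₀ * η ζ := by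
  filter_upwards [hH.2.1, (qi_bd hH).ae (sR_ne A.hη A.hβ)] with ζ h1 h2
  obtain ⟨-, h4⟩ := sfun_real A.hη A.hβ h1 h2.2
  have h5 : A.η₀ * conj A.η₀ = 1 := by
    rw [Complex.mul_conj, Complex.normSq_eq_norm_sq, A.hη]; simp
  conv_rhs => rw [← h4]
  unfold F96.zt bfac
  rw [zpow_zero, one_mul, one_mul, ← mul_assoc, h5, one_mul]

lemma eta_div (η : ℂ → ℂ) {H : H2} (hH : IsBd η H) (hH0 : ev H 0 = 0) :
    ∃ x ∈ Hs, (x : ℂ → ℂ) =ᵐ[mT] fun ζ => η ζ * ζ⁻¹ := by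
  have hb : BddMeas (fun ζ : ℂ => ζ⁻¹) := by
    refine ⟨measurable_inv, 1, ?_⟩
    filter_upwards [norm_one_ae] with ζ h
    rw [norm_inv, h, inv_one]
  refine ⟨mulL (fun ζ => ζ⁻¹) (J H), ?_, ?_⟩
  · rw [mem_Hs]
    intro n hn
    have h1 : (inner ℂ (mon n) (mulL (fun ζ => ζ⁻¹) (J H)) : ℂ) = inner ℂ (mon (n + 1)) (J H) := by
      rw [MeasureTheory.L2.inner_def, MeasureTheory.L2.inner_def]
      apply integral_congr_ae
      filter_upwards [mulL_coe hb (J H), mon_coe n, mon_coe (n + 1), norm_one_ae] with ζ h2 h3 h4 h5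
      rw [h2, h3, h4]
      have hζ : ζ ≠ 0 := by
        intro h; rw [h, norm_zero] at h5; exact zero_ne_one h5
      have h6 : conj ζ = ζ⁻¹ := by
        rw [Complex.inv_def, Complex.normSq_eq_norm_sq, h5]; simp
      simp only [RCLike.inner_apply, map_zpow₀, h6]
      rw [zpow_add₀ (inv_ne_zero hζ), zpow_one]
      ring
    rw [h1]
    rcases lt_or_eq_of_le (show n + 1 ≤ 0 by omega) with h | h
    · exact mem_Hs.1 (J_mem H) (n + 1) h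
    · have h2 := J_coeff H 0
      rw [h]
      have h3 := F96.ev_zero H
      rw [← h3, hH0] at h2
      exact_mod_cast h2
  · filter_upwards [mulL_coe hb (J H), hH.2.2.1] with ζ h1 h2
    rw [h1, h2, mul_comm]

lemma auxD3_step {g : ℂ → ℂ} (hg : BddMeas g) (h : ∃ x ∈ Hs, (x : ℂ → ℂ) =ᵐ[mT] g) {x : L2}
    (hx : x ∈ Hs) : mulL g x ∈ Hs := by
  obtain ⟨b, hb, hbg⟩ := h
  exact mul_mem hg hb hbg hx

lemma auxD3_bm_mul {g₁ g₂ : ℂ → ℂ} (h1 : BddMeas g₁) (h2 : BddMeas g₂) :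
    BddMeas (fun ζ => g₁ ζ * g₂ ζ) := by
  obtain ⟨m1, K1, hK1⟩ := h1
  obtain ⟨m2, K2, hK2⟩ := h2
  refine ⟨m1.mul m2, |K1| * |K2|, ?_⟩
  filter_upwards [hK1, hK2] with ζ a1 a2
  rw [norm_mul]
  exact mul_le_mul (a1.trans (le_abs_self _)) (a2.trans (le_abs_self _)) (norm_nonneg _)
    (abs_nonneg _)

lemma auxD3_mul {g₁ g₂ : ℂ → ℂ} (h1 : BddMeas g₁ ∧ ∀ x ∈ Hs, mulL g₁ x ∈ Hs)
    (h2 : BddMeas g₂ ∧ ∀ x ∈ Hs, mulL g₂ x ∈ Hs) :
    BddMeas (fun ζ => g₁ ζ * g₂ ζ) ∧ ∀ x ∈ Hs, mulL (fun ζ => g₁ ζ * g₂ ζ) x ∈ Hs := by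
  have hb := auxD3_bm_mul h1.1 h2.1
  refine ⟨hb, ?_⟩
  intro x hx
  have h : mulL (fun ζ => g₁ ζ * g₂ ζ) x = mulL g₁ (mulL g₂ x) := by
    apply Lp.ext
    filter_upwards [mulL_coe hb x, mulL_coe h1.1 (mulL g₂ x), mulL_coe h2.1 x] with ζ a1 a2 a3
    rw [a1, a2, a3, mul_assoc]
  rw [h]
  exact h1.2 _ (h2.2 _ hx)

lemma auxD3_const (c : ℂ) :
    BddMeas (fun _ => c) ∧ ∀ x ∈ Hs, mulL (fun _ => c) x ∈ Hs := by
  have hb : BddMeas (fun _ => c) := ⟨measurable_const, ‖c‖, Eventually.of_forall fun _ => le_rfl⟩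
  refine ⟨hb, ?_⟩
  intro x hx
  have h : mulL (fun _ => c) x = c • x := by
    apply Lp.ext
    filter_upwards [mulL_coe hb x, Lp.coeFn_smul c x] with ζ a1 a2
    rw [a1, a2, Pi.smul_apply, smul_eq_mul]
  rw [h]
  exact Hs.smul_mem c hx

lemma auxD3_pow {g : ℂ → ℂ} (h : BddMeas g ∧ ∀ x ∈ Hs, mulL g x ∈ Hs) (k : ℕ) :
    BddMeas (fun ζ => g ζ ^ k) ∧ ∀ x ∈ Hs, mulL (fun ζ => g ζ ^ k) x ∈ Hs := by
  induction k with
  | zero =>
    simpa using auxD3_const 1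
  | succ k ih =>
    have := auxD3_mul ih h
    simpa only [pow_succ] using this

lemma auxD3_prod {ι : Type*} (s : Finset ι) (g : ι → ℂ → ℂ)
    (h : ∀ i ∈ s, BddMeas (g i) ∧ ∀ x ∈ Hs, mulL (g i) x ∈ Hs) :
    BddMeas (fun ζ => ∏ i ∈ s, g i ζ) ∧ ∀ x ∈ Hs, mulL (fun ζ => ∏ i ∈ s, g i ζ) x ∈ Hs := by
  classical
  induction s using Finset.induction_on with
  | empty =>
    simpa using auxD3_const 1
  | insert a s ha ih =>
    have h1 := h a (Finset.mem_insert_self a s)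
    have h2 := ih (fun i hi => h i (Finset.mem_insert_of_mem hi))
    have := auxD3_mul h1 h2
    simpa only [Finset.prod_insert ha] using this

lemma auxD3_bfac_meas (A : Aut) (n : ℤ) : Measurable (bfac A n) := by
  unfold bfac
  fun_prop

lemma auxD3_bfac_norm (A : Aut) (n : ℤ) (s : ℝ) : ‖bfac A n s‖ ≤ 1 := by
  unfold bfac
  rw [norm_div]
  have h : ‖(s : ℂ) - (A.lam : ℂ) ^ n * A.β‖ = ‖(s : ℂ) - (A.lam : ℂ) ^ n * conj A.β‖ := by
    rw [← RCLike.norm_conj]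
    congr 1
    simp [map_zpow₀]
  rw [h]
  exact div_self_le_one _

lemma gN_Hs (A : Aut) {η : ℂ → ℂ} {H : H2} (hH : IsBd η H) (hH0 : ev H 0 = 0) (k N : ℕ) (j : ℤ)
    (hj : -(k : ℤ) ≤ j) :
    mulL (gN A (fun ζ => sR A.η₀ A.β (η ζ)) k N) (mon j) ∈ Hs := by
  classical
  have hsm : Measurable (fun ζ => sR A.η₀ A.β (η ζ)) := (sR_meas A.η₀ A.β).comp hH.1
  -- the factors
  have hfac : ∀ n : ℤ, BddMeas (fun ζ => bfac A n (sR A.η₀ A.β (η ζ))) ∧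
      ∀ x ∈ Hs, mulL (fun ζ => bfac A n (sR A.η₀ A.β (η ζ))) x ∈ Hs := by
    intro n
    have hb : BddMeas (fun ζ => bfac A n (sR A.η₀ A.β (η ζ))) :=
      ⟨(auxD3_bfac_meas A n).comp hsm, 1, Eventually.of_forall fun ζ => auxD3_bfac_norm A n _⟩
    exact ⟨hb, fun x hx => auxD3_step hb (bfac_Hs A hH n) hx⟩
  have heta : BddMeas (fun ζ => η ζ * ζ⁻¹) ∧ ∀ x ∈ Hs, mulL (fun ζ => η ζ * ζ⁻¹) x ∈ Hs := by
    have hb : BddMeas (fun ζ => η ζ * ζ⁻¹) := by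
      refine ⟨hH.1.mul measurable_inv, 1, ?_⟩
      filter_upwards [hH.2.1, norm_one_ae] with ζ a1 a2
      rw [norm_mul, norm_inv, a1, a2]
      norm_num
    exact ⟨hb, fun x hx => auxD3_step hb (eta_div η hH hH0) hx⟩
  have hR := auxD3_prod ((Finset.Icc (-(N : ℤ)) N).erase 0)
    (fun n ζ => bfac A n (sR A.η₀ A.β (η ζ))) (fun n _ => hfac n)
  have hRk := auxD3_pow hR k
  have hek := auxD3_pow heta k
  have hall := auxD3_mul (auxD3_mul hRk (auxD3_const (A.η₀ ^ k))) hek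
  have hmon : mon (j + k) ∈ Hs := mon_mem (by linarith)
  have hfin := hall.2 _ hmon
  have hgB : BddMeas (gN A (fun ζ => sR A.η₀ A.β (η ζ)) k N) :=
    ⟨gN_meas A hsm k N, 1, Eventually.of_forall fun ζ => (gN_norm A _ k N ζ).le⟩
  have heq : mulL (gN A (fun ζ => sR A.η₀ A.β (η ζ)) k N) (mon j) =
      mulL (fun ζ => (∏ n ∈ (Finset.Icc (-(N : ℤ)) N).erase 0,
        bfac A n (sR A.η₀ A.β (η ζ))) ^ k * A.η₀ ^ k * (η ζ * ζ⁻¹) ^ k) (mon (j + k)) := by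
    apply Lp.ext
    filter_upwards [mulL_coe hgB (mon j), mulL_coe hall.1 (mon (j + k)), mon_coe j,
      mon_coe (j + k), bfac_zero A hH, norm_one_ae] with ζ a1 a2 a3 a4 a5 a6
    rw [a1, a2, a3, a4]
    have hζ : ζ ≠ 0 := by
      intro h0
      rw [h0, norm_zero] at a6
      exact zero_ne_one a6
    have h0mem : (0 : ℤ) ∈ Finset.Icc (-(N : ℤ)) N := by
      rw [Finset.mem_Icc]
      constructor <;> omega
    have hprod : (∏ n ∈ Finset.Icc (-(N : ℤ)) N, bfac A n (sR A.η₀ A.β (η ζ))) =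
        (∏ n ∈ (Finset.Icc (-(N : ℤ)) N).erase 0, bfac A n (sR A.η₀ A.β (η ζ))) *
          (A.η₀ * η ζ) := by
      rw [← a5, Finset.prod_erase_mul _ _ h0mem]
    unfold gN
    rw [hprod, zpow_add₀ hζ, zpow_natCast, mul_pow, mul_pow, mul_pow, inv_pow]
    field_simp
  rw [heq]
  exact hfin

lemma auxD4_mul {g : ℂ → ℂ} (hm : Measurable g) (hn : ∀ ζ, ‖g ζ‖ = 1) : BddMeas g :=
  ⟨hm, 1, Eventually.of_forall fun ζ => (hn ζ).le⟩

lemma auxD4_norm {g : ℂ → ℂ} (hm : Measurable g) (hn : ∀ ζ, ‖g ζ‖ = 1) (x : L2) :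
    ‖mulL g x‖ = ‖x‖ := by
  have hb := auxD4_mul hm hn
  apply le_antisymm
  · apply Lp.norm_le_norm_of_ae_le
    filter_upwards [mulL_coe hb x] with ζ h1
    rw [h1, norm_mul, hn, one_mul]
  · apply Lp.norm_le_norm_of_ae_le
    filter_upwards [mulL_coe hb x] with ζ h1
    rw [h1, norm_mul, hn, one_mul]

lemma auxD4_mem {g : ℂ → ℂ} {k : ℕ} (h : ∀ j : ℤ, -(k : ℤ) ≤ j → mulL g (mon j) ∈ Hs) {x : L2}
    (hx : x ∈ Submodule.span ℂ (mon '' {j : ℤ | -(k : ℤ) ≤ j})) : mulL g x ∈ Hs := by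
  have h1 : Submodule.span ℂ (mon '' {j : ℤ | -(k : ℤ) ≤ j}) ≤
      Hs.comap ((mulL g : L2 →L[ℂ] L2) : L2 →ₗ[ℂ] L2) := by
    rw [Submodule.span_le]
    rintro _ ⟨j, hj, rfl⟩
    exact h j hj
  exact h1 hx

lemma auxD4_inner {τ : ℂ → ℂ} (hτ : Measure.QuasiMeasurePreserving τ mT mT) (CL : L2 →L[ℂ] L2)
    (hCL : ∀ x : L2, (CL x : ℂ → ℂ) =ᵐ[mT] fun ζ => x (τ ζ)) {g : ℂ → ℂ} (hm : Measurable g)
    (hn : ∀ ζ, ‖g ζ‖ = 1) (x : L2) :
    (inner ℂ (mulL g x) (CL (mulL g x)) : ℂ) =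
      ∫ ζ, (conj (g ζ) * g (τ ζ)) * (inner ℂ (x ζ) (CL x ζ) : ℂ) ∂mT := by
  have hb := auxD4_mul hm hn
  rw [MeasureTheory.L2.inner_def]
  apply integral_congr_ae
  filter_upwards [mulL_coe hb x, hCL (mulL g x), hτ.ae (mulL_coe hb x), hCL x] with ζ h1 h2 h3 h4
  rw [h1, h2, h3, h4]
  simp only [RCLike.inner_apply, map_mul]
  ring

lemma auxD4_span {τ : ℂ → ℂ} (hτ : Measure.QuasiMeasurePreserving τ mT mT) (CL : L2 →L[ℂ] L2)
    (hCL : ∀ x : L2, (CL x : ℂ → ℂ) =ᵐ[mT] fun ζ => x (τ ζ)) {w : ℝ}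
    (hw : ∀ x ∈ Hs, ‖(inner ℂ x (CL x) : ℂ)‖ ≤ w * ‖x‖ ^ 2) (k : ℕ)
    (hg : ∃ (g : ℕ → ℂ → ℂ) (c : ℂ), (∀ N, Measurable (g N)) ∧ (∀ N ζ, ‖g N ζ‖ = 1) ∧
      (∀ (N : ℕ) (j : ℤ), -(k : ℤ) ≤ j → mulL (g N) (mon j) ∈ Hs) ∧ ‖c‖ = 1 ∧
      ∀ᵐ ζ ∂mT, Tendsto (fun N => conj (g N ζ) * g N (τ ζ)) atTop (nhds c)) (x : L2)
    (hx : x ∈ Submodule.span ℂ (mon '' {j : ℤ | -(k : ℤ) ≤ j})) :
    ‖(inner ℂ x (CL x) : ℂ)‖ ≤ w * ‖x‖ ^ 2 := by
  obtain ⟨g, c, hm, hn, hgH, hc, hlim⟩ := hg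
  have hint : Integrable (fun ζ => (inner ℂ (x ζ) (CL x ζ) : ℂ)) mT :=
    MeasureTheory.L2.integrable_inner x (CL x)
  have h1 : Tendsto (fun N : ℕ => (inner ℂ (mulL (g N) x) (CL (mulL (g N) x)) : ℂ)) atTop
      (nhds (c * inner ℂ x (CL x))) := by
    have h2 : ∀ N, (inner ℂ (mulL (g N) x) (CL (mulL (g N) x)) : ℂ) =
      ∫ ζ, (conj (g N ζ) * g N (τ ζ)) * (inner ℂ (x ζ) (CL x ζ) : ℂ) ∂mT :=
      fun N => auxD4_inner hτ CL hCL (hm N) (hn N) x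
    simp_rw [h2]
    rw [MeasureTheory.L2.inner_def, ← integral_const_mul]
    apply tendsto_integral_of_dominated_convergence (fun ζ => ‖(inner ℂ (x ζ) (CL x ζ) : ℂ)‖)
    · intro N
      refine AEStronglyMeasurable.mul ?_ hint.1
      have : Measurable (fun ζ => conj (g N ζ)) := Complex.continuous_conj.measurable.comp (hm N)
      exact (this.mul ((hm N).comp hτ.measurable)).aestronglyMeasurable
    · exact hint.norm
    · intro N
      refine Eventually.of_forall fun ζ => ?_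
      rw [norm_mul, norm_mul, RCLike.norm_conj, hn, hn, one_mul, one_mul]
    · filter_upwards [hlim] with ζ hζ
      exact hζ.mul_const _
  have h3 : ∀ N, ‖(inner ℂ (mulL (g N) x) (CL (mulL (g N) x)) : ℂ)‖ ≤ w * ‖x‖ ^ 2 := by
    intro N
    have h4 := hw _ (auxD4_mem (hgH N) hx)
    rwa [auxD4_norm (hm N) (hn N)] at h4
  have h5 := le_of_tendsto h1.norm (Eventually.of_forall h3)
  rwa [norm_mul, hc, one_mul] at h5

lemma auxD4_exists {x : L2} (hx : x ∈ Submodule.span ℂ (Set.range mon)) :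
    ∃ k : ℕ, x ∈ Submodule.span ℂ (mon '' {j : ℤ | -(k : ℤ) ≤ j}) := by
  have hmono : ∀ {k l : ℕ}, k ≤ l → Submodule.span ℂ (mon '' {j : ℤ | -(k : ℤ) ≤ j}) ≤
      Submodule.span ℂ (mon '' {j : ℤ | -(l : ℤ) ≤ j}) := by
    intro k l hkl
    apply Submodule.span_mono
    apply Set.image_mono
    intro j hj
    simp only [Set.mem_setOf_eq] at hj ⊢
    omega
  induction hx using Submodule.span_induction with
  | mem x h =>
    obtain ⟨j, rfl⟩ := h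
    refine ⟨j.natAbs, Submodule.subset_span ⟨j, ?_, rfl⟩⟩
    simp only [Set.mem_setOf_eq]
    omega
  | zero => exact ⟨0, Submodule.zero_mem _⟩
  | add x y _ _ hx hy =>
    obtain ⟨k, hk⟩ := hx
    obtain ⟨l, hl⟩ := hy
    exact ⟨max k l, Submodule.add_mem _ (hmono (le_max_left k l) hk) (hmono (le_max_right k l) hl)⟩
  | smul a x _ hx =>
    obtain ⟨k, hk⟩ := hx
    exact ⟨k, Submodule.smul_mem _ a hk⟩

/-- extension of the numerical radius bound from the Hardy space to `L²` -/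
theorem numrad_ext {τ : ℂ → ℂ} (hτ : Measure.QuasiMeasurePreserving τ mT mT) (CL : L2 →L[ℂ] L2)
    (hCL : ∀ x : L2, (CL x : ℂ → ℂ) =ᵐ[mT] fun ζ => x (τ ζ)) {w : ℝ}
    (hw : ∀ x ∈ Hs, ‖(inner ℂ x (CL x) : ℂ)‖ ≤ w * ‖x‖ ^ 2)
    (hg : ∀ k : ℕ, ∃ (g : ℕ → ℂ → ℂ) (c : ℂ), (∀ N, Measurable (g N)) ∧ (∀ N ζ, ‖g N ζ‖ = 1) ∧
      (∀ (N : ℕ) (j : ℤ), -(k : ℤ) ≤ j → mulL (g N) (mon j) ∈ Hs) ∧ ‖c‖ = 1 ∧
      ∀ᵐ ζ ∂mT, Tendsto (fun N => conj (g N ζ) * g N (τ ζ)) atTop (nhds c)) (x : L2) :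
    ‖(inner ℂ x (CL x) : ℂ)‖ ≤ w * ‖x‖ ^ 2 := by
  have hclosed : IsClosed {x : L2 | ‖(inner ℂ x (CL x) : ℂ)‖ ≤ w * ‖x‖ ^ 2} := by
    apply isClosed_le
    · exact (Continuous.inner continuous_id CL.continuous).norm
    · fun_prop
  have htop : (Submodule.span ℂ (Set.range mon)).topologicalClosure = ⊤ := by
    rw [Submodule.topologicalClosure_eq_top_iff, Submodule.eq_bot_iff]
    intro y hy
    apply mon_total
    intro n
    exact hy (mon n) (Submodule.subset_span ⟨n, rfl⟩)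
  have hx : x ∈ (Submodule.span ℂ (Set.range mon)).topologicalClosure := by
    rw [htop]
    exact Submodule.mem_top
  have hsub : ((Submodule.span ℂ (Set.range mon) : Submodule ℂ L2) : Set L2) ⊆
      {x : L2 | ‖(inner ℂ x (CL x) : ℂ)‖ ≤ w * ‖x‖ ^ 2} := by
    intro y hy
    obtain ⟨k, hk⟩ := auxD4_exists hy
    exact auxD4_span hτ CL hCL hw k (hg k) y hk
  exact closure_minimal hsub hclosed hx


end

end HT
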