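import Mathlib

open scoped ComplexConjugate
open MeasureTheory Filter

namespace HT

/-- normalised arc length on the unit circle, as a measure on `ℂ` -/
noncomputable def mT : Measure ℂ :=
  Measure.map (fun t : ℝ => Complex.exp (2 * Real.pi * t * Complex.I)) (volume.restrict (Set.Ioc 0 1))

lemma meas_param : Measurable (fun t : ℝ => Complex.exp (2 * Real.pi * t * Complex.I)) := by
  fun_prop

instance : IsProbabilityMeasure mT := by
  have h : IsProbabilityMeasure (volume.restrict (Set.Ioc (0:ℝ) 1)) := by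
    constructor
    simp
  exact Measure.isProbabilityMeasure_map meas_param.aemeasurable

noncomputable abbrev L2 := Lp ℂ 2 mT

lemma norm_one_ae : ∀ᵐ ζ ∂mT, ‖ζ‖ = 1 := by
  unfold mT
  rw [ae_map_iff meas_param.aemeasurable (measurableSet_eq_fun measurable_norm measurable_const)]
  refine Eventually.of_forall ?_
  intro t
  have : (2 * Real.pi * t * Complex.I : ℂ) = ((2 * Real.pi * t : ℝ) : ℂ) * Complex.I := by
    push_cast
    ring
  rw [this, Complex.norm_exp_ofReal_mul_I]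

lemma mon_memLp (n : ℤ) : MemLp (fun ζ : ℂ => ζ ^ n) 2 mT := by
  apply MemLp.of_bound (C := 1)
  · exact (by fun_prop : Measurable (fun ζ : ℂ => ζ ^ n)).aestronglyMeasurable
  · filter_upwards [norm_one_ae] with ζ hζ
    rw [norm_zpow, hζ, one_zpow]

/-- the monomials `ζ ^ n`, `n ∈ ℤ` -/
noncomputable def mon (n : ℤ) : L2 := (mon_memLp n).toLp _

lemma mon_coe (n : ℤ) : (mon n : ℂ → ℂ) =ᵐ[mT] fun ζ => ζ ^ n := MemLp.coeFn_toLp _

/-- the Hardy space as a subspace of `L²` of the circle -/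
noncomputable def Hs : Submodule ℂ L2 where
  carrier := {x | ∀ n : ℤ, n < 0 → (inner ℂ (mon n) x : ℂ) = 0}
  zero_mem' := by
    intro n _
    simp
  add_mem' := by
    intro x y hx hy n hn
    rw [inner_add_right, hx n hn, hy n hn, add_zero]
  smul_mem' := by
    intro c x hx n hn
    rw [inner_smul_right, hx n hn, mul_zero]

lemma mem_Hs {x : L2} : x ∈ Hs ↔ ∀ n : ℤ, n < 0 → (inner ℂ (mon n) x : ℂ) = 0 := Iff.rfl

/-- measurable and essentially bounded -/
def BddMeas (g : ℂ → ℂ) : Prop := Measurable g ∧ ∃ K : ℝ, ∀ᵐ ζ ∂mT, ‖g ζ‖ ≤ K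

lemma auxM0_memLp (g : ℂ → ℂ) (hg : BddMeas g) (x : L2) :
    MemLp (fun ζ => g ζ * x ζ) 2 mT := by
  obtain ⟨hm, K, hK⟩ := hg
  refine MemLp.of_le_mul (g := fun ζ => x ζ) (c := K) (Lp.memLp x) ?_ ?_
  · exact hm.aestronglyMeasurable.mul (Lp.aestronglyMeasurable x)
  · filter_upwards [hK] with ζ hζ
    rw [norm_mul]
    exact mul_le_mul_of_nonneg_right hζ (norm_nonneg _)

theorem exists_mul (g : ℂ → ℂ) (hg : BddMeas g) :
    ∃ M : L2 →L[ℂ] L2, ∀ x : L2, (M x : ℂ → ℂ) =ᵐ[mT] fun ζ => g ζ * x ζ := by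
  obtain ⟨K, hK⟩ := hg.2
  let L : L2 →ₗ[ℂ] L2 :=
    { toFun := fun x => (auxM0_memLp g hg x).toLp _
      map_add' := by
        intro x y
        apply Lp.ext
        filter_upwards [MemLp.coeFn_toLp (auxM0_memLp g hg (x + y)),
          Lp.coeFn_add ((auxM0_memLp g hg x).toLp _) ((auxM0_memLp g hg y).toLp _),
          MemLp.coeFn_toLp (auxM0_memLp g hg x), MemLp.coeFn_toLp (auxM0_memLp g hg y),
          Lp.coeFn_add x y] with ζ h1 h2 h3 h4 h5
        rw [h1, h2, Pi.add_apply, h3, h4, h5, Pi.add_apply]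
        ring
      map_smul' := by
        intro c x
        apply Lp.ext
        filter_upwards [MemLp.coeFn_toLp (auxM0_memLp g hg (c • x)),
          Lp.coeFn_smul c ((auxM0_memLp g hg x).toLp _),
          MemLp.coeFn_toLp (auxM0_memLp g hg x),
          Lp.coeFn_smul c x] with ζ h1 h2 h3 h5
        rw [h1, RingHom.id_apply, h2, Pi.smul_apply, h3, h5, Pi.smul_apply]
        simp only [smul_eq_mul]
        ring }
  refine ⟨L.mkContinuous K ?_, ?_⟩
  · intro x
    apply Lp.norm_le_mul_norm_of_ae_le_mul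
    filter_upwards [MemLp.coeFn_toLp (auxM0_memLp g hg x), hK] with ζ h1 h2
    have : (L x : ℂ → ℂ) ζ = g ζ * x ζ := h1
    rw [this, norm_mul]
    exact mul_le_mul_of_nonneg_right h2 (norm_nonneg _)
  · intro x
    exact MemLp.coeFn_toLp (auxM0_memLp g hg x)

open Classical in
/-- multiplication by a bounded measurable function -/
noncomputable def mulL (g : ℂ → ℂ) : L2 →L[ℂ] L2 :=
  if h : BddMeas g then (exists_mul g h).choose else 0

lemma mulL_coe {g : ℂ → ℂ} (hg : BddMeas g) (x : L2) :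
    (mulL g x : ℂ → ℂ) =ᵐ[mT] fun ζ => g ζ * x ζ := by
  unfold mulL
  rw [dif_pos hg]
  exact (exists_mul g hg).choose_spec x

lemma abs_memLp (x : L2) : MemLp (fun ζ : ℂ => ((‖x ζ‖ : ℝ) : ℂ)) 2 mT :=
  (Lp.memLp x).norm.ofReal

/-- the function `|x|` -/
noncomputable def absL (x : L2) : L2 := (abs_memLp x).toLp _

lemma absL_coe (x : L2) : (absL x : ℂ → ℂ) =ᵐ[mT] fun ζ => ((‖x ζ‖ : ℝ) : ℂ) :=
  MemLp.coeFn_toLp _

lemma star_coe (x : L2) : ((star x : L2) : ℂ → ℂ) =ᵐ[mT] fun ζ => conj (x ζ) :=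
  Lp.coeFn_star x

end HT
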