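import Pool.Agent.Helper368.HT.M

open scoped ComplexConjugate
open MeasureTheory Filter

namespace HT

/-- the dynamical system: boundary map `τ` and its composition operator on `L²` -/
structure Sys where
  τ : ℂ → ℂ
  meas : Measurable τ
  qi : Measure.QuasiMeasurePreserving τ mT mT
  CL : L2 →L[ℂ] L2
  hCL : ∀ x : L2, (CL x : ℂ → ℂ) =ᵐ[mT] fun ζ => x (τ ζ)
  hH : ∀ x ∈ Hs, CL x ∈ Hs
  τ0 : (inner ℂ (mon 0) (CL (mon 1)) : ℂ) ≠ 0

/-- a maximiser in the Hardy space for the numerical radius -/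
structure Maxi (S : Sys) where
  w : ℝ
  hw : ∀ x : L2, ‖(inner ℂ x (S.CL x) : ℂ)‖ ≤ w * ‖x‖ ^ 2
  f : L2
  fH : f ∈ Hs
  f1 : ‖f‖ = 1
  hf : (inner ℂ f (S.CL f) : ℂ) = w

noncomputable section

/-- eigenspace of `C + C*` at the numerical radius -/
def Eig {S : Sys} (M : Maxi S) : Submodule ℂ L2 :=
  LinearMap.ker ((S.CL + ContinuousLinearMap.adjoint S.CL - (2 * M.w : ℂ) • 1 : L2 →L[ℂ] L2) :
    L2 →ₗ[ℂ] L2)

lemma mem_Eig {S : Sys} (M : Maxi S) {x : L2} :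
    x ∈ Eig M ↔ S.CL x + ContinuousLinearMap.adjoint S.CL x = (2 * M.w : ℂ) • x := by
  unfold Eig
  rw [LinearMap.mem_ker]
  simp [sub_eq_zero]

lemma Eig_closed {S : Sys} (M : Maxi S) : IsClosed (Eig M : Set L2) :=
  ContinuousLinearMap.isClosed_ker _

instance {S : Sys} (M : Maxi S) : CompleteSpace (Eig M) := (Eig_closed M).completeSpace_coe

/-- invariant bounded functions -/
def Inv (S : Sys) (g : ℂ → ℂ) : Prop := BddMeas g ∧ ∀ᵐ ζ ∂mT, g (S.τ ζ) = g ζ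

lemma auxE1_gen {H : Type*} [NormedAddCommGroup H] [InnerProductSpace ℂ H] [CompleteSpace H]
    (C : H →L[ℂ] H) (w : ℝ) (hw : ∀ x : H, ‖(inner ℂ x (C x) : ℂ)‖ ≤ w * ‖x‖ ^ 2) (x : H) :
    C x + ContinuousLinearMap.adjoint C x = (2 * w : ℂ) • x ↔
      (inner ℂ x (C x) : ℂ).re = w * ‖x‖ ^ 2 := by
  have hsymm : ∀ a b : H, (inner ℂ a b : ℂ).re = (inner ℂ b a : ℂ).re := fun a b =>
    inner_re_symm (𝕜 := ℂ) a b
  have hself : ∀ a : H, (inner ℂ a a : ℂ) = ((‖a‖ ^ 2 : ℝ) : ℂ) := by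
    intro a
    rw [inner_self_eq_norm_sq_to_K]
    push_cast
    rfl
  constructor
  · intro h
    have h1 := congrArg (fun z => (inner ℂ x z : ℂ)) h
    simp only [inner_add_right, inner_smul_right, ContinuousLinearMap.adjoint_inner_right, hself] at h1
    have h2 := congrArg Complex.re h1
    have h3 : ((2 * w : ℂ) * ((‖x‖ ^ 2 : ℝ) : ℂ)) = ((2 * w * ‖x‖ ^ 2 : ℝ) : ℂ) := by push_cast; ring
    rw [h3, Complex.ofReal_re, Complex.add_re, hsymm (C x) x] at h2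
    linarith
  · intro h
    set y : H := (2 * w : ℂ) • x - (C x + ContinuousLinearMap.adjoint C x) with hy
    have hB : ∀ z : H, 0 ≤ w * ‖z‖ ^ 2 - (inner ℂ z (C z) : ℂ).re := by
      intro z
      have h1 := hw z
      have h2 := Complex.re_le_norm (inner ℂ z (C z) : ℂ)
      linarith
    have hn : ∀ z : H, ‖z‖ ^ 2 = (inner ℂ z z : ℂ).re := by
      intro z
      rw [hself, Complex.ofReal_re]
    -- the linear coefficient
    have hlin : ∀ t : ℝ, 0 ≤ (w * ‖y‖ ^ 2 - (inner ℂ y (C y) : ℂ).re) * (t * t) +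
        (2 * w * (inner ℂ x y : ℂ).re - (inner ℂ x (C y) : ℂ).re - (inner ℂ y (C x) : ℂ).re) * t + 0 := by
      intro t
      have h1 := hB (x + (t : ℂ) • y)
      have e1 : ‖x + (t : ℂ) • y‖ ^ 2 = ‖x‖ ^ 2 + 2 * t * (inner ℂ x y : ℂ).re + t * t * ‖y‖ ^ 2 := by
        rw [hn, hn x, hn y]
        simp only [inner_add_left, inner_add_right, inner_smul_left, inner_smul_right, Complex.conj_ofReal,
          Complex.add_re, Complex.re_ofReal_mul]
        rw [hsymm y x]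
        ring
      have e2 : (inner ℂ (x + (t : ℂ) • y) (C (x + (t : ℂ) • y)) : ℂ).re =
          (inner ℂ x (C x) : ℂ).re + t * (inner ℂ x (C y) : ℂ).re + t * (inner ℂ y (C x) : ℂ).re +
            t * t * (inner ℂ y (C y) : ℂ).re := by
        simp only [map_add, map_smul, inner_add_left, inner_add_right, inner_smul_left, inner_smul_right,
          Complex.conj_ofReal, Complex.add_re, Complex.re_ofReal_mul]
        ring
      rw [e1, e2] at h1
      linarith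
    have hd := discrim_le_zero hlin
    unfold discrim at hd
    have h0 : 2 * w * (inner ℂ x y : ℂ).re - (inner ℂ x (C y) : ℂ).re - (inner ℂ y (C x) : ℂ).re = 0 := by
      nlinarith
    have h5 : (inner ℂ y y : ℂ).re =
        2 * w * (inner ℂ x y : ℂ).re - (inner ℂ x (C y) : ℂ).re - (inner ℂ y (C x) : ℂ).re := by
      have e3 : (inner ℂ y y : ℂ) = inner ℂ y ((2 * w : ℂ) • x - (C x + ContinuousLinearMap.adjoint C x)) := by
        rw [← hy]
      rw [e3, inner_sub_right, inner_add_right, inner_smul_right, ContinuousLinearMap.adjoint_inner_right,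
        Complex.sub_re, Complex.add_re]
      have e4 : ((2 * w : ℂ) * (inner ℂ y x : ℂ)).re = 2 * w * (inner ℂ y x : ℂ).re := by
        have : (2 * w : ℂ) = ((2 * w : ℝ) : ℂ) := by push_cast; rfl
        rw [this, Complex.re_ofReal_mul]
      rw [e4, hsymm y x, hsymm (C y) x]
      ring
    have h6 : ‖y‖ ^ 2 = 0 := by
      rw [hn, h5, h0]
    have h7 : y = 0 := by
      rw [← norm_eq_zero]
      exact pow_eq_zero_iff (two_ne_zero) |>.1 h6
    rw [hy, sub_eq_zero] at h7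
    exact h7.symm

lemma eig_iff {S : Sys} (M : Maxi S) (x : L2) :
    x ∈ Eig M ↔ (inner ℂ x (S.CL x) : ℂ).re = M.w * ‖x‖ ^ 2 := by
  rw [mem_Eig]
  exact auxE1_gen S.CL M.w M.hw x

lemma auxE2_norm (x : L2) : ‖absL x‖ = ‖x‖ := by
  unfold absL
  rw [Lp.norm_toLp, Lp.norm_def]
  congr 1
  refine eLpNorm_congr_norm_ae (Eventually.of_forall fun ζ => ?_)
  rw [Complex.norm_real, norm_norm]

lemma auxE2_re (z : ℂ) (h : z.re = ‖z‖) : z = ((‖z‖ : ℝ) : ℂ) := by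
  have h1 := Complex.sq_norm z
  rw [Complex.normSq_apply, ← h] at h1
  have h2 : z.im = 0 := by nlinarith
  apply Complex.ext
  · rw [Complex.ofReal_re]; exact h
  · rw [Complex.ofReal_im]; exact h2

lemma abs_mem {S : Sys} (M : Maxi S) {x : L2} (hx : x ∈ Eig M) :
    absL x ∈ Eig M ∧ ∀ᵐ ζ ∂mT, x (S.τ ζ) * conj (x ζ) = ((‖x (S.τ ζ)‖ * ‖x ζ‖ : ℝ) : ℂ) := by
  have hEx := (eig_iff M x).1 hx
  have hF : (fun ζ => (inner ℂ (x ζ) (S.CL x ζ) : ℂ)) =ᵐ[mT] fun ζ => x (S.τ ζ) * conj (x ζ) := by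
    filter_upwards [S.hCL x] with ζ h1
    rw [h1, RCLike.inner_apply]
  have hG : (fun ζ => (inner ℂ (absL x ζ) (S.CL (absL x) ζ) : ℂ)) =ᵐ[mT]
      fun ζ => ((‖x (S.τ ζ)‖ * ‖x ζ‖ : ℝ) : ℂ) := by
    have h2 := S.qi.ae_eq_comp (absL_coe x)
    filter_upwards [S.hCL (absL x), absL_coe x, h2] with ζ h1 h3 h4
    simp only [Function.comp] at h4
    rw [h1, h4, h3, RCLike.inner_apply, Complex.conj_ofReal, Complex.ofReal_mul]
  have hle : ∀ᵐ ζ ∂mT, (inner ℂ (x ζ) (S.CL x ζ) : ℂ).re ≤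
      (inner ℂ (absL x ζ) (S.CL (absL x) ζ) : ℂ).re := by
    filter_upwards [hF, hG] with ζ h1 h2
    rw [h1, h2, Complex.ofReal_re]
    refine (Complex.re_le_norm _).trans ?_
    rw [norm_mul, RCLike.norm_conj]
  have hiF := L2.integrable_inner (𝕜 := ℂ) x (S.CL x)
  have hiG := L2.integrable_inner (𝕜 := ℂ) (absL x) (S.CL (absL x))
  have hiFr : Integrable (fun ζ => (inner ℂ (x ζ) (S.CL x ζ) : ℂ).re) mT := hiF.re
  have hiGr : Integrable (fun ζ => (inner ℂ (absL x ζ) (S.CL (absL x) ζ) : ℂ).re) mT := hiG.re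
  have hFre : (inner ℂ x (S.CL x) : ℂ).re = ∫ ζ, (inner ℂ (x ζ) (S.CL x ζ) : ℂ).re ∂mT := by
    rw [L2.inner_def]
    exact (integral_re hiF).symm
  have hGre : (inner ℂ (absL x) (S.CL (absL x)) : ℂ).re =
      ∫ ζ, (inner ℂ (absL x ζ) (S.CL (absL x) ζ) : ℂ).re ∂mT := by
    rw [L2.inner_def]
    exact (integral_re hiG).symm
  have h1 : (inner ℂ (absL x) (S.CL (absL x)) : ℂ).re ≤ M.w * ‖absL x‖ ^ 2 :=
    (Complex.re_le_norm _).trans (M.hw (absL x))
  have h2 : (inner ℂ x (S.CL x) : ℂ).re ≤ (inner ℂ (absL x) (S.CL (absL x)) : ℂ).re := by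
    rw [hFre, hGre]
    exact integral_mono_ae hiF.re hiG.re hle
  have h3 : (inner ℂ (absL x) (S.CL (absL x)) : ℂ).re = M.w * ‖absL x‖ ^ 2 := by
    rw [auxE2_norm] at h1 ⊢
    linarith
  refine ⟨(eig_iff M _).2 h3, ?_⟩
  have h4 : ∫ ζ, ((inner ℂ (absL x ζ) (S.CL (absL x) ζ) : ℂ).re -
      (inner ℂ (x ζ) (S.CL x ζ) : ℂ).re) ∂mT = 0 := by
    rw [integral_sub hiGr hiFr, ← hGre, ← hFre, h3, hEx, auxE2_norm, sub_self]
  have h5 := (integral_eq_zero_iff_of_nonneg_ae (by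
    filter_upwards [hle] with ζ h
    simp only [Pi.zero_apply]
    linarith) (show Integrable (fun ζ => (inner ℂ (absL x ζ) (S.CL (absL x) ζ) : ℂ).re -
      (inner ℂ (x ζ) (S.CL x ζ) : ℂ).re) mT from hiGr.sub hiFr)).1 h4
  filter_upwards [hF, hG, h5] with ζ a1 a2 a3
  simp only [Pi.zero_apply] at a3
  rw [a1, a2, Complex.ofReal_re] at a3
  have a4 : ‖x (S.τ ζ) * conj (x ζ)‖ = ‖x (S.τ ζ)‖ * ‖x ζ‖ := by
    rw [norm_mul, RCLike.norm_conj]
  have a5 := auxE2_re (x (S.τ ζ) * conj (x ζ)) (by rw [a4]; linarith)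
  rw [a5, a4]

lemma auxE3_CL_star (S : Sys) (x : L2) : S.CL (star x) = star (S.CL x) := by
  apply Lp.ext
  filter_upwards [S.hCL (star x), star_coe (S.CL x), S.hCL x, S.qi.ae (star_coe x)]
    with ζ h1 h2 h3 h4
  rw [h1, h2, h3, h4]

lemma auxE3_norm_star (x : L2) : ‖star x‖ ^ 2 = ‖x‖ ^ 2 := by
  have h1 := inner_star_star x x
  rw [inner_self_eq_norm_sq_to_K, inner_self_eq_norm_sq_to_K] at h1
  have h2 := congrArg Complex.re h1
  rw [Complex.conj_re] at h2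
  norm_cast at h2

lemma star_mem_Eig {S : Sys} (M : Maxi S) {x : L2} (hx : x ∈ Eig M) : star x ∈ Eig M := by
  rw [eig_iff] at hx ⊢
  rw [auxE3_CL_star, inner_star_star, Complex.conj_re, auxE3_norm_star, hx]

lemma auxE3_conj_bdd {g : ℂ → ℂ} (hg : BddMeas g) : BddMeas (fun ζ => conj (g ζ)) := by
  obtain ⟨h1, K, h2⟩ := hg
  refine ⟨Complex.continuous_conj.measurable.comp h1, K, ?_⟩
  filter_upwards [h2] with ζ h3
  rw [RCLike.norm_conj]
  exact h3

lemma auxE3_CL_mul (S : Sys) {g : ℂ → ℂ} (hg : Inv S g) (x : L2) :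
    S.CL (mulL g x) = mulL g (S.CL x) := by
  apply Lp.ext
  filter_upwards [S.hCL (mulL g x), mulL_coe hg.1 (S.CL x), S.hCL x, S.qi.ae (mulL_coe hg.1 x),
    hg.2] with ζ h1 h2 h3 h4 h5
  rw [h1, h2, h3, h4, h5]

lemma auxE3_adj {g : ℂ → ℂ} (hg : BddMeas g) (x y : L2) :
    (inner ℂ (mulL g x) y : ℂ) = inner ℂ x (mulL (fun ζ => conj (g ζ)) y) := by
  rw [L2.inner_def, L2.inner_def]
  apply integral_congr_ae
  filter_upwards [mulL_coe hg x, mulL_coe (auxE3_conj_bdd hg) y] with ζ h1 h2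
  rw [h1, h2]
  simp only [RCLike.inner_apply, map_mul]
  ring

lemma mul_mem_Eig {S : Sys} (M : Maxi S) {g : ℂ → ℂ} (hg : Inv S g) {x : L2} (hx : x ∈ Eig M) :
    mulL g x ∈ Eig M := by
  have hg' : Inv S (fun ζ => conj (g ζ)) := by
    refine ⟨auxE3_conj_bdd hg.1, ?_⟩
    filter_upwards [hg.2] with ζ h1
    rw [h1]
  have hadj : ContinuousLinearMap.adjoint S.CL (mulL g x) =
      mulL g (ContinuousLinearMap.adjoint S.CL x) := by
    refine ext_inner_right ℂ fun y => ?_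
    rw [ContinuousLinearMap.adjoint_inner_left, auxE3_adj hg.1, ← auxE3_CL_mul S hg',
      ← ContinuousLinearMap.adjoint_inner_left, ← auxE3_adj hg.1]
  rw [mem_Eig] at hx ⊢
  rw [hadj, auxE3_CL_mul S hg, ← map_add, hx, map_smul]

/-- orthogonal projection onto the eigenspace, as an operator on `L²` -/
def PE {S : Sys} (M : Maxi S) : L2 →L[ℂ] L2 := (Eig M).starProjection

lemma auxE4_conj_inv {S : Sys} {g : ℂ → ℂ} (hg : Inv S g) : Inv S (fun ζ => conj (g ζ)) := by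
  refine ⟨⟨?_, ?_⟩, ?_⟩
  · exact Complex.continuous_conj.measurable.comp hg.1.1
  · obtain ⟨K, hK⟩ := hg.1.2
    refine ⟨K, ?_⟩
    filter_upwards [hK] with ζ hζ
    simpa using hζ
  · filter_upwards [hg.2] with ζ hζ
    rw [hζ]

lemma auxE4_adj {S : Sys} {g : ℂ → ℂ} (hg : Inv S g) (z w : L2) :
    (inner ℂ (mulL g z) w : ℂ) = inner ℂ z (mulL (fun ζ => conj (g ζ)) w) := by
  rw [L2.inner_def, L2.inner_def]
  refine integral_congr_ae ?_
  filter_upwards [mulL_coe hg.1 z, mulL_coe (auxE4_conj_inv hg).1 w] with ζ h1 h2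
  rw [h1, h2]
  simp only [RCLike.inner_apply, map_mul]
  ring

lemma auxE4_eq {S : Sys} (M : Maxi S) {x v : L2} (hv : v ∈ Eig M)
    (h : ∀ w ∈ Eig M, (inner ℂ (x - v) w : ℂ) = 0) : PE M x = v :=
  Submodule.eq_starProjection_of_mem_of_inner_eq_zero hv h

lemma auxE4_star_sub (x y : L2) : star (x - y) = star x - star y := by
  apply Lp.ext
  filter_upwards [star_coe (x - y), Lp.coeFn_sub x y, Lp.coeFn_sub (star x) (star y), star_coe x,
    star_coe y] with ζ h1 h2 h3 h4 h5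
  rw [h1, h2, h3]
  simp only [Pi.sub_apply, map_sub]
  rw [h4, h5]

lemma auxE4_orth {S : Sys} (M : Maxi S) (x w : L2) (hw : w ∈ Eig M) :
    (inner ℂ (x - PE M x) w : ℂ) = 0 :=
  Submodule.starProjection_inner_eq_zero x w hw

lemma PE_mem {S : Sys} (M : Maxi S) (x : L2) : PE M x ∈ Eig M :=
  Submodule.starProjection_apply_mem _ x

lemma PE_eq {S : Sys} (M : Maxi S) {x : L2} (hx : x ∈ Eig M) : PE M x = x :=
  Submodule.starProjection_eq_self_iff.mpr hx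

lemma inner_PE {S : Sys} (M : Maxi S) {x : L2} (hx : x ∈ Eig M) (y : L2) :
    (inner ℂ x (PE M y) : ℂ) = inner ℂ x y := by
  have h := auxE4_orth M y x hx
  rw [inner_sub_left, sub_eq_zero] at h
  rw [← inner_conj_symm x (PE M y), ← h, inner_conj_symm]

lemma PE_star {S : Sys} (M : Maxi S) (x : L2) : PE M (star x) = star (PE M x) := by
  refine auxE4_eq M (star_mem_Eig M (PE_mem M x)) fun w hw => ?_
  have h1 : star x - star (PE M x) = star (x - PE M x) := (auxE4_star_sub x (PE M x)).symm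
  rw [h1, ← star_star w, inner_star_star, auxE4_orth M x (star w) (star_mem_Eig M hw),
    map_zero]

lemma PE_mul {S : Sys} (M : Maxi S) {g : ℂ → ℂ} (hg : Inv S g) (x : L2) :
    PE M (mulL g x) = mulL g (PE M x) := by
  refine auxE4_eq M (mul_mem_Eig M hg (PE_mem M x)) fun w hw => ?_
  rw [← map_sub, auxE4_adj hg]
  exact auxE4_orth M x _ (mul_mem_Eig M (auxE4_conj_inv hg) hw)

/-- the projection of the constant function 1 -/
def p0 {S : Sys} (M : Maxi S) : L2 := PE M (mon 0)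

lemma auxE5_real {S : Sys} (M : Maxi S) {x : L2} (hx : ∀ᵐ ζ ∂mT, (x ζ).im = 0 ∧ 0 ≤ (x ζ).re) :
    ∀ᵐ ζ ∂mT, (PE M x ζ).im = 0 := by
  have hstar : star x = x := by
    apply Lp.ext
    filter_upwards [star_coe x, hx] with ζ h1 h2
    rw [h1]
    exact Complex.conj_eq_iff_im.2 h2.1
  have hys : star (PE M x) = PE M x := by rw [← PE_star, hstar]
  have h := star_coe (PE M x)
  rw [hys] at h
  filter_upwards [h] with ζ h
  exact Complex.conj_eq_iff_im.1 h.symm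

lemma auxE5_id (r : ℝ) : ((|r| - r) / 2) * r = -(((|r| - r) / 2) * ((|r| - r) / 2)) := by
  rcases le_total 0 r with h | h
  · rw [abs_of_nonneg h]; ring
  · rw [abs_of_nonpos h]; ring

/-- positivity of the projection -/
lemma PE_nonneg {S : Sys} (M : Maxi S) {x : L2} (hx : ∀ᵐ ζ ∂mT, (x ζ).im = 0 ∧ 0 ≤ (x ζ).re) :
    ∀ᵐ ζ ∂mT, (PE M x ζ).im = 0 ∧ 0 ≤ (PE M x ζ).re := by
  have hyim := auxE5_real M hx
  have hyE : PE M x ∈ Eig M := PE_mem M x
  set y := PE M x with hy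
  set ym : L2 := (1 / 2 : ℂ) • (absL y - y) with hym
  have hymE : ym ∈ Eig M :=
    Submodule.smul_mem _ _ (Submodule.sub_mem _ (abs_mem M hyE).1 hyE)
  have hymc : ∀ᵐ ζ ∂mT, ym ζ = (((|(y ζ).re| - (y ζ).re) / 2 : ℝ) : ℂ) ∧
      y ζ = (((y ζ).re : ℝ) : ℂ) := by
    filter_upwards [Lp.coeFn_smul (1 / 2 : ℂ) (absL y - y), Lp.coeFn_sub (absL y) y, absL_coe y,
      hyim] with ζ h1 h2 h3 h4
    have h5 : y ζ = (((y ζ).re : ℝ) : ℂ) := Complex.ext (by simp) (by simp [h4])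
    refine ⟨?_, h5⟩
    rw [h1, Pi.smul_apply, h2, Pi.sub_apply, h3]
    have h6 : ‖y ζ‖ = |(y ζ).re| := by
      conv_lhs => rw [h5]
      rw [Complex.norm_real, Real.norm_eq_abs]
    rw [h6]
    conv_lhs => rw [h5]
    push_cast
    simp only [Complex.ofReal_re, smul_eq_mul]
    ring
  have h1 : (inner ℂ ym y : ℂ) = inner ℂ ym x := by
    rw [hy]
    exact inner_PE M hymE x
  have h2 : (inner ℂ ym y : ℂ) = -(inner ℂ ym ym : ℂ) := by
    rw [L2.inner_def, L2.inner_def, ← integral_neg]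
    apply integral_congr_ae
    filter_upwards [hymc] with ζ h
    obtain ⟨ha, hb⟩ := h
    simp only [RCLike.inner_apply]
    rw [ha]
    conv_lhs => rw [hb]
    simp only [Complex.conj_ofReal, Complex.ofReal_re]
    rw [← Complex.ofReal_mul, ← Complex.ofReal_mul, ← Complex.ofReal_neg]
    congr 1
    have := auxE5_id (y ζ).re
    linarith
  have h3 : 0 ≤ (inner ℂ ym x : ℂ).re := by
    rw [L2.inner_def]
    have hint : Integrable (fun a => (inner ℂ (ym a) (x a) : ℂ)) mT := L2.integrable_inner ym x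
    have h4 := integral_re hint
    have h5 : (∫ a, (inner ℂ (ym a) (x a) : ℂ) ∂mT).re =
        ∫ a, (inner ℂ (ym a) (x a) : ℂ).re ∂mT := h4.symm
    rw [h5]
    apply integral_nonneg_of_ae
    filter_upwards [hymc, hx] with ζ h hxζ
    obtain ⟨ha, -⟩ := h
    simp only [RCLike.inner_apply, Pi.zero_apply]
    rw [ha, Complex.conj_ofReal, Complex.mul_re, Complex.ofReal_re, Complex.ofReal_im, mul_zero,
      sub_zero]
    apply mul_nonneg hxζ.2
    have := le_abs_self (y ζ).re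
    linarith
  have h4 : (inner ℂ ym ym : ℂ).re = ‖ym‖ ^ 2 := by
    rw [inner_self_eq_norm_sq_to_K]
    norm_cast
  have h5 : ‖ym‖ ^ 2 ≤ 0 := by
    rw [← h1, h2, Complex.neg_re, h4] at h3
    linarith
  have h6 : ym = 0 := by
    have : ‖ym‖ = 0 := by
      have := sq_nonneg ‖ym‖
      exact pow_eq_zero_iff (two_ne_zero) |>.1 (le_antisymm h5 this)
    exact norm_eq_zero.1 this
  have h7 : ∀ᵐ ζ ∂mT, ym ζ = 0 := by
    rw [h6]
    filter_upwards [Lp.coeFn_zero ℂ 2 mT] with ζ h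
    rw [h]
    rfl
  filter_upwards [hymc, h7, hyim] with ζ ha hb hc
  refine ⟨hc, ?_⟩
  rw [ha.1, Complex.ofReal_eq_zero] at hb
  have := abs_nonneg (y ζ).re
  linarith

lemma auxE6_zero (x y : L2) (h : ∀ᵐ ζ ∂mT, (inner ℂ (x ζ) (y ζ) : ℂ) = 0) : (inner ℂ x y : ℂ) = 0 := by
  rw [L2.inner_def]
  rw [integral_congr_ae (g := fun _ => (0 : ℂ)) h]
  simp

lemma auxE6_re (x y : L2) : (inner ℂ x y : ℂ).re = ∫ ζ, (inner ℂ (x ζ) (y ζ) : ℂ).re ∂mT := by
  rw [L2.inner_def]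
  have h := integral_re (L2.integrable_inner (𝕜 := ℂ) x y)
  simpa using h.symm

lemma auxE6_int (x y : L2) : Integrable (fun ζ => (inner ℂ (x ζ) (y ζ) : ℂ).re) mT :=
  (L2.integrable_inner (𝕜 := ℂ) x y).re

lemma p0_pos {S : Sys} (M : Maxi S) : ∀ᵐ ζ ∂mT, (p0 M ζ).im = 0 ∧ 0 < (p0 M ζ).re := by
  classical
  have hmon : ∀ᵐ ζ ∂mT, (mon 0 : ℂ → ℂ) ζ = 1 := by
    filter_upwards [mon_coe 0] with ζ hζ
    rw [hζ, zpow_zero]
  have hnn : ∀ᵐ ζ ∂mT, (p0 M ζ).im = 0 ∧ 0 ≤ (p0 M ζ).re := by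
    apply PE_nonneg
    filter_upwards [hmon] with ζ hζ
    rw [hζ]
    simp
  have hmeas : Measurable (fun ζ => p0 M ζ) := (Lp.stronglyMeasurable (p0 M)).measurable
  set A : Set ℂ := {ζ | p0 M ζ = 0} with hA
  have hAm : MeasurableSet A := hmeas (measurableSet_singleton 0)
  set g : ℂ → ℂ := A.indicator (fun _ => (1 : ℂ)) with hg
  have hgm : BddMeas g := by
    refine ⟨measurable_const.indicator hAm, 1, Eventually.of_forall (fun ζ => ?_)⟩
    by_cases hζ : ζ ∈ A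
    · rw [hg, Set.indicator_of_mem hζ]; simp
    · rw [hg, Set.indicator_of_notMem hζ]; simp
  set u : L2 := mulL g (mon 0) with hu
  have huae : ∀ᵐ ζ ∂mT, u ζ = g ζ := by
    filter_upwards [mulL_coe hgm (mon 0), hmon] with ζ h1 h2
    rw [hu, h1, h2, mul_one]
  have hgp : ∀ ζ, g ζ * p0 M ζ = 0 := by
    intro ζ
    by_cases hζ : ζ ∈ A
    · have : p0 M ζ = 0 := hζ
      rw [this, mul_zero]
    · rw [hg, Set.indicator_of_notMem hζ, zero_mul]
  have hgre : ∀ ζ, (g ζ).im = 0 ∧ 0 ≤ (g ζ).re ∧ conj (g ζ) = g ζ := by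
    intro ζ
    by_cases hζ : ζ ∈ A
    · rw [hg, Set.indicator_of_mem hζ]; simp
    · rw [hg, Set.indicator_of_notMem hζ]; simp
  -- the eigenvalue equation tested against `u`
  have heig := (mem_Eig M).mp (PE_mem M (mon 0))
  have h0 : (inner ℂ u (p0 M) : ℂ) = 0 := by
    apply auxE6_zero
    filter_upwards [huae] with ζ h1
    rw [h1, RCLike.inner_apply, (hgre ζ).2.2, mul_comm]
    exact hgp ζ
  have hsum : (inner ℂ u (S.CL (p0 M)) : ℂ) + (inner ℂ (S.CL u) (p0 M) : ℂ) = 0 := by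
    rw [← ContinuousLinearMap.adjoint_inner_right S.CL u (p0 M), ← inner_add_right]
    have e : S.CL (p0 M) + ContinuousLinearMap.adjoint S.CL (p0 M) = (2 * M.w : ℂ) • p0 M := heig
    rw [e, inner_smul_right, h0, mul_zero]
  have hτnn : ∀ᵐ ζ ∂mT, (p0 M (S.τ ζ)).im = 0 ∧ 0 ≤ (p0 M (S.τ ζ)).re := S.qi.ae hnn
  have hτu : ∀ᵐ ζ ∂mT, u (S.τ ζ) = g (S.τ ζ) := S.qi.ae huae
  have e1 : ∀ᵐ ζ ∂mT, (inner ℂ (u ζ) (S.CL (p0 M) ζ) : ℂ) = g ζ * p0 M (S.τ ζ) := by
    filter_upwards [huae, S.hCL (p0 M)] with ζ h1 h2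
    rw [h1, h2, RCLike.inner_apply, (hgre ζ).2.2, mul_comm]
  have e2 : ∀ᵐ ζ ∂mT, (inner ℂ (S.CL u ζ) (p0 M ζ) : ℂ) = g (S.τ ζ) * p0 M ζ := by
    filter_upwards [hτu, S.hCL u] with ζ h1 h2
    rw [h2, h1, RCLike.inner_apply, (hgre (S.τ ζ)).2.2, mul_comm]
  have n1 : ∀ᵐ ζ ∂mT, 0 ≤ (inner ℂ (u ζ) (S.CL (p0 M) ζ) : ℂ).re := by
    filter_upwards [e1, hτnn] with ζ h1 h2
    rw [h1, Complex.mul_re, (hgre ζ).1, zero_mul, sub_zero]
    exact mul_nonneg (hgre ζ).2.1 h2.2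
  have n2 : ∀ᵐ ζ ∂mT, 0 ≤ (inner ℂ (S.CL u ζ) (p0 M ζ) : ℂ).re := by
    filter_upwards [e2, hnn] with ζ h1 h2
    rw [h1, Complex.mul_re, (hgre (S.τ ζ)).1, zero_mul, sub_zero]
    exact mul_nonneg (hgre (S.τ ζ)).2.1 h2.2
  have hre := congrArg Complex.re hsum
  rw [Complex.add_re, Complex.zero_re, auxE6_re, auxE6_re] at hre
  have i1 : 0 ≤ ∫ ζ, (inner ℂ (u ζ) (S.CL (p0 M) ζ) : ℂ).re ∂mT := integral_nonneg_of_ae n1
  have i2 : 0 ≤ ∫ ζ, (inner ℂ (S.CL u ζ) (p0 M ζ) : ℂ).re ∂mT := integral_nonneg_of_ae n2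
  have z1 : (fun ζ => (inner ℂ (u ζ) (S.CL (p0 M) ζ) : ℂ).re) =ᵐ[mT] 0 :=
    (integral_eq_zero_iff_of_nonneg_ae n1 (auxE6_int _ _)).mp (by linarith)
  have z2 : (fun ζ => (inner ℂ (S.CL u ζ) (p0 M ζ) : ℂ).re) =ᵐ[mT] 0 :=
    (integral_eq_zero_iff_of_nonneg_ae n2 (auxE6_int _ _)).mp (by linarith)
  have hinvA : ∀ᵐ ζ ∂mT, g (S.τ ζ) = g ζ := by
    filter_upwards [z1, z2, e1, e2, hnn, hτnn] with ζ h1 h2 h3 h4 h5 h6
    simp only [Pi.zero_apply] at h1 h2
    rw [h3] at h1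
    rw [h4] at h2
    by_cases hζ : ζ ∈ A
    · -- then `τ ζ ∈ A`
      have hgζ : g ζ = 1 := by rw [hg, Set.indicator_of_mem hζ]
      rw [hgζ, one_mul] at h1
      have h7 : p0 M (S.τ ζ) = 0 := Complex.ext h1 h6.1
      have h8 : S.τ ζ ∈ A := h7
      rw [hgζ, hg, Set.indicator_of_mem h8]
    · have hgζ : g ζ = 0 := by rw [hg, Set.indicator_of_notMem hζ]
      by_cases h8 : S.τ ζ ∈ A
      · exfalso
        have h9 : g (S.τ ζ) = 1 := by rw [hg, Set.indicator_of_mem h8]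
        rw [h9, one_mul] at h2
        exact hζ (Complex.ext h2 h5.1)
      · rw [hgζ, hg, Set.indicator_of_notMem h8]
  have hInv : Inv S g := ⟨hgm, hinvA⟩
  -- `PE u = 0`
  have hPEu : PE M u = 0 := by
    rw [hu, PE_mul M hInv]
    apply Lp.ext
    filter_upwards [mulL_coe hgm (PE M (mon 0)), Lp.coeFn_zero ℂ 2 mT] with ζ h1 h2
    rw [h1, h2]
    exact hgp ζ
  have hfE : M.f ∈ Eig M := by
    rw [eig_iff, M.hf, M.f1]
    simp
  have habs := (abs_mem M hfE).1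
  have h3 : (inner ℂ (absL M.f) u : ℂ) = 0 := by
    rw [← inner_PE M habs u, hPEu, inner_zero_right]
  have e3 : ∀ᵐ ζ ∂mT, (inner ℂ (absL M.f ζ) (u ζ) : ℂ).re = ‖M.f ζ‖ * (g ζ).re := by
    filter_upwards [huae, absL_coe M.f] with ζ h1 h2
    rw [h1, h2, RCLike.inner_apply, Complex.conj_ofReal, mul_comm, Complex.re_ofReal_mul]
  have n3 : ∀ᵐ ζ ∂mT, 0 ≤ (inner ℂ (absL M.f ζ) (u ζ) : ℂ).re := by
    filter_upwards [e3] with ζ h1
    rw [h1]
    exact mul_nonneg (norm_nonneg _) (hgre ζ).2.1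
  have h4 := congrArg Complex.re h3
  rw [Complex.zero_re, auxE6_re] at h4
  have z3 : (fun ζ => (inner ℂ (absL M.f ζ) (u ζ) : ℂ).re) =ᵐ[mT] 0 :=
    (integral_eq_zero_iff_of_nonneg_ae n3 (auxE6_int _ _)).mp h4
  have hfA : ∀ᵐ ζ ∂mT, ζ ∈ A → M.f ζ = 0 := by
    filter_upwards [z3, e3] with ζ h1 h2 hζ
    simp only [Pi.zero_apply] at h1
    rw [h2, hg, Set.indicator_of_mem hζ, Complex.one_re, mul_one] at h1
    exact norm_eq_zero.mp h1
  have hA0 : mT A = 0 := by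
    by_contra hne
    have hf0 := hardy_unique M.fH A hAm hne hfA
    have h5 := M.f1
    rw [hf0, norm_zero] at h5
    exact zero_ne_one h5
  have hnA : ∀ᵐ ζ ∂mT, ζ ∉ A := measure_eq_zero_iff_ae_notMem.mp hA0
  filter_upwards [hnA, hnn] with ζ h1 h2
  refine ⟨h2.1, lt_of_le_of_ne h2.2 ?_⟩
  intro h5
  exact h1 (Complex.ext h5.symm h2.1)

lemma auxE7_pt (a b p q : ℂ) (hp : p.im = 0 ∧ 0 < p.re) (hq : q.im = 0 ∧ 0 < q.re)
    (h : ∀ t ∈ Set.range (TopologicalSpace.denseSeq ℂ),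
      (a - t * p) * conj (b - t * q) = ((‖a - t * p‖ * ‖b - t * q‖ : ℝ) : ℂ)) :
    a / p = b / q := by
  have hp' : p = ((p.re : ℝ) : ℂ) := by
    apply Complex.ext
    · simp
    · simp [hp.1]
  have hq' : q = ((q.re : ℝ) : ℂ) := by
    apply Complex.ext
    · simp
    · simp [hq.1]
  have hp0 : p ≠ 0 := by
    intro h0
    rw [h0] at hp
    simp at hp
  have hq0 : q ≠ 0 := by
    intro h0
    rw [h0] at hq
    simp at hq
  have hall : (fun t : ℂ => (a - t * p) * conj (b - t * q)) =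
      (fun t : ℂ => ((‖a - t * p‖ * ‖b - t * q‖ : ℝ) : ℂ)) := by
    apply Continuous.ext_on (TopologicalSpace.denseRange_denseSeq ℂ)
    · apply Continuous.mul
      · fun_prop
      · exact Complex.continuous_conj.comp (by fun_prop)
    · apply Complex.continuous_ofReal.comp
      fun_prop
    · intro t ht
      exact h t ht
  have h1 := congrFun hall ((a / p + b / q) / 2)
  have h2 : (a - (a / p + b / q) / 2 * p) * conj (b - (a / p + b / q) / 2 * q) =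
      ((‖a - (a / p + b / q) / 2 * p‖ * ‖b - (a / p + b / q) / 2 * q‖ : ℝ) : ℂ) := h1
  have e1 : a - (a / p + b / q) / 2 * p = p * ((a / p - b / q) / 2) := by
    field_simp
    ring
  have e2 : b - (a / p + b / q) / 2 * q = - (q * ((a / p - b / q) / 2)) := by
    field_simp
    ring
  rw [e1, e2] at h2
  obtain ⟨d, hd⟩ : ∃ d : ℂ, d = (a / p - b / q) / 2 := ⟨_, rfl⟩
  rw [← hd] at h2
  have h3 : p * d * conj (-(q * d)) = ((-(p.re * q.re * ‖d‖ ^ 2) : ℝ) : ℂ) := by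
    have hcq : conj q = q := by
      rw [hq']
      exact Complex.conj_ofReal _
    have hdd : d * conj d = ((‖d‖ ^ 2 : ℝ) : ℂ) := by
      rw [Complex.mul_conj, Complex.normSq_eq_norm_sq]
    rw [map_neg, map_mul, hcq]
    have : p * d * -(q * conj d) = -(p * q * (d * conj d)) := by ring
    rw [this, hdd]
    conv_lhs => rw [hp', hq']
    push_cast
    ring
  rw [h3] at h2
  have h4 : -(p.re * q.re * ‖d‖ ^ 2) = ‖p * d‖ * ‖-(q * d)‖ := Complex.ofReal_injective h2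
  have h5 : 0 ≤ ‖p * d‖ * ‖-(q * d)‖ := by positivity
  have h6 : 0 < p.re * q.re := mul_pos hp.2 hq.2
  have h7 : ‖d‖ ^ 2 ≤ 0 := by
    by_contra hcon
    push Not at hcon
    have := mul_pos h6 hcon
    linarith
  have h8 : d = 0 := by
    have : ‖d‖ ^ 2 = 0 := le_antisymm h7 (sq_nonneg _)
    rw [sq_eq_zero_iff, norm_eq_zero] at this
    exact this
  rw [h8] at hd
  have h9 : a / p - b / q = 0 := by
    have := hd.symm
    rwa [div_eq_zero_iff, or_iff_left (by norm_num : (2:ℂ) ≠ 0)] at this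
  exact sub_eq_zero.mp h9

/-- ratios of elements of the eigenspace are invariant -/
lemma ratio_inv {S : Sys} (M : Maxi S) {x : L2} (hx : x ∈ Eig M) :
    ∀ᵐ ζ ∂mT, x (S.τ ζ) / p0 M (S.τ ζ) = x ζ / p0 M ζ := by
  have hp0 : p0 M ∈ Eig M := PE_mem M (mon 0)
  have hpos := p0_pos M
  have hposτ := S.qi.ae (p0_pos M)
  have key : ∀ n : ℕ, ∀ᵐ ζ ∂mT,
      (x (S.τ ζ) - TopologicalSpace.denseSeq ℂ n * p0 M (S.τ ζ)) *
        conj (x ζ - TopologicalSpace.denseSeq ℂ n * p0 M ζ) =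
      ((‖x (S.τ ζ) - TopologicalSpace.denseSeq ℂ n * p0 M (S.τ ζ)‖ *
        ‖x ζ - TopologicalSpace.denseSeq ℂ n * p0 M ζ‖ : ℝ) : ℂ) := by
    intro n
    obtain ⟨t, ht⟩ : ∃ t, t = TopologicalSpace.denseSeq ℂ n := ⟨_, rfl⟩
    rw [← ht]
    have hz : x - t • p0 M ∈ Eig M := (Eig M).sub_mem hx ((Eig M).smul_mem t hp0)
    have h1 := (abs_mem M hz).2
    have h2 : ∀ᵐ ζ ∂mT, (x - t • p0 M : L2) ζ = x ζ - t * p0 M ζ := by
      filter_upwards [Lp.coeFn_sub x (t • p0 M), Lp.coeFn_smul t (p0 M)] with ζ ha hb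
      rw [ha, Pi.sub_apply, hb, Pi.smul_apply, smul_eq_mul]
    have h3 := S.qi.ae h2
    filter_upwards [h1, h2, h3] with ζ h1 h2 h3
    rw [h2, h3] at h1
    exact h1
  rw [← ae_all_iff] at key
  filter_upwards [hpos, hposτ, key] with ζ h1 h2 h3
  apply auxE7_pt _ _ _ _ h2 h1
  rintro t ⟨n, rfl⟩
  exact h3 n

lemma auxE8_real {S : Sys} (M : Maxi S) {y : L2} {K : ℝ}
    (hy : ∀ᵐ ζ ∂mT, (y ζ).im = 0 ∧ |(y ζ).re| ≤ K) :
    ∀ᵐ ζ ∂mT, |(PE M y ζ).re| ≤ K * (p0 M ζ).re := by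
  have h1 : ∀ᵐ ζ ∂mT, (((K : ℂ) • mon 0 + y : L2) ζ).im = 0 ∧
      0 ≤ (((K : ℂ) • mon 0 + y : L2) ζ).re := by
    filter_upwards [hy, mon_coe 0, Lp.coeFn_add ((K : ℂ) • mon 0) y,
      Lp.coeFn_smul (K : ℂ) (mon 0)] with ζ h2 h3 h4 h5
    rw [h4, Pi.add_apply, h5, Pi.smul_apply, h3, zpow_zero, smul_eq_mul, mul_one]
    refine ⟨?_, ?_⟩
    · rw [Complex.add_im, Complex.ofReal_im, h2.1, add_zero]
    · rw [Complex.add_re, Complex.ofReal_re]
      have := neg_abs_le (y ζ).re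
      linarith [h2.2]
  have h2 : ∀ᵐ ζ ∂mT, (((K : ℂ) • mon 0 - y : L2) ζ).im = 0 ∧
      0 ≤ (((K : ℂ) • mon 0 - y : L2) ζ).re := by
    filter_upwards [hy, mon_coe 0, Lp.coeFn_sub ((K : ℂ) • mon 0) y,
      Lp.coeFn_smul (K : ℂ) (mon 0)] with ζ h2 h3 h4 h5
    rw [h4, Pi.sub_apply, h5, Pi.smul_apply, h3, zpow_zero, smul_eq_mul, mul_one]
    refine ⟨?_, ?_⟩
    · rw [Complex.sub_im, Complex.ofReal_im, h2.1, sub_zero]
    · rw [Complex.sub_re, Complex.ofReal_re]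
      have := le_abs_self (y ζ).re
      linarith [h2.2]
  have h3 := PE_nonneg M h1
  have h4 := PE_nonneg M h2
  have h5 : PE M ((K : ℂ) • mon 0 + y) = (K : ℂ) • p0 M + PE M y := by
    rw [map_add, map_smul]
    rfl
  have h6 : PE M ((K : ℂ) • mon 0 - y) = (K : ℂ) • p0 M - PE M y := by
    rw [map_sub, map_smul]
    rfl
  rw [h5] at h3
  rw [h6] at h4
  filter_upwards [h3, h4, Lp.coeFn_add ((K : ℂ) • p0 M) (PE M y),
    Lp.coeFn_sub ((K : ℂ) • p0 M) (PE M y), Lp.coeFn_smul (K : ℂ) (p0 M)] with ζ g3 g4 g5 g6 g7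
  have g8 := g3.2
  have g9 := g4.2
  rw [g5, Pi.add_apply, g7, Pi.smul_apply, smul_eq_mul, Complex.add_re, Complex.re_ofReal_mul] at g8
  rw [g6, Pi.sub_apply, g7, Pi.smul_apply, smul_eq_mul, Complex.sub_re, Complex.re_ofReal_mul] at g9
  rw [abs_le]
  constructor <;> linarith

/-- if `‖x‖ ≤ K` pointwise then `‖PE x‖ ≤ 2 K p0` pointwise -/
lemma PE_bdd {S : Sys} (M : Maxi S) {x : L2} {K : ℝ} (hx : ∀ᵐ ζ ∂mT, ‖x ζ‖ ≤ K) :
    ∀ᵐ ζ ∂mT, ‖PE M x ζ‖ ≤ 2 * K * (p0 M ζ).re := by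
  have h1 : ∀ᵐ ζ ∂mT, (((1 / 2 : ℂ) • (x + star x) : L2) ζ).im = 0 ∧
      |(((1 / 2 : ℂ) • (x + star x) : L2) ζ).re| ≤ K := by
    filter_upwards [hx, star_coe x, Lp.coeFn_add x (star x),
      Lp.coeFn_smul (1 / 2 : ℂ) (x + star x)] with ζ g1 g2 g3 g4
    have g5 : ((1 / 2 : ℂ) • (x + star x) : L2) ζ = (((x ζ).re : ℝ) : ℂ) := by
      rw [g4, Pi.smul_apply, g3, Pi.add_apply, g2, Complex.add_conj, smul_eq_mul]
      push_cast
      ring
    rw [g5]
    refine ⟨Complex.ofReal_im _, ?_⟩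
    rw [Complex.ofReal_re]
    exact (Complex.abs_re_le_norm _).trans g1
  have h2 : ∀ᵐ ζ ∂mT, (((-Complex.I / 2 : ℂ) • (x - star x) : L2) ζ).im = 0 ∧
      |(((-Complex.I / 2 : ℂ) • (x - star x) : L2) ζ).re| ≤ K := by
    filter_upwards [hx, star_coe x, Lp.coeFn_sub x (star x),
      Lp.coeFn_smul (-Complex.I / 2 : ℂ) (x - star x)] with ζ g1 g2 g3 g4
    have g5 : ((-Complex.I / 2 : ℂ) • (x - star x) : L2) ζ = (((x ζ).im : ℝ) : ℂ) := by
      rw [g4, Pi.smul_apply, g3, Pi.sub_apply, g2, Complex.sub_conj, smul_eq_mul]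
      push_cast
      linear_combination (-((x ζ).im : ℂ)) * Complex.I_mul_I
    rw [g5]
    refine ⟨Complex.ofReal_im _, ?_⟩
    rw [Complex.ofReal_re]
    exact (Complex.abs_im_le_norm _).trans g1
  have h3 := auxE8_real M h1
  have h4 := auxE8_real M h2
  have h5 : PE M ((1 / 2 : ℂ) • (x + star x)) = (1 / 2 : ℂ) • (PE M x + star (PE M x)) := by
    rw [map_smul, map_add, PE_star]
  have h6 : PE M ((-Complex.I / 2 : ℂ) • (x - star x))
      = (-Complex.I / 2 : ℂ) • (PE M x - star (PE M x)) := by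
    rw [map_smul, map_sub, PE_star]
  rw [h5] at h3
  rw [h6] at h4
  filter_upwards [h3, h4, star_coe (PE M x), Lp.coeFn_add (PE M x) (star (PE M x)),
    Lp.coeFn_sub (PE M x) (star (PE M x)),
    Lp.coeFn_smul (1 / 2 : ℂ) (PE M x + star (PE M x)),
    Lp.coeFn_smul (-Complex.I / 2 : ℂ) (PE M x - star (PE M x))] with ζ g1 g2 g3 g4 g5 g6 g7
  have g8 : ((1 / 2 : ℂ) • (PE M x + star (PE M x)) : L2) ζ = (((PE M x ζ).re : ℝ) : ℂ) := by
    rw [g6, Pi.smul_apply, g4, Pi.add_apply, g3, Complex.add_conj, smul_eq_mul]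
    push_cast
    ring
  have g9 : ((-Complex.I / 2 : ℂ) • (PE M x - star (PE M x)) : L2) ζ
      = (((PE M x ζ).im : ℝ) : ℂ) := by
    rw [g7, Pi.smul_apply, g5, Pi.sub_apply, g3, Complex.sub_conj, smul_eq_mul]
    push_cast
    linear_combination (-((PE M x ζ).im : ℂ)) * Complex.I_mul_I
  rw [g8, Complex.ofReal_re] at g1
  rw [g9, Complex.ofReal_re] at g2
  have := Complex.norm_le_abs_re_add_abs_im (PE M x ζ)
  linarith

lemma auxE9_mon_neg_one : mon (-1) = star (mon 1) := by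
  apply Lp.ext
  filter_upwards [mon_coe (-1), star_coe (mon 1), mon_coe 1, norm_one_ae] with ζ h1 h2 h3 h4
  rw [h1, h2, h3, zpow_neg_one, zpow_one]
  have h5 : ζ * conj ζ = 1 := by
    rw [Complex.mul_conj, Complex.normSq_eq_norm_sq, h4]; simp
  exact inv_eq_of_mul_eq_one_right h5

lemma auxE9_CL_star (S : Sys) (y : L2) : S.CL (star y) = star (S.CL y) := by
  apply Lp.ext
  filter_upwards [S.hCL (star y), star_coe (S.CL y), S.hCL y, S.qi.ae (star_coe y)]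
    with ζ h1 h2 h3 h4
  rw [h1, h2, h3, h4]

lemma mean_zero {S : Sys} (M : Maxi S) {x : L2} (hx : x ∈ Eig M) (hxH : x ∈ Hs) :
    (inner ℂ (mon 0) x : ℂ) = 0 := by
  have h1 := (mem_Eig M).mp hx
  have h2 : ContinuousLinearMap.adjoint S.CL x = (2 * M.w : ℂ) • x - S.CL x := by
    rw [← h1]; abel
  have h3 : ContinuousLinearMap.adjoint S.CL x ∈ Hs := by
    rw [h2]
    exact Hs.sub_mem (Hs.smul_mem _ hxH) (S.hH x hxH)
  have h4 := h3 (-1) (by norm_num)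
  rw [ContinuousLinearMap.adjoint_inner_right, auxE9_mon_neg_one, auxE9_CL_star,
    mean_mul (S.hH _ (mon_mem (by norm_num))) hxH] at h4
  exact (mul_eq_zero.mp h4).resolve_left S.τ0

lemma auxE10_CLstar (S : Sys) (x : L2) : S.CL (star x) = star (S.CL x) := by
  apply Lp.ext
  have h1 := S.hCL (star x)
  have h2 := star_coe (S.CL x)
  have h3 := S.hCL x
  have h4 := S.qi.ae (star_coe x)
  filter_upwards [h1, h2, h3, h4] with ζ e1 e2 e3 e4
  rw [e1, e2, e3, e4]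

lemma auxE10_mon_zero : (inner ℂ (mon 0) (mon 0) : ℂ) = 1 := by
  have := mon_orthonormal
  rw [orthonormal_iff_ite] at this
  simpa using this 0 0

/-- for `y ⟂ H`, `CL y = c • mon 0 + (⟂ H)` -/
lemma auxE10_CLorth (S : Sys) {b : L2} (hb : ∀ y ∈ Hs, (inner ℂ y b : ℂ) = 0) :
    ∃ (c : ℂ) (d : L2), (∀ y ∈ Hs, (inner ℂ y d : ℂ) = 0) ∧ S.CL b = c • mon 0 + d := by
  obtain ⟨h1, h2⟩ := star_mem_of_orth hb
  set e := S.CL (star b) with he
  have heH : e ∈ Hs := S.hH _ h1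
  have hse : star e = S.CL b := by
    rw [he, auxE10_CLstar, star_star]
  set c : ℂ := inner ℂ (mon 0) e with hc
  have hdH : e - c • mon 0 ∈ Hs := Hs.sub_mem heH (Hs.smul_mem c (mon_mem le_rfl))
  have hd0 : (inner ℂ (mon 0) (e - c • mon 0) : ℂ) = 0 := by
    rw [inner_sub_right, inner_smul_right, auxE10_mon_zero, ← hc]
    simp
  refine ⟨conj c, star (e - c • mon 0), ?_, ?_⟩
  · intro y hy
    apply orth_of_star_mem _ _ hy
    · rw [star_star]; exact hdH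
    · rw [star_star]; exact hd0
  · rw [← hse]
    have : star (e - c • mon 0) = star e - conj c • mon 0 := by
      apply Lp.ext
      have k1 := star_coe (e - c • mon 0)
      have k2 := Lp.coeFn_sub e (c • mon 0)
      have k3 := Lp.coeFn_smul c (mon 0)
      have k4 := Lp.coeFn_sub (star e) (conj c • mon 0)
      have k5 := Lp.coeFn_smul (conj c) (mon 0)
      have k6 := star_coe e
      have k7 := star_coe (mon 0)
      rw [star_mon_zero] at k7
      filter_upwards [k1, k2, k3, k4, k5, k6, k7] with ζ e1 e2 e3 e4 e5 e6 e7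
      rw [e1, e2, e4, Pi.sub_apply, Pi.sub_apply, e3, e5, e6, Pi.smul_apply, Pi.smul_apply, map_sub,
        smul_eq_mul, smul_eq_mul, map_mul, ← e7]
    rw [this]
    abel

/-- an eigenfunction of mean zero splits -/
lemma split {S : Sys} (M : Maxi S) {u : L2} (hu : u ∈ Eig M) (h0 : (inner ℂ (mon 0) u : ℂ) = 0) :
    ∃ a b : L2, a ∈ Eig M ∧ a ∈ Hs ∧ b ∈ Eig M ∧ (∀ y ∈ Hs, (inner ℂ y b : ℂ) = 0) ∧ u = a + b := by
  obtain ⟨a, ha, b, hb, hab⟩ := Hs.exists_add_mem_mem_orthogonal u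
  have hb' : ∀ y ∈ Hs, (inner ℂ y b : ℂ) = 0 := fun y hy => (Submodule.mem_orthogonal _ _).1 hb y hy
  have hm0 : mon 0 ∈ Hs := mon_mem le_rfl
  have ha0 : (inner ℂ (mon 0) a : ℂ) = 0 := by
    rw [hab, inner_add_right, hb' _ hm0, add_zero] at h0
    exact h0
  set A : L2 → L2 := fun x => S.CL x + ContinuousLinearMap.adjoint S.CL x - (2 * M.w : ℂ) • x with hA
  have hAE : ∀ x, x ∈ Eig M ↔ A x = 0 := by
    intro x
    rw [mem_Eig, hA, sub_eq_zero]
  have hAadd : ∀ x y, A (x + y) = A x + A y := by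
    intro x y
    simp only [hA, map_add, smul_add]
    abel
  have hAinner : ∀ x y, (inner ℂ x (A y) : ℂ) = inner ℂ x (S.CL y) + inner ℂ (S.CL x) y - (2 * M.w : ℂ) * inner ℂ x y := by
    intro x y
    simp only [hA]
    rw [inner_sub_right, inner_add_right, ContinuousLinearMap.adjoint_inner_right, inner_smul_right]
  have hAsymm : ∀ x y, (inner ℂ x (A y) : ℂ) = inner ℂ (A x) y := by
    intro x y
    rw [hAinner]
    simp only [hA]
    rw [inner_sub_left, inner_add_left, ContinuousLinearMap.adjoint_inner_left, inner_smul_left]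
    have h2w : (starRingEnd ℂ) (2 * (M.w:ℂ)) = 2 * M.w := by
      rw [map_mul, Complex.conj_ofReal, Complex.conj_ofNat]
    rw [h2w]
    ring
  have hAab : A a = - A b := by
    have := (hAE u).1 hu
    rw [hab, hAadd] at this
    exact eq_neg_of_add_eq_zero_left this
  -- A a is in Hs
  have hAaH : A a ∈ Hs := by
    rw [← Submodule.orthogonal_orthogonal Hs, Submodule.mem_orthogonal]
    intro y hy
    have hy' : ∀ z ∈ Hs, (inner ℂ z y : ℂ) = 0 := fun z hz => (Submodule.mem_orthogonal _ _).1 hy z hz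
    have hy'' : ∀ z ∈ Hs, (inner ℂ y z : ℂ) = 0 := fun z hz => (Submodule.mem_orthogonal' _ _).1 hy z hz
    obtain ⟨c, d, hd, hcd⟩ := auxE10_CLorth S hy'
    rw [hAinner, hy'' _ (S.hH a ha), hy'' _ ha, hcd, inner_add_left, inner_smul_left, ha0]
    have : (inner ℂ d a : ℂ) = 0 := by
      rw [← inner_conj_symm, hd a ha, map_zero]
    rw [this]
    simp
  have hAb0 : ∀ y ∈ Hs, (inner ℂ y (mon 0) : ℂ) = 0 → (inner ℂ y (A b) : ℂ) = 0 := by
    intro y hy hy0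
    obtain ⟨c, d, hd, hcd⟩ := auxE10_CLorth S hb'
    rw [hAinner, hcd, inner_add_right, inner_smul_right, hy0, hd y hy, hb' _ (S.hH y hy), hb' y hy]
    simp
  -- A a is a multiple of mon 0
  obtain ⟨c, hc⟩ : ∃ c : ℂ, A a = c • mon 0 := by
    refine ⟨inner ℂ (mon 0) (A a), ?_⟩
    set c : ℂ := inner ℂ (mon 0) (A a) with hc
    set y := A a - c • mon 0 with hy
    have hyH : y ∈ Hs := Hs.sub_mem hAaH (Hs.smul_mem c hm0)
    have hy0 : (inner ℂ (mon 0) y : ℂ) = 0 := by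
      rw [hy, inner_sub_right, inner_smul_right, auxE10_mon_zero, ← hc]
      simp
    have hy0' : (inner ℂ y (mon 0) : ℂ) = 0 := by
      rw [← inner_conj_symm, hy0, map_zero]
    have h1 : (inner ℂ y (A a) : ℂ) = 0 := by
      rw [hAab, inner_neg_right, hAb0 y hyH hy0', neg_zero]
    have h2 : (inner ℂ y y : ℂ) = 0 := by
      conv_lhs => rw [hy]
      rw [← hy, inner_sub_right, inner_smul_right, h1, hy0']
      simp
    have h3 : y = 0 := inner_self_eq_zero.1 h2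
    rw [hy, sub_eq_zero] at h3
    exact h3
  -- pairing with p0
  have hpE : p0 M ∈ Eig M := PE_mem M _
  have hp1 : (inner ℂ (p0 M) (A a) : ℂ) = 0 := by
    rw [hAsymm, (hAE _).1 hpE, inner_zero_left]
  have hp2 : (inner ℂ (p0 M) (mon 0) : ℂ) = inner ℂ (p0 M) (p0 M) := by
    rw [← inner_PE M hpE (mon 0)]
    rfl
  have hp3 : p0 M ≠ 0 := by
    intro h
    have h1 := p0_pos M
    rw [h] at h1
    have h2 := Lp.coeFn_zero ℂ 2 mT
    have : ∀ᵐ ζ ∂mT, False := by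
      filter_upwards [h1, h2] with ζ e1 e2
      rw [e2] at e1
      simp at e1
    rw [ae_iff] at this
    simp at this
  have hc0 : c = 0 := by
    rw [hc, inner_smul_right, hp2] at hp1
    rcases mul_eq_zero.1 hp1 with h | h
    · exact h
    · exact absurd (inner_self_eq_zero.1 h) hp3
  have hAa : A a = 0 := by rw [hc, hc0, zero_smul]
  have hAb : A b = 0 := by
    rw [hAa] at hAab
    exact neg_eq_zero.1 hAab.symm
  exact ⟨a, b, (hAE a).2 hAa, ha, (hAE b).2 hAb, hb', hab⟩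

/-- the analytic half `M = E₊ ⊕ ℂ p₀` -/
def InM {S : Sys} (M : Maxi S) (x : L2) : Prop :=
  x ∈ Eig M ∧ ∀ b ∈ Eig M, (∀ y ∈ Hs, (inner ℂ y b : ℂ) = 0) → (inner ℂ b x : ℂ) = 0

lemma PE_inM {S : Sys} (M : Maxi S) {x : L2} (hx : x ∈ Hs) : InM M (PE M x) := by
  refine ⟨PE_mem M x, ?_⟩
  intro b hb hb2
  rw [inner_PE M hb x]
  exact inner_eq_zero_symm.1 (hb2 x hx)

lemma p0_inM {S : Sys} (M : Maxi S) : InM M (p0 M) :=
  PE_inM M (mon_mem le_rfl)

lemma star_p0 {S : Sys} (M : Maxi S) : star (p0 M) = p0 M := by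
  unfold p0
  rw [← PE_star, star_mon_zero]

lemma norm_p0 {S : Sys} (M : Maxi S) :
    (inner ℂ (mon 0) (p0 M) : ℂ) = ((‖p0 M‖ ^ 2 : ℝ) : ℂ) ∧ 0 < ‖p0 M‖ := by
  constructor
  · have h1 : (inner ℂ (p0 M) (p0 M) : ℂ) = inner ℂ (p0 M) (mon 0) :=
      inner_PE M (PE_mem M (mon 0)) (mon 0)
    have h2 : (inner ℂ (p0 M) (p0 M) : ℂ) = ((‖p0 M‖ ^ 2 : ℝ) : ℂ) := by
      rw [inner_self_eq_norm_sq_to_K]
      push_cast
      rfl
    rw [← inner_conj_symm, ← h1, h2, Complex.conj_ofReal]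
  · rw [norm_pos_iff]
    intro h0
    have h1 := p0_pos M
    have h2 : (p0 M : ℂ → ℂ) =ᵐ[mT] 0 := by
      rw [h0]
      exact Lp.coeFn_zero ℂ 2 mT
    have h3 : ∀ᵐ ζ ∂mT, False := by
      filter_upwards [h1, h2] with ζ h4 h5
      rw [h5] at h4
      simp at h4
    obtain ⟨_, h⟩ := h3.exists
    exact h

lemma inM_of_Hs {S : Sys} (M : Maxi S) {x : L2} (hx : x ∈ Eig M) (hxH : x ∈ Hs) : InM M x :=
  ⟨hx, fun _ _ hb2 => inner_eq_zero_symm.1 (hb2 x hxH)⟩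

lemma inM_add {S : Sys} (M : Maxi S) {x y : L2} (hx : InM M x) (hy : InM M y) : InM M (x + y) := by
  refine ⟨(Eig M).add_mem hx.1 hy.1, ?_⟩
  intro b hb hb2
  rw [inner_add_right, hx.2 b hb hb2, hy.2 b hb hb2, add_zero]

lemma inM_smul {S : Sys} (M : Maxi S) {x : L2} (c : ℂ) (hx : InM M x) : InM M (c • x) := by
  refine ⟨(Eig M).smul_mem c hx.1, ?_⟩
  intro b hb hb2
  rw [inner_smul_right, hx.2 b hb hb2, mul_zero]

lemma inM_closed {S : Sys} (M : Maxi S) : IsClosed {x | InM M x} := by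
  have h : {x | InM M x} = (Eig M : Set L2) ∩ ⋂ b : L2, ⋂ _ : b ∈ Eig M,
      ⋂ _ : (∀ y ∈ Hs, (inner ℂ y b : ℂ) = 0), {x | (inner ℂ b x : ℂ) = 0} := by
    ext x
    simp only [InM, Set.mem_setOf_eq, Set.mem_inter_iff, SetLike.mem_coe, Set.mem_iInter]
  rw [h]
  refine (Eig_closed M).inter (isClosed_iInter fun b => isClosed_iInter fun _ =>
    isClosed_iInter fun _ => ?_)
  exact isClosed_eq (by fun_prop) continuous_const

/-- decomposition of `M` -/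
lemma inM_decomp {S : Sys} (M : Maxi S) {x : L2} (hx : InM M x) :
    ∃ e : L2, e ∈ Eig M ∧ e ∈ Hs ∧
      x = e + ((inner ℂ (mon 0) x : ℂ) / ((‖p0 M‖ ^ 2 : ℝ) : ℂ)) • p0 M := by
  obtain ⟨hm, hpos⟩ := norm_p0 M
  have hne : ((‖p0 M‖ ^ 2 : ℝ) : ℂ) ≠ 0 := by
    rw [Complex.ofReal_ne_zero]
    positivity
  set c : ℂ := (inner ℂ (mon 0) x : ℂ) / ((‖p0 M‖ ^ 2 : ℝ) : ℂ) with hc
  have he : InM M (x + (-c) • p0 M) := inM_add M hx (inM_smul M (-c) (p0_inM M))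
  have h0 : (inner ℂ (mon 0) (x + (-c) • p0 M) : ℂ) = 0 := by
    rw [inner_add_right, inner_smul_right, hm, hc, neg_mul, div_mul_cancel₀ _ hne, add_neg_cancel]
  obtain ⟨a, b, ha, haH, hb, hbH, hab⟩ := split M he.1 h0
  have h1 : (inner ℂ b (x + (-c) • p0 M) : ℂ) = 0 := he.2 b hb hbH
  have h2 : (inner ℂ b a : ℂ) = 0 := by
    rw [← inner_conj_symm, hbH a haH, map_zero]
  rw [hab, inner_add_right, h2, zero_add] at h1
  have h3 : b = 0 := inner_self_eq_zero.mp h1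
  refine ⟨a, ha, haH, ?_⟩
  rw [h3, add_zero] at hab
  rw [← hab, neg_smul, neg_add_cancel_right]

lemma inM_mem_Hs {S : Sys} (M : Maxi S) {x : L2} (hx : InM M x)
    (h0 : (inner ℂ (mon 0) x : ℂ) = 0) : x ∈ Hs := by
  obtain ⟨e, _, heH, h⟩ := inM_decomp M hx
  rw [h0, zero_div, zero_smul, add_zero] at h
  rw [h]
  exact heH

lemma auxE13_star_add (x y : L2) : (star (x + y) : L2) = star x + star y := by
  apply Lp.ext
  filter_upwards [star_coe (x+y), Lp.coeFn_add x y, Lp.coeFn_add (star x) (star y), star_coe x, star_coe y]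
    with ζ h1 h2 h3 h4 h5
  rw [h1, h2, h3]
  simp only [Pi.add_apply]
  rw [map_add, h4, h5]

lemma auxE13_star_smul (c : ℂ) (x : L2) : (star (c • x) : L2) = (starRingEnd ℂ c) • star x := by
  apply Lp.ext
  filter_upwards [star_coe (c • x), Lp.coeFn_smul c x, Lp.coeFn_smul (starRingEnd ℂ c) (star x), star_coe x]
    with ζ h1 h2 h3 h4
  rw [h1, h2, h3]
  simp only [Pi.smul_apply, smul_eq_mul]
  rw [map_mul, h4]

lemma inM_star {S : Sys} (M : Maxi S) {x : L2} (hx : InM M x) (hx' : InM M (star x)) :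
    ∃ c : ℂ, x = c • p0 M := by
  obtain ⟨e, he, heH, hxe⟩ := inM_decomp M hx
  obtain ⟨e', he', heH', hxe'⟩ := inM_decomp M hx'
  set β : ℂ := (inner ℂ (mon 0) x : ℂ) / ((‖p0 M‖ ^ 2 : ℝ) : ℂ) with hβ
  set β' : ℂ := (inner ℂ (mon 0) (star x) : ℂ) / ((‖p0 M‖ ^ 2 : ℝ) : ℂ) with hβ'
  have hx2 : x = star e' + (starRingEnd ℂ β') • p0 M := by
    have h := congrArg star hxe'
    rw [star_star, auxE13_star_add, auxE13_star_smul, star_p0] at h
    exact h
  have hb : star e' ∈ Eig M := star_mem_Eig M he'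
  have hbo : ∀ y ∈ Hs, (inner ℂ y (star e') : ℂ) = 0 := by
    intro y hy
    refine orth_of_star_mem ?_ ?_ hy
    · rw [star_star]; exact heH'
    · rw [star_star]; exact mean_zero M he' heH'
  have h1 : (inner ℂ e (star e') : ℂ) = 0 := hbo e heH
  have h2 : (inner ℂ (star e') (p0 M) : ℂ) = 0 := (p0_inM M).2 _ hb hbo
  have h3 : (inner ℂ (p0 M) (star e') : ℂ) = 0 := by
    rw [← inner_conj_symm, h2, map_zero]
  have h4 : star e' = e + (β - starRingEnd ℂ β') • p0 M := by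
    have : star e' + (starRingEnd ℂ β') • p0 M = e + β • p0 M := by rw [← hx2, ← hxe]
    rw [sub_smul, ← add_sub_assoc, ← this, add_sub_cancel_right]
  have h5 : (inner ℂ (star e') (star e') : ℂ) = 0 := by
    have : (inner ℂ (star e') (star e') : ℂ) = inner ℂ (e + (β - starRingEnd ℂ β') • p0 M) (star e') := by
      rw [← h4]
    rw [this, inner_add_left, inner_smul_left, h1, h3]
    simp
  have h6 : star e' = 0 := inner_self_eq_zero.1 h5
  refine ⟨starRingEnd ℂ β', ?_⟩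
  rw [h6, zero_add] at hx2
  exact hx2


/-- module property -/
lemma inM_mul {S : Sys} (M : Maxi S) {g : ℂ → ℂ} (hg : Inv S g)
    (hgH : ∀ x ∈ Hs, mulL g x ∈ Hs) {x : L2} (hx : InM M x) : InM M (mulL g x) := by
  obtain ⟨e, he, heH, hxe⟩ := inM_decomp M hx
  have key : ∀ β : ℂ, InM M (mulL g (e + β • p0 M)) := by
    intro β
    rw [map_add, map_smul]
    refine inM_add M (inM_of_Hs M (mul_mem_Eig M hg he) (hgH e heH)) (inM_smul M _ ?_)
    unfold p0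
    rw [← PE_mul M hg]
    exact PE_inM M (hgH _ (mon_mem le_rfl))
  rw [hxe]
  exact key _


end

end HT
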