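import Pool.Agent.Helper368.HT.E

open scoped ComplexConjugate
open MeasureTheory Filter

namespace HT

noncomputable section

/-- `V_t = exp (i t log s)` -/
def Vf (s : ℂ → ℝ) (t : ℝ) (ζ : ℂ) : ℂ := Complex.exp (Complex.I * t * Complex.log (s ζ : ℂ))

/-- hyperbolic type: a real semi-conjugacy `s ∘ τ = e^ℓ s` whose powers are in the Hardy space, and
every invariant function is a function of `Z = V_{2π/ℓ}` -/
structure Hyp (S : Sys) where
  s : ℂ → ℝ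
  smeas : Measurable s
  s0 : ∀ᵐ ζ ∂mT, s ζ ≠ 0
  ell : ℝ
  ellpos : 0 < ell
  sτ : ∀ᵐ ζ ∂mT, s (S.τ ζ) = Real.exp ell * s ζ
  VH : ∀ t : ℝ, ∀ x ∈ Hs, mulL (Vf s t) x ∈ Hs
  inv : ∀ x : L2, S.CL x = x → ∃ U : ℂ → ℂ, Measurable U ∧
    (x : ℂ → ℂ) =ᵐ[mT] fun ζ => U (Vf s (2 * Real.pi / ell) ζ)

/-- `Z ^ n` -/
def Zp {S : Sys} (X : Hyp S) (n : ℤ) : ℂ → ℂ := Vf X.s (n * (2 * Real.pi / X.ell))

lemma auxF1_norm (s : ℂ → ℝ) (t : ℝ) (ζ : ℂ) :
    ‖Vf s t ζ‖ = Real.exp (-(t * Complex.arg (s ζ : ℂ))) := by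
  unfold Vf
  rw [Complex.norm_exp]
  congr 1
  simp [Complex.mul_re, Complex.mul_im, Complex.log_re, Complex.log_im]

lemma auxF1_meas {s : ℂ → ℝ} (hs : Measurable s) (t : ℝ) : Measurable (Vf s t) := by
  unfold Vf
  exact Complex.measurable_exp.comp
    (measurable_const.mul (Complex.measurable_log.comp (Complex.measurable_ofReal.comp hs)))

lemma auxF1_bound (s : ℂ → ℝ) (t : ℝ) (ζ : ℂ) :
    ‖Vf s t ζ‖ ≤ Real.exp (|t| * Real.pi) := by
  rw [auxF1_norm]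
  apply Real.exp_le_exp.2
  calc -(t * Complex.arg (s ζ : ℂ)) ≤ |t * Complex.arg (s ζ : ℂ)| := neg_le_abs _
    _ = |t| * |Complex.arg (s ζ : ℂ)| := abs_mul _ _
    _ ≤ |t| * Real.pi := mul_le_mul_of_nonneg_left (Complex.abs_arg_le_pi _) (abs_nonneg _)

lemma V_bdd {s : ℂ → ℝ} (hs : Measurable s) (t : ℝ) : BddMeas (Vf s t) :=
  ⟨auxF1_meas hs t, Real.exp (|t| * Real.pi), Eventually.of_forall fun ζ => auxF1_bound s t ζ⟩

lemma V_add (s : ℂ → ℝ) (t t' : ℝ) (ζ : ℂ) : Vf s (t + t') ζ = Vf s t ζ * Vf s t' ζ := by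
  unfold Vf
  rw [← Complex.exp_add]
  congr 1
  push_cast
  ring

lemma V_zero (s : ℂ → ℝ) (ζ : ℂ) : Vf s 0 ζ = 1 := by
  simp [Vf]

lemma V_ne (s : ℂ → ℝ) (t : ℝ) (ζ : ℂ) : Vf s t ζ ≠ 0 := by
  unfold Vf
  exact Complex.exp_ne_zero _

lemma V_conj (s : ℂ → ℝ) (t : ℝ) (ζ : ℂ) :
    conj (Vf s t ζ) = ((‖Vf s t ζ‖ ^ 2 : ℝ) : ℂ) * Vf s (-t) ζ := by
  have h1 : Vf s t ζ * Vf s (-t) ζ = 1 := by
    rw [← V_add, add_neg_cancel, V_zero]
  have h2 : ((‖Vf s t ζ‖ ^ 2 : ℝ) : ℂ) = Vf s t ζ * conj (Vf s t ζ) := by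
    rw [Complex.mul_conj, Complex.normSq_eq_norm_sq]
  rw [h2, mul_right_comm, h1, one_mul]

lemma V_norm (s : ℂ → ℝ) (t : ℝ) (ζ : ℂ) (h : s ζ ≠ 0) :
    ‖Vf s t ζ‖ = if 0 < s ζ then 1 else Real.exp (-(Real.pi * t)) := by
  rw [auxF1_norm]
  split_ifs with h0
  · rw [Complex.arg_ofReal_of_nonneg h0.le]
    simp
  · have h1 : s ζ < 0 := lt_of_le_of_ne (not_lt.1 h0) h
    rw [Complex.arg_ofReal_of_neg h1, mul_comm]

lemma V_tau {S : Sys} (X : Hyp S) (t : ℝ) :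
    ∀ᵐ ζ ∂mT, Vf X.s t (S.τ ζ) = Complex.exp (Complex.I * t * X.ell) * Vf X.s t ζ := by
  filter_upwards [X.s0, X.sτ] with ζ h0 h1
  unfold Vf
  rw [h1, ← Complex.exp_add]
  congr 1
  have h2 : (X.s ζ : ℂ) ≠ 0 := by exact_mod_cast h0
  have h3 : Complex.log ((Real.exp X.ell * X.s ζ : ℝ) : ℂ) = (X.ell : ℂ) + Complex.log (X.s ζ : ℂ) := by
    rw [Complex.ofReal_mul, Complex.log_ofReal_mul (Real.exp_pos _) h2, Real.log_exp]
  rw [h3]
  ring

lemma normV_inv {S : Sys} (X : Hyp S) (t : ℝ) :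
    Inv S (fun ζ => ((‖Vf X.s t ζ‖ ^ 2 : ℝ) : ℂ)) := by
  refine ⟨⟨?_, ?_⟩, ?_⟩
  · exact Complex.measurable_ofReal.comp ((auxF1_meas X.smeas t).norm.pow_const 2)
  · refine ⟨Real.exp (|t| * Real.pi) ^ 2, Eventually.of_forall fun ζ => ?_⟩
    rw [Complex.norm_real, Real.norm_of_nonneg (by positivity)]
    exact pow_le_pow_left₀ (norm_nonneg _) (auxF1_bound X.s t ζ) 2
  · filter_upwards [V_tau X t] with ζ h
    have h1 : ‖Complex.exp (Complex.I * t * X.ell)‖ = 1 := by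
      rw [Complex.norm_exp]
      simp [Complex.mul_re, Complex.mul_im]
    simp only [h, norm_mul, h1, one_mul]

lemma Zp_inv {S : Sys} (X : Hyp S) (n : ℤ) : Inv S (Zp X n) := by
  refine ⟨V_bdd X.smeas _, ?_⟩
  filter_upwards [V_tau X (n * (2 * Real.pi / X.ell))] with ζ h
  unfold Zp
  rw [h]
  have h1 : Complex.exp (Complex.I * ((n * (2 * Real.pi / X.ell) : ℝ) : ℂ) * X.ell) = 1 := by
    have hne : (X.ell : ℂ) ≠ 0 := by exact_mod_cast X.ellpos.ne'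
    have : Complex.I * ((n * (2 * Real.pi / X.ell) : ℝ) : ℂ) * X.ell =
        n * (2 * Real.pi * Complex.I) := by
      push_cast
      field_simp
    rw [this, Complex.exp_int_mul_two_pi_mul_I]
  rw [h1, one_mul]


/-- the signed density of a real function: moments determine integrals, real case -/
lemma auxF2_real {A : Set ℂ} (hA : MeasurableSet A) {e : ℂ → ℂ} (he : Measurable e)
    (he1 : ∀ᵐ ζ ∂mT, ζ ∈ A → ‖e ζ‖ = 1) {u : ℂ → ℝ} (hu : Measurable u) (hi : Integrable u mT)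
    (h0 : ∀ n : ℕ, ∫ ζ in A, e ζ ^ n * (u ζ : ℂ) ∂mT = 0) {g : ℂ → ℂ} (hg : Measurable g)
    {K : ℝ} (hK : ∀ w, ‖g w‖ ≤ K) :
    ∫ ζ in A, g (e ζ) * (u ζ : ℂ) ∂mT = 0 := by
  have hiA : Integrable u (mT.restrict A) := hi.restrict
  have key : ∀ v : ℂ → ℝ, Measurable v → Integrable v (mT.restrict A) →
      ∃ μ : Measure ℂ, IsFiniteMeasure μ ∧ (∀ᵐ w ∂μ, ‖w‖ = 1) ∧
        ∀ f : ℂ → ℂ, Measurable f →
          ∫ w, f w ∂μ = ∫ ζ in A, (((v ζ).toNNReal : ℝ) : ℂ) * f (e ζ) ∂mT := by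
    intro v hv hvi
    have hd : Measurable fun ζ => (v ζ).toNNReal := hv.real_toNNReal
    have hfin : IsFiniteMeasure ((mT.restrict A).withDensity
        fun ζ => (((v ζ).toNNReal : NNReal) : ENNReal)) :=
      isFiniteMeasure_withDensity_ofReal hvi.2
    refine ⟨((mT.restrict A).withDensity
        fun ζ => (((v ζ).toNNReal : NNReal) : ENNReal)).map e, ?_, ?_, ?_⟩
    · exact Measure.isFiniteMeasure_map _ _
    · rw [ae_map_iff he.aemeasurable (measurableSet_eq_fun measurable_norm measurable_const)]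
      apply (withDensity_absolutelyContinuous _ _).ae_le
      exact (ae_restrict_iff' hA).2 he1
    · intro f hf
      rw [integral_map he.aemeasurable hf.aestronglyMeasurable,
        integral_withDensity_eq_integral_smul hd]
      rfl
  obtain ⟨μ, hμf, hμ1, hμ⟩ := key u hu hiA
  obtain ⟨ν, hνf, hν1, hν⟩ := key (fun ζ => -u ζ) hu.neg hiA.neg
  have hsplit : ∀ (f : ℂ → ℂ), Measurable f → (∃ C : ℝ, ∀ᵐ ζ ∂mT, ζ ∈ A → ‖f (e ζ)‖ ≤ C) →
      ∫ w, f w ∂μ - ∫ w, f w ∂ν = ∫ ζ in A, f (e ζ) * (u ζ : ℂ) ∂mT := by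
    rintro f hf ⟨C, hC⟩
    have hfe : AEStronglyMeasurable (fun ζ => f (e ζ)) (mT.restrict A) :=
      (hf.comp he).aestronglyMeasurable
    have hC' : ∀ᵐ ζ ∂(mT.restrict A), ‖f (e ζ)‖ ≤ C := (ae_restrict_iff' hA).2 hC
    have i1 : Integrable (fun ζ => (((u ζ).toNNReal : ℝ) : ℂ)) (mT.restrict A) := by
      have := (hiA.pos_part).ofReal (𝕜 := ℂ)
      refine this.congr (Eventually.of_forall fun ζ => ?_)
      simp [Real.coe_toNNReal']
    have i2 : Integrable (fun ζ => (((-u ζ).toNNReal : ℝ) : ℂ)) (mT.restrict A) := by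
      have := (hiA.neg_part).ofReal (𝕜 := ℂ)
      refine this.congr (Eventually.of_forall fun ζ => ?_)
      simp [Real.coe_toNNReal']
    have j1 : Integrable (fun ζ => (((u ζ).toNNReal : ℝ) : ℂ) * f (e ζ)) (mT.restrict A) := by
      have := i1.bdd_mul hfe hC'
      refine this.congr (Eventually.of_forall fun ζ => ?_)
      simp only [mul_comm]
    have j2 : Integrable (fun ζ => (((-u ζ).toNNReal : ℝ) : ℂ) * f (e ζ)) (mT.restrict A) := by
      have := i2.bdd_mul hfe hC'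
      refine this.congr (Eventually.of_forall fun ζ => ?_)
      simp only [mul_comm]
    rw [hμ f hf, hν f hf, ← integral_sub j1 j2]
    refine integral_congr_ae (Eventually.of_forall fun ζ => ?_)
    simp only
    rw [← sub_mul, mul_comm]
    congr 1
    rw [← Complex.ofReal_sub]
    congr 1
    rw [Real.coe_toNNReal', Real.coe_toNNReal']
    rcases le_total (u ζ) 0 with h | h
    · rw [max_eq_right h, max_eq_left (by linarith)]
      ring
    · rw [max_eq_left h, max_eq_right (by linarith)]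
      ring
  have heq : μ = ν := by
    apply measure_ext_circle μ ν hμ1 hν1
    intro n
    have h1 := hsplit (fun w => w ^ n) (by fun_prop) ⟨1, by
      filter_upwards [he1] with ζ hζ hζA
      simp only [norm_pow, hζ hζA, one_pow, le_refl]⟩
    rw [h0 n] at h1
    exact sub_eq_zero.1 h1
  rw [← hsplit g hg ⟨K, Eventually.of_forall fun ζ _ => hK _⟩, heq, sub_self]

/-- moments determine integrals, complex case -/
lemma auxF2_core {A : Set ℂ} (hA : MeasurableSet A) {e : ℂ → ℂ} (he : Measurable e)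
    (he1 : ∀ᵐ ζ ∂mT, ζ ∈ A → ‖e ζ‖ = 1) {h : ℂ → ℂ} (hh : Measurable h) (hi : Integrable h mT)
    (h0 : ∀ n : ℤ, ∫ ζ in A, e ζ ^ n * h ζ ∂mT = 0) {g : ℂ → ℂ} (hg : Measurable g)
    {K : ℝ} (hK : ∀ w, ‖g w‖ ≤ K) :
    ∫ ζ in A, g (e ζ) * h ζ ∂mT = 0 := by
  have hiA : Integrable h (mT.restrict A) := hi.restrict
  have hbdd : ∀ n : ℤ, Integrable (fun ζ => e ζ ^ n * h ζ) (mT.restrict A) := by
    intro n
    refine hiA.bdd_mul (c := 1) (by fun_prop : Measurable fun ζ => e ζ ^ n).aestronglyMeasurable ?_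
    rw [ae_restrict_iff' hA]
    filter_upwards [he1] with ζ hζ hζA
    rw [norm_zpow, hζ hζA, one_zpow]
  have hconj : ∀ n : ℤ, ∫ ζ in A, e ζ ^ n * conj (h ζ) ∂mT = 0 := by
    intro n
    have h1 : ∫ ζ in A, e ζ ^ n * conj (h ζ) ∂mT = ∫ ζ in A, conj (e ζ ^ (-n) * h ζ) ∂mT := by
      apply setIntegral_congr_ae hA
      filter_upwards [he1] with ζ hζ hζA
      rw [map_mul, map_zpow₀]
      congr 1
      have h2 : conj (e ζ) = (e ζ)⁻¹ := by
        rw [Complex.inv_def, Complex.normSq_eq_norm_sq, hζ hζA]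
        simp
      rw [h2, zpow_neg, inv_zpow, inv_inv]
    rw [h1, integral_conj, h0 (-n), map_zero]
  have hcI : ∀ n : ℤ, Integrable (fun ζ => e ζ ^ n * conj (h ζ)) (mT.restrict A) := by
    intro n
    have hci : Integrable (fun ζ => conj (h ζ)) (mT.restrict A) :=
      hiA.congr' (Complex.continuous_conj.comp_aestronglyMeasurable hiA.1)
        (Eventually.of_forall fun ζ => by simp)
    refine hci.bdd_mul (c := 1) (by fun_prop : Measurable fun ζ => e ζ ^ n).aestronglyMeasurable ?_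
    rw [ae_restrict_iff' hA]
    filter_upwards [he1] with ζ hζ hζA
    rw [norm_zpow, hζ hζA, one_zpow]
  have hre : ∫ ζ in A, g (e ζ) * ((h ζ).re : ℂ) ∂mT = 0 := by
    refine auxF2_real hA he he1 (Complex.measurable_re.comp hh) hi.re ?_ hg hK
    intro n
    have h1 : ∫ ζ in A, e ζ ^ n * (((h ζ).re : ℝ) : ℂ) ∂mT =
        ∫ ζ in A, (1 / 2 : ℂ) * (e ζ ^ (n : ℤ) * h ζ + e ζ ^ (n : ℤ) * conj (h ζ)) ∂mT := by
      refine integral_congr_ae (Eventually.of_forall fun ζ => ?_)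
      simp only [zpow_natCast]
      rw [← mul_add, Complex.add_conj]
      push_cast
      ring
    rw [Function.comp_def] at *
    simp only at h1 ⊢
    rw [h1, integral_const_mul, integral_add (hbdd n) (hcI n), h0, hconj]
    simp
  have him : ∫ ζ in A, g (e ζ) * ((h ζ).im : ℂ) ∂mT = 0 := by
    refine auxF2_real hA he he1 (Complex.measurable_im.comp hh) hi.im ?_ hg hK
    intro n
    have h1 : ∫ ζ in A, e ζ ^ n * (((h ζ).im : ℝ) : ℂ) ∂mT =
        ∫ ζ in A, (1 / (2 * Complex.I) : ℂ) *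
          (e ζ ^ (n : ℤ) * h ζ - e ζ ^ (n : ℤ) * conj (h ζ)) ∂mT := by
      refine integral_congr_ae (Eventually.of_forall fun ζ => ?_)
      simp only [zpow_natCast]
      rw [← mul_sub, Complex.sub_conj]
      push_cast
      field_simp
    rw [Function.comp_def] at *
    simp only at h1 ⊢
    rw [h1, integral_const_mul, integral_sub (hbdd n) (hcI n), h0, hconj]
    simp
  have hgI : ∀ v : ℂ → ℝ, Integrable v (mT.restrict A) →
      Integrable (fun ζ => g (e ζ) * (v ζ : ℂ)) (mT.restrict A) := by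
    intro v hv
    exact (hv.ofReal (𝕜 := ℂ)).bdd_mul (hg.comp he).aestronglyMeasurable
      (Eventually.of_forall fun ζ => hK _)
  have hfin : ∫ ζ in A, g (e ζ) * h ζ ∂mT =
      ∫ ζ in A, (g (e ζ) * ((h ζ).re : ℂ) + Complex.I * (g (e ζ) * ((h ζ).im : ℂ))) ∂mT := by
    refine integral_congr_ae (Eventually.of_forall fun ζ => ?_)
    simp only
    conv_lhs => rw [← Complex.re_add_im (h ζ)]
    ring
  have hgr : Integrable (fun ζ => g (e ζ) * ((h ζ).re : ℂ)) (mT.restrict A) := hgI _ hiA.re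
  have hgi : Integrable (fun ζ => g (e ζ) * ((h ζ).im : ℂ)) (mT.restrict A) := hgI _ hiA.im
  rw [hfin, integral_add hgr (hgi.const_mul _), integral_const_mul, hre, him]
  simp

lemma auxF2_hxp (x y : L2) : Integrable (fun ζ => x ζ * y ζ) mT :=
  (Lp.memLp x).integrable_mul (Lp.memLp y)

/-- moment consequences for one function -/
lemma auxF2_mom {S : Sys} (M : Maxi S) (X : Hyp S) (Z : ℂ → ℂ)
    (hZ : Z = Vf X.s (2 * Real.pi / X.ell)) (R : ℝ)
    (hR : R = Real.exp (-(Real.pi * (2 * Real.pi / X.ell)))) {x : L2}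
    (hx1 : ∀ n : ℤ, (inner ℂ (mulL (Zp X n) (p0 M)) x : ℂ) = 0)
    (hx2 : ∀ n : ℤ, (inner ℂ (star (mulL (Zp X n) (p0 M))) x : ℂ) = 0) :
    (∀ n : ℤ, n ≠ 0 → ∫ ζ in {ζ | 0 < X.s ζ}, Z ζ ^ n * (x ζ * p0 M ζ) ∂mT = 0 ∧
      ∫ ζ in {ζ | 0 < X.s ζ}ᶜ, ((R : ℂ)⁻¹ * Z ζ) ^ n * (x ζ * p0 M ζ) ∂mT = 0) ∧
    ∫ ζ in {ζ | 0 < X.s ζ}, x ζ * p0 M ζ ∂mT + ∫ ζ in {ζ | 0 < X.s ζ}ᶜ, x ζ * p0 M ζ ∂mT = 0 := by
  have hB : MeasurableSet {ζ | 0 < X.s ζ} := measurableSet_lt measurable_const X.smeas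
  have hZn : ∀ n : ℤ, Zp X n = fun ζ => Z ζ ^ n := by
    intro n
    funext ζ
    unfold Zp
    rw [hZ]
    unfold Vf
    rw [← Complex.exp_int_mul]
    congr 1
    push_cast
    ring
  have hbm : ∀ n : ℤ, BddMeas (fun ζ => Z ζ ^ n) := by
    intro n
    rw [← hZn n]
    exact V_bdd X.smeas _
  have hxp := auxF2_hxp x (p0 M)
  have hint : ∀ n : ℤ, Integrable (fun ζ => Z ζ ^ n * (x ζ * p0 M ζ)) mT := by
    intro n
    obtain ⟨hm, K, hK⟩ := hbm n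
    exact hxp.bdd_mul hm.aestronglyMeasurable hK
  have hint' : ∀ n : ℤ, Integrable (fun ζ => conj (Z ζ) ^ n * (x ζ * p0 M ζ)) mT := by
    intro n
    obtain ⟨hm, K, hK⟩ := hbm n
    refine hxp.bdd_mul (c := K) ?_ ?_
    · have : (fun ζ => conj (Z ζ) ^ n) = fun ζ => conj (Z ζ ^ n) := by
        funext ζ
        rw [map_zpow₀]
      rw [this]
      exact (Complex.continuous_conj.measurable.comp hm).aestronglyMeasurable
    · filter_upwards [hK] with ζ hζ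
      rw [← map_zpow₀, RCLike.norm_conj]
      exact hζ
  have hp := p0_pos M
  have I2 : ∀ n : ℤ, ∫ ζ, Z ζ ^ n * (x ζ * p0 M ζ) ∂mT = 0 := by
    intro n
    rw [← hx2 n, L2.inner_def]
    refine integral_congr_ae ?_
    have h1 := mulL_coe (hbm n) (p0 M)
    rw [hZn n]
    filter_upwards [h1, star_coe (mulL (fun ζ => Z ζ ^ n) (p0 M))] with ζ h1 h2
    rw [h2, h1, RCLike.inner_apply]
    simp only [RCLike.conj_conj]
    ring
  have I1 : ∀ n : ℤ, ∫ ζ, conj (Z ζ) ^ n * (x ζ * p0 M ζ) ∂mT = 0 := by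
    intro n
    rw [← hx1 n, L2.inner_def]
    refine integral_congr_ae ?_
    have h1 := mulL_coe (hbm n) (p0 M)
    rw [hZn n]
    filter_upwards [h1, hp] with ζ h1 h2
    rw [h1, RCLike.inner_apply, map_mul, map_zpow₀, Complex.conj_eq_iff_im.2 h2.1]
    ring
  have hR0 : 0 < R := by rw [hR]; exact Real.exp_pos _
  have hR1 : R ≠ 1 := by
    rw [hR]
    intro h
    rw [Real.exp_eq_one_iff] at h
    have := X.ellpos
    have := Real.pi_pos
    have h3 : 0 < Real.pi * (2 * Real.pi / X.ell) := by positivity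
    linarith
  have hRc : (R : ℂ) ≠ 0 := by exact_mod_cast hR0.ne'
  have hnB : ∀ᵐ ζ ∂mT, ζ ∈ {ζ | 0 < X.s ζ} → ‖Z ζ‖ = 1 := by
    filter_upwards [X.s0] with ζ hζ hζB
    rw [hZ, V_norm _ _ _ hζ, if_pos hζB]
  have hnC : ∀ᵐ ζ ∂mT, ζ ∈ {ζ | 0 < X.s ζ}ᶜ → ‖Z ζ‖ = R := by
    filter_upwards [X.s0] with ζ hζ hζB
    have hζB' : ¬ 0 < X.s ζ := hζB
    rw [hZ, V_norm _ _ _ hζ, if_neg hζB', hR]
  have E2 : ∀ n : ℤ, ∫ ζ in {ζ | 0 < X.s ζ}, Z ζ ^ n * (x ζ * p0 M ζ) ∂mT + (R : ℂ) ^ n *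
      ∫ ζ in {ζ | 0 < X.s ζ}ᶜ, ((R : ℂ)⁻¹ * Z ζ) ^ n * (x ζ * p0 M ζ) ∂mT = 0 := by
    intro n
    have h1 := integral_add_compl hB (hint n)
    rw [I2 n] at h1
    rw [← h1, ← integral_const_mul]
    congr 1
    refine integral_congr_ae (Eventually.of_forall fun ζ => ?_)
    simp only
    rw [← mul_assoc, ← mul_zpow, mul_inv_cancel_left₀ hRc]
  have E1 : ∀ n : ℤ, ∫ ζ in {ζ | 0 < X.s ζ}, Z ζ ^ (-n) * (x ζ * p0 M ζ) ∂mT + (R : ℂ) ^ n *
      ∫ ζ in {ζ | 0 < X.s ζ}ᶜ, ((R : ℂ)⁻¹ * Z ζ) ^ (-n) * (x ζ * p0 M ζ) ∂mT = 0 := by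
    intro n
    have h1 := integral_add_compl hB (hint' n)
    rw [I1 n] at h1
    rw [← h1, ← integral_const_mul]
    congr 1
    · apply setIntegral_congr_ae hB
      filter_upwards [hnB] with ζ hζ hζB
      have h2 : conj (Z ζ) = (Z ζ)⁻¹ := by
        rw [Complex.inv_def, Complex.normSq_eq_norm_sq, hζ hζB]
        simp
      rw [h2, inv_zpow, zpow_neg]
    · apply setIntegral_congr_ae hB.compl
      filter_upwards [hnC] with ζ hζ hζB
      have h2 : conj (Z ζ) = (R : ℂ) * ((R : ℂ)⁻¹ * Z ζ)⁻¹ := by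
        rw [mul_inv, inv_inv, Complex.inv_def (Z ζ), Complex.normSq_eq_norm_sq, hζ hζB]
        push_cast
        field_simp
      have h3 : conj (Z ζ) ^ n = (R : ℂ) ^ n * ((R : ℂ)⁻¹ * Z ζ) ^ (-n) := by
        rw [h2, mul_zpow (R : ℂ) (((R : ℂ)⁻¹ * Z ζ)⁻¹) n, inv_zpow, zpow_neg]
      rw [h3, mul_assoc]
  refine ⟨fun n hn => ?_, ?_⟩
  · have h1 := E2 n
    have h2 := E1 (-n)
    rw [neg_neg] at h2
    have h3 : ((R : ℂ) ^ n - (R : ℂ) ^ (-n)) *
        ∫ ζ in {ζ | 0 < X.s ζ}ᶜ, ((R : ℂ)⁻¹ * Z ζ) ^ n * (x ζ * p0 M ζ) ∂mT = 0 := by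
      linear_combination h1 - h2
    have h4 : (R : ℂ) ^ n - (R : ℂ) ^ (-n) ≠ 0 := by
      intro h
      have h5 : R ^ n = R ^ (-n) := by
        have : (R : ℂ) ^ n = (R : ℂ) ^ (-n) := sub_eq_zero.1 h
        exact_mod_cast this
      have := zpow_right_injective₀ hR0 hR1 h5
      omega
    have h5 := (mul_eq_zero.1 h3).resolve_left h4
    rw [h5, mul_zero, add_zero] at h1
    exact ⟨h1, h5⟩
  · have h1 := E2 0
    simpa using h1


/-- an element of the eigenspace all of whose moments vanish is zero -/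
lemma auxF2_zero {S : Sys} (M : Maxi S) (X : Hyp S) (Z : ℂ → ℂ)
    (hZ : Z = Vf X.s (2 * Real.pi / X.ell)) (R : ℝ)
    (hR : R = Real.exp (-(Real.pi * (2 * Real.pi / X.ell)))) {z : L2} (hz : z ∈ Eig M)
    (h1 : ∀ n : ℤ, ∫ ζ in {ζ | 0 < X.s ζ}, Z ζ ^ n * (z ζ * p0 M ζ) ∂mT = 0)
    (h2 : ∀ n : ℤ, ∫ ζ in {ζ | 0 < X.s ζ}ᶜ, ((R : ℂ)⁻¹ * Z ζ) ^ n * (z ζ * p0 M ζ) ∂mT = 0) :
    z = 0 := by
  have hB : MeasurableSet {ζ | 0 < X.s ζ} := measurableSet_lt measurable_const X.smeas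
  have hR0 : 0 < R := by rw [hR]; exact Real.exp_pos _
  have hRc : (R : ℂ) ≠ 0 := by exact_mod_cast hR0.ne'
  have hZm : Measurable Z := by
    rw [hZ]
    exact (V_bdd X.smeas _).1
  have hnB : ∀ᵐ ζ ∂mT, ζ ∈ {ζ | 0 < X.s ζ} → ‖Z ζ‖ = 1 := by
    filter_upwards [X.s0] with ζ hζ hζB
    have hζB' : 0 < X.s ζ := hζB
    rw [hZ, V_norm _ _ _ hζ, if_pos hζB']
  have hnC : ∀ᵐ ζ ∂mT, ζ ∈ {ζ | 0 < X.s ζ}ᶜ → ‖(R : ℂ)⁻¹ * Z ζ‖ = 1 := by
    filter_upwards [X.s0] with ζ hζ hζB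
    have hζB' : ¬ 0 < X.s ζ := hζB
    have h3 : ‖Z ζ‖ = R := by rw [hZ, V_norm _ _ _ hζ, if_neg hζB', hR]
    rw [norm_mul, norm_inv, Complex.norm_real, Real.norm_of_nonneg hR0.le, h3,
      inv_mul_cancel₀ hR0.ne']
  have hzm : Measurable (fun ζ => z ζ) := (Lp.stronglyMeasurable z).measurable
  have hpm : Measurable (fun ζ => p0 M ζ) := (Lp.stronglyMeasurable (p0 M)).measurable
  have hp := p0_pos M
  -- the bounded ratio
  obtain ⟨b, hb⟩ : ∃ b : ℂ → ℂ, b = fun ζ =>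
      (z ζ / p0 M ζ) / ((1 + ‖z ζ / p0 M ζ‖ : ℝ) : ℂ) := ⟨_, rfl⟩
  have hbm : Measurable b := by
    rw [hb]
    have h3 : Measurable fun ζ => z ζ / p0 M ζ := hzm.div hpm
    exact h3.div (Complex.measurable_ofReal.comp (measurable_const.add h3.norm))
  have hb1 : ∀ ζ, ‖b ζ‖ ≤ 1 := by
    intro ζ
    rw [hb]
    simp only
    rw [norm_div, Complex.norm_real, Real.norm_of_nonneg (by positivity), div_le_one (by positivity)]
    linarith [norm_nonneg (z ζ / p0 M ζ)]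
  have hbL : MemLp b 2 mT :=
    MemLp.of_bound hbm.aestronglyMeasurable 1 (Eventually.of_forall hb1)
  have hinv : S.CL (hbL.toLp b) = hbL.toLp b := by
    apply Lp.ext
    have e1 := hbL.coeFn_toLp
    have e2 := S.qi.ae_eq_comp e1
    filter_upwards [S.hCL (hbL.toLp b), e1, e2, ratio_inv M hz] with ζ h3 h4 h5 h6
    have h5' : (hbL.toLp b : ℂ → ℂ) (S.τ ζ) = b (S.τ ζ) := h5
    rw [h3, h4, h5', hb]
    simp only
    rw [h6]
  obtain ⟨U, hUm, hU⟩ := X.inv _ hinv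
  have hbU : ∀ᵐ ζ ∂mT, b ζ = U (Z ζ) := by
    filter_upwards [hU, hbL.coeFn_toLp] with ζ h3 h4
    rw [← h4, h3, hZ]
  obtain ⟨g, hg⟩ : ∃ g : ℂ → ℂ, g = fun w => conj (U w) / ((1 + ‖U w‖ ^ 2 : ℝ) : ℂ) := ⟨_, rfl⟩
  have hgm : Measurable g := by
    rw [hg]
    refine (Complex.continuous_conj.measurable.comp hUm).div (Complex.measurable_ofReal.comp ?_)
    exact measurable_const.add (hUm.norm.pow_const 2)
  have hg1 : ∀ w, ‖g w‖ ≤ 1 := by
    intro w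
    rw [hg]
    simp only
    rw [norm_div, Complex.norm_real, Real.norm_of_nonneg (by positivity), RCLike.norm_conj,
      div_le_one (by positivity)]
    nlinarith [norm_nonneg (U w), sq_nonneg (‖U w‖ - 1)]
  have hxp := auxF2_hxp z (p0 M)
  have hT : Integrable (fun ζ => g (Z ζ) * (z ζ * p0 M ζ)) mT :=
    hxp.bdd_mul (hgm.comp hZm).aestronglyMeasurable (Eventually.of_forall fun ζ => hg1 _)
  have c1 : ∫ ζ in {ζ | 0 < X.s ζ}, g (Z ζ) * (z ζ * p0 M ζ) ∂mT = 0 :=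
    auxF2_core hB hZm hnB (hzm.mul hpm) hxp h1 hgm hg1
  have c2 : ∫ ζ in {ζ | 0 < X.s ζ}ᶜ, g (Z ζ) * (z ζ * p0 M ζ) ∂mT = 0 := by
    have := auxF2_core (e := fun ζ => (R : ℂ)⁻¹ * Z ζ) (h := fun ζ => z ζ * p0 M ζ)
      (g := fun w => g ((R : ℂ) * w)) hB.compl (measurable_const.mul hZm) hnC
      (hzm.mul hpm) hxp h2 (hgm.comp (measurable_const.mul measurable_id)) (fun w => hg1 _)
    simpa only [mul_inv_cancel_left₀ hRc] using this
  have c3 : ∫ ζ, g (Z ζ) * (z ζ * p0 M ζ) ∂mT = 0 := by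
    rw [← integral_add_compl hB hT, c1, c2, add_zero]
  -- the integrand is a nonnegative real function
  obtain ⟨F, hF⟩ : ∃ F : ℂ → ℝ, F = fun ζ => ‖z ζ / p0 M ζ‖ ^ 2 / (1 + ‖z ζ / p0 M ζ‖) *
      (p0 M ζ).re ^ 2 / (1 + ‖b ζ‖ ^ 2) := ⟨_, rfl⟩
  have hF0 : ∀ ζ, 0 ≤ F ζ := by
    intro ζ
    rw [hF]
    positivity
  have hTF : ∀ᵐ ζ ∂mT, g (Z ζ) * (z ζ * p0 M ζ) = ((F ζ : ℝ) : ℂ) := by
    filter_upwards [hbU, hp] with ζ h3 h4
    have hq : p0 M ζ = (((p0 M ζ).re : ℝ) : ℂ) := by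
      apply Complex.ext
      · simp
      · simpa using h4.1
    have hqc : (((p0 M ζ).re : ℝ) : ℂ) ≠ 0 := by
      exact_mod_cast h4.2.ne'
    have hzz : z ζ = (z ζ / p0 M ζ) * (((p0 M ζ).re : ℝ) : ℂ) := by
      rw [← hq, div_mul_cancel₀]
      rw [hq]
      exact hqc
    have h5 : g (Z ζ) = conj (b ζ) / ((1 + ‖b ζ‖ ^ 2 : ℝ) : ℂ) := by
      rw [hg]
      simp only
      rw [← h3]
    have h6 : conj (b ζ) = conj (z ζ / p0 M ζ) / ((1 + ‖z ζ / p0 M ζ‖ : ℝ) : ℂ) := by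
      rw [hb]
      simp only
      rw [map_div₀, Complex.conj_ofReal]
    have h7 : conj (z ζ / p0 M ζ) * (z ζ / p0 M ζ) = ((‖z ζ / p0 M ζ‖ ^ 2 : ℝ) : ℂ) := by
      rw [Complex.conj_mul']
      push_cast
      rfl
    have h8 : z ζ * p0 M ζ = (z ζ / p0 M ζ) * (((p0 M ζ).re ^ 2 : ℝ) : ℂ) := by
      conv_lhs => rw [hzz]
      conv_lhs =>
        rhs
        rw [hq]
      push_cast
      ring
    have h9 : F ζ = ‖z ζ / p0 M ζ‖ ^ 2 / (1 + ‖z ζ / p0 M ζ‖) *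
      (p0 M ζ).re ^ 2 / (1 + ‖b ζ‖ ^ 2) := by rw [hF]
    rw [h5, h6, h8, h9]
    generalize z ζ / p0 M ζ = ψ at h7 ⊢
    have e1 : ((1 + ‖ψ‖ : ℝ) : ℂ) ≠ 0 := by
      have : (1 + ‖ψ‖ : ℝ) ≠ 0 := by positivity
      exact_mod_cast this
    have e2 : ((1 + ‖b ζ‖ ^ 2 : ℝ) : ℂ) ≠ 0 := by
      have : (1 + ‖b ζ‖ ^ 2 : ℝ) ≠ 0 := by positivity
      exact_mod_cast this
    rw [Complex.ofReal_div, Complex.ofReal_mul, Complex.ofReal_div, ← h7]
    field_simp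
  have hFi : Integrable F mT := by
    have h3 : Integrable (fun ζ => ((F ζ : ℝ) : ℂ)) mT := hT.congr hTF
    exact h3.re
  have hF1 : ∫ ζ, F ζ ∂mT = 0 := by
    have h3 : ∫ ζ, ((F ζ : ℝ) : ℂ) ∂mT = 0 := by
      rw [← integral_congr_ae hTF, c3]
    rw [integral_complex_ofReal] at h3
    exact_mod_cast h3
  have hF2 : F =ᵐ[mT] 0 := (integral_eq_zero_iff_of_nonneg hF0 hFi).1 hF1
  rw [Lp.eq_zero_iff_ae_eq_zero]
  filter_upwards [hF2, hp] with ζ h3 h4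
  have h5 : F ζ = 0 := h3
  rw [hF] at h5
  simp only at h5
  have h6 : ‖z ζ / p0 M ζ‖ = 0 := by
    by_contra h7
    have h8 : 0 < ‖z ζ / p0 M ζ‖ := lt_of_le_of_ne (norm_nonneg _) (Ne.symm h7)
    have h9 := h4.2
    have : 0 < ‖z ζ / p0 M ζ‖ ^ 2 / (1 + ‖z ζ / p0 M ζ‖) *
      (p0 M ζ).re ^ 2 / (1 + ‖b ζ‖ ^ 2) := by positivity
    linarith
  rw [norm_eq_zero, div_eq_zero_iff] at h6
  rcases h6 with h6 | h6
  · simpa using h6
  · exfalso
    rw [h6] at h4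
    simp at h4


/-- the annihilator of the powers of `Z` and their conjugates is at most one-dimensional -/
lemma dep {S : Sys} (M : Maxi S) (X : Hyp S) {x y : L2} (hx : x ∈ Eig M) (hy : y ∈ Eig M)
    (hx1 : ∀ n : ℤ, (inner ℂ (mulL (Zp X n) (p0 M)) x : ℂ) = 0)
    (hx2 : ∀ n : ℤ, (inner ℂ (star (mulL (Zp X n) (p0 M))) x : ℂ) = 0)
    (hy1 : ∀ n : ℤ, (inner ℂ (mulL (Zp X n) (p0 M)) y : ℂ) = 0)
    (hy2 : ∀ n : ℤ, (inner ℂ (star (mulL (Zp X n) (p0 M))) y : ℂ) = 0) :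
    ∃ a b : ℂ, (a ≠ 0 ∨ b ≠ 0) ∧ a • x + b • y = 0 := by
  have hB : MeasurableSet {ζ | 0 < X.s ζ} := measurableSet_lt measurable_const X.smeas
  obtain ⟨Z, hZ⟩ : ∃ Z : ℂ → ℂ, Z = Vf X.s (2 * Real.pi / X.ell) := ⟨_, rfl⟩
  obtain ⟨R, hR⟩ : ∃ R : ℝ, R = Real.exp (-(Real.pi * (2 * Real.pi / X.ell))) := ⟨_, rfl⟩
  obtain ⟨φ, hφ⟩ : ∃ φ : L2 → ℂ, φ = fun w => ∫ ζ in {ζ | 0 < X.s ζ}, w ζ * p0 M ζ ∂mT := ⟨_, rfl⟩
  obtain ⟨a, b, hab, h0⟩ : ∃ a b : ℂ, (a ≠ 0 ∨ b ≠ 0) ∧ a * φ x + b * φ y = 0 := by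
    by_cases hx0 : φ x = 0
    · exact ⟨1, 0, Or.inl one_ne_zero, by rw [hx0]; ring⟩
    · exact ⟨φ y, -φ x, Or.inr (neg_ne_zero.2 hx0), by ring⟩
  refine ⟨a, b, hab, ?_⟩
  have hz : a • x + b • y ∈ Eig M :=
    (Eig M).add_mem ((Eig M).smul_mem _ hx) ((Eig M).smul_mem _ hy)
  have hz1 : ∀ n : ℤ, (inner ℂ (mulL (Zp X n) (p0 M)) (a • x + b • y) : ℂ) = 0 := by
    intro n
    rw [inner_add_right, inner_smul_right, inner_smul_right, hx1, hy1]
    ring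
  have hz2 : ∀ n : ℤ, (inner ℂ (star (mulL (Zp X n) (p0 M))) (a • x + b • y) : ℂ) = 0 := by
    intro n
    rw [inner_add_right, inner_smul_right, inner_smul_right, hx2, hy2]
    ring
  obtain ⟨m1, m2⟩ := auxF2_mom M X Z hZ R hR hz1 hz2
  have hφz : ∫ ζ in {ζ | 0 < X.s ζ}, (a • x + b • y : L2) ζ * p0 M ζ ∂mT = 0 := by
    have h1 : ∫ ζ in {ζ | 0 < X.s ζ}, (a • x + b • y : L2) ζ * p0 M ζ ∂mT =
        ∫ ζ in {ζ | 0 < X.s ζ}, (a * (x ζ * p0 M ζ) + b * (y ζ * p0 M ζ)) ∂mT := by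
      apply setIntegral_congr_ae hB
      filter_upwards [Lp.coeFn_add (a • x) (b • y), Lp.coeFn_smul a x, Lp.coeFn_smul b y]
        with ζ e1 e2 e3 _
      rw [e1, Pi.add_apply, e2, e3, Pi.smul_apply, Pi.smul_apply, smul_eq_mul, smul_eq_mul]
      ring
    rw [h1, integral_add ((auxF2_hxp x (p0 M)).restrict.const_mul a)
      ((auxF2_hxp y (p0 M)).restrict.const_mul b), integral_const_mul, integral_const_mul]
    rw [hφ] at h0
    exact h0
  apply auxF2_zero M X Z hZ R hR hz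
  · intro n
    by_cases hn : n = 0
    · subst hn
      simpa using hφz
    · exact (m1 n hn).1
  · intro n
    by_cases hn : n = 0
    · subst hn
      rw [hφz, zero_add] at m2
      simpa using m2
    · exact (m1 n hn).2

/-- Laurent polynomials in `Z` times `p₀` -/
def Lspan {S : Sys} (M : Maxi S) (X : Hyp S) : Submodule ℂ L2 :=
  Submodule.span ℂ (Set.range fun n : ℤ => mulL (Zp X n) (p0 M))

lemma auxF3_Zp0 {S : Sys} (M : Maxi S) (X : Hyp S) : mulL (Zp X 0) (p0 M) = p0 M := by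
  apply Lp.ext
  filter_upwards [mulL_coe (Zp_inv X 0).1 (p0 M)] with ζ hζ
  rw [hζ]
  have : Zp X 0 ζ = 1 := by
    unfold Zp
    have h0 : (((0 : ℤ) : ℝ) * (2 * Real.pi / X.ell)) = 0 := by simp
    rw [h0]
    exact V_zero X.s ζ
  rw [this, one_mul]

/-- the analytic half as a submodule -/
def auxF3_T {S : Sys} (M : Maxi S) : Submodule ℂ L2 where
  carrier := {x | InM M x}
  zero_mem' := by
    have := inM_smul M (0 : ℂ) (p0_inM M)
    rw [zero_smul] at this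
    exact this
  add_mem' := fun hx hy => inM_add M hx hy
  smul_mem' := fun c _ hx => inM_smul M c hx

lemma auxF3_le {S : Sys} (M : Maxi S) (X : Hyp S) :
    (Lspan M X).topologicalClosure ≤ auxF3_T M := by
  apply Submodule.topologicalClosure_minimal _ _ (inM_closed M)
  unfold Lspan
  rw [Submodule.span_le]
  rintro _ ⟨n, rfl⟩
  exact inM_mul M (Zp_inv X n) (X.VH _) (p0_inM M)

lemma inM_closure {S : Sys} (M : Maxi S) (X : Hyp S) {x : L2} (hx : InM M x) :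
    x ∈ (Lspan M X).topologicalClosure := by
  have hcl : IsClosed ((Lspan M X).topologicalClosure : Set L2) :=
    Submodule.isClosed_topologicalClosure _
  haveI : CompleteSpace (Lspan M X).topologicalClosure := hcl.completeSpace_coe
  set L := (Lspan M X).topologicalClosure with hL
  set p : L2 := L.starProjection x with hp
  have hpL : p ∈ L := Submodule.starProjection_apply_mem L x
  set v : L2 := x + (-1 : ℂ) • p with hv
  have hvx : v = x - p := by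
    rw [hv, neg_one_smul, sub_eq_add_neg]
  have hvM : InM M v := inM_add M hx (inM_smul M _ (auxF3_le M X hpL))
  have hort : ∀ y ∈ L, (inner ℂ y v : ℂ) = 0 := by
    intro y hy
    have h1 : x - L.starProjection x ∈ Lᗮ := Submodule.sub_starProjection_mem_orthogonal x
    rw [hvx]
    exact (Submodule.mem_orthogonal L _).mp h1 y hy
  have hw : ∀ n : ℤ, InM M (mulL (Zp X n) (p0 M)) := fun n =>
    inM_mul M (Zp_inv X n) (X.VH _) (p0_inM M)
  have hx1 : ∀ n : ℤ, (inner ℂ (mulL (Zp X n) (p0 M)) v : ℂ) = 0 := by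
    intro n
    apply hort
    apply Submodule.le_topologicalClosure
    exact Submodule.subset_span ⟨n, rfl⟩
  have hmean : (inner ℂ (mon 0) v : ℂ) = 0 := by
    have h1 := hx1 0
    rw [auxF3_Zp0] at h1
    have h2 : (inner ℂ v (p0 M) : ℂ) = inner ℂ v (mon 0) := inner_PE M hvM.1 (mon 0)
    rw [← inner_conj_symm, ← h2, inner_conj_symm]
    exact h1
  have hvH : v ∈ Hs := inM_mem_Hs M hvM hmean
  have hsE : star v ∈ Eig M := star_mem_Eig M hvM.1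
  have hsO : ∀ y ∈ Hs, (inner ℂ y (star v) : ℂ) = 0 := by
    intro y hy
    refine orth_of_star_mem ?_ ?_ hy
    · rw [star_star]; exact hvH
    · rw [star_star]; exact hmean
  have hy1 : ∀ n : ℤ, (inner ℂ (mulL (Zp X n) (p0 M)) (star v) : ℂ) = 0 := by
    intro n
    have h1 := (hw n).2 (star v) hsE hsO
    rw [← inner_conj_symm, h1, map_zero]
  have hx2 : ∀ n : ℤ, (inner ℂ (star (mulL (Zp X n) (p0 M))) v : ℂ) = 0 := by
    intro n
    have h1 := inner_star_star (mulL (Zp X n) (p0 M)) (star v)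
    rw [star_star, hy1 n, map_zero] at h1
    exact h1
  have hy2 : ∀ n : ℤ, (inner ℂ (star (mulL (Zp X n) (p0 M))) (star v) : ℂ) = 0 := by
    intro n
    rw [inner_star_star, hx1 n, map_zero]
  obtain ⟨a, b, hab, h0⟩ := dep M X hvM.1 hsE hx1 hx2 hy1 hy2
  have hvs : (inner ℂ v (star v) : ℂ) = 0 := hsO v hvH
  have hsv : (inner ℂ (star v) v : ℂ) = 0 := by
    rw [← inner_conj_symm, hvs, map_zero]
  have hv0 : v = 0 := by
    have e1 : (inner ℂ v (a • v + b • star v) : ℂ) = a * inner ℂ v v := by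
      rw [inner_add_right, inner_smul_right, inner_smul_right, hvs, mul_zero, add_zero]
    have e2 : (inner ℂ (star v) (a • v + b • star v) : ℂ) = b * conj (inner ℂ v v : ℂ) := by
      rw [inner_add_right, inner_smul_right, inner_smul_right, hsv, mul_zero, zero_add,
        inner_star_star]
    rw [h0, inner_zero_right] at e1 e2
    rcases hab with ha | hb
    · have : (inner ℂ v v : ℂ) = 0 := by
        rcases mul_eq_zero.mp e1.symm with h | h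
        · exact absurd h ha
        · exact h
      exact inner_self_eq_zero.mp this
    · have : conj (inner ℂ v v : ℂ) = 0 := by
        rcases mul_eq_zero.mp e2.symm with h | h
        · exact absurd h hb
        · exact h
      have h3 : (inner ℂ v v : ℂ) = 0 := by
        have := congrArg conj this
        rwa [Complex.conj_conj, map_zero] at this
      exact inner_self_eq_zero.mp h3
  have : x = p := by
    rw [hvx] at hv0
    exact sub_eq_zero.mp hv0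
  rw [this]
  exact hpL

lemma auxF4_comm {g h : ℂ → ℂ} (hg : BddMeas g) (hh : BddMeas h) (x : L2) :
    mulL g (mulL h x) = mulL h (mulL g x) := by
  apply Lp.ext
  filter_upwards [mulL_coe hg (mulL h x), mulL_coe hh (mulL g x), mulL_coe hh x,
    mulL_coe hg x] with ζ h1 h2 h3 h4
  rw [h1, h2, h3, h4]
  ring

lemma auxF4_span {S : Sys} (M : Maxi S) (X : Hyp S) {F : ℂ → ℂ} (hF : Inv S F)
    (hFM : InM M (mulL F (p0 M))) {L : L2} (hL : L ∈ Lspan M X) :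
    InM M (mulL F L) ∧ (inner ℂ (mon 0) (mulL F L) : ℂ) =
      ((inner ℂ (mon 0) (mulL F (p0 M)) : ℂ) / ((‖p0 M‖ ^ 2 : ℝ) : ℂ)) * inner ℂ (mon 0) L := by
  unfold Lspan at hL
  induction hL using Submodule.span_induction with
  | mem x hx =>
    obtain ⟨n, rfl⟩ := hx
    have hZb : BddMeas (Zp X n) := V_bdd X.smeas _
    have hZH : ∀ x ∈ Hs, mulL (Zp X n) x ∈ Hs := X.VH _
    rw [auxF4_comm hF.1 hZb]
    refine ⟨inM_mul M (Zp_inv X n) hZH hFM, ?_⟩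
    obtain ⟨e, heE, heH, hdec⟩ := inM_decomp M hFM
    conv_lhs => rw [hdec]
    rw [map_add, map_smul, inner_add_right, inner_smul_right]
    rw [mean_zero M (mul_mem_Eig M (Zp_inv X n) heE) (hZH e heH), zero_add]
  | zero =>
    rw [map_zero]
    refine ⟨?_, by simp⟩
    have := inM_smul M 0 (p0_inM M)
    simpa using this
  | add x y _ _ hx hy =>
    rw [map_add]
    refine ⟨inM_add M hx.1 hy.1, ?_⟩
    rw [inner_add_right, inner_add_right, hx.2, hy.2]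
    ring
  | smul c x _ hx =>
    rw [map_smul]
    refine ⟨inM_smul M c hx.1, ?_⟩
    rw [inner_smul_right, inner_smul_right, hx.2]
    ring

lemma auxF4_closure {S : Sys} (M : Maxi S) (X : Hyp S) {F : ℂ → ℂ} (hF : Inv S F)
    (hFM : InM M (mulL F (p0 M))) {L : L2} (hL : L ∈ (Lspan M X).topologicalClosure) :
    InM M (mulL F L) ∧ (inner ℂ (mon 0) (mulL F L) : ℂ) =
      ((inner ℂ (mon 0) (mulL F (p0 M)) : ℂ) / ((‖p0 M‖ ^ 2 : ℝ) : ℂ)) * inner ℂ (mon 0) L := by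
  have hcl : IsClosed {L : L2 | InM M (mulL F L) ∧ (inner ℂ (mon 0) (mulL F L) : ℂ) =
      ((inner ℂ (mon 0) (mulL F (p0 M)) : ℂ) / ((‖p0 M‖ ^ 2 : ℝ) : ℂ)) *
        inner ℂ (mon 0) L} := by
    apply IsClosed.inter
    · exact (inM_closed M).preimage (mulL F).continuous
    · exact isClosed_eq (by fun_prop) (by fun_prop)
  have hsub : (Lspan M X : Set L2) ⊆ {L : L2 | InM M (mulL F L) ∧
      (inner ℂ (mon 0) (mulL F L) : ℂ) =
      ((inner ℂ (mon 0) (mulL F (p0 M)) : ℂ) / ((‖p0 M‖ ^ 2 : ℝ) : ℂ)) *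
        inner ℂ (mon 0) L} := fun L hL => auxF4_span M X hF hFM hL
  exact closure_minimal hsub hcl hL

/-- bounded elements of `M / p₀` multiply `E₊` into itself -/
lemma mul_Eplus {S : Sys} (M : Maxi S) (X : Hyp S) {F : ℂ → ℂ} (hF : Inv S F)
    (hFM : InM M (mulL F (p0 M))) {e : L2} (he : e ∈ Eig M) (heH : e ∈ Hs) :
    mulL F e ∈ Eig M ∧ mulL F e ∈ Hs := by
  have h := auxF4_closure M X hF hFM (inM_closure M X (inM_of_Hs M he heH))
  refine ⟨mul_mem_Eig M hF he, inM_mem_Hs M h.1 ?_⟩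
  rw [h.2, mean_zero M he heH, mul_zero]

lemma mul_inM {S : Sys} (M : Maxi S) (X : Hyp S) {F G : ℂ → ℂ} (hF : Inv S F)
    (hFM : InM M (mulL F (p0 M))) (hG : Inv S G) (hGM : InM M (mulL G (p0 M))) :
    InM M (mulL F (mulL G (p0 M))) ∧
    (inner ℂ (mon 0) (mulL F (mulL G (p0 M))) : ℂ) * ((‖p0 M‖ ^ 2 : ℝ) : ℂ) =
      inner ℂ (mon 0) (mulL F (p0 M)) * inner ℂ (mon 0) (mulL G (p0 M)) := by
  have h := auxF4_closure M X hF hFM (inM_closure M X hGM)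
  refine ⟨h.1, ?_⟩
  rw [h.2]
  have hne : ((‖p0 M‖ ^ 2 : ℝ) : ℂ) ≠ 0 := by
    have := (norm_p0 M).2
    exact_mod_cast (pow_pos this 2).ne'
  field_simp

lemma exists_Y {S : Sys} (M : Maxi S) (X : Hyp S) (t : ℝ) :
    ∃ Y : ℂ → ℂ, Inv S Y ∧ mulL Y (p0 M) = PE M (mulL (Vf X.s t) (mon 0)) := by
  have hV := V_bdd X.smeas t
  obtain ⟨K, hK⟩ := hV.2
  have hxE : PE M (mulL (Vf X.s t) (mon 0)) ∈ Eig M := PE_mem M _
  have hbd : ∀ᵐ ζ ∂mT, ‖(mulL (Vf X.s t) (mon 0) : ℂ → ℂ) ζ‖ ≤ K := by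
    filter_upwards [hK, mulL_coe hV (mon 0), mon_coe 0] with ζ h1 h2 h3
    rw [h2, h3, zpow_zero, mul_one]
    exact h1
  have hP := PE_bdd M hbd
  have hpos := p0_pos M
  set x : L2 := PE M (mulL (Vf X.s t) (mon 0)) with hx
  have hpn : ∀ᵐ ζ ∂mT, ‖p0 M ζ‖ = (p0 M ζ).re ∧ 0 < (p0 M ζ).re ∧ p0 M ζ ≠ 0 := by
    filter_upwards [hpos] with ζ h
    have h1 : p0 M ζ = (((p0 M ζ).re : ℝ) : ℂ) := by
      apply Complex.ext
      · simp
      · simp [h.1]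
    refine ⟨?_, h.2, ?_⟩
    · rw [h1, Complex.norm_real, Real.norm_eq_abs, abs_of_pos h.2, Complex.ofReal_re]
    · intro h0
      have h2 := h.2
      rw [h0] at h2
      simp at h2
  have hY : BddMeas (fun ζ => x ζ / p0 M ζ) := by
    refine ⟨(Lp.stronglyMeasurable x).measurable.div (Lp.stronglyMeasurable (p0 M)).measurable,
      2 * K, ?_⟩
    filter_upwards [hP, hpn] with ζ h1 h2
    rw [norm_div, h2.1, div_le_iff₀ h2.2.1]
    exact h1
  refine ⟨fun ζ => x ζ / p0 M ζ, ⟨hY, ratio_inv M hxE⟩, ?_⟩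
  apply Lp.ext
  filter_upwards [mulL_coe hY (p0 M), hpn] with ζ h1 h2
  rw [h1]
  exact div_mul_cancel₀ _ h2.2.2

def Yf {S : Sys} (M : Maxi S) (X : Hyp S) (t : ℝ) : ℂ → ℂ := (exists_Y M X t).choose

lemma Y_inv {S : Sys} (M : Maxi S) (X : Hyp S) (t : ℝ) : Inv S (Yf M X t) :=
  (exists_Y M X t).choose_spec.1

lemma Y_mul {S : Sys} (M : Maxi S) (X : Hyp S) (t : ℝ) :
    mulL (Yf M X t) (p0 M) = PE M (mulL (Vf X.s t) (mon 0)) :=
  (exists_Y M X t).choose_spec.2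

lemma auxF6_star {S : Sys} (X : Hyp S) (t : ℝ) :
    star (mulL (Vf X.s t) (mon 0)) =
      mulL (fun ζ => ((‖Vf X.s t ζ‖ ^ 2 : ℝ) : ℂ)) (mulL (Vf X.s (-t)) (mon 0)) := by
  apply Lp.ext
  filter_upwards [star_coe (mulL (Vf X.s t) (mon 0)), mulL_coe (V_bdd X.smeas t) (mon 0),
    mulL_coe (normV_inv X t).1 (mulL (Vf X.s (-t)) (mon 0)),
    mulL_coe (V_bdd X.smeas (-t)) (mon 0), mon_coe 0] with ζ h1 h2 h3 h4 h5
  rw [h1, h2, h3, h4, h5, zpow_zero, mul_one, mul_one, V_conj]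

lemma Y_inM {S : Sys} (M : Maxi S) (X : Hyp S) (t : ℝ) : InM M (mulL (Yf M X t) (p0 M)) := by
  rw [Y_mul]
  exact PE_inM M (X.VH t _ (mon_mem le_rfl))

lemma Y_conj {S : Sys} (M : Maxi S) (X : Hyp S) (t : ℝ) :
    ∀ᵐ ζ ∂mT, conj (Yf M X t ζ) = ((‖Vf X.s t ζ‖ ^ 2 : ℝ) : ℂ) * Yf M X (-t) ζ := by
  have key : star (mulL (Yf M X t) (p0 M)) =
      mulL (fun ζ => ((‖Vf X.s t ζ‖ ^ 2 : ℝ) : ℂ)) (mulL (Yf M X (-t)) (p0 M)) := by
    rw [Y_mul, Y_mul, ← PE_star, auxF6_star, PE_mul M (normV_inv X t)]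
  have h0 : (star (mulL (Yf M X t) (p0 M)) : L2) =ᵐ[mT]
      (mulL (fun ζ => ((‖Vf X.s t ζ‖ ^ 2 : ℝ) : ℂ)) (mulL (Yf M X (-t)) (p0 M)) : L2) := by
    rw [key]
  filter_upwards [h0, star_coe (mulL (Yf M X t) (p0 M)), mulL_coe (Y_inv M X t).1 (p0 M),
    mulL_coe (normV_inv X t).1 (mulL (Yf M X (-t)) (p0 M)),
    mulL_coe (Y_inv M X (-t)).1 (p0 M), p0_pos M] with ζ h1 h2 h3 h4 h5 h6
  rw [h2, h3, h4, h5, map_mul] at h1
  have h7 : conj (p0 M ζ) = p0 M ζ := Complex.conj_eq_iff_im.2 h6.1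
  have h8 : p0 M ζ ≠ 0 := by
    intro h
    rw [h] at h6
    simp at h6
  rw [h7, ← mul_assoc] at h1
  exact mul_right_cancel₀ h8 h1

lemma Y_prod {S : Sys} (M : Maxi S) (X : Hyp S) (t : ℝ) :
    ∃ u : ℂ, (∀ᵐ ζ ∂mT, Yf M X t ζ * Yf M X (-t) ζ = u) ∧
      u * ((‖p0 M‖ ^ 2 : ℝ) : ℂ) ^ 2 =
        inner ℂ (mon 0) (mulL (Yf M X t) (p0 M)) * inner ℂ (mon 0) (mulL (Yf M X (-t)) (p0 M)) := by
  have hI := mul_inM M X (Y_inv M X t) (Y_inM M X t) (Y_inv M X (-t)) (Y_inM M X (-t))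
  have hstar : star (mulL (Yf M X t) (mulL (Yf M X (-t)) (p0 M)))
      = mulL (Yf M X t) (mulL (Yf M X (-t)) (p0 M)) := by
    apply Lp.ext
    filter_upwards [star_coe (mulL (Yf M X t) (mulL (Yf M X (-t)) (p0 M))),
      mulL_coe (Y_inv M X t).1 (mulL (Yf M X (-t)) (p0 M)),
      mulL_coe (Y_inv M X (-t)).1 (p0 M), p0_pos M, Y_conj M X t, Y_conj M X (-t)]
      with ζ h1 h2 h3 h4 h5 h6
    rw [h1, h2, h3, map_mul, map_mul, h5, h6, neg_neg]
    have h7 : conj (p0 M ζ) = p0 M ζ := by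
      rw [Complex.conj_eq_iff_im]; exact h4.1
    rw [h7]
    have h8 : ‖Vf X.s t ζ‖ ^ 2 * ‖Vf X.s (-t) ζ‖ ^ 2 = 1 := by
      rw [← mul_pow, ← norm_mul, ← V_add, add_neg_cancel, V_zero]
      simp
    have h9 : ((‖Vf X.s t ζ‖ ^ 2 : ℝ) : ℂ) * ((‖Vf X.s (-t) ζ‖ ^ 2 : ℝ) : ℂ) = 1 := by
      rw [← Complex.ofReal_mul, h8, Complex.ofReal_one]
    linear_combination (Yf M X (-t) ζ * Yf M X t ζ * p0 M ζ) * h9
  obtain ⟨c, hc⟩ := inM_star M hI.1 (by rw [hstar]; exact hI.1)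
  refine ⟨c, ?_, ?_⟩
  · have hcae : (mulL (Yf M X t) (mulL (Yf M X (-t)) (p0 M)) : ℂ → ℂ) =ᵐ[mT]
        fun ζ => c * p0 M ζ := by
      rw [hc]
      filter_upwards [Lp.coeFn_smul c (p0 M)] with ζ h
      rw [h]; rfl
    filter_upwards [hcae, mulL_coe (Y_inv M X t).1 (mulL (Yf M X (-t)) (p0 M)),
      mulL_coe (Y_inv M X (-t)).1 (p0 M), p0_pos M] with ζ h1 h2 h3 h4
    have hne : p0 M ζ ≠ 0 := by
      intro h
      rw [h] at h4
      simp at h4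
    rw [h2, h3, ← mul_assoc] at h1
    exact mul_right_cancel₀ hne h1
  · rw [← hI.2, hc, inner_smul_right, (norm_p0 M).1]
    ring

lemma auxF8_norm (s : ℂ → ℝ) (t : ℝ) (ht : |t| ≤ 1) (ζ : ℂ) : ‖Vf s t ζ‖ ≤ Real.exp Real.pi := by
  unfold Vf
  rw [Complex.norm_exp]
  apply Real.exp_le_exp.2
  have h1 : (Complex.I * t * Complex.log (s ζ : ℂ)).re = -(t * Complex.arg (s ζ : ℂ)) := by
    have : (Complex.I * t * Complex.log (s ζ : ℂ)) = (t : ℂ) * (Complex.I * Complex.log (s ζ : ℂ)) := by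
      ring
    rw [this, Complex.re_ofReal_mul, Complex.I_mul_re, Complex.log_im]
    ring
  rw [h1]
  have h2 : |t * Complex.arg (s ζ : ℂ)| ≤ 1 * Real.pi := by
    rw [abs_mul]
    exact mul_le_mul ht (Complex.abs_arg_le_pi _) (abs_nonneg _) zero_le_one
  have h3 := neg_abs_le (t * Complex.arg (s ζ : ℂ))
  linarith

lemma auxF8_sa {S : Sys} (M : Maxi S) (y : L2) :
    (inner ℂ (mon 0) (PE M y) : ℂ) = inner ℂ (p0 M) y := by
  have h1 : (inner ℂ (mon 0) (PE M y) : ℂ) = inner ℂ (p0 M) (PE M y) := by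
    rw [← inner_conj_symm, ← inner_PE M (PE_mem M y) (mon 0), inner_conj_symm]
    rfl
  rw [h1]
  exact inner_PE M (PE_mem M (mon 0)) y

lemma Y_mean {S : Sys} (M : Maxi S) (X : Hyp S) :
    Tendsto (fun t : ℝ => (inner ℂ (mon 0) (mulL (Yf M X t) (p0 M)) : ℂ)) (nhds 0)
      (nhds ((‖p0 M‖ ^ 2 : ℝ) : ℂ)) := by
  have hlim : ((‖p0 M‖ ^ 2 : ℝ) : ℂ) = ∫ ζ, (inner ℂ (p0 M ζ) (1 * (mon 0 : L2) ζ) : ℂ) ∂mT := by
    have h1 : (inner ℂ (p0 M) (mon 0) : ℂ) = ((‖p0 M‖ ^ 2 : ℝ) : ℂ) := by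
      rw [← inner_conj_symm, (norm_p0 M).1, Complex.conj_ofReal]
    rw [← h1, MeasureTheory.L2.inner_def]
    simp only [one_mul]
  have heq : ∀ t : ℝ, (inner ℂ (mon 0) (mulL (Yf M X t) (p0 M)) : ℂ) =
      ∫ ζ, (inner ℂ (p0 M ζ) (Vf X.s t ζ * (mon 0 : L2) ζ) : ℂ) ∂mT := by
    intro t
    rw [Y_mul, auxF8_sa, MeasureTheory.L2.inner_def]
    apply integral_congr_ae
    filter_upwards [mulL_coe (V_bdd X.smeas t) (mon 0)] with ζ hζ
    rw [hζ]
  simp only [heq]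
  rw [hlim]
  apply tendsto_integral_filter_of_dominated_convergence
    (fun ζ => ‖p0 M ζ‖ * Real.exp Real.pi)
  · refine Eventually.of_forall fun t => ?_
    exact (Lp.aestronglyMeasurable (p0 M)).inner
      ((V_bdd X.smeas t).1.aestronglyMeasurable.mul (Lp.aestronglyMeasurable (mon 0)))
  · have h1 : ∀ᶠ t : ℝ in nhds 0, |t| ≤ 1 := by
      have : ∀ᶠ t : ℝ in nhds 0, t ∈ Metric.closedBall (0 : ℝ) 1 :=
        Metric.closedBall_mem_nhds 0 one_pos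
      filter_upwards [this] with t ht
      simpa [Real.dist_eq] using ht
    filter_upwards [h1] with t ht
    filter_upwards [mon_coe 0] with ζ hζ
    refine (norm_inner_le_norm _ _).trans ?_
    rw [norm_mul, hζ, zpow_zero, norm_one, mul_one]
    exact mul_le_mul_of_nonneg_left (auxF8_norm X.s t ht ζ) (norm_nonneg _)
  · exact (((Lp.memLp (p0 M)).integrable (by norm_num)).norm).mul_const _
  · refine Eventually.of_forall fun ζ => ?_
    have hV : Tendsto (fun t : ℝ => Vf X.s t ζ) (nhds 0) (nhds 1) := by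
      have hc : Continuous (fun t : ℝ => Vf X.s t ζ) := by
        unfold Vf
        fun_prop
      have := hc.tendsto 0
      simpa [V_zero] using this
    exact Tendsto.inner tendsto_const_nhds (hV.mul tendsto_const_nhds)

theorem auxF9_approx (b : ℂ → ℂ) (hb : Continuous b) (ε : ℝ) (hε : 0 < ε) :
    ∃ c : ℤ →₀ ℂ, ∀ z : ℂ, ‖z‖ = 1 → ‖b z - ∑ k ∈ c.support, c k * z ^ k‖ ≤ ε := by
  haveI : Fact (0 < (1 : ℝ)) := ⟨one_pos⟩
  let F : C(AddCircle (1 : ℝ), ℂ) := ⟨fun x => b (AddCircle.toCircle x : ℂ), by fun_prop⟩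
  have hF : F ∈ (Submodule.span ℂ (Set.range (@fourier (1 : ℝ)))).topologicalClosure := by
    rw [span_fourier_closure_eq_top]
    trivial
  obtain ⟨g, hg, hdist⟩ := Metric.mem_closure_iff.1 hF ε hε
  obtain ⟨c, hc⟩ := Finsupp.mem_span_range_iff_exists_finsupp.1 hg
  refine ⟨c, fun z hz => ?_⟩
  let u : Circle := ⟨z, by simp [Submonoid.unitSphere, hz]⟩
  obtain ⟨x, hx⟩ := (AddCircle.homeomorphCircle (T := (1 : ℝ)) one_ne_zero).surjective u
  rw [AddCircle.homeomorphCircle_apply] at hx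
  have hx' : (AddCircle.toCircle x : ℂ) = z := by rw [hx]
  have h1 : ‖F x - g x‖ ≤ ε := by
    rw [← dist_eq_norm]
    exact (ContinuousMap.dist_apply_le_dist x).trans hdist.le
  have h2 : F x = b z := by
    show b (AddCircle.toCircle x : ℂ) = b z
    rw [hx']
  have h3 : g x = ∑ k ∈ c.support, c k * z ^ k := by
    rw [← hc, Finsupp.sum, ContinuousMap.coe_sum, Finset.sum_apply]
    apply Finset.sum_congr rfl
    intro k _
    rw [ContinuousMap.smul_apply, smul_eq_mul, fourier_apply, AddCircle.toCircle_zsmul,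
      Circle.coe_zpow, hx']
  rw [h2, h3] at h1
  exact h1

theorem auxF9_zpow {G : ℂ → ℂ} (hG : Measurable G) (hG1 : ∀ᵐ ζ ∂mT, ‖G ζ‖ = 1) (n : ℤ) :
    BddMeas (fun ζ => G ζ ^ n) := by
  refine ⟨(by fun_prop : Measurable (fun z : ℂ => z ^ n)).comp hG, 1, ?_⟩
  filter_upwards [hG1] with ζ hζ
  rw [norm_zpow, hζ, one_zpow]

theorem auxF9_sum {f : L2} {G : ℂ → ℂ} (hG : Measurable G)
    (hG1 : ∀ᵐ ζ ∂mT, ‖G ζ‖ = 1) (c : ℤ → ℂ) (s : Finset ℤ) :
    ((∑ k ∈ s, c k • mulL (fun ζ => G ζ ^ k) f : L2) : ℂ → ℂ) =ᵐ[mT]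
      fun ζ => (∑ k ∈ s, c k * G ζ ^ k) * f ζ := by
  classical
  induction s using Finset.induction_on with
  | empty =>
    rw [Finset.sum_empty]
    filter_upwards [Lp.coeFn_zero ℂ 2 mT] with ζ hζ
    rw [hζ]
    simp
  | insert a s ha ih =>
    rw [Finset.sum_insert ha]
    filter_upwards [Lp.coeFn_add (c a • mulL (fun ζ => G ζ ^ a) f)
      (∑ k ∈ s, c k • mulL (fun ζ => G ζ ^ k) f), Lp.coeFn_smul (c a) (mulL (fun ζ => G ζ ^ a) f),
      mulL_coe (auxF9_zpow hG hG1 a) f, ih] with ζ h1 h2 h3 h4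
    rw [h1, Pi.add_apply, h2, Pi.smul_apply, h3, h4, Finset.sum_insert ha, smul_eq_mul]
    ring

theorem auxF9_mem {f : L2} {G : ℂ → ℂ} (hG : Measurable G)
    (hG1 : ∀ᵐ ζ ∂mT, ‖G ζ‖ = 1) (hGf : ∀ n : ℤ, mulL (fun ζ => G ζ ^ n) f ∈ Hs)
    (b : ℂ → ℂ) (hb : Continuous b) (hbG : BddMeas (fun ζ => b (G ζ))) :
    mulL (fun ζ => b (G ζ)) f ∈ Hs := by
  have hcl : mulL (fun ζ => b (G ζ)) f ∈ closure (Hs : Set L2) := by
    rw [Metric.mem_closure_iff]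
    intro ε hε
    obtain ⟨c, hc⟩ := auxF9_approx b hb (ε / (2 * (‖f‖ + 1))) (by positivity)
    refine ⟨∑ k ∈ c.support, c k • mulL (fun ζ => G ζ ^ k) f, ?_, ?_⟩
    · exact Hs.sum_mem (fun k _ => Hs.smul_mem _ (hGf k))
    · rw [dist_eq_norm]
      have h1 : ‖mulL (fun ζ => b (G ζ)) f - ∑ k ∈ c.support, c k • mulL (fun ζ => G ζ ^ k) f‖ ≤
          (ε / (2 * (‖f‖ + 1))) * ‖f‖ := by
        apply Lp.norm_le_mul_norm_of_ae_le_mul
        filter_upwards [Lp.coeFn_sub (mulL (fun ζ => b (G ζ)) f)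
          (∑ k ∈ c.support, c k • mulL (fun ζ => G ζ ^ k) f), mulL_coe hbG f,
          auxF9_sum hG hG1 c c.support (f := f), hG1] with ζ h1 h2 h3 h4
        rw [h1, Pi.sub_apply, h2, h3, ← sub_mul, norm_mul]
        exact mul_le_mul_of_nonneg_right (hc _ h4) (norm_nonneg _)
      refine lt_of_le_of_lt h1 ?_
      rw [div_mul_eq_mul_div, div_lt_iff₀ (by positivity)]
      have := norm_nonneg f
      nlinarith
  rwa [Hs_closed.closure_eq] at hcl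

/-- a unimodular function all of whose powers multiply a nonzero `f` into the Hardy space is constant -/
lemma unimod_const {f : L2} (hf0 : f ≠ 0) {G : ℂ → ℂ} (hG : Measurable G)
    (hG1 : ∀ᵐ ζ ∂mT, ‖G ζ‖ = 1) (hGf : ∀ n : ℤ, mulL (fun ζ => G ζ ^ n) f ∈ Hs) :
    ∃ c : ℂ, ∀ᵐ ζ ∂mT, G ζ = c := by
  by_contra hcon
  have hsep : ∀ U : Set ℂ, IsOpen U → (∀ᵐ ζ ∂mT, G ζ ∈ U) ∨ (∀ᵐ ζ ∂mT, G ζ ∉ U) := by
    intro U hU
    by_contra hno
    rw [not_or] at hno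
    obtain ⟨hn1, hn2⟩ := hno
    have hne : (Uᶜ).Nonempty := by
      by_contra hemp
      rw [Set.not_nonempty_iff_eq_empty, Set.compl_empty_iff] at hemp
      apply hn1
      rw [hemp]
      exact Eventually.of_forall (fun _ => Set.mem_univ _)
    have hUm : MeasurableSet U := hU.measurableSet
    set b : ℂ → ℂ := fun z => ((Metric.infDist z Uᶜ : ℝ) : ℂ) with hb
    have hbc : Continuous b := Complex.continuous_ofReal.comp (Metric.continuous_infDist_pt _)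
    have hb0 : ∀ z, b z = 0 ↔ z ∉ U := by
      intro z
      simp only [hb, Complex.ofReal_eq_zero]
      rw [← (hU.isClosed_compl).mem_iff_infDist_zero hne]
      exact Iff.rfl
    have hbG : BddMeas (fun ζ => b (G ζ)) := by
      refine ⟨hbc.measurable.comp hG, ?_⟩
      obtain ⟨C, hC⟩ := (isCompact_sphere (0 : ℂ) 1).exists_bound_of_continuousOn hbc.continuousOn
      refine ⟨C, ?_⟩
      filter_upwards [hG1] with ζ hζ
      apply hC
      simp [hζ]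
    have hmem := auxF9_mem hG hG1 hGf b hbc hbG
    have hA1 : MeasurableSet {ζ | G ζ ∉ U} := (hG hUm).compl
    have hA2 : MeasurableSet {ζ | G ζ ∈ U} := hG hUm
    have hz : mulL (fun ζ => b (G ζ)) f = 0 := by
      apply hardy_unique hmem {ζ | G ζ ∉ U} hA1
      · intro h0
        apply hn1
        rw [ae_iff]
        exact h0
      · filter_upwards [mulL_coe hbG f] with ζ hζ hζA
        rw [hζ]
        have : b (G ζ) = 0 := (hb0 _).2 hζA
        rw [this, zero_mul]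
    apply hf0
    apply hardy_unique (by
      have := hGf 0
      have e : mulL (fun ζ => G ζ ^ (0 : ℤ)) f = f := by
        apply Lp.ext
        filter_upwards [mulL_coe (auxF9_zpow hG hG1 0) f] with ζ hζ
        rw [hζ]
        simp
      rwa [e] at this) {ζ | G ζ ∈ U} hA2
    · intro h0
      apply hn2
      rw [ae_iff]
      simpa using h0
    · filter_upwards [mulL_coe hbG f, Lp.coeFn_zero ℂ 2 mT] with ζ hζ h0 hζA
      rw [hz, h0] at hζ
      have h1 : b (G ζ) ≠ 0 := by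
        intro h
        exact (hb0 _).1 h hζA
      have h2 : b (G ζ) * f ζ = 0 := hζ.symm
      exact (mul_eq_zero.1 h2).resolve_left h1
  obtain ⟨a, ha⟩ := Filter.exists_eventuallyEq_const_of_forall_separating (l := ae mT) (f := G)
    IsOpen (fun U hU => hsep U hU)
  exact hcon ⟨a, ha⟩

lemma auxF10_mulL_mem {g : ℂ → ℂ} {f x : L2} (hx : x ∈ Hs)
    (h : (x : ℂ → ℂ) =ᵐ[mT] fun ζ => g ζ * f ζ) : mulL g f ∈ Hs := by
  by_cases hg : BddMeas g
  · have h1 : mulL g f = x := by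
      apply Lp.ext
      exact (mulL_coe hg f).trans h.symm
    rw [h1]
    exact hx
  · have h1 : mulL g = 0 := by
      unfold mulL
      rw [dif_neg hg]
    rw [h1]
    exact Hs.zero_mem

lemma auxF10_Ypow {S : Sys} (M : Maxi S) (X : Hyp S) (t : ℝ) (hfE : M.f ∈ Eig M) (n : ℕ) :
    ∃ x : L2, x ∈ Eig M ∧ x ∈ Hs ∧
      (x : ℂ → ℂ) =ᵐ[mT] fun ζ => (Yf M X t ζ) ^ n * M.f ζ := by
  induction n with
  | zero =>
    refine ⟨M.f, hfE, M.fH, ?_⟩
    filter_upwards with ζ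
    rw [pow_zero, one_mul]
  | succ n ih =>
    obtain ⟨x, hxE, hxH, hx⟩ := ih
    have h := mul_Eplus M X (Y_inv M X t) (Y_inM M X t) hxE hxH
    refine ⟨mulL (Yf M X t) x, h.1, h.2, ?_⟩
    filter_upwards [mulL_coe (Y_inv M X t).1 x, hx] with ζ h1 h2
    rw [h1, h2, pow_succ]
    ring

lemma auxF10_VYpow {S : Sys} (M : Maxi S) (X : Hyp S) (t : ℝ) (c : ℂ) (hfE : M.f ∈ Eig M)
    (n : ℕ) : ∃ x : L2, x ∈ Hs ∧
      (x : ℂ → ℂ) =ᵐ[mT] fun ζ => (Vf X.s (-t) ζ * Yf M X t ζ * c) ^ n * M.f ζ := by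
  obtain ⟨y, _, hyH, hy⟩ := auxF10_Ypow M X t hfE n
  have key : ∀ m : ℕ, ∃ x : L2, x ∈ Hs ∧
      (x : ℂ → ℂ) =ᵐ[mT] fun ζ => (Vf X.s (-t) ζ) ^ m * y ζ := by
    intro m
    induction m with
    | zero =>
      refine ⟨y, hyH, ?_⟩
      filter_upwards with ζ
      rw [pow_zero, one_mul]
    | succ m ih =>
      obtain ⟨x, hxH, hx⟩ := ih
      refine ⟨mulL (Vf X.s (-t)) x, X.VH _ _ hxH, ?_⟩
      filter_upwards [mulL_coe (V_bdd X.smeas (-t)) x, hx] with ζ h1 h2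
      rw [h1, h2, pow_succ]
      ring
  obtain ⟨x, hxH, hx⟩ := key n
  refine ⟨(c ^ n) • x, Hs.smul_mem _ hxH, ?_⟩
  filter_upwards [Lp.coeFn_smul (c ^ n) x, hx, hy] with ζ h1 h2 h3
  rw [h1, Pi.smul_apply, h2, h3, smul_eq_mul, mul_pow, mul_pow]
  ring

theorem no_max_hyp {S : Sys} (M : Maxi S) (X : Hyp S) : False := by
  have hfE : M.f ∈ Eig M := by
    rw [eig_iff, M.hf, M.f1]
    simp
  have hf0 : M.f ≠ 0 := by
    intro h
    have := M.f1
    rw [h, norm_zero] at this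
    exact zero_ne_one this
  have hp : ((‖p0 M‖ ^ 2 : ℝ) : ℂ) ≠ 0 := by
    have := (norm_p0 M).2
    exact_mod_cast (pow_pos this 2).ne'
  -- choose t
  obtain ⟨t, ht0, htl, hb1, hb2⟩ : ∃ t : ℝ, t ≠ 0 ∧ |t * X.ell| < 2 * Real.pi ∧
      (inner ℂ (mon 0) (mulL (Yf M X t) (p0 M)) : ℂ) ≠ 0 ∧
      (inner ℂ (mon 0) (mulL (Yf M X (-t)) (p0 M)) : ℂ) ≠ 0 := by
    have h1 := (Y_mean M X).eventually_ne hp
    have hneg : Tendsto (fun t : ℝ => -t) (nhds 0) (nhds 0) := by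
      have : Continuous (fun t : ℝ => -t) := continuous_neg
      simpa using this.tendsto 0
    have h2 := hneg.eventually h1
    have h3 : ∀ᶠ t : ℝ in nhds 0, |t * X.ell| < 2 * Real.pi := by
      have hc : Continuous (fun t : ℝ => |t * X.ell|) := by fun_prop
      have h4 := hc.tendsto 0
      simp only [zero_mul, abs_zero] at h4
      exact h4.eventually (Iio_mem_nhds (by positivity))
    have h4 : ∀ᶠ t : ℝ in nhdsWithin 0 {0}ᶜ, t ≠ 0 := eventually_mem_nhdsWithin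
    have h5 := ((h1.and (h2.and h3)).filter_mono (nhdsWithin_le_nhds (s := {(0:ℝ)}ᶜ))).and h4
    obtain ⟨t, ⟨ha, hb, hc⟩, hd⟩ := h5.exists
    exact ⟨t, hd, hc, ha, hb⟩
  obtain ⟨u, hu1, hu2⟩ := Y_prod M X t
  have hu0 : u ≠ 0 := by
    intro h
    rw [h, zero_mul] at hu2
    exact mul_ne_zero hb1 hb2 hu2.symm
  have hVV : ∀ (r : ℝ) (ζ : ℂ), Vf X.s (-r) ζ * Vf X.s r ζ = 1 := by
    intro r ζ
    rw [← V_add, neg_add_cancel, V_zero]
  -- u is real and positive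
  have hsq : ∀ᵐ ζ ∂mT, ((‖Yf M X t ζ‖ ^ 2 : ℝ) : ℂ) = ((‖Vf X.s t ζ‖ ^ 2 : ℝ) : ℂ) * u := by
    filter_upwards [hu1, Y_conj M X t] with ζ h1 h2
    have h3 : ((‖Yf M X t ζ‖ ^ 2 : ℝ) : ℂ) = Yf M X t ζ * conj (Yf M X t ζ) := by
      rw [Complex.mul_conj, Complex.normSq_eq_norm_sq]
    rw [h3, h2, ← h1]
    ring
  obtain ⟨r, hr0, hur⟩ : ∃ r : ℝ, 0 < r ∧ u = (r : ℂ) := by
    obtain ⟨ζ, hζ⟩ := hsq.exists
    have hV : 0 < ‖Vf X.s t ζ‖ ^ 2 := pow_pos (norm_pos_iff.2 (V_ne X.s t ζ)) 2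
    have h1 : u = ((‖Yf M X t ζ‖ ^ 2 / ‖Vf X.s t ζ‖ ^ 2 : ℝ) : ℂ) := by
      rw [Complex.ofReal_div, hζ]
      have : ((‖Vf X.s t ζ‖ ^ 2 : ℝ) : ℂ) ≠ 0 := by exact_mod_cast hV.ne'
      field_simp
    refine ⟨_, ?_, h1⟩
    have h2 : 0 ≤ ‖Yf M X t ζ‖ ^ 2 / ‖Vf X.s t ζ‖ ^ 2 := by positivity
    rcases h2.lt_or_eq with h | h
    · exact h
    · exfalso
      rw [← h] at h1
      exact hu0 (by rw [h1]; simp)
  set q : ℝ := Real.sqrt r with hq
  have hq0 : 0 < q := Real.sqrt_pos.2 hr0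
  have hqq : q * q = r := Real.mul_self_sqrt hr0.le
  have hqc : (q : ℂ) ≠ 0 := by exact_mod_cast hq0.ne'
  set G : ℂ → ℂ := fun ζ => Vf X.s (-t) ζ * Yf M X t ζ * (q : ℂ)⁻¹ with hG
  set G' : ℂ → ℂ := fun ζ => Vf X.s (-(-t)) ζ * Yf M X (-t) ζ * (q : ℂ)⁻¹ with hG'
  have hGG' : ∀ᵐ ζ ∂mT, G ζ * G' ζ = 1 := by
    filter_upwards [hu1] with ζ h1
    have h2 := hVV t ζ
    simp only [hG, hG', neg_neg]
    have h3 : Yf M X t ζ * Yf M X (-t) ζ = (q : ℂ) * q := by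
      rw [h1, hur, ← hqq]
      push_cast
      ring
    calc Vf X.s (-t) ζ * Yf M X t ζ * (q : ℂ)⁻¹ * (Vf X.s t ζ * Yf M X (-t) ζ * (q : ℂ)⁻¹)
        = (Vf X.s (-t) ζ * Vf X.s t ζ) * (Yf M X t ζ * Yf M X (-t) ζ) * ((q : ℂ)⁻¹ * (q : ℂ)⁻¹) := by
          ring
      _ = 1 := by
          rw [h2, h3]
          field_simp
  have hGm : Measurable G :=
    ((V_bdd X.smeas (-t)).1.mul (Y_inv M X t).1.1).mul measurable_const
  have hG1 : ∀ᵐ ζ ∂mT, ‖G ζ‖ = 1 := by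
    filter_upwards [hsq] with ζ h1
    have h2 : ‖Yf M X t ζ‖ ^ 2 = ‖Vf X.s t ζ‖ ^ 2 * r := by
      rw [hur] at h1
      exact_mod_cast h1
    have h3 : ‖Vf X.s (-t) ζ‖ * ‖Vf X.s t ζ‖ = 1 := by
      rw [← norm_mul, hVV, norm_one]
    have h4 : ‖Yf M X t ζ‖ = ‖Vf X.s t ζ‖ * q := by
      have h5 : ‖Yf M X t ζ‖ ^ 2 = (‖Vf X.s t ζ‖ * q) ^ 2 := by
        rw [h2, mul_pow, sq q, hqq]
      exact (pow_left_inj₀ (norm_nonneg _) (by positivity) two_ne_zero).1 h5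
    simp only [hG]
    rw [norm_mul, norm_mul, norm_inv, h4, Complex.norm_real, Real.norm_eq_abs, abs_of_pos hq0]
    calc ‖Vf X.s (-t) ζ‖ * (‖Vf X.s t ζ‖ * q) * q⁻¹
        = (‖Vf X.s (-t) ζ‖ * ‖Vf X.s t ζ‖) * (q * q⁻¹) := by ring
      _ = 1 := by rw [h3, mul_inv_cancel₀ hq0.ne', one_mul]
  have hGf : ∀ n : ℤ, mulL (fun ζ => G ζ ^ n) M.f ∈ Hs := by
    intro n
    rcases Int.eq_nat_or_neg n with ⟨k, rfl | rfl⟩
    · obtain ⟨x, hxH, hx⟩ := auxF10_VYpow M X t ((q : ℂ)⁻¹) hfE k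
      refine auxF10_mulL_mem hxH ?_
      filter_upwards [hx] with ζ h1
      rw [h1, zpow_natCast]
    · obtain ⟨x, hxH, hx⟩ := auxF10_VYpow M X (-t) ((q : ℂ)⁻¹) hfE k
      refine auxF10_mulL_mem hxH ?_
      filter_upwards [hx, hGG'] with ζ h1 h2
      rw [h1, zpow_neg, zpow_natCast]
      have h3 : G' ζ = (G ζ)⁻¹ := by
        rw [← one_div, eq_div_iff, mul_comm]
        · exact h2
        · intro h0
          rw [h0, zero_mul] at h2
          exact zero_ne_one h2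
      have h4 : (G' ζ) ^ k = ((G ζ) ^ k)⁻¹ := by
        rw [h3, inv_pow]
      rw [← h4]
  obtain ⟨c, hc⟩ := unimod_const hf0 hGm hG1 hGf
  have hcτ : ∀ᵐ ζ ∂mT, G (S.τ ζ) = c := S.qi.ae hc
  obtain ⟨ζ, h1, h2, h3, h4, h5⟩ :=
    (hc.and (hcτ.and (hG1.and ((V_tau X (-t)).and (Y_inv M X t).2)))).exists
  have h6 : G (S.τ ζ) = Complex.exp (Complex.I * ((-t : ℝ) : ℂ) * X.ell) * G ζ := by
    simp only [hG]
    rw [h4, h5]
    ring
  have hG0 : G ζ ≠ 0 := by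
    intro h0
    rw [h0, norm_zero] at h3
    exact zero_ne_one h3
  have h7 : Complex.exp (Complex.I * ((-t : ℝ) : ℂ) * X.ell) = 1 := by
    have h8 : Complex.exp (Complex.I * ((-t : ℝ) : ℂ) * X.ell) * G ζ = 1 * G ζ := by
      rw [← h6, h2, one_mul, h1]
    exact mul_right_cancel₀ hG0 h8
  rw [Complex.exp_eq_one_iff] at h7
  obtain ⟨n, hn⟩ := h7
  have h8 : -(t * X.ell) = n * (2 * Real.pi) := by
    have h9 : ((-(t * X.ell) : ℝ) : ℂ) = ((n * (2 * Real.pi) : ℝ) : ℂ) := by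
      have h10 : Complex.I * ((-(t * X.ell) : ℝ) : ℂ) =
          Complex.I * ((n * (2 * Real.pi) : ℝ) : ℂ) := by
        push_cast at hn ⊢
        linear_combination hn
      exact mul_left_cancel₀ Complex.I_ne_zero h10
    exact_mod_cast h9
  have h9 : |(n : ℝ)| * (2 * Real.pi) < 2 * Real.pi := by
    have : |(n : ℝ)| * (2 * Real.pi) = |t * X.ell| := by
      rw [← abs_neg (t * X.ell), h8, abs_mul, abs_of_pos (by positivity : (0:ℝ) < 2 * Real.pi)]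
    rw [this]
    exact htl
  have h10 : |(n : ℝ)| < 1 := by
    have hpi : (0:ℝ) < 2 * Real.pi := by positivity
    by_contra hcon
    rw [not_lt] at hcon
    nlinarith
  have h11 : n = 0 := by
    have : |n| < 1 := by exact_mod_cast h10
    exact Int.abs_lt_one_iff.1 this
  rw [h11] at h8
  have h12 : t * X.ell = 0 := by
    simpa using h8
  rcases mul_eq_zero.1 h12 with h | h
  · exact ht0 h
  · exact X.ellpos.ne' h


end

end HT
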