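import Pool.Agent.Helper368.HT.M
import Pool.Agent.Helper368.F96.Eig
import Pool.Agent.Helper368.F96.Classify

open scoped ComplexConjugate
open MeasureTheory Filter

namespace HT

open F96 (H2 ev kz)

theorem auxG1_on : Orthonormal ℂ (fun n : ℕ => mon (n : ℤ)) :=
  mon_orthonormal.comp (fun n : ℕ => (n : ℤ)) Nat.cast_injective

theorem auxG1_J : ∃ J : H2 →ₗᵢ[ℂ] L2, ∀ f : H2, HasSum (fun n : ℕ => f n • mon (n : ℤ)) (J f) := by
  refine ⟨auxG1_on.orthogonalFamily.linearIsometry, fun f => ?_⟩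
  exact auxG1_on.orthogonalFamily.hasSum_linearIsometry f

theorem auxG1_inner (m n : ℤ) : (inner ℂ (mon m) (mon n) : ℂ) = if m = n then 1 else 0 :=
  orthonormal_iff_ite.1 mon_orthonormal m n

theorem auxG1_coef (J : H2 →ₗᵢ[ℂ] L2)
    (hJ : ∀ f : H2, HasSum (fun n : ℕ => f n • mon (n : ℤ)) (J f)) (f : H2) (m : ℤ) :
    HasSum (fun n : ℕ => if m = (n : ℤ) then f n else 0) (inner ℂ (mon m) (J f) : ℂ) := by
  have h := (innerSL ℂ (mon m)).hasSum (hJ f)
  have h2 : (fun n : ℕ => if m = (n : ℤ) then f n else 0) =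
      fun n : ℕ => (innerSL ℂ (mon m)) (f n • mon (n : ℤ)) := by
    funext n
    rw [innerSL_apply_apply, inner_smul_right, auxG1_inner]
    split_ifs <;> simp
  rw [h2]
  exact h

/-- the isometry of `H²` (Taylor coefficients) onto `Hs` -/
theorem exists_J : ∃ J : H2 →ₗᵢ[ℂ] L2, (∀ (f : H2) (n : ℕ), (inner ℂ (mon n) (J f) : ℂ) = f n) ∧
    (∀ f, J f ∈ Hs) ∧ ∀ x ∈ Hs, ∃ f, J f = x := by
  obtain ⟨J, hJ⟩ := auxG1_J
  have hc : ∀ (f : H2) (n : ℕ), (inner ℂ (mon n) (J f) : ℂ) = f n := by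
    intro f n
    have h := auxG1_coef J hJ f n
    have h2 : HasSum (fun k : ℕ => if (n : ℤ) = (k : ℤ) then f k else 0) (f n) := by
      have h3 := hasSum_single (f := fun k : ℕ => if (n : ℤ) = (k : ℤ) then f k else 0) n (by
        intro k hk
        rw [if_neg]
        intro h4
        exact hk (by exact_mod_cast h4.symm))
      rw [if_pos rfl] at h3
      exact h3
    exact h.unique h2
  have hneg : ∀ (f : H2) (m : ℤ), m < 0 → (inner ℂ (mon m) (J f) : ℂ) = 0 := by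
    intro f m hm
    have h := auxG1_coef J hJ f m
    have h2 : (fun n : ℕ => if m = (n : ℤ) then f n else 0) = fun _ => 0 := by
      funext n
      rw [if_neg]
      intro h3
      omega
    rw [h2] at h
    exact h.unique hasSum_zero
  refine ⟨J, hc, fun f n hn => hneg f n hn, ?_⟩
  intro x hx
  have hsum : Summable (fun n : ℕ => ‖(inner ℂ (mon (n : ℤ)) x : ℂ)‖ ^ 2) :=
    auxG1_on.inner_products_summable x
  have hmem : Memℓp (fun n : ℕ => (inner ℂ (mon (n : ℤ)) x : ℂ)) 2 := by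
    rw [memℓp_gen_iff (by norm_num)]
    refine hsum.congr fun n => ?_
    simp
  set f : H2 := ⟨fun n : ℕ => (inner ℂ (mon (n : ℤ)) x : ℂ), hmem⟩ with hf
  refine ⟨f, ?_⟩
  rw [← sub_eq_zero]
  apply mon_total
  intro m
  rw [inner_sub_right]
  rcases lt_or_ge m 0 with hm | hm
  · rw [hneg f m hm, hx m hm, sub_zero]
  · obtain ⟨n, rfl⟩ := Int.eq_ofNat_of_zero_le hm
    have h := hc f n
    have h2 : f n = (inner ℂ (mon (n : ℤ)) x : ℂ) := rfl
    rw [h2] at h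
    exact sub_eq_zero.2 h


noncomputable section


def J : H2 →ₗᵢ[ℂ] L2 := exists_J.choose

lemma J_coeff (f : H2) (n : ℕ) : (inner ℂ (mon n) (J f) : ℂ) = f n := exists_J.choose_spec.1 f n

lemma J_mem (f : H2) : J f ∈ Hs := exists_J.choose_spec.2.1 f

lemma J_surj {x : L2} (hx : x ∈ Hs) : ∃ f, J f = x := exists_J.choose_spec.2.2 x hx

theorem auxG2_taylor {F : ℂ → ℂ} (hF : DifferentiableOn ℂ F (Metric.ball 0 1)) :
    ∃ a : ℕ → ℂ, ∀ z : ℂ, ‖z‖ < 1 → HasSum (fun n => a n * z ^ n) (F z) := by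
  refine ⟨fun n => (n.factorial : ℂ)⁻¹ * iteratedDeriv n F 0, fun z hz => ?_⟩
  have h := Complex.hasSum_taylorSeries_on_ball hF (z := z) (by simpa using hz)
  simp only [smul_eq_mul, sub_zero] at h
  refine h.congr_fun ?_
  intro n
  ring

theorem auxG2_inner (n : ℤ) (k : ℕ) :
    ∫ ζ, conj (ζ ^ n) * ζ ^ k ∂mT = if n = (k : ℤ) then 1 else 0 := by
  have h := (orthonormal_iff_ite.1 mon_orthonormal) n k
  rw [← h, L2.inner_def]
  refine integral_congr_ae ?_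
  filter_upwards [mon_coe n, mon_coe k] with ζ h1 h2
  rw [h1, h2]
  simp [mul_comm]

theorem auxG2_meas (n : ℤ) : Measurable (fun ζ : ℂ => conj (ζ ^ n)) := by
  fun_prop

theorem auxG2_coeff {F : ℂ → ℂ} {a : ℕ → ℂ}
    (ha : ∀ z : ℂ, ‖z‖ < 1 → HasSum (fun n => a n * z ^ n) (F z)) {r : ℝ} (hr0 : 0 ≤ r)
    (hr1 : r < 1) (n : ℤ) :
    ∫ ζ, conj (ζ ^ n) * F (r * ζ) ∂mT = if 0 ≤ n then a n.toNat * r ^ n.toNat else 0 := by
  set f : ℕ → ℂ → ℂ := fun k ζ => conj (ζ ^ n) * (a k * (r * ζ) ^ k) with hf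
  have hrC : ‖(r : ℂ)‖ < 1 := by
    rw [Complex.norm_real, Real.norm_eq_abs, abs_of_nonneg hr0]; exact hr1
  have hnorm : ∀ k, ∀ᵐ ζ ∂mT, ‖f k ζ‖ = ‖a k * (r : ℂ) ^ k‖ := by
    intro k
    filter_upwards [norm_one_ae] with ζ hζ
    simp only [hf, norm_mul, norm_pow, RCLike.norm_conj, norm_zpow, hζ, one_zpow, one_mul, mul_one]
  have hmeas : ∀ k, AEStronglyMeasurable (f k) mT := by
    intro k
    have : Measurable (f k) := by
      simp only [hf]
      exact (auxG2_meas n).mul (by fun_prop)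
    exact this.aestronglyMeasurable
  have hint : ∀ k, Integrable (f k) mT := by
    intro k
    refine Integrable.of_bound (hmeas k) ‖a k * (r : ℂ) ^ k‖ ?_
    filter_upwards [hnorm k] with ζ hζ
    exact hζ.le
  have hintn : ∀ k, ∫ ζ, ‖f k ζ‖ ∂mT = ‖a k * (r : ℂ) ^ k‖ := by
    intro k
    rw [integral_congr_ae (hnorm k)]
    simp
  have hsum : Summable (fun k => ∫ ζ, ‖f k ζ‖ ∂mT) := by
    simp only [hintn]
    exact summable_norm_iff.2 (ha _ hrC).summable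
  have hH := hasSum_integral_of_summable_integral_norm hint hsum
  have hval : ∀ k, ∫ ζ, f k ζ ∂mT = a k * (r : ℂ) ^ k * (if n = (k : ℤ) then 1 else 0) := by
    intro k
    rw [← auxG2_inner, ← integral_const_mul]
    refine integral_congr_ae (Eventually.of_forall (fun ζ => ?_))
    simp only [hf, mul_pow]
    ring
  have hpt : ∀ᵐ ζ ∂mT, (∑' k, f k ζ) = conj (ζ ^ n) * F (r * ζ) := by
    filter_upwards [norm_one_ae] with ζ hζ
    have h1 : ‖(r : ℂ) * ζ‖ < 1 := by rw [norm_mul, hζ, mul_one]; exact hrC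
    exact ((ha _ h1).mul_left _).tsum_eq
  rw [integral_congr_ae hpt] at hH
  rw [← hH.tsum_eq]
  simp only [hval]
  split_ifs with h0
  · rw [tsum_eq_single n.toNat]
    · rw [if_pos (Int.toNat_of_nonneg h0).symm, mul_one]
    · intro k hk
      rw [if_neg, mul_zero]
      intro h
      apply hk
      rw [h]
      simp
  · have : ∀ k : ℕ, ¬ n = (k : ℤ) := by
      intro k hk
      apply h0
      rw [hk]
      positivity
    simp [this]

/-- a bounded analytic function with radial limits a.e. -/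
theorem bd_general (F Fs : ℂ → ℂ) (K : ℝ) (hF : DifferentiableOn ℂ F (Metric.ball 0 1))
    (hK : ∀ z : ℂ, ‖z‖ < 1 → ‖F z‖ ≤ K) (hFs : Measurable Fs)
    (hrad : ∀ᵐ ζ ∂mT, Tendsto (fun r : ℝ => F (r * ζ)) (nhdsWithin 1 (Set.Iio 1)) (nhds (Fs ζ))) :
    ∃ G : H2, (∀ z : ℂ, ‖z‖ < 1 → ev G z = F z) ∧ (J G : ℂ → ℂ) =ᵐ[mT] Fs := by
  obtain ⟨a, ha⟩ := auxG2_taylor hF
  -- a sequence of radii
  set ρ : ℕ → ℝ := fun j => 1 - 1 / ((j : ℝ) + 1) with hρ
  have hρ0 : ∀ j, 0 ≤ ρ j := by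
    intro j
    have h1 : (0 : ℝ) < (j : ℝ) + 1 := by positivity
    have h2 : 1 / ((j : ℝ) + 1) ≤ 1 := by
      rw [div_le_one h1]
      have : (0 : ℝ) ≤ j := Nat.cast_nonneg j
      linarith
    simp only [hρ]
    linarith
  have hρ1 : ∀ j, ρ j < 1 := by
    intro j
    have h1 : (0 : ℝ) < 1 / ((j : ℝ) + 1) := by positivity
    simp only [hρ]
    linarith
  have hρt : Tendsto ρ atTop (nhds 1) := by
    have h1 : Tendsto (fun j : ℕ => 1 / ((j : ℝ) + 1)) atTop (nhds 0) :=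
      tendsto_one_div_add_atTop_nhds_zero_nat
    have h2 := (tendsto_const_nhds (x := (1 : ℝ))).sub h1
    rw [sub_zero] at h2
    exact h2
  have hρw : Tendsto ρ atTop (nhdsWithin 1 (Set.Iio 1)) :=
    tendsto_nhdsWithin_iff.2 ⟨hρt, Eventually.of_forall hρ1⟩
  have hbd : ∀ᵐ ζ ∂mT, ∀ j, ‖F (ρ j * ζ)‖ ≤ K := by
    filter_upwards [norm_one_ae] with ζ hζ j
    apply hK
    rw [norm_mul, hζ, mul_one, Complex.norm_real, Real.norm_eq_abs, abs_of_nonneg (hρ0 j)]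
    exact hρ1 j
  have hFsb : ∀ᵐ ζ ∂mT, ‖Fs ζ‖ ≤ K := by
    filter_upwards [hbd, hrad] with ζ h1 h2
    exact le_of_tendsto (h2.comp hρw).norm (Eventually.of_forall h1)
  have hmem : MemLp Fs 2 mT := MemLp.of_bound hFs.aestronglyMeasurable K hFsb
  set x : L2 := hmem.toLp Fs with hx
  have hxc : (x : ℂ → ℂ) =ᵐ[mT] Fs := MemLp.coeFn_toLp _
  have hsph : mT.restrict (Metric.sphere (0 : ℂ) 1) = mT := by
    apply Measure.restrict_eq_self_of_ae_mem
    filter_upwards [norm_one_ae] with ζ hζ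
    simpa using hζ
  have hFm : ∀ j, AEStronglyMeasurable (fun ζ : ℂ => F (ρ j * ζ)) mT := by
    intro j
    have h1 : ContinuousOn (fun ζ : ℂ => F (ρ j * ζ)) (Metric.sphere (0 : ℂ) 1) := by
      refine hF.continuousOn.comp (by fun_prop) ?_
      intro ζ hζ
      have hζ' : ‖ζ‖ = 1 := by simpa using hζ
      rw [Metric.mem_ball, dist_zero_right, norm_mul, hζ', mul_one, Complex.norm_real,
        Real.norm_eq_abs, abs_of_nonneg (hρ0 j)]
      exact hρ1 j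
    have h2 := h1.aestronglyMeasurable (μ := mT) Metric.isClosed_sphere.measurableSet
    rwa [hsph] at h2
  have hlim : ∀ n : ℤ, Tendsto (fun j => ∫ ζ, conj (ζ ^ n) * F (ρ j * ζ) ∂mT) atTop
      (nhds (inner ℂ (mon n) x)) := by
    intro n
    have h1 : (inner ℂ (mon n) x : ℂ) = ∫ ζ, conj (ζ ^ n) * Fs ζ ∂mT := by
      rw [L2.inner_def]
      refine integral_congr_ae ?_
      filter_upwards [mon_coe n, hxc] with ζ h1 h2
      rw [h1, h2]
      simp [mul_comm]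
    rw [h1]
    refine tendsto_integral_of_dominated_convergence (fun _ => K) ?_ (integrable_const K) ?_ ?_
    · intro j
      exact (auxG2_meas n).aestronglyMeasurable.mul (hFm j)
    · intro j
      filter_upwards [norm_one_ae, hbd] with ζ hζ h2
      rw [norm_mul, RCLike.norm_conj, norm_zpow, hζ, one_zpow, one_mul]
      exact h2 j
    · filter_upwards [hrad] with ζ h2
      exact (h2.comp hρw).const_mul _
  have hcoef : ∀ n : ℤ, (inner ℂ (mon n) x : ℂ) = if 0 ≤ n then a n.toNat else 0 := by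
    intro n
    have h1 := hlim n
    have h2 : (fun j => ∫ ζ, conj (ζ ^ n) * F (ρ j * ζ) ∂mT)
        = fun j => if 0 ≤ n then a n.toNat * (ρ j : ℂ) ^ n.toNat else 0 := by
      funext j
      exact auxG2_coeff ha (hρ0 j) (hρ1 j) n
    rw [h2] at h1
    refine tendsto_nhds_unique h1 ?_
    split_ifs with h0
    · have h3 : Tendsto (fun j => (ρ j : ℂ)) atTop (nhds ((1 : ℝ) : ℂ)) :=
        (Complex.continuous_ofReal.tendsto 1).comp hρt
      have h4 := (h3.pow n.toNat).const_mul (a n.toNat)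
      simpa using h4
    · exact tendsto_const_nhds
  have hxH : x ∈ Hs := by
    rw [mem_Hs]
    intro n hn
    rw [hcoef, if_neg (not_le.2 hn)]
  obtain ⟨G, hG⟩ := J_surj hxH
  refine ⟨G, ?_, ?_⟩
  · intro z hz
    have h1 : ∀ n : ℕ, G n = a n := by
      intro n
      rw [← J_coeff G n, hG, hcoef, if_pos (by positivity)]
      simp
    unfold ev
    simp only [h1]
    exact (ha z hz).tsum_eq
  · rw [hG]
    exact hxc

theorem auxG6_coe (c : ℕ → ℂ) (M : ℕ) :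
    ((∑ n ∈ Finset.range M, c n • mon (n : ℤ) : L2) : ℂ → ℂ) =ᵐ[mT]
      fun ζ => ∑ n ∈ Finset.range M, c n * ζ ^ n := by
  induction M with
  | zero =>
    simp only [Finset.range_zero, Finset.sum_empty]
    exact Lp.coeFn_zero _ _ _
  | succ M ih =>
    rw [Finset.sum_range_succ]
    have h1 := Lp.coeFn_add (∑ n ∈ Finset.range M, c n • mon (n : ℤ) : L2) (c M • mon (M : ℤ))
    have h2 := Lp.coeFn_smul (c M) (mon (M : ℤ))
    have h3 := mon_coe (M : ℤ)
    filter_upwards [h1, h2, h3, ih] with ζ e1 e2 e3 e4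
    rw [e1, Pi.add_apply, e2, Pi.smul_apply, e3, e4, Finset.sum_range_succ, smul_eq_mul,
      zpow_natCast]

theorem auxG6_norm (c : ℕ → ℂ) (M : ℕ) :
    ‖(∑ n ∈ Finset.range M, c n • mon (n : ℤ) : L2)‖ ^ 2 = ∑ n ∈ Finset.range M, ‖c n‖ ^ 2 := by
  have ho : Orthonormal ℂ (fun n : ℕ => mon (n : ℤ)) :=
    mon_orthonormal.comp (fun n : ℕ => (n : ℤ)) Nat.cast_injective
  have h := ho.inner_sum c c (Finset.range M)
  rw [inner_self_eq_norm_sq_to_K] at h
  have h2 : ∑ i ∈ Finset.range M, (starRingEnd ℂ) (c i) * c i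
      = ((∑ n ∈ Finset.range M, ‖c n‖ ^ 2 : ℝ) : ℂ) := by
    push_cast
    refine Finset.sum_congr rfl fun n _ => ?_
    exact Complex.conj_mul' (c n)
  rw [h2] at h
  apply Complex.ofReal_injective
  rw [Complex.ofReal_pow]
  exact h

theorem auxG6_le (c : ℕ → ℂ) (M : ℕ) (B : ℝ) (hB : 0 ≤ B)
    (h : ∀ ζ : ℂ, ‖ζ‖ = 1 → ‖∑ n ∈ Finset.range M, c n * ζ ^ n‖ ≤ B) :
    ∑ n ∈ Finset.range M, ‖c n‖ ^ 2 ≤ B ^ 2 := by
  rw [← auxG6_norm]
  apply pow_le_pow_left₀ (norm_nonneg _)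
  have h1 := Lp.norm_le_of_ae_bound (f := (∑ n ∈ Finset.range M, c n • mon (n : ℤ) : L2)) hB (by
    filter_upwards [auxG6_coe c M, norm_one_ae] with ζ e1 e2
    rw [e1]
    exact h ζ e2)
  have h3 : (measureUnivNNReal mT : ℝ) = 1 := by
    simp [measureUnivNNReal]
  simpa [h3] using h1

theorem auxG6_r (F : ℂ → ℂ) (K : ℝ) (a : ℕ → ℂ)
    (ha : ∀ z : ℂ, ‖z‖ < 1 → HasSum (fun n => a n * z ^ n) (F z))
    (hK : ∀ z : ℂ, ‖z‖ < 1 → ‖F z‖ ≤ K) (hK0 : 0 ≤ K) (r : ℝ) (hr0 : 0 ≤ r) (hr1 : r < 1)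
    (N : ℕ) : ∑ n ∈ Finset.range N, (‖a n‖ * r ^ n) ^ 2 ≤ K ^ 2 := by
  have hrn : ‖(r : ℂ)‖ = r := by rw [Complex.norm_real, Real.norm_of_nonneg hr0]
  have hs : Summable (fun n => ‖a n‖ * r ^ n) := by
    have := (ha (r : ℂ) (by rw [hrn]; exact hr1)).summable.norm
    refine this.congr fun n => ?_
    rw [norm_mul, norm_pow, hrn]
  set ε : ℕ → ℝ := fun M => ∑' n, ‖a (n + M)‖ * r ^ (n + M) with hε
  have hε0 : ∀ M, 0 ≤ ε M := fun M => tsum_nonneg fun n => by positivity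
  have hεt : Tendsto ε atTop (nhds 0) := tendsto_sum_nat_add (fun n => ‖a n‖ * r ^ n)
  have key : ∀ M, N ≤ M → ∑ n ∈ Finset.range N, (‖a n‖ * r ^ n) ^ 2 ≤ (K + ε M) ^ 2 := by
    intro M hNM
    have h1 := auxG6_le (fun n => a n * (r : ℂ) ^ n) M (K + ε M) (add_nonneg hK0 (hε0 M)) (by
      intro ζ hζ
      have hz : ‖(r : ℂ) * ζ‖ < 1 := by rw [norm_mul, hrn, hζ, mul_one]; exact hr1
      have hsum := ha _ hz
      have hsplit := hsum.summable.sum_add_tsum_nat_add M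
      rw [hsum.tsum_eq] at hsplit
      have e1 : ∑ n ∈ Finset.range M, a n * (r : ℂ) ^ n * ζ ^ n
          = F ((r : ℂ) * ζ) - ∑' n, a (n + M) * ((r : ℂ) * ζ) ^ (n + M) := by
        rw [← hsplit, add_sub_cancel_right]
        refine Finset.sum_congr rfl fun n _ => ?_
        rw [mul_pow, mul_assoc]
      rw [e1]
      refine (norm_sub_le _ _).trans (add_le_add (hK _ hz) ?_)
      have hs2 : Summable (fun n => ‖a (n + M)‖ * r ^ (n + M)) :=
        (summable_nat_add_iff (f := fun n => ‖a n‖ * r ^ n) M).mpr hs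
      refine tsum_of_norm_bounded hs2.hasSum fun n => ?_
      rw [norm_mul, norm_pow, norm_mul, hrn, hζ, mul_one])
    have h2 : ∑ n ∈ Finset.range M, ‖a n * (r : ℂ) ^ n‖ ^ 2
        = ∑ n ∈ Finset.range M, (‖a n‖ * r ^ n) ^ 2 := by
      refine Finset.sum_congr rfl fun n _ => ?_
      rw [norm_mul, norm_pow, hrn]
    rw [h2] at h1
    refine le_trans ?_ h1
    exact Finset.sum_le_sum_of_subset_of_nonneg (Finset.range_mono hNM)
      (fun n _ _ => by positivity)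
  have ht : Tendsto (fun M => (K + ε M) ^ 2) atTop (nhds ((K + 0) ^ 2)) :=
    (tendsto_const_nhds.add hεt).pow 2
  rw [add_zero] at ht
  exact ge_of_tendsto ht (eventually_atTop.mpr ⟨N, fun M hM => key M hM⟩)

theorem auxG6_one (F : ℂ → ℂ) (K : ℝ) (a : ℕ → ℂ)
    (ha : ∀ z : ℂ, ‖z‖ < 1 → HasSum (fun n => a n * z ^ n) (F z))
    (hK : ∀ z : ℂ, ‖z‖ < 1 → ‖F z‖ ≤ K) (hK0 : 0 ≤ K)
    (N : ℕ) : ∑ n ∈ Finset.range N, ‖a n‖ ^ 2 ≤ K ^ 2 := by
  have hc : Continuous (fun r : ℝ => ∑ n ∈ Finset.range N, (‖a n‖ * r ^ n) ^ 2) := by fun_prop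
  have ht : Tendsto (fun r : ℝ => ∑ n ∈ Finset.range N, (‖a n‖ * r ^ n) ^ 2)
      (nhdsWithin 1 (Set.Iio 1)) (nhds (∑ n ∈ Finset.range N, (‖a n‖ * (1:ℝ) ^ n) ^ 2)) :=
    (hc.tendsto 1).mono_left nhdsWithin_le_nhds
  have h1 : ∑ n ∈ Finset.range N, (‖a n‖ * (1:ℝ) ^ n) ^ 2
      = ∑ n ∈ Finset.range N, ‖a n‖ ^ 2 := by simp
  rw [h1] at ht
  refine le_of_tendsto ht ?_
  have h2 : Set.Ioo (0:ℝ) 1 ∈ nhdsWithin (1:ℝ) (Set.Iio 1) := Ioo_mem_nhdsLT (by norm_num)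
  filter_upwards [h2] with r hr
  exact auxG6_r F K a ha hK hK0 r hr.1.le hr.2 N

/-- bounded analytic functions are in `H²` -/
theorem exists_bdd (F : ℂ → ℂ) (K : ℝ) (hF : DifferentiableOn ℂ F (Metric.ball 0 1))
    (hK : ∀ z : ℂ, ‖z‖ < 1 → ‖F z‖ ≤ K) :
    ∃ G : H2, (∀ z : ℂ, ‖z‖ < 1 → ev G z = F z) ∧ ‖G‖ ≤ K := by
  have hK0 : 0 ≤ K := (norm_nonneg _).trans (hK 0 (by simp))
  obtain ⟨a, ha⟩ : ∃ a : ℕ → ℂ, ∀ z : ℂ, ‖z‖ < 1 → HasSum (fun n => a n * z ^ n) (F z) := by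
    refine ⟨fun n => ((n.factorial : ℂ))⁻¹ * iteratedDeriv n F 0, fun z hz => ?_⟩
    have h := Complex.hasSum_taylorSeries_on_ball hF (z := z) (by simpa using hz)
    have e : (fun n => ((n.factorial : ℂ))⁻¹ * iteratedDeriv n F 0 * z ^ n)
        = fun n => ((n.factorial : ℂ))⁻¹ • (z - 0) ^ n • iteratedDeriv n F 0 := by
      funext n
      rw [sub_zero, smul_eq_mul, smul_eq_mul]
      ring
    show HasSum (fun n => ((n.factorial : ℂ))⁻¹ * iteratedDeriv n F 0 * z ^ n) (F z)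
    rw [e]
    exact h
  have hb := auxG6_one F K a ha hK hK0
  have hs : Summable (fun n => ‖a n‖ ^ 2) :=
    summable_of_sum_range_le (fun n => by positivity) hb
  have hm : Memℓp a 2 := by
    rw [memℓp_gen_iff (by norm_num)]
    refine hs.congr fun n => ?_
    simp
  refine ⟨⟨a, hm⟩, fun z hz => (ha z hz).tsum_eq, ?_⟩
  have h2 := lp.norm_rpow_eq_tsum (p := 2) (by norm_num) (⟨a, hm⟩ : H2)
  have h3 : ‖(⟨a, hm⟩ : H2)‖ ^ 2 = ∑' n, ‖a n‖ ^ 2 := by
    simpa using h2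
  have h4 : ‖(⟨a, hm⟩ : H2)‖ ^ 2 ≤ K ^ 2 := by
    rw [h3]
    exact hs.tsum_le_of_sum_range_le hb
  exact (pow_le_pow_iff_left₀ (norm_nonneg _) hK0 (by norm_num)).mp h4

/-- `b ∈ H²` is inner with boundary function `τ` -/
def IsBd (τ : ℂ → ℂ) (b : H2) : Prop :=
  Measurable τ ∧ (∀ᵐ ζ ∂mT, ‖τ ζ‖ = 1) ∧ ((J b : ℂ → ℂ) =ᵐ[mT] τ) ∧ ∀ z : ℂ, ‖z‖ < 1 → ‖ev b z‖ < 1

theorem auxG3_inner0 (y : L2) : (inner ℂ (mon 0) y : ℂ) = ∫ ζ, y ζ ∂mT := by
  rw [L2.inner_def]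
  apply integral_congr_ae
  filter_upwards [mon_coe 0] with ζ hζ
  rw [hζ]
  simp

theorem auxG3_int (m : ℤ) : ∫ ζ, ζ ^ m ∂mT = if m = 0 then 1 else 0 := by
  have h1 : ∫ ζ, ζ ^ m ∂mT = (inner ℂ (mon 0) (mon m) : ℂ) := by
    rw [auxG3_inner0]
    exact integral_congr_ae (mon_coe m).symm
  rw [h1, orthonormal_iff_ite.1 mon_orthonormal 0 m]
  by_cases hm : m = 0
  · subst hm; simp
  · rw [if_neg hm, if_neg (fun h => hm h.symm)]

theorem auxG3_bdd {τ : ℂ → ℂ} {b : H2} (hb : IsBd τ b) : BddMeas τ :=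
  ⟨hb.1, 1, by filter_upwards [hb.2.1] with ζ hζ; exact hζ.le⟩

theorem auxG3_mom {τ : ℂ → ℂ} {b : H2} (hb : IsBd τ b) (n : ℕ) :
    ∃ x : L2, x ∈ Hs ∧ ((x : ℂ → ℂ) =ᵐ[mT] fun ζ => τ ζ ^ n) ∧
      (inner ℂ (mon 0) x : ℂ) = (ev b 0) ^ n := by
  induction n with
  | zero =>
    refine ⟨mon 0, mon_mem le_rfl, ?_, ?_⟩
    · filter_upwards [mon_coe 0] with ζ hζ
      rw [hζ]; simp
    · rw [orthonormal_iff_ite.1 mon_orthonormal 0 0]; simp
  | succ n ih =>
    obtain ⟨x, hx, hxτ, hm⟩ := ih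
    have hbm := auxG3_bdd hb
    refine ⟨mulL τ x, mul_mem hbm (J_mem b) hb.2.2.1 hx, ?_, ?_⟩
    · filter_upwards [mulL_coe hbm x, hxτ] with ζ h1 h2
      rw [h1, h2, pow_succ']
    · have h1 : (inner ℂ (mon 0) (mulL τ x) : ℂ) = inner ℂ (star (J b)) x := by
        rw [auxG3_inner0, L2.inner_def]
        apply integral_congr_ae
        filter_upwards [mulL_coe hbm x, star_coe (J b), hb.2.2.1] with ζ h1 h2 h3
        rw [h1, h2, h3]
        simp [mul_comm]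
      rw [h1, mean_mul (J_mem b) hx, hm, pow_succ']
      congr 1
      have := J_coeff b 0
      rw [F96.ev_zero]
      exact_mod_cast this

theorem auxG3_map {τ : ℂ → ℂ} {b : H2} (hb : IsBd τ b) (n : ℕ) :
    ∫ ζ, ζ ^ n ∂(Measure.map τ mT) = (ev b 0) ^ n := by
  rw [integral_map hb.1.aemeasurable (by fun_prop)]
  obtain ⟨x, _, hxτ, hm⟩ := auxG3_mom hb n
  rw [← hm, auxG3_inner0]
  exact integral_congr_ae hxτ.symm

theorem auxG3_den {a ζ : ℂ} (ha : ‖a‖ < 1) (hζ : ‖ζ‖ = 1) : 1 - ‖a‖ ≤ ‖1 - conj a * ζ‖ := by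
  have h := norm_sub_norm_le (1 : ℂ) (conj a * ζ)
  rw [norm_mul, RCLike.norm_conj, hζ, norm_one, mul_one] at h
  exact h

theorem auxG3_Pint {a : ℂ} (ha : ‖a‖ < 1) :
    Integrable (fun ζ : ℂ => (1 - ‖a‖ ^ 2) / ‖1 - conj a * ζ‖ ^ 2) mT := by
  have hm : Measurable (fun ζ : ℂ => (1 - ‖a‖ ^ 2) / ‖1 - conj a * ζ‖ ^ 2) := by fun_prop
  apply Integrable.of_bound hm.aestronglyMeasurable ((1 - ‖a‖ ^ 2) / (1 - ‖a‖) ^ 2)
  filter_upwards [norm_one_ae] with ζ hζ
  have h1 := auxG3_den ha hζ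
  have h2 : 0 < 1 - ‖a‖ := by linarith
  have h3 : 0 < 1 - ‖a‖ ^ 2 := F96.one_sub_sq_pos ha
  rw [Real.norm_of_nonneg (by positivity)]
  gcongr

theorem auxG3_Pid {a ζ : ℂ} (ha : ‖a‖ < 1) (hζ : ‖ζ‖ = 1) :
    (((1 - ‖a‖ ^ 2) / ‖1 - conj a * ζ‖ ^ 2 : ℝ) : ℂ) + 1 =
      (1 - conj a * ζ)⁻¹ + (1 - a * ζ⁻¹)⁻¹ := by
  have hζ0 : ζ ≠ 0 := by
    intro h; rw [h, norm_zero] at hζ; exact zero_ne_one hζ
  have hc : ζ⁻¹ = conj ζ := by
    rw [Complex.inv_def, Complex.normSq_eq_norm_sq, hζ]; simp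
  have h1 : 1 - conj a * ζ ≠ 0 := by
    intro h
    have := auxG3_den ha hζ
    rw [h, norm_zero] at this
    linarith
  have h2 : 1 - a * conj ζ ≠ 0 := by
    intro h
    apply h1
    have := congrArg conj h
    simpa using this
  have e1 : ((‖1 - conj a * ζ‖ ^ 2 : ℝ) : ℂ) = (1 - conj a * ζ) * (1 - a * conj ζ) := by
    rw [← Complex.normSq_eq_norm_sq, ← Complex.mul_conj]
    simp
  have e2 : ((‖a‖ ^ 2 : ℝ) : ℂ) = a * conj a := by
    rw [← Complex.normSq_eq_norm_sq, ← Complex.mul_conj]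
  have e3 : ζ * conj ζ = 1 := by
    rw [← hc]; exact mul_inv_cancel₀ hζ0
  rw [hc, Complex.ofReal_div, e1, Complex.ofReal_sub, e2, Complex.ofReal_one]
  field_simp
  linear_combination (a * conj a) * e3

theorem auxG3_P {a : ℂ} (ha : ‖a‖ < 1) (n : ℕ) :
    ∫ ζ, (((1 - ‖a‖ ^ 2) / ‖1 - conj a * ζ‖ ^ 2 : ℝ) : ℂ) * ζ ^ n ∂mT = a ^ n := by
  have hms : ∀ (c : ℂ) (m : ℤ), Integrable (fun ζ : ℂ => c * ζ ^ m) mT := by
    intro c m
    have hm : Measurable (fun ζ : ℂ => c * ζ ^ m) := by fun_prop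
    apply Integrable.of_bound hm.aestronglyMeasurable ‖c‖
    filter_upwards [norm_one_ae] with ζ hζ
    rw [norm_mul, norm_zpow, hζ, one_zpow, mul_one]
  set F : ℕ → ℂ → ℂ := fun k ζ => (conj a) ^ k * ζ ^ ((n : ℤ) + k) + a ^ k * ζ ^ ((n : ℤ) - k) with hF
  have hFi : ∀ k, Integrable (F k) mT := fun k => (hms _ _).add (hms _ _)
  have hFs : Summable fun k => ∫ ζ, ‖F k ζ‖ ∂mT := by
    have hg : Summable fun k : ℕ => 2 * ‖a‖ ^ k :=
      (summable_geometric_of_lt_one (norm_nonneg _) ha).mul_left 2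
    refine Summable.of_nonneg_of_le (fun k => integral_nonneg fun ζ => norm_nonneg _) (fun k => ?_) hg
    have : ∫ ζ, ‖F k ζ‖ ∂mT ≤ ∫ _ζ, 2 * ‖a‖ ^ k ∂mT := by
      apply integral_mono_ae (hFi k).norm (integrable_const _)
      filter_upwards [norm_one_ae] with ζ hζ
      refine (norm_add_le _ _).trans ?_
      rw [norm_mul, norm_mul, norm_zpow, norm_zpow, hζ, one_zpow, one_zpow, norm_pow, norm_pow,
        RCLike.norm_conj]
      linarith
    simpa using this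
  have hsum := hasSum_integral_of_summable_integral_norm hFi hFs
  have hval : ∀ k, ∫ ζ, F k ζ ∂mT = (if k = 0 then (if n = 0 then (1 : ℂ) else 0) else 0) +
      (if k = n then a ^ n else 0) := by
    intro k
    have e : ∫ ζ, F k ζ ∂mT = ∫ ζ, (conj a) ^ k * ζ ^ ((n : ℤ) + k) ∂mT +
        ∫ ζ, a ^ k * ζ ^ ((n : ℤ) - k) ∂mT := integral_add (hms _ _) (hms _ _)
    rw [e, integral_const_mul, integral_const_mul, auxG3_int, auxG3_int]
    congr 1
    · by_cases hk : k = 0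
      · subst hk
        by_cases hn : n = 0
        · subst hn; simp
        · simp [hn]
      · rw [if_neg hk, if_neg (by omega), mul_zero]
    · by_cases hk : k = n
      · subst hk; simp
      · rw [if_neg hk, if_neg (by omega), mul_zero]
  have hsum2 : HasSum (fun k => ∫ ζ, F k ζ ∂mT) ((if n = 0 then (1 : ℂ) else 0) + a ^ n) := by
    simp only [hval]
    refine HasSum.add ?_ ?_
    · exact hasSum_ite_eq 0 _
    · exact hasSum_ite_eq n _
  have htot := hsum.unique hsum2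
  have hcongr : ∫ ζ, ∑' k, F k ζ ∂mT =
      ∫ ζ, ((((1 - ‖a‖ ^ 2) / ‖1 - conj a * ζ‖ ^ 2 : ℝ) : ℂ) * ζ ^ n + ζ ^ n) ∂mT := by
    apply integral_congr_ae
    filter_upwards [norm_one_ae] with ζ hζ
    have hζ0 : ζ ≠ 0 := by
      intro h; rw [h, norm_zero] at hζ; exact zero_ne_one hζ
    have g1 : HasSum (fun k : ℕ => (conj a * ζ) ^ k) (1 - conj a * ζ)⁻¹ :=
      hasSum_geometric_of_norm_lt_one (by rw [norm_mul, RCLike.norm_conj, hζ, mul_one]; exact ha)
    have g2 : HasSum (fun k : ℕ => (a * ζ⁻¹) ^ k) (1 - a * ζ⁻¹)⁻¹ :=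
      hasSum_geometric_of_norm_lt_one (by rw [norm_mul, norm_inv, hζ, inv_one, mul_one]; exact ha)
    have g3 := (g1.add g2).mul_left (ζ ^ n)
    have g4 : (fun k => F k ζ) = fun k => ζ ^ n * ((conj a * ζ) ^ k + (a * ζ⁻¹) ^ k) := by
      funext k
      simp only [hF]
      rw [zpow_add₀ hζ0, zpow_sub₀ hζ0, zpow_natCast, zpow_natCast, mul_pow, mul_pow, inv_pow]
      ring
    rw [← g4] at g3
    rw [g3.tsum_eq, ← auxG3_Pid ha hζ]
    ring
  have hPi : Integrable (fun ζ : ℂ => (((1 - ‖a‖ ^ 2) / ‖1 - conj a * ζ‖ ^ 2 : ℝ) : ℂ) * ζ ^ n) mT := by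
    have h1 := (auxG3_Pint ha).ofReal (𝕜 := ℂ)
    refine h1.mono (h1.aestronglyMeasurable.mul (by fun_prop)) ?_
    filter_upwards [norm_one_ae] with ζ hζ
    rw [norm_mul, norm_pow, hζ, one_pow, mul_one]
    exact le_rfl
  have hni : Integrable (fun ζ : ℂ => ζ ^ n) mT := by
    have := hms 1 n
    simpa using this
  rw [hcongr, integral_add hPi hni] at htot
  have hn0 : ∫ ζ, ζ ^ n ∂mT = if n = 0 then (1 : ℂ) else 0 := by
    have := auxG3_int (n : ℤ)
    simpa using this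
  rw [hn0] at htot
  linear_combination htot

theorem map_bd {τ : ℂ → ℂ} {b : H2} (hb : IsBd τ b) :
    Measure.map τ mT = mT.withDensity
      (fun ζ => ENNReal.ofReal ((1 - ‖ev b 0‖ ^ 2) / ‖1 - conj (ev b 0) * ζ‖ ^ 2)) := by
  have ha : ‖ev b 0‖ < 1 := hb.2.2.2 0 (by simp)
  haveI : IsFiniteMeasure (Measure.map τ mT) := Measure.isFiniteMeasure_map _ _
  haveI : IsFiniteMeasure (mT.withDensity
      (fun ζ => ENNReal.ofReal ((1 - ‖ev b 0‖ ^ 2) / ‖1 - conj (ev b 0) * ζ‖ ^ 2))) :=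
    isFiniteMeasure_withDensity_ofReal (auxG3_Pint ha).2
  have hm : Measurable (fun ζ : ℂ => ENNReal.ofReal ((1 - ‖ev b 0‖ ^ 2) /
      ‖1 - conj (ev b 0) * ζ‖ ^ 2)) := by fun_prop
  refine measure_ext_circle _ _ ?_ ?_ ?_
  · rw [ae_map_iff hb.1.aemeasurable (measurableSet_eq_fun measurable_norm measurable_const)]
    exact hb.2.1
  · exact (withDensity_absolutelyContinuous mT _).ae_le norm_one_ae
  · intro n
    rw [auxG3_map hb n, integral_withDensity_eq_integral_toReal_smul hm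
      (Eventually.of_forall fun ζ => ENNReal.ofReal_lt_top), ← auxG3_P ha n]
    apply integral_congr_ae
    refine Eventually.of_forall fun ζ => ?_
    have h0 : 0 ≤ (1 - ‖ev b 0‖ ^ 2) / ‖1 - conj (ev b 0) * ζ‖ ^ 2 :=
      div_nonneg (F96.one_sub_sq_pos ha).le (by positivity)
    simp only [ENNReal.toReal_ofReal h0]
    rw [Complex.real_smul]

theorem map_bd_zero {τ : ℂ → ℂ} {b : H2} (hb : IsBd τ b) (h0 : ev b 0 = 0) :
    Measure.map τ mT = mT := by
  rw [map_bd hb, h0]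
  simp

theorem qi_bd {τ : ℂ → ℂ} {b : H2} (hb : IsBd τ b) : Measure.QuasiMeasurePreserving τ mT mT := by
  refine ⟨hb.1, ?_⟩
  rw [map_bd hb]
  exact withDensity_absolutelyContinuous _ _

lemma auxG4_congr {f g : ℕ → ℂ} {a : ℂ} (h : ∀ n, f n = g n) (hg : HasSum g a) : HasSum f a := by
  rwa [funext h]

lemma auxG4_bm {τ : ℂ → ℂ} {b : H2} (hb : IsBd τ b) : BddMeas τ :=
  ⟨hb.1, 1, by filter_upwards [hb.2.1] with ζ h; exact h.le⟩

lemma auxG4_lift (T : L2 →L[ℂ] L2) (hT : ∀ f : H2, T (J f) ∈ Hs) :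
    ∃ C : H2 →L[ℂ] H2, ∀ f, J (C f) = T (J f) := by
  choose g hg using fun f => J_surj (hT f)
  let L : H2 →ₗ[ℂ] H2 :=
    { toFun := g
      map_add' := by
        intro x y
        apply J.injective
        rw [hg, map_add, map_add, map_add, hg, hg]
      map_smul' := by
        intro c x
        apply J.injective
        rw [hg, map_smul, map_smul, RingHom.id_apply, map_smul, hg] }
  have hL : ∀ x, ‖L x‖ ≤ ‖T‖ * ‖x‖ := by
    intro x
    have h1 : ‖L x‖ = ‖T (J x)‖ := by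
      rw [← J.norm_map (L x)]
      exact congrArg norm (hg x)
    rw [h1]
    have h2 := T.le_opNorm (J x)
    rwa [J.norm_map] at h2
  exact ⟨L.mkContinuous _ hL, fun f => hg f⟩

lemma auxG4_single (n : ℕ) : J (lp.single 2 n (1 : ℂ)) = mon n := by
  rw [← sub_eq_zero]
  apply mon_total
  intro k
  rw [inner_sub_right]
  rcases lt_or_ge k 0 with hk | hk
  · rw [J_mem _ k hk, orthonormal_iff_ite.1 mon_orthonormal, if_neg (by omega)]
    simp
  · obtain ⟨m, rfl⟩ := Int.eq_ofNat_of_zero_le hk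
    rw [J_coeff, orthonormal_iff_ite.1 mon_orthonormal, lp.single_apply, Pi.single_apply]
    by_cases h : m = n
    · subst h
      simp
    · rw [if_neg h, if_neg (by exact_mod_cast h)]
      simp

lemma auxG4_smul_single (n : ℕ) (c : ℂ) :
    (lp.single 2 n c : H2) = c • (lp.single 2 n (1 : ℂ) : H2) := by
  rw [← lp.single_smul, smul_eq_mul, mul_one]

lemma auxG4_hasSum (C : H2 →L[ℂ] H2) (f : H2) {z : ℂ} (hz : ‖z‖ < 1) :
    HasSum (fun n => f n * ev (C (lp.single 2 n (1 : ℂ))) z) (ev (C f) z) := by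
  have h1 := lp.hasSum_single (E := fun _ : ℕ => ℂ) (p := 2) (by norm_num) f
  have h2 := C.hasSum h1
  have h3 := (innerSL ℂ (kz z)).hasSum h2
  rw [← F96.inner_kz hz]
  refine auxG4_congr (fun n => ?_) h3
  rw [auxG4_smul_single n (f n), ← F96.inner_kz hz, map_smul, map_smul, smul_eq_mul]
  rfl

lemma auxG4_mul {τ : ℂ → ℂ} {b : H2} (hb : IsBd τ b) :
    ∃ B : H2 →L[ℂ] H2, (∀ f, J (B f) = mulL τ (J f)) ∧
      ∀ (f : H2) (z : ℂ), ‖z‖ < 1 → ev (B f) z = ev b z * ev f z := by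
  have hbm := auxG4_bm hb
  obtain ⟨B, hB⟩ := auxG4_lift (mulL τ) (fun f => mul_mem hbm (J_mem b) hb.2.2.1 (J_mem f))
  refine ⟨B, hB, ?_⟩
  have hc : ∀ m n : ℕ, (B (lp.single 2 m (1 : ℂ)) : ℕ → ℂ) n = if m ≤ n then b (n - m) else 0 := by
    intro m n
    rw [← J_coeff, hB, auxG4_single]
    have h1 : (inner ℂ (mon n) (mulL τ (mon m)) : ℂ) = inner ℂ (mon ((n : ℤ) - m)) (J b) := by
      rw [L2.inner_def, L2.inner_def]
      apply integral_congr_ae
      filter_upwards [mon_coe n, mulL_coe hbm (mon m), mon_coe m, mon_coe ((n : ℤ) - m),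
        hb.2.2.1, norm_one_ae] with ζ h1 h2 h3 h4 h5 h6
      rw [h1, h2, h3, h4, h5]
      have hζ : ζ ≠ 0 := by
        rintro rfl
        simp at h6
      have hconj : conj ζ = ζ⁻¹ := by
        rw [Complex.inv_def, Complex.normSq_eq_norm_sq, h6]
        simp
      simp only [RCLike.inner_apply, map_zpow₀, hconj, zpow_sub₀ hζ, map_div₀, inv_zpow]
      have hm' : ζ ^ (m : ℤ) ≠ 0 := zpow_ne_zero _ hζ
      have hn' : ζ ^ (n : ℤ) ≠ 0 := zpow_ne_zero _ hζ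
      field_simp
    rw [h1]
    split_ifs with hmn
    · have : ((n : ℤ) - m) = ((n - m : ℕ) : ℤ) := by omega
      rw [this, J_coeff]
    · exact J_mem b _ (by omega)
  have he : ∀ (m : ℕ) (z : ℂ), ‖z‖ < 1 →
      ev (B (lp.single 2 m (1 : ℂ))) z = z ^ m * ev b z := by
    intro m z hz
    have h1 := F96.hasSum_ev hz (B (lp.single 2 m (1 : ℂ)))
    have h2 := F96.hasSum_ev hz b
    rw [F96.inner_kz hz] at h1 h2
    have h3 := h2.mul_left (z ^ m)
    have h4 : HasSum (fun n => (B (lp.single 2 m (1 : ℂ)) : ℕ → ℂ) n * z ^ n)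
        (z ^ m * ev b z) := by
      rw [← (add_left_injective m).hasSum_iff]
      · refine auxG4_congr (fun n => ?_) h3
        simp only [Function.comp, hc, pow_add]
        simp
        ring
      · intro x hx
        have hxm : ¬ m ≤ x := by
          intro h
          exact hx ⟨x - m, by simp; omega⟩
        rw [hc, if_neg hxm, zero_mul]
    exact h1.unique h4
  intro f z hz
  have h1 := auxG4_hasSum B f hz
  have h2 := F96.hasSum_ev hz f
  rw [F96.inner_kz hz] at h2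
  have h3 := h2.mul_left (ev b z)
  refine h1.unique (auxG4_congr (fun n => ?_) h3)
  rw [he n z hz]
  ring

lemma auxG4_le {τ : ℂ → ℂ} {b : H2} (hb : IsBd τ b) :
    ∃ K : ENNReal, K ≠ ⊤ ∧ Measure.map τ mT ≤ K • mT := by
  refine ⟨ENNReal.ofReal ((1 - ‖ev b 0‖ ^ 2) / (1 - ‖ev b 0‖) ^ 2), ENNReal.ofReal_ne_top, ?_⟩
  rw [map_bd hb, ← withDensity_const]
  apply withDensity_mono
  filter_upwards [norm_one_ae] with ζ hζ
  apply ENNReal.ofReal_le_ofReal
  have ha := hb.2.2.2 0 (by simp)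
  have h0 := norm_nonneg (ev b 0)
  have h1 : 1 - ‖ev b 0‖ ≤ ‖1 - conj (ev b 0) * ζ‖ := by
    have := norm_sub_norm_le (1 : ℂ) (conj (ev b 0) * ζ)
    rw [norm_mul, RCLike.norm_conj, hζ, norm_one, mul_one] at this
    exact this
  have h2 : 0 < 1 - ‖ev b 0‖ := by linarith
  apply div_le_div_of_nonneg_left
  · nlinarith
  · positivity
  · exact pow_le_pow_left₀ (by linarith) h1 2

theorem exists_CL {τ : ℂ → ℂ} {b : H2} (hb : IsBd τ b) :
    ∃ CL : L2 →L[ℂ] L2, (∀ x : L2, (CL x : ℂ → ℂ) =ᵐ[mT] fun ζ => x (τ ζ)) ∧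
      (ev b 0 = 0 → ∀ x, ‖CL x‖ = ‖x‖) ∧
      ∃ C : H2 →L[ℂ] H2, (∀ f, J (C f) = CL (J f)) ∧
        ∀ (f : H2) (z : ℂ), ‖z‖ < 1 → ev (C f) z = ev f (ev b z) := by
  obtain ⟨K, hK, hle⟩ := auxG4_le hb
  have hq := qi_bd hb
  have hmm : ∀ x : L2, MemLp (x : ℂ → ℂ) 2 (Measure.map τ mT) := fun x =>
    (Lp.memLp x).of_measure_le_smul hK hle
  have hm : ∀ x : L2, MemLp (fun ζ => x (τ ζ)) 2 mT := fun x =>
    (memLp_map_measure_iff (hmm x).1 hb.1.aemeasurable).1 (hmm x)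
  have hn : ∀ x : L2, eLpNorm (fun ζ => x (τ ζ)) 2 mT = eLpNorm x 2 (Measure.map τ mT) :=
    fun x => (eLpNorm_map_measure (hmm x).1 hb.1.aemeasurable).symm
  let T : L2 →ₗ[ℂ] L2 :=
    { toFun := fun x => (hm x).toLp _
      map_add' := by
        intro x y
        apply Lp.ext
        filter_upwards [MemLp.coeFn_toLp (hm (x + y)),
          Lp.coeFn_add ((hm x).toLp _) ((hm y).toLp _), MemLp.coeFn_toLp (hm x),
          MemLp.coeFn_toLp (hm y), hq.ae_eq_comp (Lp.coeFn_add x y)] with ζ h1 h2 h3 h4 h5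
        rw [h1, h2, Pi.add_apply, h3, h4]
        exact h5
      map_smul' := by
        intro c x
        apply Lp.ext
        filter_upwards [MemLp.coeFn_toLp (hm (c • x)),
          Lp.coeFn_smul c ((hm x).toLp _), MemLp.coeFn_toLp (hm x),
          hq.ae_eq_comp (Lp.coeFn_smul c x)] with ζ h1 h2 h3 h5
        rw [h1, RingHom.id_apply, h2, Pi.smul_apply, h3]
        exact h5 }
  have hT : ∀ x, (T x : ℂ → ℂ) =ᵐ[mT] fun ζ => x (τ ζ) := fun x => MemLp.coeFn_toLp (hm x)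
  have hTn : ∀ x, ‖T x‖ = (eLpNorm x 2 (Measure.map τ mT)).toReal := by
    intro x
    rw [← hn]
    exact Lp.norm_toLp _ (hm x)
  have hbound : ∀ x, ‖T x‖ ≤ (K ^ (1 / (2 : ENNReal)).toReal).toReal * ‖x‖ := by
    intro x
    rw [hTn, Lp.norm_def, ← ENNReal.toReal_mul]
    apply ENNReal.toReal_mono
    · exact ENNReal.mul_ne_top (by simp [hK]) (Lp.eLpNorm_ne_top x)
    · exact eLpNorm_le_of_measure_le_smul hle
  obtain ⟨CL, hCLT⟩ : ∃ CL : L2 →L[ℂ] L2, ∀ x, CL x = T x :=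
    ⟨T.mkContinuous _ hbound, fun x => rfl⟩
  have hCL : ∀ x : L2, (CL x : ℂ → ℂ) =ᵐ[mT] fun ζ => x (τ ζ) := by
    intro x
    rw [hCLT]
    exact hT x
  have hmon : ∀ n : ℕ, (CL (mon n) : ℂ → ℂ) =ᵐ[mT] fun ζ => (τ ζ) ^ n := by
    intro n
    filter_upwards [hCL (mon n), hq.ae_eq_comp (mon_coe n)] with ζ h1 h2
    rw [h1]
    simpa using h2
  have hmon0 : CL (mon (0 : ℕ)) = mon (0 : ℕ) := by
    apply Lp.ext
    filter_upwards [hmon 0, mon_coe ((0 : ℕ) : ℤ)] with ζ h1 h2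
    rw [h1, h2]
    simp
  have hmons : ∀ n : ℕ, CL (mon ((n + 1 : ℕ) : ℤ)) = mulL τ (CL (mon n)) := by
    intro n
    apply Lp.ext
    filter_upwards [hmon (n + 1), mulL_coe (auxG4_bm hb) (CL (mon n)), hmon n] with ζ h1 h2 h3
    rw [h1, h2, h3, pow_succ]
    ring
  have hmonH : ∀ n : ℕ, CL (mon n) ∈ Hs := by
    intro n
    induction n with
    | zero =>
      rw [hmon0]
      exact mon_mem (by simp)
    | succ n ih =>
      rw [hmons]
      exact mul_mem (auxG4_bm hb) (J_mem b) hb.2.2.1 ih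
  have hJH : ∀ f : H2, CL (J f) ∈ Hs := by
    intro f
    have h1 := lp.hasSum_single (E := fun _ : ℕ => ℂ) (p := 2) (by norm_num) f
    have h2 := J.toContinuousLinearMap.hasSum h1
    have h3 := CL.hasSum h2
    refine Hs_closed.mem_of_tendsto h3 (Eventually.of_forall fun s =>
      Submodule.sum_mem _ (fun n _ => ?_))
    have h4 : CL (J.toContinuousLinearMap (lp.single 2 n (f n))) = f n • CL (mon n) := by
      rw [auxG4_smul_single, map_smul, map_smul, ← auxG4_single]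
      rfl
    rw [h4]
    exact Submodule.smul_mem _ _ (hmonH n)
  obtain ⟨C, hC⟩ := auxG4_lift CL hJH
  obtain ⟨B, hB, hBe⟩ := auxG4_mul hb
  have hC0 : C (lp.single 2 0 (1 : ℂ)) = lp.single 2 0 (1 : ℂ) := by
    apply J.injective
    rw [hC, auxG4_single, hmon0]
  have hCs : ∀ n : ℕ, C (lp.single 2 (n + 1) (1 : ℂ)) = B (C (lp.single 2 n (1 : ℂ))) := by
    intro n
    apply J.injective
    rw [hC, hB, hC, auxG4_single, auxG4_single, hmons]
  have hCe : ∀ (n : ℕ) (z : ℂ), ‖z‖ < 1 →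
      ev (C (lp.single 2 n (1 : ℂ))) z = (ev b z) ^ n := by
    intro n z hz
    induction n with
    | zero =>
      rw [hC0]
      unfold ev
      rw [tsum_eq_single 0]
      · simp
      · intro k hk
        rw [lp.single_apply, Pi.single_eq_of_ne hk, zero_mul]
    | succ n ih =>
      rw [hCs, hBe _ _ hz, ih, pow_succ]
      ring
  refine ⟨CL, hCL, ?_, C, hC, ?_⟩
  · intro h0 x
    rw [hCLT, hTn, map_bd_zero hb h0]
    rfl
  · intro f z hz
    have h1 := auxG4_hasSum C f hz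
    have h2 := F96.hasSum_ev (hb.2.2.2 z hz) f
    rw [F96.inner_kz (hb.2.2.2 z hz)] at h2
    refine h1.unique (auxG4_congr (fun n => ?_) h2)
    rw [hCe n z hz]


lemma auxG5_normSq (p z : ℂ) : Complex.normSq (1 - conj p * z) - Complex.normSq (z - p) =
    (1 - Complex.normSq z) * (1 - Complex.normSq p) := by
  simp only [Complex.normSq_apply, Complex.sub_re, Complex.sub_im, Complex.mul_re, Complex.mul_im,
    Complex.conj_re, Complex.conj_im, Complex.one_re, Complex.one_im]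
  ring

lemma auxG5_den {p z : ℂ} (hp : ‖p‖ < 1) (hz : ‖z‖ ≤ 1) : 1 - conj p * z ≠ 0 := by
  intro h
  have h1 : conj p * z = 1 := (sub_eq_zero.1 h).symm
  have h2 : ‖conj p * z‖ = 1 := by rw [h1, norm_one]
  rw [norm_mul, RCLike.norm_conj] at h2
  have h3 : ‖p‖ * ‖z‖ ≤ ‖p‖ := mul_le_of_le_one_right (norm_nonneg _) hz
  linarith

lemma auxG5_lt {p z : ℂ} (hp : ‖p‖ < 1) (hz : ‖z‖ < 1) : ‖(z - p) / (1 - conj p * z)‖ < 1 := by
  have hd := auxG5_den hp hz.le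
  rw [norm_div, div_lt_one (norm_pos_iff.2 hd)]
  have h := auxG5_normSq p z
  have h1 : Complex.normSq z < 1 := by
    rw [Complex.normSq_eq_norm_sq]
    nlinarith [norm_nonneg z]
  have h2 : Complex.normSq p < 1 := by
    rw [Complex.normSq_eq_norm_sq]
    nlinarith [norm_nonneg p]
  have h3 : Complex.normSq (z - p) < Complex.normSq (1 - conj p * z) := by
    have : 0 < (1 - Complex.normSq z) * (1 - Complex.normSq p) :=
      mul_pos (by linarith) (by linarith)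
    linarith
  rw [Complex.normSq_eq_norm_sq, Complex.normSq_eq_norm_sq] at h3
  exact lt_of_pow_lt_pow_left₀ 2 (norm_nonneg _) h3

lemma auxG5_eq {p z : ℂ} (hp : ‖p‖ < 1) (hz : ‖z‖ = 1) : ‖(z - p) / (1 - conj p * z)‖ = 1 := by
  have hd := auxG5_den hp hz.le
  rw [norm_div, div_eq_one_iff_eq (norm_ne_zero_iff.2 hd)]
  have h := auxG5_normSq p z
  have h1 : Complex.normSq z = 1 := by
    rw [Complex.normSq_eq_norm_sq, hz, one_pow]
  rw [h1, sub_self, zero_mul, Complex.normSq_eq_norm_sq, Complex.normSq_eq_norm_sq] at h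
  have h2 : ‖z - p‖ ^ 2 = ‖1 - conj p * z‖ ^ 2 := by linarith
  exact (pow_left_inj₀ (norm_nonneg _) (norm_nonneg _) (by norm_num)).1 h2

/-- composition of inner functions -/
theorem bd_comp {τ τ' : ℂ → ℂ} {b b' : H2} (hb : IsBd τ b) (hb' : IsBd τ' b') :
    ∃ b'' : H2, IsBd (fun ζ => τ (τ' ζ)) b'' ∧ ∀ z : ℂ, ‖z‖ < 1 → ev b'' z = ev b (ev b' z) := by
  obtain ⟨CL, h1, _, C, hJC, hev⟩ := exists_CL hb'
  refine ⟨C b, ⟨hb.1.comp hb'.1, ?_, ?_, ?_⟩, fun z hz => hev b z hz⟩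
  · exact (qi_bd hb').ae hb.2.1
  · rw [hJC]
    filter_upwards [h1 (J b), (qi_bd hb').ae_eq_comp hb.2.2.1] with ζ e1 e2
    rw [e1]
    exact e2
  · intro z hz
    rw [hev b z hz]
    exact hb.2.2.2 _ (hb'.2.2.2 z hz)

/-- disc automorphisms are inner -/
theorem bd_aut (c p : ℂ) (hc : ‖c‖ = 1) (hp : ‖p‖ < 1) :
    ∃ b : H2, IsBd (fun ζ => c * ((ζ - p) / (1 - conj p * ζ))) b ∧
      ∀ z : ℂ, ‖z‖ < 1 → ev b z = c * ((z - p) / (1 - conj p * z)) := by
  have hlt : ∀ z : ℂ, ‖z‖ < 1 → ‖c * ((z - p) / (1 - conj p * z))‖ < 1 := by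
    intro z hz
    rw [norm_mul, hc, one_mul]
    exact auxG5_lt hp hz
  have hdiff : DifferentiableOn ℂ (fun ζ => c * ((ζ - p) / (1 - conj p * ζ))) (Metric.ball 0 1) := by
    intro z hz
    rw [mem_ball_zero_iff] at hz
    have hd := auxG5_den hp hz.le
    have : DifferentiableAt ℂ (fun ζ => c * ((ζ - p) / (1 - conj p * ζ))) z := by
      have d1 : DifferentiableAt ℂ (fun ζ : ℂ => ζ - p) z := by fun_prop
      have d2 : DifferentiableAt ℂ (fun ζ : ℂ => 1 - conj p * ζ) z := by fun_prop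
      exact (d1.div d2 hd).const_mul c
    exact this.differentiableWithinAt
  have hmeas : Measurable (fun ζ : ℂ => c * ((ζ - p) / (1 - conj p * ζ))) := by fun_prop
  obtain ⟨G, hG, hJG⟩ := bd_general (fun ζ => c * ((ζ - p) / (1 - conj p * ζ)))
    (fun ζ => c * ((ζ - p) / (1 - conj p * ζ))) 1 hdiff (fun z hz => (hlt z hz).le) hmeas (by
      filter_upwards [norm_one_ae] with ζ hζ
      have hd := auxG5_den hp hζ.le
      have hcont : ContinuousAt (fun ζ => c * ((ζ - p) / (1 - conj p * ζ))) ζ := by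
        have d1 : ContinuousAt (fun ζ : ℂ => ζ - p) ζ := by fun_prop
        have d2 : ContinuousAt (fun ζ : ℂ => 1 - conj p * ζ) ζ := by fun_prop
        exact continuousAt_const.mul (d1.div d2 hd)
      have hr : Tendsto (fun r : ℝ => (r : ℂ) * ζ) (nhdsWithin 1 (Set.Iio 1)) (nhds ζ) := by
        have h1 : Continuous fun r : ℝ => (r : ℂ) * ζ := by fun_prop
        have h2 := h1.tendsto 1
        simp only [Complex.ofReal_one, one_mul] at h2
        exact h2.mono_left nhdsWithin_le_nhds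
      exact hcont.tendsto.comp hr)
  refine ⟨G, ⟨hmeas, ?_, hJG, ?_⟩, hG⟩
  · filter_upwards [norm_one_ae] with ζ hζ
    rw [norm_mul, hc, one_mul]
    exact auxG5_eq hp hζ
  · intro z hz
    rw [hG z hz]
    exact hlt z hz


end

end HT
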