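import Pool.Agent.Helper368.HT.T
import Pool.Agent.Helper368.HT.F

open scoped ComplexConjugate
open MeasureTheory Filter

namespace HT

open F96 (H2 ev kz)

noncomputable section


/-- inverse Cayley transform, from the disc to the upper half plane -/
def sfun (η₀ β w : ℂ) : ℂ := (β - conj β * (η₀ * w)) / (1 - η₀ * w)

/-- boundary values of the inverse Cayley transform -/
def sR (η₀ β w : ℂ) : ℝ := (sfun η₀ β w).re

/-- a hyperbolic automorphism and its Cayley coordinate -/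
structure Aut where
  ε : ℂ
  δ : ℝ
  hε : ‖ε‖ = 1
  hδ0 : 0 < δ
  hδ1 : δ < 1
  η₀ : ℂ
  β : ℂ
  hη : ‖η₀‖ = 1
  hβ : 0 < β.im
  lam : ℝ
  hlam : 1 < lam
  heq : ∀ s : ℂ, 0 < s.im →
    (ε * F96.zt η₀ β s + δ) / (1 + δ * ε * F96.zt η₀ β s) = F96.zt η₀ β (lam * s)

/-- the automorphism -/
def Aut.γ (A : Aut) (w : ℂ) : ℂ := (A.ε * w + A.δ) / (1 + A.δ * A.ε * w)

/-- its inverse -/
def Aut.γi (A : Aut) (w : ℂ) : ℂ := conj A.ε * ((w - A.δ) / (1 - A.δ * w))

lemma mT_singleton (a : ℂ) : mT {a} = 0 := by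
  unfold mT
  rw [Measure.map_apply meas_param (measurableSet_singleton a),
    Measure.restrict_apply (meas_param (measurableSet_singleton a))]
  apply Set.Subsingleton.measure_zero
  rintro x ⟨hx1, hx2, hx3⟩ y ⟨hy1, hy2, hy3⟩
  have h : Complex.exp (2 * Real.pi * x * Complex.I) = Complex.exp (2 * Real.pi * y * Complex.I) :=
    (show _ = a from hx1).trans (show _ = a from hy1).symm
  obtain ⟨n, hn⟩ := Complex.exp_eq_exp_iff_exists_int.1 h
  have hpi : (2 * Real.pi * Complex.I : ℂ) ≠ 0 := Complex.two_pi_I_ne_zero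
  have h1 : (x : ℂ) = y + n := by
    apply mul_left_cancel₀ hpi
    linear_combination hn
  have h2 : x = y + n := by exact_mod_cast h1
  have h3 : (n : ℝ) < 1 := by linarith
  have h4 : (-1 : ℝ) < n := by linarith
  have h5 : n < 1 := by exact_mod_cast h3
  have h6 : -1 < n := by exact_mod_cast h4
  have h7 : n = 0 := by omega
  rw [h7] at h2
  simpa using h2

lemma sR_meas (η₀ β : ℂ) : Measurable (sR η₀ β) := by
  unfold sR sfun
  fun_prop

lemma auxI0_conj {η₀ : ℂ} (hη : ‖η₀‖ = 1) : η₀ * conj η₀ = 1 := by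
  rw [Complex.mul_conj, Complex.normSq_eq_norm_sq, hη]; norm_num

lemma auxI0_ne {β s : ℂ} (hβ : 0 < β.im) (hs : 0 ≤ s.im) : s - conj β ≠ 0 := by
  intro h
  have := congrArg Complex.im h
  simp at this
  linarith

lemma auxI0_bb {β : ℂ} (hβ : 0 < β.im) : β - conj β ≠ 0 := by
  intro h
  have := congrArg Complex.im h
  simp at this
  linarith

lemma sfun_zt {η₀ β : ℂ} (hη : ‖η₀‖ = 1) (hβ : 0 < β.im) {s : ℂ} (hs : 0 ≤ s.im) :
    sfun η₀ β (F96.zt η₀ β s) = s := by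
  have h1 := auxI0_conj hη
  have h2 := auxI0_ne hβ hs
  have h3 := auxI0_bb hβ
  have h4 : η₀ * F96.zt η₀ β s = (s - β) / (s - conj β) := by
    unfold F96.zt
    rw [← mul_assoc, h1, one_mul]
  unfold sfun
  rw [h4]
  have h5 : 1 - (s - β) / (s - conj β) = (β - conj β) / (s - conj β) := by
    field_simp; ring
  have h6 : β - conj β * ((s - β) / (s - conj β)) = s * (β - conj β) / (s - conj β) := by
    field_simp; ring
  rw [h5, h6]
  field_simp

lemma sfun_im {η₀ β : ℂ} (hη : ‖η₀‖ = 1) (hβ : 0 < β.im) {w : ℂ} (hw : ‖w‖ < 1) :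
    0 < (sfun η₀ β w).im ∧ F96.zt η₀ β (sfun η₀ β w) = w := by
  obtain ⟨s, hs, rfl⟩ := F96.exists_zt hη hβ hw
  rw [sfun_zt hη hβ hs.le]
  exact ⟨hs, rfl⟩

lemma sfun_real {η₀ β : ℂ} (hη : ‖η₀‖ = 1) (hβ : 0 < β.im) {w : ℂ} (hw : ‖w‖ = 1)
    (h1 : η₀ * w ≠ 1) :
    sfun η₀ β w = (sR η₀ β w : ℂ) ∧ F96.zt η₀ β (sR η₀ β w) = w := by
  have hv1 : ‖η₀ * w‖ = 1 := by rw [norm_mul, hη, hw, one_mul]
  have hv2 := auxI0_conj hv1
  have h3 := auxI0_bb hβ
  have h4 : 1 - η₀ * w ≠ 0 := fun h => h1 (sub_eq_zero.1 h).symm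
  have hconj : conj (sfun η₀ β w) = sfun η₀ β w := by
    unfold sfun
    rw [map_div₀, map_sub, map_sub, map_mul, map_one, Complex.conj_conj]
    have h5 : 1 - conj (η₀ * w) ≠ 0 := by
      intro h
      apply h4
      have := congrArg conj h
      rwa [map_sub, map_one, Complex.conj_conj, map_zero] at this
    rw [div_eq_div_iff h5 h4]
    linear_combination (β - conj β) * hv2
  have hre : sfun η₀ β w = (sR η₀ β w : ℂ) := (Complex.conj_eq_iff_re.1 hconj).symm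
  refine ⟨hre, ?_⟩
  rw [← hre]
  have e1 : sfun η₀ β w - β = (η₀ * w) * (β - conj β) / (1 - η₀ * w) := by
    unfold sfun
    field_simp
    ring
  have e2 : sfun η₀ β w - conj β = (β - conj β) / (1 - η₀ * w) := by
    unfold sfun
    field_simp
    ring
  unfold F96.zt
  rw [e1, e2]
  have e3 : (η₀ * w) * (β - conj β) / (1 - η₀ * w) / ((β - conj β) / (1 - η₀ * w)) = η₀ * w := by
    field_simp
  rw [e3, ← mul_assoc, mul_comm (conj η₀), auxI0_conj hη, one_mul]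

lemma sR_ne {η₀ β : ℂ} (hη : ‖η₀‖ = 1) (hβ : 0 < β.im) :
    ∀ᵐ w ∂mT, sR η₀ β w ≠ 0 ∧ η₀ * w ≠ 1 := by
  have hne : ∀ a : ℂ, ∀ᵐ w ∂mT, w ≠ a := by
    intro a
    rw [ae_iff]
    have : {w : ℂ | ¬ w ≠ a} = {a} := by ext w; simp
    rw [this]
    exact mT_singleton a
  have hη0 : η₀ ≠ 0 := by
    intro h; rw [h, norm_zero] at hη; exact zero_ne_one hη
  have hβ0 : conj β ≠ 0 := by
    intro h
    have := congrArg Complex.im h
    simp at this
    linarith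
  filter_upwards [norm_one_ae, hne (conj η₀), hne (β / (conj β * η₀))] with w h1 h2 h3
  have h4 : η₀ * w ≠ 1 := by
    intro h
    apply h2
    have h5 := auxI0_conj hη
    apply mul_left_cancel₀ hη0
    rw [h, h5]
  refine ⟨?_, h4⟩
  intro h
  apply h3
  have h6 := (sfun_real hη hβ h1 h4).1
  rw [h, Complex.ofReal_zero] at h6
  unfold sfun at h6
  have h7 : 1 - η₀ * w ≠ 0 := fun h => h4 (sub_eq_zero.1 h).symm
  rw [div_eq_zero_iff, or_iff_left h7] at h6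
  rw [eq_div_iff (mul_ne_zero hβ0 hη0)]
  linear_combination -h6

lemma norm_zt_real {η₀ β : ℂ} (hη : ‖η₀‖ = 1) (hβ : 0 < β.im) (s : ℝ) :
    ‖F96.zt η₀ β (s : ℂ)‖ = 1 := by
  unfold F96.zt
  have h1 : (s : ℂ) - conj β = conj ((s : ℂ) - β) := by
    rw [map_sub, Complex.conj_ofReal]
  have h2 : (s : ℂ) - conj β ≠ 0 := auxI0_ne hβ (by simp)
  have h3 : ‖(s : ℂ) - β‖ = ‖(s : ℂ) - conj β‖ := by
    rw [h1, Complex.norm_conj]
  rw [norm_mul, norm_div, h3, div_self (norm_ne_zero_iff.2 h2), Complex.norm_conj, hη, one_mul]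

lemma auxI2_conj (A : Aut) : A.ε * conj A.ε = 1 := by
  rw [Complex.mul_conj']
  rw [A.hε]
  norm_num

lemma auxI2_norm_delta (A : Aut) : ‖(A.δ : ℂ)‖ < 1 := by
  rw [Complex.norm_real, Real.norm_eq_abs, abs_of_pos A.hδ0]
  exact A.hδ1

lemma auxI2_gam (A : Aut) : A.γ = fun w => A.ε * ((w - (-(A.δ : ℂ) * conj A.ε)) /
    (1 - conj (-(A.δ : ℂ) * conj A.ε) * w)) := by
  funext w
  have h := auxI2_conj A
  have h1 : conj (-(A.δ : ℂ) * conj A.ε) = -(A.δ : ℂ) * A.ε := by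
    simp
  rw [h1]
  unfold Aut.γ
  rw [← mul_div_assoc]
  have h2 : A.ε * (w - -(A.δ : ℂ) * conj A.ε) = A.ε * w + A.δ := by
    linear_combination (A.δ : ℂ) * h
  have h3 : 1 - -(A.δ : ℂ) * A.ε * w = 1 + A.δ * A.ε * w := by ring
  rw [h2, h3]

lemma auxI2_gami (A : Aut) : A.γi = fun w => conj A.ε * ((w - (A.δ : ℂ)) /
    (1 - conj (A.δ : ℂ) * w)) := by
  funext w
  unfold Aut.γi
  rw [Complex.conj_ofReal]

lemma auxI2_den1 (A : Aut) {w : ℂ} (hw : ‖w‖ = 1) : (1 - (A.δ : ℂ) * w) ≠ 0 := by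
  intro h
  have h1 : (A.δ : ℂ) * w = 1 := by linear_combination -h
  have h2 := congrArg norm h1
  rw [norm_mul, hw, mul_one, norm_one] at h2
  have := auxI2_norm_delta A
  linarith

lemma auxI2_den2 (A : Aut) {w : ℂ} (hw : ‖w‖ = 1) : (1 + (A.δ : ℂ) * A.ε * w) ≠ 0 := by
  intro h
  have h1 : (A.δ : ℂ) * A.ε * w = -1 := by linear_combination h
  have h2 := congrArg norm h1
  rw [norm_mul, norm_mul, hw, A.hε, mul_one, mul_one, norm_neg, norm_one] at h2
  have := auxI2_norm_delta A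
  linarith

lemma auxI2_den3 (A : Aut) : (1 - (A.δ : ℂ) ^ 2) ≠ 0 := by
  intro h
  have h1 : (A.δ : ℂ) ^ 2 = 1 := by linear_combination -h
  have h2 := congrArg norm h1
  rw [norm_pow, norm_one] at h2
  have h3 := auxI2_norm_delta A
  have h4 := norm_nonneg (A.δ : ℂ)
  nlinarith

lemma gam_qi (A : Aut) : Measure.QuasiMeasurePreserving A.γ mT mT ∧
    Measure.QuasiMeasurePreserving A.γi mT mT := by
  constructor
  · have hp : ‖-(A.δ : ℂ) * conj A.ε‖ < 1 := by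
      rw [norm_mul, norm_neg, RCLike.norm_conj, A.hε, mul_one]
      exact auxI2_norm_delta A
    obtain ⟨b, hb, -⟩ := bd_aut A.ε (-(A.δ : ℂ) * conj A.ε) A.hε hp
    rw [auxI2_gam]
    exact qi_bd hb
  · have hc : ‖conj A.ε‖ = 1 := by
      rw [RCLike.norm_conj, A.hε]
    obtain ⟨b, hb, -⟩ := bd_aut (conj A.ε) (A.δ : ℂ) hc (auxI2_norm_delta A)
    rw [auxI2_gami]
    exact qi_bd hb

lemma gam_inv (A : Aut) : ∀ᵐ w ∂mT, A.γ (A.γi w) = w ∧ A.γi (A.γ w) = w := by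
  filter_upwards [norm_one_ae] with w hw
  have h := auxI2_conj A
  have d1 := auxI2_den1 A hw
  have d2 := auxI2_den2 A hw
  have d3 := auxI2_den3 A
  constructor
  · have e1 : A.ε * A.γi w = (w - A.δ) / (1 - A.δ * w) := by
      unfold Aut.γi
      rw [← mul_assoc, h, one_mul]
    have e2 : A.γ (A.γi w) = (A.ε * A.γi w + A.δ) / (1 + A.δ * (A.ε * A.γi w)) := by
      unfold Aut.γ
      rw [mul_assoc]
    rw [e2, e1]
    have e3 : (w - A.δ) / (1 - A.δ * w) + A.δ = (w * (1 - (A.δ : ℂ) ^ 2)) / (1 - A.δ * w) := by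
      rw [eq_div_iff d1, add_mul, div_mul_cancel₀ _ d1]
      ring
    have e4 : 1 + A.δ * ((w - A.δ) / (1 - A.δ * w)) = (1 - (A.δ : ℂ) ^ 2) / (1 - A.δ * w) := by
      rw [eq_div_iff d1, add_mul, mul_assoc, div_mul_cancel₀ _ d1]
      ring
    rw [e3, e4, div_div_div_cancel_right₀ d1, mul_div_assoc, div_self d3, mul_one]
  · have e3 : A.γ w - A.δ = (A.ε * w * (1 - (A.δ : ℂ) ^ 2)) / (1 + A.δ * A.ε * w) := by
      unfold Aut.γ
      rw [eq_div_iff d2, sub_mul, div_mul_cancel₀ _ d2]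
      ring
    have e4 : 1 - A.δ * A.γ w = (1 - (A.δ : ℂ) ^ 2) / (1 + A.δ * A.ε * w) := by
      unfold Aut.γ
      rw [eq_div_iff d2, sub_mul, mul_assoc (A.δ : ℂ) (_ / _), div_mul_cancel₀ _ d2]
      ring
    have e5 : A.γi (A.γ w) = conj A.ε * ((A.γ w - A.δ) / (1 - A.δ * A.γ w)) := rfl
    rw [e5, e3, e4, div_div_div_cancel_right₀ d2, mul_div_assoc, div_self d3, mul_one]
    linear_combination w * h

lemma auxI3_cont_zt {η b : ℂ} (hb : 0 < b.im) (x : ℝ) : ContinuousAt (F96.zt η b) (x : ℂ) := by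
  unfold F96.zt
  refine continuousAt_const.mul (ContinuousAt.div (by fun_prop) (by fun_prop) ?_)
  intro h
  have h1 := congrArg Complex.im h
  simp at h1
  linarith

lemma auxI3_cont_gam (A : Aut) {w : ℂ} (hw : ‖w‖ = 1) : ContinuousAt A.γ w := by
  unfold Aut.γ
  refine ContinuousAt.div (by fun_prop) (by fun_prop) ?_
  intro h
  have h1 : (A.δ : ℂ) * A.ε * w = -1 := by linear_combination h
  have h2 := congrArg norm h1
  rw [norm_mul, norm_mul, Complex.norm_real, Real.norm_eq_abs, abs_of_pos A.hδ0, A.hε, hw,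
    norm_neg, norm_one] at h2
  have := A.hδ1
  linarith

lemma auxI3_gam_zt (A : Aut) (x : ℝ) :
    A.γ (F96.zt A.η₀ A.β (x : ℂ)) = F96.zt A.η₀ A.β ((A.lam * x : ℝ) : ℂ) := by
  have hs : Tendsto (fun y : ℝ => (x : ℂ) + y * Complex.I) (nhdsWithin 0 (Set.Ioi 0))
      (nhds (x : ℂ)) := by
    have h1 : Continuous (fun y : ℝ => (x : ℂ) + y * Complex.I) := by fun_prop
    have h2 := h1.tendsto 0
    simp only [Complex.ofReal_zero, zero_mul, add_zero] at h2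
    exact h2.mono_left nhdsWithin_le_nhds
  have h1 : Tendsto (fun y : ℝ => A.γ (F96.zt A.η₀ A.β ((x : ℂ) + y * Complex.I)))
      (nhdsWithin 0 (Set.Ioi 0)) (nhds (A.γ (F96.zt A.η₀ A.β (x : ℂ)))) :=
    (auxI3_cont_gam A (norm_zt_real A.hη A.hβ x)).tendsto.comp
      ((auxI3_cont_zt A.hβ x).tendsto.comp hs)
  have h2 : Tendsto (fun y : ℝ => F96.zt A.η₀ A.β ((A.lam : ℂ) * ((x : ℂ) + y * Complex.I)))
      (nhdsWithin 0 (Set.Ioi 0)) (nhds (F96.zt A.η₀ A.β ((A.lam * x : ℝ) : ℂ))) := by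
    have h3 := hs.const_mul (A.lam : ℂ)
    rw [← Complex.ofReal_mul] at h3
    exact (auxI3_cont_zt A.hβ (A.lam * x)).tendsto.comp h3
  refine tendsto_nhds_unique h1 (h2.congr' ?_)
  filter_upwards [self_mem_nhdsWithin] with y hy
  have hy' : (0 : ℝ) < y := hy
  exact (A.heq ((x : ℂ) + y * Complex.I) (by simpa using hy')).symm

lemma sR_gam (A : Aut) : ∀ᵐ w ∂mT, sR A.η₀ A.β (A.γ w) = A.lam * sR A.η₀ A.β w := by
  filter_upwards [norm_one_ae, sR_ne A.hη A.hβ] with w hw hne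
  obtain ⟨-, h2⟩ := sfun_real A.hη A.hβ hw hne.2
  have h3 := auxI3_gam_zt A (sR A.η₀ A.β w)
  rw [h2] at h3
  rw [h3]
  have h4 : sfun A.η₀ A.β (F96.zt A.η₀ A.β ((A.lam * sR A.η₀ A.β w : ℝ) : ℂ)) =
      ((A.lam * sR A.η₀ A.β w : ℝ) : ℂ) :=
    sfun_zt A.hη A.hβ (by rw [Complex.ofReal_im])
  have h5 := congrArg Complex.re h4
  rw [Complex.ofReal_re] at h5
  exact h5

/-- the representative in the fundamental domain -/
def auxI4_st (ell : ℝ) (Z : ℂ) : ℝ :=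
  (if ‖Z‖ = 1 then 1 else -1) * Real.exp (ell * Int.fract (Complex.arg Z / (2 * Real.pi)))

lemma auxI4_meas (ell : ℝ) : Measurable (auxI4_st ell) := by
  unfold auxI4_st
  refine Measurable.mul (Measurable.ite ?_ measurable_const measurable_const) ?_
  · exact measurableSet_eq_fun measurable_norm measurable_const
  · refine Real.measurable_exp.comp (measurable_const.mul ?_)
    exact measurable_fract.comp (Complex.measurable_arg.div_const _)

lemma auxI4_val {lam : ℝ} (hlam : 1 < lam) (s : ℂ → ℝ) (w : ℂ) (hs : s w ≠ 0) :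
    ∃ k : ℤ, auxI4_st (Real.log lam) (Vf s (2 * Real.pi / Real.log lam) w) = lam ^ k * s w := by
  have hell : 0 < Real.log lam := Real.log_pos hlam
  have hpi := Real.pi_pos
  set ell := Real.log lam with hell_def
  set t : ℝ := 2 * Real.pi / ell with ht
  have htpos : 0 < t := by positivity
  set z : ℂ := Complex.I * t * Complex.log (s w : ℂ) with hz
  have hVf : Vf s t w = Complex.exp z := rfl
  have hre : z.re = -(t * Complex.arg (s w : ℂ)) := by
    rw [hz, mul_assoc, Complex.I_mul_re, Complex.im_ofReal_mul, Complex.log_im]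
  have him : z.im = t * Real.log |s w| := by
    rw [hz, mul_assoc, Complex.I_mul_im, Complex.re_ofReal_mul, Complex.log_re, Complex.norm_real,
      Real.norm_eq_abs]
  obtain ⟨n, hn⟩ := Complex.log_exp_exists z
  have harg : Complex.arg (Complex.exp z) = z.im + n * (2 * Real.pi) := by
    have h1 := congrArg Complex.im hn
    rw [Complex.log_im] at h1
    rw [h1]
    simp
  have hnorm : ‖Complex.exp z‖ = Real.exp z.re := Complex.norm_exp z
  have hfr : Int.fract (Complex.arg (Complex.exp z) / (2 * Real.pi))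
      = Int.fract (Real.log |s w| / ell) := by
    have h2 : Complex.arg (Complex.exp z) / (2 * Real.pi) = Real.log |s w| / ell + n := by
      rw [harg, him, ht]
      field_simp
    rw [h2, Int.fract_add_intCast]
  have habs : 0 < |s w| := abs_pos.2 hs
  have hexp : Real.exp (ell * Int.fract (Real.log |s w| / ell))
      = lam ^ (-⌊Real.log |s w| / ell⌋) * |s w| := by
    have h3 : ell * Int.fract (Real.log |s w| / ell)
        = Real.log |s w| - ell * ⌊Real.log |s w| / ell⌋ := by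
      unfold Int.fract
      field_simp
    have hlam0 : 0 < lam := by linarith
    have h4 : Real.exp (ell * ⌊Real.log |s w| / ell⌋) = lam ^ ⌊Real.log |s w| / ell⌋ := by
      rw [mul_comm, hell_def, ← Real.log_zpow, Real.exp_log (zpow_pos hlam0 _)]
    rw [h3, Real.exp_sub, Real.exp_log habs, zpow_neg, h4]
    field_simp
  refine ⟨-⌊Real.log |s w| / ell⌋, ?_⟩
  rw [hVf]
  unfold auxI4_st
  rw [hfr, hexp, hnorm, hre]
  rcases lt_or_gt_of_ne hs with h | h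
  · have ha : Complex.arg (s w : ℂ) = Real.pi := Complex.arg_ofReal_of_neg h
    rw [ha, if_neg, abs_of_neg h]
    · ring
    · intro h4
      rw [Real.exp_eq_one_iff] at h4
      have : 0 < t * Real.pi := by positivity
      linarith
  · have ha : Complex.arg (s w : ℂ) = 0 := Complex.arg_ofReal_of_nonneg h.le
    rw [ha, mul_zero, neg_zero, Real.exp_zero, if_pos rfl, abs_of_pos h]
    ring

/-- invariant functions of a hyperbolic automorphism are functions of `Z` -/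
theorem inv_U (A : Aut) (U₀ : ℂ → ℂ) (hU : Measurable U₀)
    (h : ∀ᵐ w ∂mT, U₀ (A.γ w) = U₀ w) :
    ∃ U : ℂ → ℂ, Measurable U ∧
      ∀ᵐ w ∂mT, U₀ w = U (Vf (sR A.η₀ A.β) (2 * Real.pi / Real.log A.lam) w) := by
  have hlam0 : 0 < A.lam := by linarith [A.hlam]
  -- the good set
  have hP : ∀ᵐ w ∂mT, ‖w‖ = 1 ∧ sR A.η₀ A.β w ≠ 0 ∧ A.η₀ * w ≠ 1 ∧ U₀ (A.γ w) = U₀ w ∧
      sR A.η₀ A.β (A.γ w) = A.lam * sR A.η₀ A.β w ∧ A.γ (A.γi w) = w := by
    filter_upwards [norm_one_ae, sR_ne A.hη A.hβ, h, sR_gam A, gam_inv A] with w h1 h2 h3 h4 h5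
    exact ⟨h1, h2.1, h2.2, h3, h4, h5.1⟩
  have hP1 : ∀ᵐ w ∂mT, ∀ k : ℕ, ‖A.γ^[k] w‖ = 1 ∧ sR A.η₀ A.β (A.γ^[k] w) ≠ 0 ∧
      A.η₀ * (A.γ^[k] w) ≠ 1 ∧ U₀ (A.γ (A.γ^[k] w)) = U₀ (A.γ^[k] w) ∧
      sR A.η₀ A.β (A.γ (A.γ^[k] w)) = A.lam * sR A.η₀ A.β (A.γ^[k] w) ∧
      A.γ (A.γi (A.γ^[k] w)) = (A.γ^[k] w) := by
    rw [ae_all_iff]
    intro k
    exact ((gam_qi A).1.iterate k).ae hP
  have hP2 : ∀ᵐ w ∂mT, ∀ k : ℕ, ‖A.γi^[k] w‖ = 1 ∧ sR A.η₀ A.β (A.γi^[k] w) ≠ 0 ∧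
      A.η₀ * (A.γi^[k] w) ≠ 1 ∧ U₀ (A.γ (A.γi^[k] w)) = U₀ (A.γi^[k] w) ∧
      sR A.η₀ A.β (A.γ (A.γi^[k] w)) = A.lam * sR A.η₀ A.β (A.γi^[k] w) ∧
      A.γ (A.γi (A.γi^[k] w)) = (A.γi^[k] w) := by
    rw [ae_all_iff]
    intro k
    exact ((gam_qi A).2.iterate k).ae hP
  refine ⟨fun Z => U₀ (F96.zt A.η₀ A.β ((auxI4_st (Real.log A.lam) Z : ℝ) : ℂ)), ?_, ?_⟩
  · refine hU.comp ?_
    have hm : Measurable (fun Z : ℂ => ((auxI4_st (Real.log A.lam) Z : ℝ) : ℂ)) :=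
      Complex.measurable_ofReal.comp (auxI4_meas _)
    unfold F96.zt
    exact measurable_const.mul ((hm.sub_const _).div (hm.sub_const _))
  · filter_upwards [hP1, hP2] with w h1 h2
    have hpos : ∀ k : ℕ, sR A.η₀ A.β (A.γ^[k] w) = A.lam ^ k * sR A.η₀ A.β w ∧
        U₀ (A.γ^[k] w) = U₀ w := by
      intro k
      induction k with
      | zero => simp
      | succ k ih =>
        rw [Function.iterate_succ_apply']
        obtain ⟨_, _, _, h3, h4, _⟩ := h1 k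
        refine ⟨?_, ?_⟩
        · rw [h4, ih.1, pow_succ]; ring
        · rw [h3, ih.2]
    have hneg : ∀ k : ℕ, A.lam ^ k * sR A.η₀ A.β (A.γi^[k] w) = sR A.η₀ A.β w ∧
        U₀ (A.γi^[k] w) = U₀ w := by
      intro k
      induction k with
      | zero => simp
      | succ k ih =>
        obtain ⟨_, _, _, h3, h4, _⟩ := h2 (k + 1)
        obtain ⟨_, _, _, _, _, h5⟩ := h2 k
        rw [← Function.iterate_succ_apply' A.γi k w] at h5
        rw [h5] at h3 h4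
        refine ⟨?_, ?_⟩
        · rw [pow_succ, mul_assoc, ← h4, ih.1]
        · rw [← h3, ih.2]
    have hall : ∀ k : ℤ, U₀ (F96.zt A.η₀ A.β ((A.lam ^ k * sR A.η₀ A.β w : ℝ) : ℂ)) = U₀ w := by
      intro k
      obtain ⟨m, rfl | rfl⟩ := k.eq_nat_or_neg
      · obtain ⟨h3, _, h4, _⟩ := h1 m
        have h5 := (sfun_real A.hη A.hβ h3 h4).2
        rw [(hpos m).1] at h5
        rw [zpow_natCast, h5]
        exact (hpos m).2
      · obtain ⟨h3, _, h4, _⟩ := h2 m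
        have h5 := (sfun_real A.hη A.hβ h3 h4).2
        have h6 : sR A.η₀ A.β (A.γi^[m] w) = A.lam ^ (-(m : ℤ)) * sR A.η₀ A.β w := by
          rw [← (hneg m).1, zpow_neg, zpow_natCast]
          field_simp
        rw [h6] at h5
        rw [h5]
        exact (hneg m).2
    obtain ⟨k, hk⟩ := auxI4_val A.hlam (sR A.η₀ A.β) w (h1 0).2.1
    rw [hk]
    exact (hall k).symm

theorem auxI1_gam (A : Aut) (z : ℂ) :
    A.ε * ((z - (-(A.δ : ℂ) * conj A.ε)) / (1 - conj (-(A.δ : ℂ) * conj A.ε) * z)) = A.γ z := by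
  have h : A.ε * conj A.ε = 1 := by
    rw [Complex.mul_conj, Complex.normSq_eq_norm_sq, A.hε]; simp
  have e1 : conj (-(A.δ : ℂ) * conj A.ε) = -(A.δ * A.ε) := by
    simp
  unfold Aut.γ
  rw [e1, mul_div_assoc']
  have e2 : A.ε * (z - (-(A.δ : ℂ) * conj A.ε)) = A.ε * z + A.δ := by
    linear_combination (A.δ : ℂ) * h
  have e3 : 1 - -((A.δ : ℂ) * A.ε) * z = 1 + A.δ * A.ε * z := by ring
  rw [e2, e3]

/-- the semi-conjugacy on the circle -/
theorem bdry_semi (A : Aut) {τ η : ℂ → ℂ} {b H : H2} (hb : IsBd τ b) (hH : IsBd η H)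
    (h : ∀ z : ℂ, ‖z‖ < 1 → ev H (ev b z) = A.γ (ev H z)) :
    ∀ᵐ ζ ∂mT, η (τ ζ) = A.γ (η ζ) := by
  obtain ⟨H1, hH1, hev1⟩ := bd_comp hH hb
  have hp : ‖-(A.δ : ℂ) * conj A.ε‖ < 1 := by
    rw [norm_mul, norm_neg, RCLike.norm_conj, A.hε, mul_one, Complex.norm_real,
      Real.norm_of_nonneg A.hδ0.le]
    exact A.hδ1
  obtain ⟨g, hg, hgev⟩ := bd_aut A.ε (-(A.δ : ℂ) * conj A.ε) A.hε hp
  obtain ⟨H2', hH2, hev2⟩ := bd_comp hg hH
  have heq : H1 = H2' := by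
    apply F96.ev_injective
    intro z hz
    rw [hev1 z hz, h z hz, hev2 z hz, hgev _ (hH.2.2.2 z hz), auxI1_gam]
  subst heq
  filter_upwards [hH1.2.2.1, hH2.2.2.1] with ζ g1 g2
  rw [← auxI1_gam, ← g2, g1]

lemma auxI5_log (s0 : ℝ) (hs : s0 ≠ 0) :
    Tendsto Complex.log (nhdsWithin (s0 : ℂ) {z | 0 ≤ z.im}) (nhds (Complex.log (s0 : ℂ))) := by
  rcases lt_or_gt_of_ne hs with h | h
  · exact Complex.continuousWithinAt_log_of_re_neg_of_im_zero
      (by rw [Complex.ofReal_re]; exact h) (Complex.ofReal_im _)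
  · have h1 : ContinuousAt Complex.log (s0 : ℂ) := by
      apply continuousAt_clog
      rw [Complex.mem_slitPlane_iff]
      left
      rw [Complex.ofReal_re]
      exact h
    exact h1.tendsto.mono_left nhdsWithin_le_nhds

lemma auxI5_rad {η₀ β : ℂ} (hη : ‖η₀‖ = 1) (hβ : 0 < β.im) (t : ℝ) {ζ : ℂ} (hζ : ‖ζ‖ = 1)
    (h0 : sR η₀ β ζ ≠ 0) (h1 : η₀ * ζ ≠ 1) :
    Tendsto (fun r : ℝ => Complex.exp (Complex.I * t * Complex.log (sfun η₀ β (r * ζ))))
      (nhdsWithin 1 (Set.Iio 1)) (nhds (Vf (sR η₀ β) t ζ)) := by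
  have hc : Tendsto (fun r : ℝ => sfun η₀ β (r * ζ)) (nhdsWithin 1 (Set.Iio 1))
      (nhds (sR η₀ β ζ : ℂ)) := by
    have hcont : ContinuousAt (fun r : ℝ => sfun η₀ β (r * ζ)) 1 := by
      unfold sfun
      apply ContinuousAt.div
      · fun_prop
      · fun_prop
      · rw [Complex.ofReal_one, one_mul]
        exact sub_ne_zero.mpr (Ne.symm h1)
    have h2 := hcont.tendsto.mono_left (nhdsWithin_le_nhds (s := Set.Iio 1))
    have e : sfun η₀ β (((1 : ℝ) : ℂ) * ζ) = (sR η₀ β ζ : ℂ) := by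
      rw [Complex.ofReal_one, one_mul]
      exact (sfun_real hη hβ hζ h1).1
    rw [e] at h2
    exact h2
  have hin : ∀ᶠ r : ℝ in nhdsWithin 1 (Set.Iio 1), sfun η₀ β (r * ζ) ∈ {z : ℂ | 0 ≤ z.im} := by
    have h2 : Set.Ioo (0 : ℝ) 1 ∈ nhdsWithin (1 : ℝ) (Set.Iio 1) := Ioo_mem_nhdsLT (by norm_num)
    filter_upwards [h2] with r hr
    have h3 : ‖(r : ℂ) * ζ‖ < 1 := by
      rw [norm_mul, hζ, mul_one, Complex.norm_real, Real.norm_of_nonneg hr.1.le]
      exact hr.2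
    exact (sfun_im hη hβ h3).1.le
  have h2 := (auxI5_log _ h0).comp (tendsto_nhdsWithin_iff.mpr ⟨hc, hin⟩)
  have h3 := (Complex.continuous_exp.tendsto _).comp (h2.const_mul (Complex.I * t))
  exact h3

lemma auxI5_diff {η₀ β : ℂ} (hη : ‖η₀‖ = 1) (hβ : 0 < β.im) (t : ℝ) :
    DifferentiableOn ℂ (fun w : ℂ => Complex.exp (Complex.I * t * Complex.log (sfun η₀ β w)))
      (Metric.ball 0 1) := by
  intro w hw
  have hw1 : ‖w‖ < 1 := by simpa using hw
  apply DifferentiableAt.differentiableWithinAt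
  apply DifferentiableAt.cexp
  apply DifferentiableAt.const_mul
  apply DifferentiableAt.clog
  · unfold sfun
    apply DifferentiableAt.div
    · fun_prop
    · fun_prop
    · intro h
      have h1 : η₀ * w = 1 := (sub_eq_zero.mp h).symm
      have h2 := congrArg norm h1
      rw [norm_mul, hη, one_mul, norm_one] at h2
      linarith
  · rw [Complex.mem_slitPlane_iff]
    right
    exact (sfun_im hη hβ hw1).1.ne'

lemma auxI5_bd (t : ℝ) (s : ℂ) :
    ‖Complex.exp (Complex.I * t * Complex.log s)‖ ≤ Real.exp (|t| * Real.pi) := by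
  rw [Complex.norm_exp]
  apply Real.exp_le_exp.mpr
  have h1 : (Complex.I * t * Complex.log s).re = -(t * Complex.arg s) := by
    rw [mul_assoc, Complex.I_mul_re, Complex.im_ofReal_mul, Complex.log_im]
  rw [h1]
  calc -(t * Complex.arg s) ≤ |t * Complex.arg s| := neg_le_abs _
    _ = |t| * |Complex.arg s| := abs_mul _ _
    _ ≤ |t| * Real.pi := mul_le_mul_of_nonneg_left (Complex.abs_arg_le_pi s) (abs_nonneg t)

/-- powers of the Cayley coordinate multiply the Hardy space into itself -/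
theorem VH_H (A : Aut) {η : ℂ → ℂ} {H : H2} (hH : IsBd η H) (t : ℝ) {x : L2} (hx : x ∈ Hs) :
    mulL (Vf (fun ζ => sR A.η₀ A.β (η ζ)) t) x ∈ Hs := by
  obtain ⟨G, _, hG⟩ := bd_general
    (fun w : ℂ => Complex.exp (Complex.I * t * Complex.log (sfun A.η₀ A.β w)))
    (Vf (sR A.η₀ A.β) t) (Real.exp (|t| * Real.pi)) (auxI5_diff A.hη A.hβ t)
    (fun z _ => auxI5_bd t _) (V_bdd (sR_meas A.η₀ A.β) t).1
    (by
      filter_upwards [norm_one_ae, sR_ne A.hη A.hβ] with ζ hζ h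
      exact auxI5_rad A.hη A.hβ t hζ h.1 h.2)
  obtain ⟨CL, hCL, _, C, hC, _⟩ := exists_CL hH
  have hb : J (C G) ∈ Hs := J_mem _
  refine mul_mem (V_bdd ((sR_meas A.η₀ A.β).comp hH.1) t) hb ?_ hx
  rw [hC]
  have h1 := (qi_bd hH).ae hG
  filter_upwards [hCL (J G), h1] with ζ h2 h3
  rw [h2, h3]
  rfl

lemma auxI6_gam_meas (A : Aut) : Measurable A.γ := by
  unfold Aut.γ
  fun_prop

theorem exists_Hyp (A : Aut) {τ η : ℂ → ℂ} {b H : H2} (hb : IsBd τ b) {d : ℝ} (hd : 0 < d)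
    (hs : ∀ n, d ≤ stp (ev b) n) (hH : IsBd η H) (hH0 : ev H 0 = 0)
    (hlim : ∀ z : ℂ, ‖z‖ < 1 → Tendsto (fun n => hseq (ev b) n z) atTop (nhds (ev H z)))
    (h : ∀ z : ℂ, ‖z‖ < 1 → ev H (ev b z) = A.γ (ev H z))
    (S : Sys) (hS : S.τ = τ) : ∃ X : Hyp S, X.s = fun ζ => sR A.η₀ A.β (η ζ) := by
  subst hS
  have hηm : Measurable η := hH.1
  have hqi : Measure.QuasiMeasurePreserving η mT mT := qi_bd hH
  have hexp : Real.exp (Real.log A.lam) = A.lam := Real.exp_log (by linarith [A.hlam])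
  have hsemi := bdry_semi A hb hH h
  refine ⟨{ s := fun ζ => sR A.η₀ A.β (η ζ)
            smeas := (sR_meas _ _).comp hηm
            s0 := ?_
            ell := Real.log A.lam
            ellpos := Real.log_pos A.hlam
            sτ := ?_
            VH := ?_
            inv := ?_ }, rfl⟩
  · filter_upwards [hqi.ae (sR_ne A.hη A.hβ)] with ζ hζ using hζ.1
  · filter_upwards [hsemi, hqi.ae (sR_gam A)] with ζ h1 h2
    rw [hexp, h1, h2]
  · intro t x hx
    exact VH_H A hH t hx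
  · intro x hx
    obtain ⟨U₀, hU₀⟩ := inv_factor hb hd hs hH hH0 hlim S.CL S.hCL x hx
    obtain ⟨U₁, hU₁m, hU₁⟩ : ∃ U₁ : ℂ → ℂ, Measurable U₁ ∧ (U₀ : ℂ → ℂ) =ᵐ[mT] U₁ :=
      ⟨(Lp.aestronglyMeasurable U₀).mk U₀,
        (Lp.aestronglyMeasurable U₀).stronglyMeasurable_mk.measurable,
        (Lp.aestronglyMeasurable U₀).ae_eq_mk⟩
    have hx1 : ∀ᵐ ζ ∂mT, x ζ = U₁ (η ζ) := by
      filter_upwards [hU₀, hqi.ae hU₁] with ζ h1 h2
      rw [h1, h2]
    have hx2 : ∀ᵐ ζ ∂mT, x ζ = x (S.τ ζ) := by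
      have h3 := S.hCL x
      rw [hx] at h3
      exact h3
    have hinv : ∀ᵐ ζ ∂mT, U₁ (A.γ (η ζ)) = U₁ (η ζ) := by
      filter_upwards [hx1, hx2, S.qi.ae hx1, hsemi] with ζ h1 h2 h3 h4
      rw [← h4, ← h3, ← h2, h1]
    have hset : MeasurableSet {w : ℂ | U₁ (A.γ w) = U₁ w} :=
      measurableSet_eq_fun (hU₁m.comp (auxI6_gam_meas A)) hU₁m
    have hinv2 : ∀ᵐ w ∂mT, U₁ (A.γ w) = U₁ w := by
      have h5 := (ae_map_iff hηm.aemeasurable hset).2 hinv
      rwa [map_bd_zero hH hH0] at h5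
    obtain ⟨U, hUm, hU⟩ := inv_U A U₁ hU₁m hinv2
    refine ⟨U, hUm, ?_⟩
    filter_upwards [hx1, hqi.ae hU] with ζ h1 h2
    rw [h1, h2]
    rfl


end

end HT
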