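import Pool.Agent.Helper368.HT.Defs

open scoped ComplexConjugate
open MeasureTheory Filter

namespace HT

lemma auxM1_exp (k : ℤ) : ∫ t in Set.Ioc (0 : ℝ) 1, Complex.exp ((2 * Real.pi * k * Complex.I : ℂ) * t) =
    if k = 0 then 1 else 0 := by
  rw [← intervalIntegral.integral_of_le zero_le_one]
  by_cases hk : k = 0
  · subst hk
    simp
  · rw [if_neg hk]
    have hc : (2 * Real.pi * k * Complex.I : ℂ) ≠ 0 := by
      have h1 : (Real.pi : ℂ) ≠ 0 := by exact_mod_cast Real.pi_ne_zero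
      have h2 : (k : ℂ) ≠ 0 := by exact_mod_cast hk
      simp [h1, h2]
    rw [integral_exp_mul_complex hc]
    have h3 : Complex.exp (2 * Real.pi * k * Complex.I * ((1 : ℝ) : ℂ)) = 1 := by
      have : (2 * Real.pi * k * Complex.I * ((1 : ℝ) : ℂ) : ℂ) = k * (2 * Real.pi * Complex.I) := by
        push_cast; ring
      rw [this, Complex.exp_int_mul_two_pi_mul_I]
    rw [h3]
    simp

lemma mon_orthonormal : Orthonormal ℂ mon := by
  rw [orthonormal_iff_ite]
  intro m n
  rw [L2.inner_def]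
  have h1 : ∫ ζ, (inner ℂ ((mon m : ℂ → ℂ) ζ) ((mon n : ℂ → ℂ) ζ) : ℂ) ∂mT =
      ∫ ζ : ℂ, (inner ℂ (ζ ^ m) (ζ ^ n) : ℂ) ∂mT := by
    refine integral_congr_ae ?_
    filter_upwards [mon_coe m, mon_coe n] with ζ e1 e2
    rw [e1, e2]
  rw [h1]
  unfold mT
  rw [integral_map meas_param.aemeasurable]
  · have h2 : ∀ t : ℝ, (inner ℂ (Complex.exp (2 * Real.pi * t * Complex.I) ^ m)
        (Complex.exp (2 * Real.pi * t * Complex.I) ^ n) : ℂ) =
        Complex.exp ((2 * Real.pi * ((n - m : ℤ) : ℂ) * Complex.I : ℂ) * t) := by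
      intro t
      rw [RCLike.inner_apply, ← Complex.exp_int_mul, ← Complex.exp_int_mul]
      have h3 : (starRingEnd ℂ) (Complex.exp ((m : ℂ) * (2 * Real.pi * t * Complex.I))) =
          Complex.exp (-((m : ℂ) * (2 * Real.pi * t * Complex.I))) := by
        rw [← Complex.exp_conj]
        congr 1
        simp
        left; left
        exact map_ofNat (starRingEnd ℂ) 2
      rw [h3, ← Complex.exp_add]
      congr 1
      push_cast
      ring
    simp only [h2]
    rw [auxM1_exp]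
    by_cases hmn : m = n
    · rw [if_pos hmn, if_pos (by omega)]
    · rw [if_neg hmn, if_neg (by omega)]
  · have h4 : Measurable (fun ζ : ℂ => (inner ℂ (ζ ^ m) (ζ ^ n) : ℂ)) := by
      have : (fun ζ : ℂ => (inner ℂ (ζ ^ m) (ζ ^ n) : ℂ)) =
          fun ζ : ℂ => ζ ^ n * (starRingEnd ℂ) (ζ ^ m) := by
        funext ζ
        rw [RCLike.inner_apply]
      rw [this]
      have a1 : Measurable (fun ζ : ℂ => ζ ^ n) := by fun_prop
      have a2 : Measurable (fun ζ : ℂ => ζ ^ m) := by fun_prop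
      exact a1.mul (Complex.continuous_conj.measurable.comp a2)
    exact h4.aestronglyMeasurable

lemma mon_total (x : L2) (h : ∀ n : ℤ, (inner ℂ (mon n) x : ℂ) = 0) : x = 0 := by
  set μ0 : Measure ℝ := volume.restrict (Set.Ioc (0:ℝ) 1) with hμ0
  set e : ℝ → ℂ := fun t : ℝ => Complex.exp (2 * Real.pi * t * Complex.I) with he
  have hmT : mT = Measure.map e μ0 := rfl
  have hx2 : MemLp (fun t => x (e t)) 2 μ0 := by
    have h1 : MemLp (x : ℂ → ℂ) 2 (Measure.map e μ0) := Lp.memLp x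
    exact h1.comp_of_map meas_param.aemeasurable
  have hxm : AEStronglyMeasurable (x : ℂ → ℂ) (Measure.map e μ0) := (Lp.memLp x).1
  have hmap : ∀ f : ℂ → ℂ, AEStronglyMeasurable f (Measure.map e μ0) →
      ∫ ζ, f ζ ∂mT = ∫ t, f (e t) ∂μ0 := fun f hf => integral_map meas_param.aemeasurable hf
  have hcoef : ∀ n : ℤ, fourierCoeffOn (zero_lt_one' ℝ) (fun t => x (e t)) n = 0 := by
    intro n
    rw [fourierCoeffOn_eq_integral, intervalIntegral.integral_of_le zero_le_one]
    have h1 := h n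
    rw [L2.inner_def] at h1
    have h2 : ∫ ζ, inner ℂ ((mon n : ℂ → ℂ) ζ) (x ζ) ∂mT =
        ∫ ζ, (starRingEnd ℂ (ζ ^ n)) * x ζ ∂mT := by
      apply integral_congr_ae
      filter_upwards [mon_coe n] with ζ hζ
      rw [hζ, RCLike.inner_apply']
    rw [h2, hmap] at h1
    · have h3 : ∫ t in Set.Ioc (0:ℝ) 1, (fourier (-n)) (t : AddCircle ((1:ℝ) - 0)) • x (e t) =
          ∫ t, (starRingEnd ℂ (e t ^ n)) * x (e t) ∂μ0 := by
        rw [hμ0]
        apply integral_congr_ae
        refine Eventually.of_forall (fun t => ?_)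
        simp only [smul_eq_mul]
        congr 1
        rw [fourier_coe_apply, he]
        simp only
        rw [← Complex.exp_int_mul, ← Complex.exp_conj]
        congr 1
        simp only [map_mul, Complex.conj_ofReal, Complex.conj_I, map_ofNat, map_intCast]
        push_cast
        ring
      rw [h3, h1, smul_zero]
    · apply AEStronglyMeasurable.mul _ hxm
      apply Measurable.aestronglyMeasurable
      fun_prop
  have hsum := hasSum_sq_fourierCoeffOn (zero_lt_one' ℝ) hx2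
  have hz : HasSum (fun i : ℤ => ‖fourierCoeffOn (zero_lt_one' ℝ) (fun t => x (e t)) i‖ ^ 2) 0 := by
    simp only [hcoef]
    simp [hasSum_zero]
  have h0 := hsum.unique hz
  rw [intervalIntegral.integral_of_le zero_le_one] at h0
  have h1 : ∫ t, ‖x (e t)‖ ^ 2 ∂μ0 = 0 := by simpa using h0
  rw [integral_eq_zero_iff_of_nonneg (fun t => by positivity)] at h1
  · have h2 : ∀ᵐ t ∂μ0, x (e t) = 0 := by
      filter_upwards [h1] with t ht
      simpa using ht
    have h3 : ∀ᵐ ζ ∂mT, x ζ = 0 := by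
      -- replace by a strongly measurable representative
      obtain ⟨g, hg, hxg⟩ := hxm
      have h4 : ∀ᵐ t ∂μ0, x (e t) = g (e t) := ae_of_ae_map meas_param.aemeasurable hxg
      have h5 : ∀ᵐ t ∂μ0, g (e t) = 0 := by
        filter_upwards [h2, h4] with t a b
        rw [← b, a]
      have h6 : ∀ᵐ ζ ∂(Measure.map e μ0), g ζ = 0 := by
        rw [ae_map_iff meas_param.aemeasurable (measurableSet_eq_fun hg.measurable measurable_const)]
        exact h5
      have h7 : ∀ᵐ ζ ∂(Measure.map e μ0), x ζ = 0 := by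
        filter_upwards [h6, hxg] with ζ a b
        rw [b, a]
      exact h7
    exact Lp.eq_zero_iff_ae_eq_zero.2 h3
  · exact (hx2.norm.integrable_sq)

lemma auxM3_npow (μ : Measure ℂ) [IsFiniteMeasure μ]
    (hμ : ∀ᵐ ζ ∂μ, ‖ζ‖ = 1) (n : ℕ) :
    ∫ ζ, ζ ^ (-(n : ℤ)) ∂μ = conj (∫ ζ, ζ ^ n ∂μ) := by
  rw [← integral_conj]
  apply integral_congr_ae
  filter_upwards [hμ] with ζ hζ
  have h1 : ζ * conj ζ = 1 := by
    rw [Complex.mul_conj, Complex.normSq_eq_norm_sq, hζ]
    norm_num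
  have h2 : ζ⁻¹ = conj ζ := inv_eq_of_mul_eq_one_right h1
  rw [zpow_neg, zpow_natCast, ← inv_pow, h2, map_pow]

/-- the circle -/
abbrev auxM3_C : Type := Metric.sphere (0 : ℂ) 1

lemma auxM3_norm (z : auxM3_C) : ‖(z : ℂ)‖ = 1 := mem_sphere_zero_iff_norm.mp z.2

lemma auxM3_ne (z : auxM3_C) : (z : ℂ) ≠ 0 := by
  intro h
  have := auxM3_norm z
  rw [h, norm_zero] at this
  exact zero_ne_one this

/-- the measurable retraction onto the circle -/
noncomputable def auxM3_e (ζ : ℂ) : auxM3_C := by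
  classical
  exact if h : ‖ζ‖ = 1 then ⟨ζ, mem_sphere_zero_iff_norm.mpr h⟩ else
    ⟨1, mem_sphere_zero_iff_norm.mpr norm_one⟩

lemma auxM3_e_meas : Measurable auxM3_e := by
  classical
  have hs : MeasurableSet {ζ : ℂ | ‖ζ‖ = 1} := measurableSet_eq_fun measurable_norm measurable_const
  have h1 : Measurable (fun ζ : ℂ => (auxM3_e ζ : ℂ)) := by
    have h2 : (fun ζ : ℂ => (auxM3_e ζ : ℂ)) = fun ζ => if ζ ∈ {ζ : ℂ | ‖ζ‖ = 1} then ζ else 1 := by
      funext ζ
      unfold auxM3_e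
      by_cases h : ‖ζ‖ = 1
      · simp [h]
      · simp [h]
    rw [h2]
    exact Measurable.ite hs measurable_id measurable_const
  exact h1.subtype_mk

lemma auxM3_e_coe {ζ : ℂ} (h : ‖ζ‖ = 1) : (auxM3_e ζ : ℂ) = ζ := by
  unfold auxM3_e
  simp [h]

/-- the inclusion as a bounded continuous function -/
noncomputable def auxM3_g : BoundedContinuousFunction auxM3_C ℂ :=
  BoundedContinuousFunction.mkOfCompact ⟨fun z : auxM3_C => (z : ℂ), continuous_subtype_val⟩

lemma auxM3_g_apply (z : auxM3_C) : auxM3_g z = (z : ℂ) := rfl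

lemma auxM3_mon (f : BoundedContinuousFunction auxM3_C ℂ)
    (hf : f ∈ Submonoid.closure (({auxM3_g} : Set (BoundedContinuousFunction auxM3_C ℂ)) ∪ star {auxM3_g})) :
    ∃ n : ℤ, ∀ z : auxM3_C, f z = (z : ℂ) ^ n := by
  induction hf using Submonoid.closure_induction with
  | mem x hx =>
    rcases hx with hx | hx
    · rw [Set.mem_singleton_iff] at hx
      refine ⟨1, fun z => ?_⟩
      rw [hx, zpow_one]
      rfl
    · rw [Set.mem_star, Set.mem_singleton_iff] at hx
      refine ⟨-1, fun z => ?_⟩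
      have h1 : x = star auxM3_g := by rw [← hx, star_star]
      have h2 : (z : ℂ) * conj (z : ℂ) = 1 := by
        rw [Complex.mul_conj, Complex.normSq_eq_norm_sq, auxM3_norm]
        norm_num
      rw [h1, BoundedContinuousFunction.star_apply, auxM3_g_apply, zpow_neg, zpow_one,
        inv_eq_of_mul_eq_one_right h2]
      rfl
  | one => exact ⟨0, fun z => by simp⟩
  | mul x y _ _ hx hy =>
    obtain ⟨m, hm⟩ := hx
    obtain ⟨n, hn⟩ := hy
    refine ⟨m + n, fun z => ?_⟩
    rw [BoundedContinuousFunction.mul_apply, hm, hn, zpow_add₀ (auxM3_ne z)]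

/-- two finite measures carried by the circle with the same nonnegative moments agree -/
lemma measure_ext_circle (μ ν : Measure ℂ) [IsFiniteMeasure μ] [IsFiniteMeasure ν]
    (hμ : ∀ᵐ ζ ∂μ, ‖ζ‖ = 1) (hν : ∀ᵐ ζ ∂ν, ‖ζ‖ = 1)
    (h : ∀ n : ℕ, ∫ ζ, ζ ^ n ∂μ = ∫ ζ, ζ ^ n ∂ν) : μ = ν := by
  have hz : ∀ n : ℤ, ∫ ζ, ζ ^ n ∂μ = ∫ ζ, ζ ^ n ∂ν := by
    intro n
    rcases Int.eq_nat_or_neg n with ⟨m, rfl | rfl⟩
    · simp only [zpow_natCast]
      exact h m
    · rw [auxM3_npow μ hμ, auxM3_npow ν hν, h m]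
  have hback : ∀ ρ : Measure ℂ, (∀ᵐ ζ ∂ρ, ‖ζ‖ = 1) →
      (ρ.map auxM3_e).map (fun z : auxM3_C => (z : ℂ)) = ρ := by
    intro ρ hρ
    rw [Measure.map_map measurable_subtype_coe auxM3_e_meas]
    have : ρ.map ((fun z : auxM3_C => (z : ℂ)) ∘ auxM3_e) = ρ.map id := by
      apply Measure.map_congr
      filter_upwards [hρ] with ζ hζ
      exact auxM3_e_coe hζ
    rw [this, Measure.map_id]
  have hint : ∀ (ρ : Measure ℂ), (∀ᵐ ζ ∂ρ, ‖ζ‖ = 1) → ∀ n : ℤ,
      ∫ z : auxM3_C, (z : ℂ) ^ n ∂(ρ.map auxM3_e) = ∫ ζ, ζ ^ n ∂ρ := by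
    intro ρ hρ n
    rw [integral_map auxM3_e_meas.aemeasurable]
    · apply integral_congr_ae
      filter_upwards [hρ] with ζ hζ
      rw [auxM3_e_coe hζ]
    · exact ((measurable_subtype_coe (p := fun z : ℂ => z ∈ Metric.sphere (0 : ℂ) 1)).pow_const n).aestronglyMeasurable
  have key : μ.map auxM3_e = ν.map auxM3_e := by
    have i1 : IsFiniteMeasure (μ.map auxM3_e) := Measure.isFiniteMeasure_map μ auxM3_e
    have i2 : IsFiniteMeasure (ν.map auxM3_e) := Measure.isFiniteMeasure_map ν auxM3_e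
    apply ext_of_forall_mem_subalgebra_integral_eq_of_polish (𝕜 := ℂ)
      (A := StarAlgebra.adjoin ℂ {auxM3_g})
    · intro x y hxy
      refine ⟨fun z : auxM3_C => (z : ℂ), ?_, ?_⟩
      · refine ⟨BoundedContinuousFunction.toContinuousMapStarₐ ℂ auxM3_g, ?_, rfl⟩
        exact ⟨auxM3_g, StarAlgebra.subset_adjoin ℂ _ rfl, rfl⟩
      · intro hcon
        exact hxy (Subtype.ext hcon)
    · intro g hg
      have hg' : g ∈ Subalgebra.toSubmodule (StarAlgebra.adjoin ℂ {auxM3_g}).toSubalgebra := hg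
      rw [StarAlgebra.adjoin_eq_span] at hg'
      clear hg
      induction hg' using Submodule.span_induction with
      | mem x hx =>
        obtain ⟨n, hn⟩ := auxM3_mon x hx
        simp only [hn]
        rw [hint μ hμ, hint ν hν, hz]
      | zero => simp
      | add x y _ _ hx hy =>
        have a1 := BoundedContinuousFunction.integrable (μ.map auxM3_e) x
        have a2 := BoundedContinuousFunction.integrable (μ.map auxM3_e) y
        have b1 := BoundedContinuousFunction.integrable (ν.map auxM3_e) x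
        have b2 := BoundedContinuousFunction.integrable (ν.map auxM3_e) y
        simp only [BoundedContinuousFunction.coe_add, Pi.add_apply]
        rw [integral_add a1 a2, integral_add b1 b2, hx, hy]
      | smul c x _ hx =>
        simp only [BoundedContinuousFunction.coe_smul]
        rw [integral_smul, integral_smul, hx]
  rw [← hback μ hμ, ← hback ν hν, key]

lemma auxM4_inner (x : L2) (n : ℤ) : (inner ℂ (star x) (mon n) : ℂ) = inner ℂ (mon (-n)) x := by
  rw [MeasureTheory.L2.inner_def, MeasureTheory.L2.inner_def]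
  apply integral_congr_ae
  filter_upwards [star_coe x, mon_coe n, mon_coe (-n), norm_one_ae] with ζ h1 h2 h3 h4
  rw [h1, h2, h3]
  simp only [RCLike.inner_apply]
  have h5 : conj (ζ ^ (-n)) = ζ ^ n := by
    rw [map_zpow₀, zpow_neg, ← inv_zpow]
    congr 1
    apply inv_eq_of_mul_eq_one_left
    rw [Complex.mul_conj, Complex.normSq_eq_norm_sq, h4]
    norm_num
  rw [h5, Complex.conj_conj]
  ring

/-- `∫ x y = ∫ x ∫ y` for `x, y` in the Hardy space -/
lemma mean_mul {x y : L2} (hx : x ∈ Hs) (hy : y ∈ Hs) :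
    (inner ℂ (star x) y : ℂ) = inner ℂ (mon 0) x * inner ℂ (mon 0) y := by
  have hb : (Submodule.span ℂ (Set.range mon))ᗮ = ⊥ := by
    rw [eq_bot_iff]
    intro z hz
    rw [Submodule.mem_bot]
    apply mon_total
    intro n
    exact (Submodule.mem_orthogonal _ _).1 hz (mon n) (Submodule.subset_span ⟨n, rfl⟩)
  obtain ⟨b, hbn⟩ : ∃ b : HilbertBasis ℤ ℂ L2, ∀ n, b n = mon n :=
    ⟨HilbertBasis.mkOfOrthogonalEqBot mon_orthonormal hb, fun n => by simp⟩
  have h := b.hasSum_inner_mul_inner (star x) y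
  have h2 : HasSum (fun n => (inner ℂ (star x) (b n) : ℂ) * inner ℂ (b n) y)
      ((inner ℂ (star x) (b 0) : ℂ) * inner ℂ (b 0) y) := by
    apply hasSum_single
    intro n hn
    rw [hbn, auxM4_inner]
    rcases lt_or_gt_of_ne hn with h3 | h3
    · rw [mem_Hs.1 hy n h3, mul_zero]
    · rw [mem_Hs.1 hx (-n) (by omega), zero_mul]
  have h3 := h.unique h2
  rw [hbn, auxM4_inner, neg_zero] at h3
  exact h3

lemma Hs_closed : IsClosed (Hs : Set L2) := by
  have : (Hs : Set L2) = ⋂ n : ℤ, ⋂ _ : n < 0, {x | (inner ℂ (mon n) x : ℂ) = 0} := by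
    ext x
    simp [mem_Hs]
  rw [this]
  refine isClosed_iInter fun n => isClosed_iInter fun _ => ?_
  exact isClosed_eq (by fun_prop) continuous_const

instance : CompleteSpace Hs := Hs_closed.completeSpace_coe

lemma auxM5_star_mon (n : ℤ) : star (mon n) = mon (-n) := by
  apply Lp.ext
  filter_upwards [star_coe (mon n), mon_coe n, mon_coe (-n), norm_one_ae] with ζ h1 h2 h3 h4
  rw [h1, h2, h3, map_zpow₀, ← Complex.inv_eq_conj h4, inv_zpow']

lemma auxM5_inner_star (x y : L2) : (inner ℂ (star x) (star y) : ℂ) = conj (inner ℂ x y) := by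
  rw [L2.inner_def, L2.inner_def, ← integral_conj]
  apply integral_congr_ae
  filter_upwards [star_coe x, star_coe y] with ζ h1 h2
  rw [h1, h2, RCLike.inner_apply, RCLike.inner_apply, map_mul]

lemma auxM5_mon_mem {n : ℤ} (hn : 0 ≤ n) : mon n ∈ Hs := by
  rw [mem_Hs]
  intro m hm
  exact mon_orthonormal.2 (by omega : m ≠ n)

/-- `star x` for `x` orthogonal to the Hardy space: `x̄` is in the Hardy space and has mean zero -/
lemma star_mem_of_orth {x : L2} (hx : ∀ y ∈ Hs, (inner ℂ y x : ℂ) = 0) :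
    star x ∈ Hs ∧ (inner ℂ (mon 0) (star x) : ℂ) = 0 := by
  have hz : star (mon 0) = mon 0 := by
    rw [auxM5_star_mon, neg_zero]
  constructor
  · rw [mem_Hs]
    intro n hn
    have h1 : mon n = star (mon (-n)) := by rw [auxM5_star_mon, neg_neg]
    rw [h1, auxM5_inner_star, hx _ (auxM5_mon_mem (by omega)), map_zero]
  · rw [← hz, auxM5_inner_star, hx _ (auxM5_mon_mem (le_refl 0)), map_zero]

lemma orth_of_star_mem {x : L2} (hx : star x ∈ Hs) (h0 : (inner ℂ (mon 0) (star x) : ℂ) = 0)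
    {y : L2} (hy : y ∈ Hs) : (inner ℂ y x : ℂ) = 0 := by
  have h1 := mean_mul hx hy
  rw [star_star, h0, zero_mul] at h1
  rw [← inner_conj_symm, h1, map_zero]

lemma inner_star_star (x y : L2) : (inner ℂ (star x) (star y) : ℂ) = conj (inner ℂ x y) := by
  exact auxM5_inner_star x y

lemma mon_mem {n : ℤ} (hn : 0 ≤ n) : mon n ∈ Hs := by
  exact auxM5_mon_mem hn

lemma star_mon_zero : star (mon 0) = mon 0 := by
  rw [auxM5_star_mon, neg_zero]

lemma auxM6_inner {b : L2} {g : ℂ → ℂ} (hg : BddMeas g) (hbg : (b : ℂ → ℂ) =ᵐ[mT] g)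
    (n k : ℤ) : (inner ℂ (mon n) (mulL g (mon k)) : ℂ) = inner ℂ (mon (n - k)) b := by
  rw [MeasureTheory.L2.inner_def, MeasureTheory.L2.inner_def]
  apply integral_congr_ae
  filter_upwards [mon_coe n, mulL_coe hg (mon k), mon_coe k, mon_coe (n - k), hbg, norm_one_ae]
    with ζ h1 h2 h3 h4 h5 h6
  rw [h1, h2, h3, h4, h5]
  have hz : ζ ≠ 0 := by
    intro h0
    rw [h0, norm_zero] at h6
    exact zero_ne_one h6
  have hc : conj ζ ≠ 0 := by
    simpa using hz
  have hone : ζ * conj ζ = 1 := by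
    rw [Complex.mul_conj, Complex.normSq_eq_norm_sq, h6]
    norm_num
  simp only [RCLike.inner_apply, map_zpow₀]
  rw [zpow_sub₀ hc]
  have h7 : ζ ^ k * conj ζ ^ k = 1 := by
    rw [← mul_zpow, hone, one_zpow]
  have h8 : conj ζ ^ k ≠ 0 := zpow_ne_zero _ hc
  field_simp
  linear_combination (g ζ) * h7

/-- the product of a bounded Hardy space function and a Hardy space function -/
lemma mul_mem {b : L2} {g : ℂ → ℂ} (hg : BddMeas g) (hb : b ∈ Hs) (hbg : (b : ℂ → ℂ) =ᵐ[mT] g)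
    {x : L2} (hx : x ∈ Hs) : mulL g x ∈ Hs := by
  rw [mem_Hs] at hx hb ⊢
  intro n hn
  have hsp : (Submodule.span ℂ (Set.range mon))ᗮ = ⊥ := by
    rw [Submodule.eq_bot_iff]
    intro y hy
    apply mon_total
    intro m
    rw [Submodule.mem_orthogonal] at hy
    exact hy _ (Submodule.subset_span ⟨m, rfl⟩)
  let B : HilbertBasis ℤ ℂ L2 := HilbertBasis.mkOfOrthogonalEqBot mon_orthonormal hsp
  have hB : ∀ i, B i = mon i := by
    intro i
    have := HilbertBasis.coe_mkOfOrthogonalEqBot mon_orthonormal hsp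
    exact congrFun this i
  have h1 : HasSum (fun i => (inner ℂ (mon i) x : ℂ) • mon i) x := by
    have h := B.hasSum_repr x
    refine h.congr_fun ?_ |> fun h => h
    intro i
    rw [B.repr_apply_apply, hB]
  let φ : L2 →L[ℂ] ℂ := (innerSL ℂ (mon n)).comp (mulL g)
  have h2 : HasSum (fun i => φ ((inner ℂ (mon i) x : ℂ) • mon i)) (φ x) := h1.mapL φ
  have h3 : (fun i => φ ((inner ℂ (mon i) x : ℂ) • mon i)) = fun _ => 0 := by
    funext i
    rw [map_smul]
    rcases lt_or_ge i 0 with hi | hi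
    · rw [hx i hi, zero_smul]
    · have : φ (mon i) = 0 := by
        change (inner ℂ (mon n) (mulL g (mon i)) : ℂ) = 0
        rw [auxM6_inner hg hbg]
        exact hb _ (by omega)
      rw [this, smul_zero]
  rw [h3] at h2
  have h4 := h2.unique hasSum_zero
  exact h4

lemma auxM7_id : BddMeas (fun ζ : ℂ => ζ) :=
  ⟨measurable_id, 1, by filter_upwards [norm_one_ae] with ζ h using h.le⟩

/-- the shift -/
noncomputable def auxM7_Sh : L2 →L[ℂ] L2 := mulL (fun ζ : ℂ => ζ)

lemma auxM7_coe (x : L2) : (auxM7_Sh x : ℂ → ℂ) =ᵐ[mT] fun ζ => ζ * x ζ := mulL_coe auxM7_id x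

lemma auxM7_inner (x y : L2) : (inner ℂ (auxM7_Sh x) (auxM7_Sh y) : ℂ) = inner ℂ x y := by
  rw [L2.inner_def, L2.inner_def]
  refine integral_congr_ae ?_
  filter_upwards [auxM7_coe x, auxM7_coe y, norm_one_ae] with ζ h1 h2 h3
  rw [h1, h2]
  simp only [RCLike.inner_apply, map_mul]
  have : ζ * conj ζ = 1 := by
    rw [Complex.mul_conj, Complex.normSq_eq_norm_sq, h3]; norm_num
  linear_combination (y ζ * conj (x ζ)) * this

lemma auxM7_mon (n : ℤ) : auxM7_Sh (mon n) = mon (n + 1) := by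
  refine Lp.ext ?_
  filter_upwards [auxM7_coe (mon n), mon_coe n, mon_coe (n + 1), norm_one_ae] with ζ h1 h2 h3 h4
  have hne : ζ ≠ 0 := by
    intro h
    rw [h, norm_zero] at h4
    exact zero_ne_one h4
  rw [h1, h2, h3, zpow_add_one₀ hne, mul_comm]

lemma auxM7_coef (n : ℤ) (x : L2) : (inner ℂ (mon (n + 1)) (auxM7_Sh x) : ℂ) = inner ℂ (mon n) x := by
  rw [← auxM7_mon, auxM7_inner]

lemma auxM7_coef_iter (n : ℕ) : ∀ (k : ℤ) (x : L2),
    (inner ℂ (mon (k + n)) ((auxM7_Sh : L2 → L2)^[n] x) : ℂ) = inner ℂ (mon k) x := by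
  induction n with
  | zero => intro k x; simp
  | succ n ih =>
    intro k x
    rw [Function.iterate_succ_apply']
    have : k + ((n + 1 : ℕ) : ℤ) = (k + n) + 1 := by push_cast; ring
    rw [this, auxM7_coef, ih]

lemma auxM7_iter_coe (n : ℕ) (x : L2) :
    (((auxM7_Sh : L2 → L2)^[n] x : L2) : ℂ → ℂ) =ᵐ[mT] fun ζ => ζ ^ n * x ζ := by
  induction n with
  | zero => simp
  | succ n ih =>
    rw [Function.iterate_succ_apply']
    filter_upwards [auxM7_coe ((auxM7_Sh : L2 → L2)^[n] x), ih] with ζ h1 h2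
    rw [h1, h2]
    ring

lemma auxM7_mem {x : L2} (hx : x ∈ Hs) : auxM7_Sh x ∈ Hs :=
  mul_mem auxM7_id (mon_mem zero_le_one) (by
    filter_upwards [mon_coe 1] with ζ h
    rw [h, zpow_one]) hx

open Classical in
lemma auxM7_chi (A : Set ℂ) (hA : MeasurableSet A) : BddMeas (A.indicator fun _ => (1 : ℂ)) :=
  ⟨measurable_const.indicator hA, 1, Eventually.of_forall fun ζ => by
    by_cases h : ζ ∈ A <;> simp [h]⟩

/-- Hardy functions vanishing on `A` -/
noncomputable def auxM7_S (A : Set ℂ) : Submodule ℂ L2 :=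
  Hs ⊓ LinearMap.ker (mulL (A.indicator fun _ => (1 : ℂ)) : L2 →ₗ[ℂ] L2)

lemma auxM7_memS {A : Set ℂ} (hA : MeasurableSet A) {x : L2} :
    x ∈ auxM7_S A ↔ x ∈ Hs ∧ ∀ᵐ ζ ∂mT, ζ ∈ A → x ζ = 0 := by
  unfold auxM7_S
  rw [Submodule.mem_inf, LinearMap.mem_ker]
  refine and_congr_right fun _ => ?_
  constructor
  · intro h
    have h' : mulL (A.indicator fun _ => (1 : ℂ)) x = 0 := h
    have h1 := mulL_coe (auxM7_chi A hA) x
    rw [h'] at h1
    filter_upwards [h1, Lp.coeFn_zero ℂ 2 mT] with ζ h2 h3 hζ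
    rw [h3, Set.indicator_of_mem hζ, one_mul] at h2
    exact h2.symm
  · intro h
    show mulL (A.indicator fun _ => (1 : ℂ)) x = 0
    refine Lp.ext ?_
    filter_upwards [mulL_coe (auxM7_chi A hA) x, h, Lp.coeFn_zero ℂ 2 mT] with ζ h1 h2 h3
    rw [h1, h3]
    by_cases hζ : ζ ∈ A
    · rw [h2 hζ, mul_zero]; rfl
    · rw [Set.indicator_of_notMem hζ, zero_mul]; rfl

lemma auxM7_S_closed (A : Set ℂ) : IsClosed (auxM7_S A : Set L2) := by
  unfold auxM7_S
  rw [Submodule.coe_inf]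
  exact Hs_closed.inter (ContinuousLinearMap.isClosed_ker _)

lemma auxM7_S_inv {A : Set ℂ} (hA : MeasurableSet A) {x : L2} (hx : x ∈ auxM7_S A) :
    auxM7_Sh x ∈ auxM7_S A := by
  rw [auxM7_memS hA] at hx ⊢
  refine ⟨auxM7_mem hx.1, ?_⟩
  filter_upwards [auxM7_coe x, hx.2] with ζ h1 h2 hζ
  rw [h1, h2 hζ, mul_zero]

lemma auxM7_S_iter {A : Set ℂ} (hA : MeasurableSet A) {x : L2} (hx : x ∈ auxM7_S A) (n : ℕ) :
    (auxM7_Sh : L2 → L2)^[n] x ∈ auxM7_S A := by
  induction n with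
  | zero => exact hx
  | succ n ih =>
    rw [Function.iterate_succ_apply']
    exact auxM7_S_inv hA ih

/-- the shift as a linear isometry -/
noncomputable def auxM7_iso : L2 →ₗᵢ[ℂ] L2 :=
  (auxM7_Sh : L2 →ₗ[ℂ] L2).isometryOfInner auxM7_inner

lemma auxM7_iso_apply (x : L2) : auxM7_iso x = auxM7_Sh x := rfl

lemma auxM7_moment {q : L2} (hq : ∀ n : ℕ, 0 < n →
    (inner ℂ q ((auxM7_Sh : L2 → L2)^[n] q) : ℂ) = 0) (hq0 : q ≠ 0) (A : Set ℂ)
    (hA : MeasurableSet A) (hA0 : mT A ≠ 0) (hqA : ∀ᵐ ζ ∂mT, ζ ∈ A → q ζ = 0) : False := by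
  have hqm : Measurable (fun ζ => ‖q ζ‖₊ ^ 2) :=
    ((Lp.stronglyMeasurable q).measurable.nnnorm).pow_const 2
  set μ : Measure ℂ := mT.withDensity (fun ζ => ((‖q ζ‖₊ ^ 2 : NNReal) : ENNReal)) with hμ
  set ν : Measure ℂ := (‖q‖₊ ^ 2) • mT with hν
  have hfin : ∫⁻ ζ, ((‖q ζ‖₊ ^ 2 : NNReal) : ENNReal) ∂mT ≠ ⊤ := by
    have h1 := (Lp.memLp q).integrable_norm_pow (p := 2) (by norm_num)
    have h2 := h1.2
    rw [hasFiniteIntegral_iff_enorm] at h2
    refine ne_of_lt (lt_of_eq_of_lt (lintegral_congr fun ζ => ?_) h2)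
    rw [enorm_pow, enorm_norm]
    simp [enorm_eq_nnnorm]
  have : IsFiniteMeasure μ := isFiniteMeasure_withDensity hfin
  have : IsFiniteMeasure ν := by rw [hν]; infer_instance
  have hμ1 : ∀ᵐ ζ ∂μ, ‖ζ‖ = 1 := (withDensity_absolutelyContinuous mT _).ae_le norm_one_ae
  have hν1 : ∀ᵐ ζ ∂ν, ‖ζ‖ = 1 := by
    rw [hν]
    exact Measure.ae_smul_measure norm_one_ae _
  have hmom : ∀ n : ℕ, ∫ ζ, ζ ^ n ∂μ = inner ℂ q ((auxM7_Sh : L2 → L2)^[n] q) := by
    intro n
    rw [hμ, integral_withDensity_eq_integral_smul hqm, L2.inner_def]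
    refine integral_congr_ae ?_
    filter_upwards [auxM7_iter_coe n q] with ζ h1
    rw [h1]
    simp only [RCLike.inner_apply, NNReal.smul_def, NNReal.coe_pow, coe_nnnorm]
    rw [Complex.real_smul]
    have : q ζ * conj (q ζ) = ((‖q ζ‖ ^ 2 : ℝ) : ℂ) := by
      rw [Complex.mul_conj, Complex.normSq_eq_norm_sq]
    rw [← this]
    ring
  have hmon : ∀ n : ℕ, ∫ ζ, ζ ^ n ∂mT = inner ℂ (mon 0) (mon n) := by
    intro n
    rw [L2.inner_def]
    refine integral_congr_ae ?_
    filter_upwards [mon_coe 0, mon_coe n] with ζ h1 h2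
    rw [h1, h2]
    simp [RCLike.inner_apply]
  have hμν : μ = ν := by
    refine measure_ext_circle μ ν hμ1 hν1 fun n => ?_
    rw [hmom, hν, integral_smul_nnreal_measure, hmon]
    rcases Nat.eq_zero_or_pos n with rfl | hn
    · have h1 : (inner ℂ (mon 0) (mon 0) : ℂ) = 1 := by
        rw [inner_self_eq_norm_sq_to_K, mon_orthonormal.1 0]; norm_num
      simp only [Nat.cast_zero, h1, Function.iterate_zero, id_eq, inner_self_eq_norm_sq_to_K,
        NNReal.smul_def, NNReal.coe_pow, coe_nnnorm, Complex.real_smul, mul_one]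
      norm_num
    · rw [hq n hn, mon_orthonormal.2 (by
        intro h
        have : (n : ℤ) = 0 := h.symm
        omega), smul_zero]
  have h1 : μ A = 0 := by
    rw [hμ, withDensity_apply _ hA]
    rw [setLIntegral_congr_fun_ae hA (g := fun _ => 0)]
    · simp
    · filter_upwards [hqA] with ζ h hζ
      rw [h hζ]; simp
  rw [hμν, hν] at h1
  have hq1 : ‖q‖₊ ≠ 0 := nnnorm_ne_zero_iff.2 hq0
  have h2 : ((‖q‖₊ ^ 2 : NNReal) • mT) A = ((‖q‖₊ ^ 2 : NNReal) : ENNReal) * mT A := rfl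
  rw [h2, mul_eq_zero] at h1
  rcases h1 with h1 | h1
  · simp at h1
    exact hq0 h1
  · exact hA0 h1

/-- uniqueness theorem: a Hardy space function vanishing on a set of positive measure is zero -/
theorem hardy_unique {f : L2} (hf : f ∈ Hs) (A : Set ℂ) (hA : MeasurableSet A) (hA0 : mT A ≠ 0)
    (hfA : ∀ᵐ ζ ∂mT, ζ ∈ A → f ζ = 0) : f = 0 := by
  by_contra hf0
  have hfS : f ∈ auxM7_S A := (auxM7_memS hA).2 ⟨hf, hfA⟩
  set T : Submodule ℂ L2 := (auxM7_S A).map auxM7_iso.toLinearMap with hT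
  have hTS : T ≤ auxM7_S A := by
    rintro _ ⟨y, hy, rfl⟩
    exact auxM7_S_inv hA hy
  have hTc : IsClosed (T : Set L2) := by
    rw [hT, Submodule.map_coe]
    exact auxM7_iso.isometry.isClosedEmbedding.isClosedMap _ (auxM7_S_closed A)
  have : CompleteSpace T := hTc.completeSpace_coe
  -- the shift is not onto on `S`
  obtain ⟨x0, hx0, hx0T⟩ : ∃ x0 ∈ auxM7_S A, x0 ∉ T := by
    by_contra hcon
    push Not at hcon
    have hiter : ∀ n : ℕ, ∀ x ∈ auxM7_S A, ∃ y ∈ auxM7_S A, (auxM7_Sh : L2 → L2)^[n] y = x := by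
      intro n
      induction n with
      | zero => intro x hx; exact ⟨x, hx, rfl⟩
      | succ n ih =>
        intro x hx
        obtain ⟨y, hy, hyx⟩ := ih x hx
        obtain ⟨z, hz, hzy⟩ := hcon y hy
        refine ⟨z, hz, ?_⟩
        rw [Function.iterate_succ_apply]
        have : auxM7_Sh z = y := hzy
        rw [this, hyx]
    apply hf0
    refine mon_total f fun k => ?_
    obtain ⟨n, hn⟩ : ∃ n : ℕ, k - n < 0 := ⟨(k.toNat + 1), by
      have := Int.self_le_toNat k
      push_cast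
      omega⟩
    obtain ⟨y, hy, hyf⟩ := hiter n f hfS
    have h1 := auxM7_coef_iter n (k - n) y
    rw [hyf, sub_add_cancel] at h1
    rw [h1]
    exact ((auxM7_memS hA).1 hy).1 _ hn
  set q : L2 := x0 - T.starProjection x0 with hq
  have hqT : q ∈ Tᗮ := Submodule.sub_starProjection_mem_orthogonal x0
  have hPT : T.starProjection x0 ∈ T := Submodule.starProjection_apply_mem T x0
  have hqS : q ∈ auxM7_S A := Submodule.sub_mem _ hx0 (hTS hPT)
  have hq0 : q ≠ 0 := by
    intro h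
    apply hx0T
    rw [hq, sub_eq_zero] at h
    rw [h]
    exact hPT
  refine auxM7_moment (q := q) ?_ hq0 A hA hA0 ((auxM7_memS hA).1 hqS).2
  intro n hn
  obtain ⟨m, rfl⟩ : ∃ m, n = m + 1 := ⟨n - 1, by omega⟩
  rw [inner_eq_zero_symm]
  refine (Submodule.mem_orthogonal T q).1 hqT _ ?_
  rw [Function.iterate_succ_apply']
  exact ⟨_, auxM7_S_iter hA hqS m, rfl⟩


end HT
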