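import Pool.Agent.Helper368.HT.D

open scoped ComplexConjugate
open MeasureTheory Filter

namespace HT

open F96 (H2 ev kz)

noncomputable section

lemma auxR1_int (x y : L2) : Integrable (fun ζ => conj (x ζ) * y ζ) mT := by
  have h := MeasureTheory.L2.integrable_inner (𝕜 := ℂ) x y
  refine h.congr ?_
  filter_upwards with ζ
  simp [mul_comm]

lemma auxR1_inner (x y : L2) : (inner ℂ x y : ℂ) = ∫ ζ, conj (x ζ) * y ζ ∂mT := by
  rw [MeasureTheory.L2.inner_def]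
  apply integral_congr_ae
  filter_upwards with ζ
  simp [mul_comm]

lemma auxR1_key {S : Sys} {G : ℂ → ℂ} (hG : BddMeas G) (c : ℂ)
    (h : ∀ᵐ ζ ∂mT, G (S.τ ζ) = c * G ζ) (y : L2) :
    (inner ℂ (mulL G y) (S.CL (mulL G y)) : ℂ) =
      c * ∫ ζ, ((‖G ζ‖ ^ 2 : ℝ) : ℂ) * (conj (y ζ) * S.CL y ζ) ∂mT := by
  rw [auxR1_inner, ← integral_const_mul]
  apply integral_congr_ae
  filter_upwards [mulL_coe hG y, S.hCL (mulL G y), S.hCL y, S.qi.ae (mulL_coe hG y), h]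
    with ζ h1 h2 h3 h4 h5
  rw [h1, h2, h4, h5, h3, map_mul]
  have h6 : ((‖G ζ‖ ^ 2 : ℝ) : ℂ) = conj (G ζ) * G ζ := by
    rw [Complex.conj_mul']
    push_cast
    rfl
  rw [h6]
  ring

lemma auxR1_nrm {G : ℂ → ℂ} (hG : BddMeas G) (y : L2) :
    (inner ℂ (mulL G y) (mulL G y) : ℂ) =
      ∫ ζ, ((‖G ζ‖ ^ 2 : ℝ) : ℂ) * (conj (y ζ) * y ζ) ∂mT := by
  rw [auxR1_inner]
  apply integral_congr_ae
  filter_upwards [mulL_coe hG y] with ζ h1
  rw [h1, map_mul]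
  have h6 : ((‖G ζ‖ ^ 2 : ℝ) : ℂ) = conj (G ζ) * G ζ := by
    rw [Complex.conj_mul']
    push_cast
    rfl
  rw [h6]
  ring

/-- indicator of `{s > 0}` -/
def auxR1_gA (s : ℂ → ℝ) (ζ : ℂ) : ℂ := if 0 < s ζ then 1 else 0

/-- indicator of `{s ≤ 0}` -/
def auxR1_gB (s : ℂ → ℝ) (ζ : ℂ) : ℂ := if 0 < s ζ then 0 else 1

lemma auxR1_A {s : ℂ → ℝ} (hs : Measurable s) : BddMeas (auxR1_gA s) := by
  refine ⟨Measurable.ite (measurableSet_lt measurable_const hs) measurable_const measurable_const,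
    1, Eventually.of_forall fun ζ => ?_⟩
  unfold auxR1_gA
  split_ifs <;> simp

lemma auxR1_B {s : ℂ → ℝ} (hs : Measurable s) : BddMeas (auxR1_gB s) := by
  refine ⟨Measurable.ite (measurableSet_lt measurable_const hs) measurable_const measurable_const,
    1, Eventually.of_forall fun ζ => ?_⟩
  unfold auxR1_gB
  split_ifs <;> simp

/-- splitting of a weighted integral -/
lemma auxR1_split {s : ℂ → ℝ} (hs : Measurable s) {G : ℂ → ℂ} {κ : ℝ}
    (hG : ∀ᵐ ζ ∂mT, ‖G ζ‖ ^ 2 = if 0 < s ζ then 1 else κ) {F : ℂ → ℂ} (hF : Integrable F mT) :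
    ∫ ζ, ((‖G ζ‖ ^ 2 : ℝ) : ℂ) * F ζ ∂mT =
      (∫ ζ, ((‖auxR1_gA s ζ‖ ^ 2 : ℝ) : ℂ) * F ζ ∂mT) +
        κ * ∫ ζ, ((‖auxR1_gB s ζ‖ ^ 2 : ℝ) : ℂ) * F ζ ∂mT := by
  have hA := (auxR1_A hs).1
  have hB := (auxR1_B hs).1
  have iA : Integrable (fun ζ => ((‖auxR1_gA s ζ‖ ^ 2 : ℝ) : ℂ) * F ζ) mT := by
    apply hF.bdd_mul (c := 1)
    · exact (by fun_prop : Measurable fun ζ => ((‖auxR1_gA s ζ‖ ^ 2 : ℝ) : ℂ)).aestronglyMeasurable
    · refine Eventually.of_forall fun ζ => ?_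
      unfold auxR1_gA
      split_ifs <;> simp
  have iB : Integrable (fun ζ => ((‖auxR1_gB s ζ‖ ^ 2 : ℝ) : ℂ) * F ζ) mT := by
    apply hF.bdd_mul (c := 1)
    · exact (by fun_prop : Measurable fun ζ => ((‖auxR1_gB s ζ‖ ^ 2 : ℝ) : ℂ)).aestronglyMeasurable
    · refine Eventually.of_forall fun ζ => ?_
      unfold auxR1_gB
      split_ifs <;> simp
  rw [← integral_const_mul, ← integral_add iA (iB.const_mul _)]
  apply integral_congr_ae
  filter_upwards [hG] with ζ h1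
  rw [h1]
  unfold auxR1_gA auxR1_gB
  split_ifs <;> simp

lemma auxR1_eq {w a b : ℝ} {c p q : ℂ} (hw : 0 < w) (hc : ‖c‖ = w) (hab : a + b = 1)
    (hpq : p + q = c) (hp : ‖p‖ ≤ w * a) (hq : ‖q‖ ≤ w * b) : p = a * c ∧ q = b * c := by
  have key : ∀ {a b : ℝ} {p q : ℂ}, a + b = 1 → p + q = c → ‖p‖ ≤ w * a → ‖q‖ ≤ w * b →
      p = a * c := by
    intro a b p q hab hpq hp hq
    have h1 : (conj c * p).re + (conj c * q).re = w ^ 2 := by
      rw [← Complex.add_re, ← mul_add, hpq, Complex.conj_mul', hc]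
      norm_cast
    have h2 : ‖conj c * p‖ ≤ w * (w * a) := by
      rw [norm_mul, RCLike.norm_conj, hc]
      exact mul_le_mul_of_nonneg_left hp hw.le
    have h3 : ‖conj c * q‖ ≤ w * (w * b) := by
      rw [norm_mul, RCLike.norm_conj, hc]
      exact mul_le_mul_of_nonneg_left hq hw.le
    have h4 := Complex.re_le_norm (conj c * p)
    have h5 := Complex.re_le_norm (conj c * q)
    have h6 : (conj c * p).re = w ^ 2 * a := by
      have : w * (w * a) + w * (w * b) = w ^ 2 := by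
        have : w * (w * a) + w * (w * b) = w ^ 2 * (a + b) := by ring
        rw [this, hab, mul_one]
      nlinarith
    have h7 : ‖conj c * p‖ = (conj c * p).re := by
      apply le_antisymm _ h4
      rw [h6]
      calc _ ≤ _ := h2
        _ = _ := by ring
    have h8 : (conj c * p).im = 0 := by
      have h9 := Complex.sq_norm (conj c * p)
      rw [Complex.normSq_apply, h7] at h9
      have : (conj c * p).im * (conj c * p).im = 0 := by nlinarith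
      exact mul_self_eq_zero.1 this
    have h10 : conj c * p = ((w ^ 2 * a : ℝ) : ℂ) := by
      apply Complex.ext
      · rw [h6, Complex.ofReal_re]
      · rw [h8, Complex.ofReal_im]
    have hc0 : conj c ≠ 0 := by
      intro h0
      have : ‖conj c‖ = 0 := by rw [h0, norm_zero]
      rw [RCLike.norm_conj, hc] at this
      exact hw.ne' this
    apply mul_left_cancel₀ hc0
    rw [h10]
    have h11 : conj c * (a * c) = a * (conj c * c) := by ring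
    rw [h11, Complex.conj_mul', hc]
    push_cast
    ring
  refine ⟨key hab hpq hp hq, key (a := b) (b := a) ?_ ?_ hq hp⟩
  · rw [add_comm]; exact hab
  · rw [add_comm]; exact hpq

/-- rotation of the phase -/
theorem exists_maxi {S : Sys} (X : Hyp S) {w : ℝ}
    (hw : ∀ x : L2, ‖(inner ℂ x (S.CL x) : ℂ)‖ ≤ w * ‖x‖ ^ 2) {y : L2} (hyH : y ∈ Hs)
    (hy1 : ‖y‖ = 1) (hy : ‖(inner ℂ y (S.CL y) : ℂ)‖ = w) : Nonempty (Maxi S) := by
  have hw0 : 0 ≤ w := by rw [← hy]; exact norm_nonneg _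
  rcases hw0.eq_or_lt with h0 | hwpos
  · refine ⟨⟨w, hw, y, hyH, hy1, ?_⟩⟩
    rw [← h0] at hy ⊢
    rw [norm_eq_zero.1 hy]
    simp
  set c : ℂ := inner ℂ y (S.CL y) with hc
  set s := X.s with hs
  have hsm : Measurable s := X.smeas
  -- sign invariance
  have hinvA : ∀ᵐ ζ ∂mT, auxR1_gA s (S.τ ζ) = 1 * auxR1_gA s ζ := by
    filter_upwards [X.sτ] with ζ h1
    have h2 : (0 < s (S.τ ζ)) = (0 < s ζ) := by
      rw [hs, h1]
      exact propext (mul_pos_iff_of_pos_left (Real.exp_pos _))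
    unfold auxR1_gA
    simp only [h2, one_mul]
  have hinvB : ∀ᵐ ζ ∂mT, auxR1_gB s (S.τ ζ) = 1 * auxR1_gB s ζ := by
    filter_upwards [X.sτ] with ζ h1
    have h2 : (0 < s (S.τ ζ)) = (0 < s ζ) := by
      rw [hs, h1]
      exact propext (mul_pos_iff_of_pos_left (Real.exp_pos _))
    unfold auxR1_gB
    simp only [h2, one_mul]
  have kA := auxR1_key (auxR1_A hsm) 1 hinvA y
  have kB := auxR1_key (auxR1_B hsm) 1 hinvB y
  have nA := auxR1_nrm (auxR1_A hsm) y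
  have nB := auxR1_nrm (auxR1_B hsm) y
  rw [one_mul] at kA kB
  set yA := mulL (auxR1_gA s) y with hyA
  set yB := mulL (auxR1_gB s) y with hyB
  have hF1 := auxR1_int y (S.CL y)
  have hF2 := auxR1_int y y
  have hone : ∀ᵐ ζ ∂mT, ‖(1 : ℂ)‖ ^ 2 = if 0 < s ζ then 1 else (1 : ℝ) := by
    filter_upwards with ζ
    simp
  have s1 := auxR1_split (G := fun _ => 1) hsm hone hF1
  have s2 := auxR1_split (G := fun _ => 1) hsm hone hF2
  rw [← kA, ← kB] at s1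
  rw [← nA, ← nB] at s2
  simp only [norm_one, one_pow, Complex.ofReal_one, one_mul] at s1 s2
  rw [← auxR1_inner] at s1 s2
  have hsum : ‖yA‖ ^ 2 + ‖yB‖ ^ 2 = 1 := by
    rw [inner_self_eq_norm_sq_to_K, inner_self_eq_norm_sq_to_K, inner_self_eq_norm_sq_to_K, hy1]
      at s2
    have : ((‖yA‖ ^ 2 + ‖yB‖ ^ 2 : ℝ) : ℂ) = ((1 : ℝ) : ℂ) := by
      push_cast
      have h3 := s2.symm
      simpa using h3
    exact_mod_cast this
  obtain ⟨eA, eB⟩ := auxR1_eq hwpos hy hsum s1.symm (hw yA) (hw yB)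
  -- the rotated vector
  set t : ℝ := -(Complex.arg c) / X.ell with ht
  have hV := V_bdd hsm t
  set z := mulL (Vf s t) y with hz
  have hzH : z ∈ Hs := X.VH t y hyH
  have hN : ∀ᵐ ζ ∂mT, ‖Vf s t ζ‖ ^ 2 = if 0 < s ζ then 1 else Real.exp (-(2 * Real.pi * t)) := by
    filter_upwards [X.s0] with ζ h1
    rw [V_norm s t ζ h1]
    split_ifs
    · simp
    · rw [← Real.exp_nat_mul]
      congr 1
      push_cast
      ring
  have kz := auxR1_key hV _ (V_tau X t) y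
  rw [auxR1_split hsm hN hF1, ← kA, ← kB, eA, eB] at kz
  have nz := auxR1_nrm hV y
  rw [auxR1_split hsm hN hF2, ← nA, ← nB, inner_self_eq_norm_sq_to_K, inner_self_eq_norm_sq_to_K,
    inner_self_eq_norm_sq_to_K] at nz
  have hrot : Complex.exp (Complex.I * t * X.ell) * c = w := by
    have h1 : Complex.I * t * X.ell = ((-(Complex.arg c) : ℝ) : ℂ) * Complex.I := by
      have h2 : t * X.ell = -(Complex.arg c) := by
        rw [ht]
        exact div_mul_cancel₀ _ X.ellpos.ne'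
      rw [← h2]
      push_cast
      ring
    have h3 : c = (w : ℂ) * Complex.exp (Complex.arg c * Complex.I) := by
      rw [← hy]
      exact (Complex.norm_mul_exp_arg_mul_I c).symm
    rw [h1]
    calc Complex.exp (((-(Complex.arg c) : ℝ) : ℂ) * Complex.I) * c
        = Complex.exp (((-(Complex.arg c) : ℝ) : ℂ) * Complex.I) *
          ((w : ℂ) * Complex.exp (Complex.arg c * Complex.I)) := by rw [← h3]
      _ = w * (Complex.exp (((-(Complex.arg c) : ℝ) : ℂ) * Complex.I) *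
          Complex.exp (Complex.arg c * Complex.I)) := by ring
      _ = w := by
          rw [← Complex.exp_add]
          push_cast
          rw [neg_mul, neg_add_cancel, Complex.exp_zero, mul_one]
  have hzz : (inner ℂ z (S.CL z) : ℂ) = w * (‖z‖ : ℂ) ^ 2 := by
    have h1 : (‖z‖ : ℂ) ^ 2 = ((‖yA‖ : ℝ) : ℂ) ^ 2 +
        (Real.exp (-(2 * Real.pi * t)) : ℂ) * ((‖yB‖ : ℝ) : ℂ) ^ 2 := nz
    rw [kz, h1]
    calc _ = (Complex.exp (Complex.I * t * X.ell) * c) * (((‖yA‖ : ℝ) : ℂ) ^ 2 +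
        (Real.exp (-(2 * Real.pi * t)) : ℂ) * ((‖yB‖ : ℝ) : ℂ) ^ 2) := by
          push_cast
          ring
      _ = _ := by rw [hrot]
  have hz0 : ‖z‖ ≠ 0 := by
    intro h0
    have h1 : (‖z‖ : ℂ) ^ 2 = ((‖yA‖ : ℝ) : ℂ) ^ 2 +
        (Real.exp (-(2 * Real.pi * t)) : ℂ) * ((‖yB‖ : ℝ) : ℂ) ^ 2 := nz
    have h2 : ‖z‖ ^ 2 = ‖yA‖ ^ 2 + Real.exp (-(2 * Real.pi * t)) * ‖yB‖ ^ 2 := by
      exact_mod_cast h1
    rw [h0] at h2
    have h3 := Real.exp_pos (-(2 * Real.pi * t))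
    have h4 := sq_nonneg ‖yA‖
    have h5 := sq_nonneg ‖yB‖
    have h6 : ‖yB‖ ^ 2 = 0 := by
      by_contra h7
      have h8 : 0 < ‖yB‖ ^ 2 := lt_of_le_of_ne h5 (Ne.symm h7)
      have := mul_pos h3 h8
      nlinarith
    rw [h6] at h2 hsum
    nlinarith
  have hz0' : ((‖z‖ : ℝ) : ℂ) ≠ 0 := by exact_mod_cast hz0
  refine ⟨⟨w, hw, ((‖z‖⁻¹ : ℝ) : ℂ) • z, Hs.smul_mem _ hzH, ?_, ?_⟩⟩
  · rw [norm_smul, Complex.norm_real, norm_inv, norm_norm, inv_mul_cancel₀ hz0]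
  · rw [map_smul, inner_smul_left, inner_smul_right, hzz, Complex.conj_ofReal]
    push_cast
    field_simp

theorem exists_aut {τ η : ℂ → ℂ} {b H : H2} (hb : IsBd τ b) {ω : ℂ} (hω : ‖ω‖ = 1) {α : ℝ}
    (hα : α < 1)
    (hJ : ∀ z : ℂ, ‖z‖ < 1 →
      ‖ω - ev b z‖ ^ 2 / (1 - ‖ev b z‖ ^ 2) ≤ α * (‖ω - z‖ ^ 2 / (1 - ‖z‖ ^ 2)))
    (hH : IsBd η H) (hH0 : ev H 0 = 0)
    (hlim : ∀ z : ℂ, ‖z‖ < 1 → Tendsto (fun n => hseq (ev b) n z) atTop (nhds (ev H z))) :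
    ∃ A : Aut, ∀ z : ℂ, ‖z‖ < 1 → ev H (ev b z) = A.γ (ev H z) := by
  have hself := selfMap_bd hb
  obtain ⟨hα0, hstp⟩ := stp_lower hself hω hα hJ
  have hd : 0 < (1 - α) / (1 + α) := div_pos (by linarith) (by linarith)
  obtain ⟨ε, δ, hε, hδ0, hδ1, hsemi⟩ := semiconj hb hd hstp hH hH0 hlim
  have hβ : 1 < α⁻¹ := (one_lt_inv₀ hα0).2 hα
  obtain ⟨η₀, β, hη₀, hβim, lam, hlam, heq⟩ := hyp_form hε hδ0 hδ1
    (fun n => ev H (orb (ev b) n)) hH0
    (fun n => by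
      have h1 : orb (ev b) (n + 1) = ev b (orb (ev b) n) := by
        unfold orb
        exact Function.iterate_succ_apply' _ _ _
      show ev H (orb (ev b) (n + 1)) = _
      rw [h1]
      exact hsemi _ (orb_lt hself n))
    hβ (fun k => expand hb hω hα hJ hH hH0 hlim k)
  exact ⟨{ ε := ε, δ := δ, hε := hε, hδ0 := hδ0, hδ1 := hδ1, η₀ := η₀, β := β, hη := hη₀,
           hβ := hβim, lam := lam, hlam := hlam, heq := heq }, fun z hz => hsemi z hz⟩

theorem no_max {τ : ℂ → ℂ} {b : H2} (hb : IsBd τ b) {ω : ℂ} (hω : ‖ω‖ = 1) {α : ℝ}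
    (hα : α < 1)
    (hJ : ∀ z : ℂ, ‖z‖ < 1 →
      ‖ω - ev b z‖ ^ 2 / (1 - ‖ev b z‖ ^ 2) ≤ α * (‖ω - z‖ ^ 2 / (1 - ‖z‖ ^ 2)))
    (C : H2 →L[ℂ] H2) (hC : ∀ f : H2, ∀ z : ℂ, ‖z‖ < 1 → ev (C f) z = ev f (ev b z))
    {w : ℝ} (hw : ∀ x : H2, ‖(inner ℂ x (C x) : ℂ)‖ ≤ w * ‖x‖ ^ 2)
    (f : H2) (hf1 : ‖f‖ = 1) (hf : ‖(inner ℂ f (C f) : ℂ)‖ = w) : False := by
  have hφ : SelfMap (ev b) := selfMap_bd hb
  obtain ⟨hα0, hs⟩ := stp_lower hφ hω hα hJ
  have hd0 : 0 < (1 - α) / (1 + α) := div_pos (by linarith) (by linarith)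
  obtain ⟨η, H, hH, hH0, hlim⟩ := exists_lim hb hd0 hs
  obtain ⟨A, hA⟩ := exists_aut hb hω hα hJ hH hH0 hlim
  obtain ⟨CL, hCL, -, C', hC', hC'2⟩ := exists_CL hb
  have hCC : ∀ f, C' f = C f := by
    intro f
    apply F96.ev_injective
    intro z hz
    rw [hC'2 f z hz, hC f z hz]
  have hHs : ∀ x ∈ Hs, CL x ∈ Hs := by
    intro x hx
    obtain ⟨f, rfl⟩ := J_surj hx
    rw [← hC' f]
    exact J_mem _
  have h0 : ev b 0 ≠ 0 := by
    intro h0
    have h1 := hs 0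
    have h2 : stp (ev b) 0 = 0 := by
      unfold stp orb mob
      simp [h0]
    linarith
  have hτ0 : (inner ℂ (mon 0) (CL (mon 1)) : ℂ) ≠ 0 := by
    have h1 : CL (mon 1) = J b := by
      apply Lp.ext
      filter_upwards [hCL (mon 1), (qi_bd hb).ae (mon_coe 1), hb.2.2.1] with ζ e1 e2 e3
      rw [e1, e2, e3, zpow_one]
    rw [h1]
    have h2 := J_coeff b 0
    rw [Nat.cast_zero] at h2
    rw [h2, ← F96.ev_zero]
    exact h0
  let S : Sys := { τ := τ, meas := hb.1, qi := qi_bd hb, CL := CL, hCL := hCL, hH := hHs, τ0 := hτ0 }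
  obtain ⟨X, hX⟩ := exists_Hyp A hb hd0 hs hH hH0 hlim hA S rfl
  have hbound : ∀ x : L2, ‖(inner ℂ x (S.CL x) : ℂ)‖ ≤ w * ‖x‖ ^ 2 := by
    apply numrad_ext (qi_bd hb) CL hCL
    · intro x hx
      obtain ⟨g, rfl⟩ := J_surj hx
      rw [← hC' g, LinearIsometry.inner_map_map, LinearIsometry.norm_map, hCC g]
      exact hw g
    · intro k
      refine ⟨fun N => gN A (fun ζ => sR A.η₀ A.β (η ζ)) k N, (conj A.β / A.β) ^ k, ?_, ?_, ?_, ?_,
        ?_⟩
      · intro N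
        exact gN_meas A ((sR_meas A.η₀ A.β).comp hH.1) k N
      · intro N ζ
        exact gN_norm A _ k N ζ
      · intro N j hj
        exact gN_Hs A hH hH0 k N j hj
      · have hβ0 : A.β ≠ 0 := by
          intro h
          have := A.hβ
          rw [h] at this
          simp at this
        rw [norm_pow, norm_div, RCLike.norm_conj, div_self (norm_ne_zero_iff.mpr hβ0), one_pow]
      · filter_upwards [X.s0, bdry_semi A hb hH hA, (qi_bd hH).ae (sR_gam A)] with ζ e1 e2 e3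
        rw [hX] at e1
        apply gN_lim A (fun ζ => sR A.η₀ A.β (η ζ)) τ k ζ e1
        show sR A.η₀ A.β (η (τ ζ)) = A.lam * sR A.η₀ A.β (η ζ)
        rw [e2, e3]
  have hmax : ‖(inner ℂ (J f) (S.CL (J f)) : ℂ)‖ = w := by
    show ‖(inner ℂ (J f) (CL (J f)) : ℂ)‖ = w
    rw [← hC' f, LinearIsometry.inner_map_map, hCC f]
    exact hf
  obtain ⟨M⟩ := exists_maxi X hbound (J_mem f) (by rw [LinearIsometry.norm_map]; exact hf1) hmax
  exact no_max_hyp M X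

lemma auxQ1_inj : Set.InjOn (fun t : ℝ => Complex.exp (2 * Real.pi * t * Complex.I))
    (Set.Ioc (0 : ℝ) 1) := by
  intro t ht s hs h
  have h1 : Complex.exp (2 * Real.pi * t * Complex.I) = Complex.exp (2 * Real.pi * s * Complex.I) := h
  rw [Complex.exp_eq_exp_iff_exists_int] at h1
  obtain ⟨n, hn⟩ := h1
  have hpi : (2 * Real.pi * Complex.I : ℂ) ≠ 0 := by
    simp [Real.pi_ne_zero]
  have h2 : (t : ℂ) = s + n := by
    apply mul_left_cancel₀ hpi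
    linear_combination hn
  have h3 : t = s + n := by exact_mod_cast h2
  have h4 : (n : ℝ) < 1 := by linarith [ht.2, hs.1]
  have h5 : (-1 : ℝ) < n := by linarith [ht.1, hs.2]
  have h6 : n < 1 := by exact_mod_cast h4
  have h7 : -1 < n := by exact_mod_cast h5
  have h8 : n = 0 := by omega
  rw [h3, h8]
  simp

/-- transfer of an almost everywhere statement to the circle -/
lemma auxQ1_ae (Q : ℂ → Prop) (h : ∀ᵐ t : ℝ, Q (Complex.exp (t * Complex.I))) :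
    ∀ᵐ ζ ∂mT, Q ζ := by
  have h1 : ∀ᵐ t : ℝ, Q (Complex.exp (2 * Real.pi * t * Complex.I)) := by
    have hq : Measure.QuasiMeasurePreserving (fun t : ℝ => 2 * Real.pi * t) volume volume := by
      refine ⟨by fun_prop, ?_⟩
      have h2 := Real.map_volume_mul_left (a := 2 * Real.pi) (by positivity)
      rw [h2]
      exact Measure.smul_absolutelyContinuous
    have h2 := hq.ae h
    filter_upwards [h2] with t ht
    have e : ((2 * Real.pi * t : ℝ) : ℂ) = 2 * Real.pi * t := by push_cast; rfl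
    rwa [e] at ht
  have h2 : ∀ᵐ t : ℝ ∂(volume.restrict (Set.Ioc (0 : ℝ) 1)),
      Q (Complex.exp (2 * Real.pi * t * Complex.I)) := ae_restrict_of_ae h1
  rw [ae_iff] at h2
  obtain ⟨T, hST, hTm, hT0⟩ := exists_measurable_superset_of_null h2
  have hG : MeasurableSet ((fun t : ℝ => Complex.exp (2 * Real.pi * t * Complex.I)) ''
      (Set.Ioc (0 : ℝ) 1 \ T)) := by
    apply MeasurableSet.image_of_measurable_injOn (measurableSet_Ioc.diff hTm) meas_param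
    exact auxQ1_inj.mono Set.diff_subset
  have h3 : mT ((fun t : ℝ => Complex.exp (2 * Real.pi * t * Complex.I)) ''
      (Set.Ioc (0 : ℝ) 1 \ T))ᶜ = 0 := by
    unfold mT
    rw [Measure.map_apply meas_param hG.compl, ← le_zero_iff]
    have h4 : (fun t : ℝ => Complex.exp (2 * Real.pi * t * Complex.I)) ⁻¹'
        ((fun t : ℝ => Complex.exp (2 * Real.pi * t * Complex.I)) ''
          (Set.Ioc (0 : ℝ) 1 \ T))ᶜ ⊆ (Set.Ioc (0 : ℝ) 1)ᶜ ∪ T := by
      intro t ht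
      by_contra hcon
      rw [Set.mem_union, not_or, Set.notMem_compl_iff] at hcon
      exact ht ⟨t, hcon, rfl⟩
    refine le_trans (measure_mono h4) (le_trans (measure_union_le _ _) ?_)
    rw [hT0, add_zero, Measure.restrict_apply measurableSet_Ioc.compl, Set.compl_inter_self,
      measure_empty]
  have h5 : ∀ᵐ ζ ∂mT, ζ ∈ (fun t : ℝ => Complex.exp (2 * Real.pi * t * Complex.I)) ''
      (Set.Ioc (0 : ℝ) 1 \ T) := by
    rw [ae_iff]
    exact h3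
  filter_upwards [h5] with ζ hζ
  obtain ⟨t, ⟨ht1, ht2⟩, rfl⟩ := hζ
  by_contra hcon
  exact ht2 (hST hcon)

lemma auxQ1_seq : Tendsto (fun n : ℕ => (1 : ℝ) - 1 / ((n : ℝ) + 2)) atTop
    (nhdsWithin 1 (Set.Iio 1)) := by
  rw [tendsto_nhdsWithin_iff]
  constructor
  · have h1 : Tendsto (fun n : ℕ => 1 / ((n : ℝ) + 2)) atTop (nhds 0) := by
      have h2 : Tendsto (fun n : ℕ => (n : ℝ) + 2) atTop atTop :=
        tendsto_atTop_add_const_right _ _ tendsto_natCast_atTop_atTop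
      simp only [one_div]
      exact h2.inv_tendsto_atTop
    have h2 := h1.const_sub 1
    simpa using h2
  · refine Eventually.of_forall ?_
    intro n
    rw [Set.mem_Iio]
    have : (0 : ℝ) < 1 / ((n : ℝ) + 2) := by positivity
    linarith

/-- an inner function has a boundary function -/
theorem exists_inner_bd (φ : ℂ → ℂ) (hφ : SelfMap φ)
    (hin : ∀ᵐ t : ℝ, ∃ ζ : ℂ, ‖ζ‖ = 1 ∧
      Tendsto (fun r : ℝ => φ (r * Complex.exp (t * Complex.I))) (nhdsWithin 1 (Set.Iio 1))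
        (nhds ζ)) :
    ∃ (τ : ℂ → ℂ) (b : H2), IsBd τ b ∧ ∀ z : ℂ, ‖z‖ < 1 → ev b z = φ z := by
  classical
  have hP : ∀ᵐ ζ ∂mT, ∃ ζ' : ℂ, ‖ζ'‖ = 1 ∧
      Tendsto (fun r : ℝ => φ (r * ζ)) (nhdsWithin 1 (Set.Iio 1)) (nhds ζ') :=
    auxQ1_ae (fun ζ => ∃ ζ' : ℂ, ‖ζ'‖ = 1 ∧
      Tendsto (fun r : ℝ => φ (r * ζ)) (nhdsWithin 1 (Set.Iio 1)) (nhds ζ')) hin
  obtain ⟨r, hr⟩ : ∃ r : ℕ → ℝ, r = fun n : ℕ => (1 : ℝ) - 1 / ((n : ℝ) + 2) := ⟨_, rfl⟩
  have hrt : Tendsto r atTop (nhdsWithin 1 (Set.Iio 1)) := by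
    rw [hr]
    exact auxQ1_seq
  have hr0 : ∀ n, 0 ≤ r n := by
    intro n
    rw [hr]
    show (0 : ℝ) ≤ 1 - 1 / ((n : ℝ) + 2)
    rw [sub_nonneg, div_le_one (by positivity)]
    have : (0 : ℝ) ≤ n := Nat.cast_nonneg n
    linarith
  have hr1 : ∀ n, r n < 1 := by
    intro n
    rw [hr]
    show (1 : ℝ) - 1 / ((n : ℝ) + 2) < 1
    have : (0 : ℝ) < 1 / ((n : ℝ) + 2) := by positivity
    linarith
  obtain ⟨ψ, hψ⟩ : ∃ ψ : ℂ → ℂ, ψ = (Metric.ball (0 : ℂ) 1).piecewise φ (fun _ => 0) := ⟨_, rfl⟩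
  have hψm : Measurable ψ := by
    rw [hψ]
    exact hφ.1.continuousOn.measurable_piecewise continuousOn_const Metric.isOpen_ball.measurableSet
  have hψe : ∀ z, ‖z‖ < 1 → ψ z = φ z := by
    intro z hz
    rw [hψ, Set.piecewise_eq_of_mem]
    simpa using hz
  have hmeas : ∀ n : ℕ, AEMeasurable (fun ζ : ℂ => ψ ((r n : ℂ) * ζ)) mT := fun n =>
    (hψm.comp (by fun_prop)).aemeasurable
  have hseq : ∀ ζ ζ' : ℂ, ‖ζ‖ = 1 →
      Tendsto (fun r : ℝ => φ (r * ζ)) (nhdsWithin 1 (Set.Iio 1)) (nhds ζ') →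
      Tendsto (fun n : ℕ => ψ ((r n : ℂ) * ζ)) atTop (nhds ζ') := by
    intro ζ ζ' hζ h
    have h1 : Tendsto (fun n : ℕ => φ ((r n : ℂ) * ζ)) atTop (nhds ζ') := h.comp hrt
    refine h1.congr ?_
    intro n
    rw [hψe]
    rw [norm_mul, hζ, mul_one, Complex.norm_real, Real.norm_of_nonneg (hr0 n)]
    exact hr1 n
  obtain ⟨τ, hτm, hτ⟩ := measurable_limit_of_tendsto_metrizable_ae (μ := mT) hmeas
    (L := atTop) (by
      filter_upwards [hP, norm_one_ae] with ζ h hζ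
      obtain ⟨ζ', -, h2⟩ := h
      exact ⟨ζ', hseq ζ ζ' hζ h2⟩)
  have hboth : ∀ᵐ ζ ∂mT, ‖τ ζ‖ = 1 ∧
      Tendsto (fun r : ℝ => φ (r * ζ)) (nhdsWithin 1 (Set.Iio 1)) (nhds (τ ζ)) := by
    filter_upwards [hP, norm_one_ae, hτ] with ζ h hζ h3
    obtain ⟨ζ', h1, h2⟩ := h
    have h4 : τ ζ = ζ' := tendsto_nhds_unique h3 (hseq ζ ζ' hζ h2)
    rw [h4]
    exact ⟨h1, h2⟩
  obtain ⟨b, hb1, hb2⟩ := bd_general φ τ 1 hφ.1 (fun z hz => (hφ.2 z hz).le) hτm
    (hboth.mono fun ζ h => h.2)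
  refine ⟨τ, b, ⟨hτm, hboth.mono fun ζ h => h.1, hb2, ?_⟩, hb1⟩
  intro z hz
  rw [hb1 z hz]
  exact hφ.2 z hz


end

end HT
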