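import Pool.Agent.Helper368.HT.G

open scoped ComplexConjugate
open MeasureTheory Filter

namespace HT

open F96 (H2 ev kz)

noncomputable section

/-- analytic self-map of the disc -/
def SelfMap (φ : ℂ → ℂ) : Prop :=
  DifferentiableOn ℂ φ (Metric.ball 0 1) ∧ ∀ z : ℂ, ‖z‖ < 1 → ‖φ z‖ < 1

def mob (a z : ℂ) : ℂ := (z - a) / (1 - conj a * z)

lemma auxS1_id (a z : ℂ) :
    ‖1 - conj a * z‖ ^ 2 - ‖z - a‖ ^ 2 = (1 - ‖a‖ ^ 2) * (1 - ‖z‖ ^ 2) := by
  simp only [Complex.sq_norm, Complex.normSq_apply, Complex.sub_re, Complex.sub_im,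
    Complex.mul_re, Complex.mul_im, Complex.conj_re, Complex.conj_im, Complex.one_re,
    Complex.one_im]
  ring

lemma auxS1_sq {a : ℂ} (ha : ‖a‖ < 1) : 0 < 1 - ‖a‖ ^ 2 := by
  have := norm_nonneg a
  nlinarith

lemma auxS1_ne {a z : ℂ} (ha : ‖a‖ < 1) (hz : ‖z‖ < 1) : 1 - conj a * z ≠ 0 := by
  intro h
  have h1 : conj a * z = 1 := (sub_eq_zero.1 h).symm
  have h2 : ‖a‖ * ‖z‖ = 1 := by
    rw [← RCLike.norm_conj a, ← norm_mul, h1, norm_one]
  have := norm_nonneg a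
  have := norm_nonneg z
  nlinarith

lemma mob_lt {a z : ℂ} (ha : ‖a‖ < 1) (hz : ‖z‖ < 1) : ‖mob a z‖ < 1 := by
  unfold mob
  have h0 := norm_pos_iff.2 (auxS1_ne ha hz)
  rw [norm_div, div_lt_one h0]
  refine lt_of_pow_lt_pow_left₀ 2 h0.le ?_
  have h1 := auxS1_id a z
  have h2 := mul_pos (auxS1_sq ha) (auxS1_sq hz)
  linarith

lemma mob_inv {a z : ℂ} (ha : ‖a‖ < 1) (hz : ‖z‖ < 1) : mob (-a) (mob a z) = z := by
  have h0 := auxS1_ne ha hz
  have h1 : 1 - conj a * a ≠ 0 := auxS1_ne ha ha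
  unfold mob
  have e1 : (z - a) / (1 - conj a * z) - -a = z * (1 - conj a * a) / (1 - conj a * z) := by
    rw [sub_neg_eq_add, div_add' _ _ _ h0]
    congr 1
    ring
  have e2 : 1 - conj (-a) * ((z - a) / (1 - conj a * z)) =
      (1 - conj a * a) / (1 - conj a * z) := by
    rw [map_neg]
    field_simp
    ring
  rw [e1, e2, div_div_div_cancel_right₀ h0, mul_div_assoc, div_self h1, mul_one]

lemma mob_selfMap {a : ℂ} (ha : ‖a‖ < 1) : SelfMap (mob a) := by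
  refine ⟨?_, fun z hz => mob_lt ha hz⟩
  intro z hz
  have hz' : ‖z‖ < 1 := by simpa using hz
  refine DifferentiableAt.differentiableWithinAt ?_
  unfold mob
  exact (differentiableAt_id.sub_const a).div
    ((differentiableAt_const _).sub ((differentiableAt_const _).mul differentiableAt_id))
    (auxS1_ne ha hz')

lemma auxS1_comp {f g : ℂ → ℂ} (hf : SelfMap f) (hg : SelfMap g) :
    SelfMap (fun z => f (g z)) := by
  refine ⟨hf.1.comp hg.1 fun z hz => ?_, fun z hz => hf.2 _ (hg.2 z hz)⟩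
  have hz' : ‖z‖ < 1 := by simpa using hz
  simpa using hg.2 z hz'

/-- Schwarz–Pick -/
lemma schwarz_pick {φ : ℂ → ℂ} (hφ : SelfMap φ) {z u : ℂ} (hz : ‖z‖ < 1) (hu : ‖u‖ < 1) :
    ‖mob (φ u) (φ z)‖ ≤ ‖mob u z‖ := by
  have hu' : ‖-u‖ < 1 := by rwa [norm_neg]
  have hg : SelfMap (fun w => mob (φ u) (φ (mob (-u) w))) :=
    auxS1_comp (mob_selfMap (hφ.2 u hu)) (auxS1_comp hφ (mob_selfMap hu'))
  have h0 : (fun w => mob (φ u) (φ (mob (-u) w))) 0 = 0 := by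
    have e : mob (-u) 0 = u := by simp [mob]
    change mob (φ u) (φ (mob (-u) 0)) = 0
    rw [e]
    simp [mob]
  have h1 := Complex.norm_le_norm_of_mapsTo_ball (R := 1) (z := mob u z) hg.1
    (fun w hw => by
      have hw' : ‖w‖ < 1 := by simpa using hw
      have := hg.2 w hw'
      simpa using this.le) h0 (mob_lt hu hz)
  change ‖mob (φ u) (φ (mob (-u) (mob u z)))‖ ≤ ‖mob u z‖ at h1
  rwa [mob_inv hu hz] at h1

lemma auxS2_core {g : ℂ → ℂ} (hg : DifferentiableOn ℂ g (Metric.ball 0 1))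
    (hgle : ∀ z : ℂ, ‖z‖ < 1 → ‖g z‖ ≤ 1) {x a₀ : ℝ} (hx0 : 0 < x) (hx1 : x < 1)
    (ha0 : 0 ≤ a₀) (ha1 : a₀ ≤ 1) (hgx : g x = a₀) {w : ℂ} (hw : ‖w‖ < 1) {t : ℝ} (ht0 : 0 < t)
    (ht1 : t < 1) :
    ‖1 - (t : ℂ) * g w‖ ≤ (1 - t * a₀) * ((1 + ‖mob (x : ℂ) w‖) / (1 - ‖mob (x : ℂ) w‖)) := by
  have hxn : ‖(x : ℂ)‖ < 1 := by
    rw [Complex.norm_real, Real.norm_eq_abs, abs_of_pos hx0]; exact hx1
  have htn : ‖(t : ℂ)‖ = t := by
    rw [Complex.norm_real, Real.norm_eq_abs, abs_of_pos ht0]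
  have hself : SelfMap (fun z => (t : ℂ) * g z) := by
    refine ⟨hg.const_mul _, ?_⟩
    intro z hz
    rw [norm_mul, htn]
    calc t * ‖g z‖ ≤ t * 1 := mul_le_mul_of_nonneg_left (hgle z hz) ht0.le
      _ < 1 := by rw [mul_one]; exact ht1
  have hm := mob_lt hxn hw
  set m := ‖mob (x : ℂ) w‖ with hmdef
  have hm0 : 0 ≤ m := norm_nonneg _
  have hsp := schwarz_pick hself hw hxn

  rw [← hmdef, hgx] at hsp
  set a : ℝ := t * a₀ with ha
  have haC : (t : ℂ) * (a₀ : ℂ) = (a : ℂ) := by rw [ha]; push_cast; rfl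
  rw [haC] at hsp
  have ha0' : 0 ≤ a := mul_nonneg ht0.le ha0
  have ha1' : a < 1 := by
    calc a ≤ t * 1 := mul_le_mul_of_nonneg_left ha1 ht0.le
      _ < 1 := by rw [mul_one]; exact ht1
  set b : ℂ := (t : ℂ) * g w with hb
  have hbn : ‖b‖ < 1 := hself.2 w hw
  have hden : (1 - (a : ℂ) * b) ≠ 0 := by
    intro h
    have h1 : (a : ℂ) * b = 1 := (sub_eq_zero.1 h).symm
    have h2 := congrArg norm h1
    rw [norm_mul, Complex.norm_real, Real.norm_eq_abs, abs_of_nonneg ha0', norm_one] at h2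
    have h3 : a * ‖b‖ ≤ 1 * ‖b‖ := mul_le_mul_of_nonneg_right ha1'.le (norm_nonneg _)
    linarith
  unfold mob at hsp
  rw [Complex.conj_ofReal, norm_div, div_le_iff₀ (norm_pos_iff.2 hden)] at hsp
  -- now |b - a| ≤ m |1 - a b|
  set u : ℂ := 1 - b with hu
  set r : ℝ := 1 - a with hr
  have e1 : b - (a : ℂ) = (r : ℂ) - u := by rw [hr, hu]; push_cast; ring
  have e2 : 1 - (a : ℂ) * b = (r : ℂ) + ((1 - r : ℝ) : ℂ) * u := by
    rw [hr, hu]; push_cast; ring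
  rw [e1, e2] at hsp
  have hr0 : 0 < r := by rw [hr]; linarith
  have hr1 : r ≤ 1 := by rw [hr]; linarith
  have h3 : ‖(r : ℂ) + ((1 - r : ℝ) : ℂ) * u‖ ≤ r + ‖u‖ := by
    refine (norm_add_le _ _).trans ?_
    rw [norm_mul, Complex.norm_real, Complex.norm_real, Real.norm_eq_abs, Real.norm_eq_abs,
      abs_of_pos hr0, abs_of_nonneg (by linarith : 0 ≤ 1 - r)]
    have : (1 - r) * ‖u‖ ≤ 1 * ‖u‖ := mul_le_mul_of_nonneg_right (by linarith) (norm_nonneg _)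
    linarith
  have h4 : ‖(r : ℂ) - u‖ ≤ m * (r + ‖u‖) := hsp.trans (mul_le_mul_of_nonneg_left h3 hm0)
  have h5 : ‖u‖ ≤ r + ‖(r : ℂ) - u‖ := by
    have h6 : u = (r : ℂ) - ((r : ℂ) - u) := by ring
    calc ‖u‖ = ‖(r : ℂ) - ((r : ℂ) - u)‖ := by rw [← h6]
      _ ≤ ‖(r : ℂ)‖ + ‖(r : ℂ) - u‖ := norm_sub_le _ _
      _ = r + ‖(r : ℂ) - u‖ := by
          rw [Complex.norm_real, Real.norm_eq_abs, abs_of_pos hr0]
  have hm1 : 0 < 1 - m := by linarith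
  rw [mul_div_assoc', le_div_iff₀ hm1]
  nlinarith

/-- a self-map fixing `0` that nearly fixes a point `x > 0` is near the identity -/
lemma near_id {θ : ℂ → ℂ} (hθ : SelfMap θ) (h0 : θ 0 = 0) {x y : ℝ} (hx0 : 0 < x) (hx1 : x < 1)
    (hy : 0 < y) (hyx : y ≤ x) (hθx : θ x = y) {w : ℂ} (hw : ‖w‖ < 1) :
    ‖θ w - w‖ ≤ ‖w‖ * ((1 + ‖mob (x : ℂ) w‖) / (1 - ‖mob (x : ℂ) w‖)) * (1 - y / x) := by
  have hg : DifferentiableOn ℂ (dslope θ 0) (Metric.ball 0 1) :=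
    (Complex.differentiableOn_dslope (Metric.ball_mem_nhds 0 one_pos)).2 hθ.1
  have hmap : Set.MapsTo θ (Metric.ball 0 1) (Metric.closedBall (θ 0) 1) := by
    intro z hz
    rw [mem_ball_zero_iff] at hz
    rw [h0, mem_closedBall_zero_iff]
    exact (hθ.2 z hz).le
  have hgle : ∀ z : ℂ, ‖z‖ < 1 → ‖dslope θ 0 z‖ ≤ 1 := by
    intro z hz
    have := Complex.norm_dslope_le_div_of_mapsTo_ball hθ.1 hmap (mem_ball_zero_iff.2 hz)
    simpa using this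
  have hfac : ∀ z, θ z = z * dslope θ 0 z := by
    intro z
    have := sub_smul_dslope θ 0 z
    rw [h0, sub_zero, sub_zero, smul_eq_mul] at this
    exact this.symm
  have hxC : (x : ℂ) ≠ 0 := by exact_mod_cast hx0.ne'
  have hgx : dslope θ 0 (x : ℂ) = ((y / x : ℝ) : ℂ) := by
    have h1 := hfac x
    rw [hθx] at h1
    push_cast
    rw [h1, mul_comm, mul_div_assoc, div_self hxC, mul_one]
  have ha0 : 0 ≤ y / x := by positivity
  have ha1 : y / x ≤ 1 := (div_le_one hx0).2 hyx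
  have hlim1 : Tendsto (fun t : ℝ => ‖1 - (t : ℂ) * dslope θ 0 w‖) (nhdsWithin 1 (Set.Iio 1))
      (nhds ‖1 - dslope θ 0 w‖) := by
    have hc : Continuous (fun t : ℝ => ‖1 - (t : ℂ) * dslope θ 0 w‖) := by fun_prop
    have := hc.tendsto 1
    simp only [Complex.ofReal_one, one_mul] at this
    exact this.mono_left nhdsWithin_le_nhds
  have hlim2 : Tendsto (fun t : ℝ => (1 - t * (y / x)) * ((1 + ‖mob (x : ℂ) w‖) /
      (1 - ‖mob (x : ℂ) w‖))) (nhdsWithin 1 (Set.Iio 1))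
      (nhds ((1 - y / x) * ((1 + ‖mob (x : ℂ) w‖) / (1 - ‖mob (x : ℂ) w‖)))) := by
    have hc : Continuous (fun t : ℝ => (1 - t * (y / x)) * ((1 + ‖mob (x : ℂ) w‖) /
      (1 - ‖mob (x : ℂ) w‖))) := by fun_prop
    have := hc.tendsto 1
    simp only [one_mul] at this
    exact this.mono_left nhdsWithin_le_nhds
  have hev : ∀ᶠ t : ℝ in nhdsWithin 1 (Set.Iio 1), ‖1 - (t : ℂ) * dslope θ 0 w‖ ≤
      (1 - t * (y / x)) * ((1 + ‖mob (x : ℂ) w‖) / (1 - ‖mob (x : ℂ) w‖)) := by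
    filter_upwards [self_mem_nhdsWithin, nhdsWithin_le_nhds (Ioi_mem_nhds (one_pos (α := ℝ)))]
      with t ht1 ht0
    exact auxS2_core hg hgle hx0 hx1 ha0 ha1 hgx hw ht0 ht1
  have hfin := le_of_tendsto_of_tendsto hlim1 hlim2 hev
  have e : θ w - w = w * -(1 - dslope θ 0 w) := by rw [hfac w]; ring
  rw [e, norm_mul, norm_neg, mul_assoc]
  refine mul_le_mul_of_nonneg_left ?_ (norm_nonneg _)
  rw [mul_comm]
  exact hfin

/-- orbit of `0` -/
def orb (φ : ℂ → ℂ) (n : ℕ) : ℂ := φ^[n] 0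

/-- hyperbolic step -/
def stp (φ : ℂ → ℂ) (n : ℕ) : ℝ := ‖mob (orb φ n) (orb φ (n + 1))‖

/-- normalised iterates `h_n`, with `h_n(0) = 0` and `h_n(φ(0)) > 0` -/
def hseq (φ : ℂ → ℂ) (n : ℕ) (z : ℂ) : ℂ :=
  (conj (mob (orb φ n) (orb φ (n + 1))) / (stp φ n : ℂ)) * mob (orb φ n) (φ^[n] z)

lemma auxS3_norm {φ : ℂ → ℂ} (n : ℕ) (hs : 0 < stp φ n) :
    ‖conj (mob (orb φ n) (orb φ (n + 1))) / (stp φ n : ℂ)‖ = 1 := by
  rw [norm_div, RCLike.norm_conj, Complex.norm_real, Real.norm_of_nonneg hs.le]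
  exact div_self hs.ne'

lemma auxS3_succ (φ : ℂ → ℂ) (n : ℕ) : orb φ (n + 1) = φ (orb φ n) := by
  unfold orb
  exact Function.iterate_succ_apply' φ n 0

lemma orb_lt {φ : ℂ → ℂ} (hφ : SelfMap φ) (n : ℕ) : ‖orb φ n‖ < 1 := by
  induction n with
  | zero => simp [orb]
  | succ n ih =>
    rw [auxS3_succ]
    exact hφ.2 _ ih

lemma iter_selfMap {φ : ℂ → ℂ} (hφ : SelfMap φ) (n : ℕ) : SelfMap (φ^[n]) := by
  induction n with
  | zero => exact ⟨differentiableOn_id, fun z hz => hz⟩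
  | succ n ih =>
    rw [Function.iterate_succ']
    refine ⟨?_, fun z hz => hφ.2 _ (ih.2 z hz)⟩
    refine hφ.1.comp ih.1 ?_
    intro z hz
    rw [mem_ball_zero_iff] at hz ⊢
    exact ih.2 z hz

lemma stp_lt {φ : ℂ → ℂ} (hφ : SelfMap φ) (n : ℕ) : stp φ n < 1 :=
  mob_lt (orb_lt hφ n) (orb_lt hφ (n + 1))

lemma stp_anti {φ : ℂ → ℂ} (hφ : SelfMap φ) : Antitone (stp φ) := by
  refine antitone_nat_of_succ_le fun n => ?_
  have h := schwarz_pick hφ (orb_lt hφ (n + 1)) (orb_lt hφ n)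
  rw [← auxS3_succ φ n, ← auxS3_succ φ (n + 1)] at h
  exact h

lemma hseq_selfMap {φ : ℂ → ℂ} (hφ : SelfMap φ) (hs : ∀ n, 0 < stp φ n) (n : ℕ) :
    SelfMap (hseq φ n) := by
  have h1 := mob_selfMap (orb_lt hφ n)
  have h2 := iter_selfMap hφ n
  refine ⟨?_, fun z hz => ?_⟩
  · unfold hseq
    refine DifferentiableOn.const_mul ?_ _
    refine h1.1.comp h2.1 ?_
    intro z hz
    rw [mem_ball_zero_iff] at hz ⊢
    exact h2.2 z hz
  · unfold hseq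
    rw [norm_mul, auxS3_norm n (hs n), one_mul]
    exact h1.2 _ (h2.2 z hz)

lemma hseq_zero (φ : ℂ → ℂ) (n : ℕ) : hseq φ n 0 = 0 := by
  unfold hseq
  have h : mob (orb φ n) (φ^[n] 0) = 0 := by
    unfold mob orb
    rw [sub_self, zero_div]
  rw [h, mul_zero]

lemma hseq_one {φ : ℂ → ℂ} (hφ : SelfMap φ) (hs : ∀ n, 0 < stp φ n) (n : ℕ) :
    hseq φ n (φ 0) = stp φ n := by
  have h1 : φ^[n] (φ 0) = orb φ (n + 1) := rfl
  have hs0 : (stp φ n : ℂ) ≠ 0 := by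
    exact_mod_cast (hs n).ne'
  unfold hseq
  rw [h1, div_mul_eq_mul_div, div_eq_iff hs0, Complex.conj_mul']
  change ((‖mob (orb φ n) (orb φ (n + 1))‖ : ℝ) : ℂ) ^ 2 = (stp φ n : ℂ) * (stp φ n : ℂ)
  rw [← sq]
  rfl

lemma auxS4_comp {f g : ℂ → ℂ} (hf : SelfMap f) (hg : SelfMap g) :
    SelfMap (fun z => f (g z)) := by
  refine ⟨hf.1.comp hg.1 ?_, fun z hz => hf.2 _ (hg.2 z hz)⟩
  intro z hz
  rw [mem_ball_zero_iff] at hz ⊢
  exact hg.2 z hz

lemma auxS4_mul {c : ℂ} (hc : ‖c‖ = 1) : SelfMap (fun z => c * z) := by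
  refine ⟨by fun_prop, fun z hz => ?_⟩
  rw [norm_mul, hc, one_mul]
  exact hz

lemma hseq_step {φ : ℂ → ℂ} (hφ : SelfMap φ) (hs : ∀ n, 0 < stp φ n) (n : ℕ) :
    ∃ θ : ℂ → ℂ, SelfMap θ ∧ θ 0 = 0 ∧ θ (stp φ n) = stp φ (n + 1) ∧
      ∀ z : ℂ, ‖z‖ < 1 → hseq φ (n + 1) z = θ (hseq φ n z) := by
  obtain ⟨C, hC⟩ : ∃ C : ℕ → ℂ, C = fun n => conj (mob (orb φ n) (orb φ (n + 1))) / (stp φ n : ℂ) :=
    ⟨_, rfl⟩
  have hstp : ∀ n, (stp φ n : ℂ) ≠ 0 := fun n => by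
    exact_mod_cast (hs n).ne'
  have hCn : ∀ n, ‖C n‖ = 1 := by
    intro n
    have h1 : ‖mob (orb φ n) (orb φ (n + 1))‖ = stp φ n := rfl
    rw [hC]
    simp only [norm_div, RCLike.norm_conj, Complex.norm_real, Real.norm_eq_abs]
    rw [h1, abs_of_pos (hs n), div_self (hs n).ne']
  have hCc : ∀ n, conj (C n) * C n = 1 := by
    intro n
    rw [mul_comm, Complex.mul_conj, Complex.normSq_eq_norm_sq, hCn]
    simp
  have hCs : ∀ n, conj (C n) * (stp φ n : ℂ) = mob (orb φ n) (orb φ (n + 1)) := by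
    intro n
    rw [hC]
    simp only [map_div₀, Complex.conj_conj, Complex.conj_ofReal]
    rw [div_mul_cancel₀ _ (hstp n)]
  have hCm : ∀ n, C n * mob (orb φ n) (orb φ (n + 1)) = (stp φ n : ℂ) := by
    intro n
    rw [← hCs, ← mul_assoc, mul_comm (C n), hCc, one_mul]
  have hh : ∀ n z, hseq φ n z = C n * mob (orb φ n) (φ^[n] z) := by
    intro n z
    rw [hC]
    rfl
  have hconjC : ∀ n, ‖conj (C n)‖ = 1 := fun n => by rw [RCLike.norm_conj, hCn]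
  have horb := orb_lt hφ
  have horb' : ‖-orb φ n‖ < 1 := by rw [norm_neg]; exact horb n
  have hsucc : ∀ n, φ (orb φ n) = orb φ (n + 1) := by
    intro n
    unfold orb
    rw [Function.iterate_succ_apply']
  refine ⟨fun w => C (n + 1) * mob (orb φ (n + 1)) (φ (mob (-orb φ n) (conj (C n) * w))),
    ?_, ?_, ?_, ?_⟩
  · exact auxS4_comp (auxS4_mul (hCn (n + 1))) (auxS4_comp (mob_selfMap (horb (n + 1)))
      (auxS4_comp hφ (auxS4_comp (mob_selfMap horb') (auxS4_mul (hconjC n)))))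
  · have h1 : mob (-orb φ n) (conj (C n) * 0) = orb φ n := by
      unfold mob
      simp
    have h2 : mob (orb φ (n + 1)) (orb φ (n + 1)) = 0 := by
      unfold mob
      simp
    beta_reduce
    rw [h1, hsucc, h2, mul_zero]
  · beta_reduce
    rw [hCs, mob_inv (horb n) (horb (n + 1)), hsucc, hCm]
  · intro z hz
    beta_reduce
    rw [hh, hh, ← mul_assoc, hCc, one_mul, mob_inv (horb n) ((iter_selfMap hφ n).2 z hz),
      Function.iterate_succ_apply']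

lemma auxS5_schwarz {θ : ℂ → ℂ} (hθ : SelfMap θ) (h0 : θ 0 = 0) {w : ℂ} (hw : ‖w‖ < 1) :
    ‖θ w‖ ≤ ‖w‖ := by
  refine Complex.norm_le_norm_of_mapsTo_ball (R := 1) hθ.1 ?_ h0 hw
  intro z hz
  rw [mem_ball_zero_iff] at hz
  rw [mem_closedBall_zero_iff]
  exact (hθ.2 z hz).le

lemma auxS5_mob {w : ℂ} {x s0 r : ℝ} (hx0 : 0 ≤ x) (hxs : x ≤ s0) (hs0 : s0 < 1)
    (hr : r < 1) (hwr : ‖w‖ ≤ r) :
    (1 + ‖mob (x : ℂ) w‖) / (1 - ‖mob (x : ℂ) w‖) ≤ 16 / ((1 - s0 ^ 2) * (1 - r ^ 2)) := by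
  have hw0 : 0 ≤ ‖w‖ := norm_nonneg w
  have hid : ‖1 - (x : ℂ) * w‖ ^ 2 - ‖w - (x : ℂ)‖ ^ 2 = (1 - x ^ 2) * (1 - ‖w‖ ^ 2) := by
    rw [Complex.sq_norm, Complex.sq_norm, Complex.sq_norm, Complex.normSq_apply,
      Complex.normSq_apply, Complex.normSq_apply]
    simp only [Complex.sub_re, Complex.sub_im, Complex.mul_re, Complex.mul_im, Complex.one_re,
      Complex.one_im, Complex.ofReal_re, Complex.ofReal_im]
    ring
  have hN2 : ‖1 - (x : ℂ) * w‖ ≤ 2 := by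
    calc ‖1 - (x : ℂ) * w‖ ≤ ‖(1 : ℂ)‖ + ‖(x : ℂ) * w‖ := norm_sub_le _ _
      _ ≤ 2 := by
        rw [norm_one, norm_mul, Complex.norm_real, Real.norm_of_nonneg hx0]
        nlinarith
  have hP0 : 0 < (1 - s0 ^ 2) * (1 - r ^ 2) := by
    apply mul_pos <;> nlinarith
  have hP : (1 - s0 ^ 2) * (1 - r ^ 2) ≤ (1 - x ^ 2) * (1 - ‖w‖ ^ 2) := by
    apply mul_le_mul
    · nlinarith
    · nlinarith
    · nlinarith
    · nlinarith
  have hmob : ‖mob (x : ℂ) w‖ = ‖w - (x : ℂ)‖ / ‖1 - (x : ℂ) * w‖ := by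
    unfold mob
    rw [norm_div, Complex.conj_ofReal]
  rw [hmob]
  have hM0 : 0 ≤ ‖w - (x : ℂ)‖ := norm_nonneg _
  have hN0' : 0 ≤ ‖1 - (x : ℂ) * w‖ := norm_nonneg _
  generalize ‖w - (x : ℂ)‖ = M at *
  generalize ‖1 - (x : ℂ) * w‖ = N at *
  generalize (1 - s0 ^ 2) * (1 - r ^ 2) = P0 at *
  have hN0 : 0 < N := by
    rcases hN0'.lt_or_eq with h | h
    · exact h
    · exfalso
      rw [← h] at hid
      nlinarith
  have hMN : M < N := by nlinarith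
  have e1 : (1 + M / N) / (1 - M / N) = (N + M) / (N - M) := by
    have : N - M ≠ 0 := by linarith
    field_simp
  rw [e1, div_le_div_iff₀ (by linarith) hP0]
  have h1 : P0 ≤ (N - M) * (N + M) := by nlinarith
  have h2 : (N + M) * P0 ≤ (N + M) * ((N - M) * (N + M)) :=
    mul_le_mul_of_nonneg_left h1 (by linarith)
  have h3 : (N + M) * (N + M) ≤ 16 := by nlinarith
  have h4 : (N + M) * ((N - M) * (N + M)) = ((N + M) * (N + M)) * (N - M) := by ring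
  have h5 : ((N + M) * (N + M)) * (N - M) ≤ 16 * (N - M) :=
    mul_le_mul_of_nonneg_right h3 (by linarith)
  linarith

/-- quantitative convergence; `d` is a positive lower bound of the steps -/
lemma hseq_close {φ : ℂ → ℂ} (hφ : SelfMap φ) {d : ℝ} (hd : 0 < d) (hs : ∀ n, d ≤ stp φ n)
    {r : ℝ} (hr0 : 0 < r) (hr : r < 1) :
    ∃ K : ℝ, ∀ n m : ℕ, n ≤ m → ∃ Θ : ℂ → ℂ, SelfMap Θ ∧ Θ 0 = 0 ∧
      (∀ z : ℂ, ‖z‖ < 1 → hseq φ m z = Θ (hseq φ n z)) ∧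
      ∀ w : ℂ, ‖w‖ ≤ r → ‖Θ w - w‖ ≤ K * (stp φ n - stp φ m) := by
  have hpos : ∀ n, 0 < stp φ n := fun n => lt_of_lt_of_le hd (hs n)
  have hs01 : stp φ 0 < 1 := stp_lt hφ 0
  have hP0 : 0 < (1 - stp φ 0 ^ 2) * (1 - r ^ 2) := by
    have := hpos 0
    apply mul_pos <;> nlinarith
  refine ⟨16 / ((1 - stp φ 0 ^ 2) * (1 - r ^ 2)) / d, fun n m hnm => ?_⟩
  induction m, hnm using Nat.le_induction with
  | base =>
    refine ⟨fun z => z, ⟨differentiableOn_id, fun z hz => hz⟩, rfl, fun z _ => rfl,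
      fun w _ => ?_⟩
    simp
  | succ m hnm ih =>
    obtain ⟨Θ, hΘ, hΘ0, hΘz, hΘw⟩ := ih
    obtain ⟨θ, hθ, hθ0, hθs, hθz⟩ := hseq_step hφ hpos m
    refine ⟨fun z => θ (Θ z), ⟨?_, ?_⟩, ?_, ?_, ?_⟩
    · refine hθ.1.comp hΘ.1 ?_
      intro z hz
      rw [mem_ball_zero_iff] at hz ⊢
      exact hΘ.2 z hz
    · intro z hz
      exact hθ.2 _ (hΘ.2 z hz)
    · change θ (Θ 0) = 0
      rw [hΘ0, hθ0]
    · intro z hz
      change hseq φ (m + 1) z = θ (Θ (hseq φ n z))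
      rw [← hΘz z hz, hθz z hz]
    · intro w hw
      change ‖θ (Θ w) - w‖ ≤ _
      have hw1 : ‖w‖ < 1 := lt_of_le_of_lt hw hr
      have h1 : ‖Θ w‖ ≤ r := (auxS5_schwarz hΘ hΘ0 hw1).trans hw
      have h2 : ‖Θ w‖ < 1 := lt_of_le_of_lt h1 hr
      have h3 := near_id hθ hθ0 (hpos m) (stp_lt hφ m) (hpos (m + 1))
        (stp_anti hφ (Nat.le_succ m)) hθs h2
      have h4 := auxS5_mob (w := Θ w) (hpos m).le (stp_anti hφ (Nat.zero_le m)) hs01 hr h1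
      have h5 : 0 ≤ 1 - stp φ (m + 1) / stp φ m := by
        rw [sub_nonneg, div_le_one (hpos m)]
        exact stp_anti hφ (Nat.le_succ m)
      have h6 : 1 - stp φ (m + 1) / stp φ m ≤ (stp φ m - stp φ (m + 1)) / d := by
        have e1 : 1 - stp φ (m + 1) / stp φ m = (stp φ m - stp φ (m + 1)) / stp φ m := by
          rw [sub_div, div_self (hpos m).ne']
        rw [e1]
        apply div_le_div_of_nonneg_left _ hd (hs m)
        rw [sub_nonneg]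
        exact stp_anti hφ (Nat.le_succ m)
      have hρ : 0 ≤ (1 + ‖mob (stp φ m : ℂ) (Θ w)‖) / (1 - ‖mob (stp φ m : ℂ) (Θ w)‖) := by
        have h7 : ‖(stp φ m : ℂ)‖ < 1 := by
          rw [Complex.norm_real, Real.norm_of_nonneg (hpos m).le]
          exact stp_lt hφ m
        have h8 := mob_lt h7 h2
        have h9 := norm_nonneg (mob (stp φ m : ℂ) (Θ w))
        apply div_nonneg <;> linarith
      have h7 : ‖θ (Θ w) - Θ w‖
          ≤ 16 / ((1 - stp φ 0 ^ 2) * (1 - r ^ 2)) / d * (stp φ m - stp φ (m + 1)) := by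
        refine h3.trans ?_
        calc ‖Θ w‖ * ((1 + ‖mob (stp φ m : ℂ) (Θ w)‖) / (1 - ‖mob (stp φ m : ℂ) (Θ w)‖))
              * (1 - stp φ (m + 1) / stp φ m)
            ≤ 1 * (16 / ((1 - stp φ 0 ^ 2) * (1 - r ^ 2)))
              * ((stp φ m - stp φ (m + 1)) / d) := by
              apply mul_le_mul _ h6 h5
              · positivity
              · exact mul_le_mul h2.le h4 hρ zero_le_one
          _ = _ := by
              rw [one_mul]
              ring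
      have h8 := hΘw w hw
      calc ‖θ (Θ w) - w‖ = ‖(θ (Θ w) - Θ w) + (Θ w - w)‖ := by
            congr 1
            ring
        _ ≤ ‖θ (Θ w) - Θ w‖ + ‖Θ w - w‖ := norm_add_le _ _
        _ ≤ _ := by
            refine (add_le_add h7 h8).trans (le_of_eq ?_)
            ring


end

end HT
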