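import Pool.Agent.Helper368.HT.S

open scoped ComplexConjugate
open MeasureTheory Filter

namespace HT

open F96 (H2 ev kz)

noncomputable section

lemma auxS6_selfMap {τ : ℂ → ℂ} {b : H2} (hb : IsBd τ b) : SelfMap (ev b) :=
  ⟨(F96.analyticOnNhd_ev b).differentiableOn, hb.2.2.2⟩

lemma auxS6_iter {τ : ℂ → ℂ} {b : H2} (hb : IsBd τ b) (n : ℕ) :
    ∃ (η : ℂ → ℂ) (H : H2), IsBd η H ∧ ∀ z : ℂ, ‖z‖ < 1 → ev H z = (ev b)^[n] z := by
  induction n with
  | zero =>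
    obtain ⟨H, hH, he⟩ := bd_aut 1 0 (by simp) (by simp)
    refine ⟨_, H, hH, fun z hz => ?_⟩
    rw [he z hz]
    simp
  | succ n ih =>
    obtain ⟨η, H, hH, he⟩ := ih
    obtain ⟨H', hH', he'⟩ := bd_comp hb hH
    refine ⟨_, H', hH', fun z hz => ?_⟩
    rw [he' z hz, he z hz, Function.iterate_succ_apply']

/-- the normalised iterates of an inner function are inner -/
lemma hseq_bd {τ : ℂ → ℂ} {b : H2} (hb : IsBd τ b) (hs : ∀ n, 0 < stp (ev b) n) (n : ℕ) :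
    ∃ (η : ℂ → ℂ) (H : H2), IsBd η H ∧ ∀ z : ℂ, ‖z‖ < 1 → ev H z = hseq (ev b) n z := by
  obtain ⟨η, H, hH, he⟩ := auxS6_iter hb n
  have hp := orb_lt (auxS6_selfMap hb) n
  have hc : ‖conj (mob (orb (ev b) n) (orb (ev b) (n + 1))) / (stp (ev b) n : ℂ)‖ = 1 := by
    have h1 := hs n
    rw [norm_div, RCLike.norm_conj, Complex.norm_real, Real.norm_of_nonneg h1.le]
    exact div_self h1.ne'
  obtain ⟨A, hA, heA⟩ := bd_aut _ _ hc hp
  obtain ⟨H', hH', he'⟩ := bd_comp hA hH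
  refine ⟨_, H', hH', fun z hz => ?_⟩
  have hlt : ‖ev H z‖ < 1 := hH.2.2.2 z hz
  rw [he' z hz, heA _ hlt, he z hz]
  rfl

lemma selfMap_bd {τ : ℂ → ℂ} {b : H2} (hb : IsBd τ b) : SelfMap (ev b) :=
  auxS6_selfMap hb

lemma auxS7_f1 : ∃ f1 : H2, J f1 = mon 1 ∧ (∀ z : ℂ, ‖z‖ < 1 → ev f1 z = z) ∧ ‖f1‖ = 1 ∧
    ∀ T : H2, (inner ℂ f1 T : ℂ) = T 1 := by
  obtain ⟨f1, hf1⟩ := J_surj (mon_mem (n := 1) (by norm_num))
  have hcoef : ∀ n : ℕ, f1 n = if n = 1 then 1 else 0 := by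
    intro n
    have h1 := J_coeff f1 n
    rw [hf1] at h1
    have h2 := (orthonormal_iff_ite.1 mon_orthonormal) (n : ℤ) 1
    rw [h2] at h1
    rw [← h1]
    by_cases hn : n = 1
    · subst hn; simp
    · have hn' : ¬ ((n : ℤ) = 1) := by exact_mod_cast hn
      rw [if_neg hn, if_neg hn']
  refine ⟨f1, hf1, ?_, ?_, ?_⟩
  · intro z hz
    unfold ev
    rw [tsum_eq_single 1]
    · rw [hcoef 1]; simp
    · intro n hn
      rw [hcoef n, if_neg hn, zero_mul]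
  · have h1 : ‖J f1‖ = ‖f1‖ := J.norm_map f1
    rw [← h1, hf1]
    exact mon_orthonormal.1 1
  · intro T
    have h1 : (inner ℂ (J f1) (J T) : ℂ) = inner ℂ f1 T := J.inner_map_map f1 T
    rw [← h1, hf1]
    have h2 := J_coeff T 1
    rw [Nat.cast_one] at h2
    exact h2

lemma auxS7_coeff (g : H2) (δ : ℝ) (h : ∀ w : ℂ, ‖w‖ ≤ 1 / 2 → ‖ev g w‖ ≤ δ) :
    ‖g 1‖ ≤ 2 * δ := by
  have h1 : deriv (ev g) 0 = g 1 := by
    have h2 := (F96.hasFPowerSeries_ev g).hasFPowerSeriesAt.deriv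
    rw [h2]
    simp [FormalMultilinearSeries.ofScalars_apply_eq]
  have h3 : DiffContOnCl ℂ (ev g) (Metric.ball 0 (1 / 2)) := by
    apply DifferentiableOn.diffContOnCl
    intro z hz
    have hz2 : z ∈ Metric.closedBall (0 : ℂ) (1 / 2) := Metric.closure_ball_subset_closedBall hz
    have hz3 : z ∈ Metric.ball (0 : ℂ) 1 := by
      rw [Metric.mem_closedBall, dist_zero_right] at hz2
      rw [Metric.mem_ball, dist_zero_right]
      linarith
    exact (F96.analyticOnNhd_ev g z hz3).differentiableAt.differentiableWithinAt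
  have h4 := Complex.norm_deriv_le_of_forall_mem_sphere_norm_le (c := 0) (R := 1 / 2) (C := δ)
    (f := ev g) (by norm_num) h3 (by
      intro z hz
      apply h
      rw [mem_sphere_iff_norm, sub_zero] at hz
      exact hz.le)
  rw [h1] at h4
  have h5 : δ / (1 / 2) = 2 * δ := by ring
  rw [h5] at h4
  exact h4

/-- the basic estimate -/
lemma auxS7_est {τ : ℂ → ℂ} {A B : H2} (hA : IsBd τ A) (hA0 : ev A 0 = 0) (Θ : ℂ → ℂ)
    (hΘ : SelfMap Θ) (hAB : ∀ z : ℂ, ‖z‖ < 1 → ev B z = Θ (ev A z)) (δ : ℝ)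
    (hδ : ∀ w : ℂ, ‖w‖ ≤ 1 / 2 → ‖Θ w - w‖ ≤ δ) : ‖A - B‖ ^ 2 ≤ 4 * δ := by
  obtain ⟨f1, hf1, hev1, hnorm1, hinner⟩ := auxS7_f1
  obtain ⟨T, hT, hTn⟩ := exists_bdd Θ 1 hΘ.1 (fun z hz => (hΘ.2 z hz).le)
  obtain ⟨CL, -, hiso, C, hJC, hC⟩ := exists_CL hA
  have hiso := hiso hA0
  have hlt : ∀ z : ℂ, ‖z‖ < 1 → ‖ev A z‖ < 1 := hA.2.2.2
  have e1 : C f1 = A := by
    apply F96.ev_injective
    intro z hz
    rw [hC f1 z hz, hev1 _ (hlt z hz)]
  have e2 : C T = B := by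
    apply F96.ev_injective
    intro z hz
    rw [hC T z hz, hT _ (hlt z hz), hAB z hz]
  have e3 : ‖A - B‖ = ‖f1 - T‖ := by
    rw [← e1, ← e2, ← map_sub]
    rw [← J.norm_map (C (f1 - T)), hJC, hiso, J.norm_map]
  have e4 : ‖f1 - T‖ ^ 2 = ‖f1‖ ^ 2 - 2 * RCLike.re (inner ℂ f1 T : ℂ) + ‖T‖ ^ 2 :=
    norm_sub_sq (𝕜 := ℂ) f1 T
  have e5 : ‖(T - f1) 1‖ ≤ 2 * δ := by
    apply auxS7_coeff
    intro w hw
    have hw1 : ‖w‖ < 1 := by linarith
    rw [F96.ev_sub hw1, hT w hw1, hev1 w hw1]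
    exact hδ w hw
  have e6 : (T - f1) 1 = T 1 - 1 := by
    have h7 : f1 1 = 1 := by
      have h8 := hinner f1
      rw [← h8, inner_self_eq_norm_sq_to_K, hnorm1]
      simp
    have h9 : (T - f1) 1 = T 1 - f1 1 := rfl
    rw [h9, h7]
  rw [e6] at e5
  have e7 : 1 - (T 1).re ≤ 2 * δ := by
    have h8 : -(T 1 - 1).re ≤ ‖T 1 - 1‖ := by
      have := Complex.abs_re_le_norm (T 1 - 1)
      have h9 := neg_abs_le (T 1 - 1).re
      linarith
    have h10 : -(T 1 - 1).re = 1 - (T 1).re := by simp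
    linarith
  rw [e3, e4, hnorm1, hinner]
  have e8 : ‖T‖ ^ 2 ≤ 1 := by
    have := norm_nonneg T
    nlinarith
  have e9 : RCLike.re (T 1) = (T 1).re := rfl
  rw [e9]
  linarith

/-- the normalised iterates converge in `H²` to an inner function -/
theorem exists_lim {τ : ℂ → ℂ} {b : H2} (hb : IsBd τ b) {d : ℝ} (hd : 0 < d)
    (hs : ∀ n, d ≤ stp (ev b) n) :
    ∃ (η : ℂ → ℂ) (H : H2), IsBd η H ∧ ev H 0 = 0 ∧
      (∀ z : ℂ, ‖z‖ < 1 → Tendsto (fun n => hseq (ev b) n z) atTop (nhds (ev H z))) := by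
  have hφ : SelfMap (ev b) := selfMap_bd hb
  have hpos : ∀ n, 0 < stp (ev b) n := fun n => hd.trans_le (hs n)
  choose η Hn hbd hev using fun n => hseq_bd hb hpos n
  have hz0 : ‖(0 : ℂ)‖ < 1 := by simp
  have hev0 : ∀ n, ev (Hn n) 0 = 0 := fun n => by rw [hev n 0 hz0, hseq_zero]
  obtain ⟨K, hK⟩ := hseq_close hφ hd hs (r := 1 / 2) (by norm_num) (by norm_num)
  have hanti := stp_anti hφ
  have hbdd : BddBelow (Set.range (stp (ev b))) := ⟨d, by rintro _ ⟨n, rfl⟩; exact hs n⟩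
  set L := ⨅ n, stp (ev b) n with hL
  have hlim : Tendsto (stp (ev b)) atTop (nhds L) := tendsto_atTop_ciInf hanti hbdd
  have hLle : ∀ n, L ≤ stp (ev b) n := fun n => ciInf_le hbdd n
  have hest : ∀ n m, n ≤ m → ‖Hn n - Hn m‖ ^ 2 ≤ 4 * (|K| * (stp (ev b) n - L)) := by
    intro n m hnm
    obtain ⟨Θ, hΘ, hΘ0, hΘe, hΘd⟩ := hK n m hnm
    have h1 := auxS7_est (hbd n) (hev0 n) Θ hΘ (B := Hn m)
      (fun z hz => by rw [hev m z hz, hev n z hz]; exact hΘe z hz) (K * (stp (ev b) n - stp (ev b) m))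
      hΘd
    have h2 : K * (stp (ev b) n - stp (ev b) m) ≤ |K| * (stp (ev b) n - L) := by
      have h3 : 0 ≤ stp (ev b) n - stp (ev b) m := sub_nonneg.2 (hanti hnm)
      calc K * (stp (ev b) n - stp (ev b) m) ≤ |K| * (stp (ev b) n - stp (ev b) m) :=
            mul_le_mul_of_nonneg_right (le_abs_self K) h3
        _ ≤ |K| * (stp (ev b) n - L) := by
            apply mul_le_mul_of_nonneg_left _ (abs_nonneg K)
            have := hLle m
            linarith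
    linarith
  have hcau : CauchySeq Hn := by
    apply cauchySeq_of_le_tendsto_0' (fun n => Real.sqrt (4 * (|K| * (stp (ev b) n - L))))
    · intro n m hnm
      rw [dist_eq_norm]
      apply Real.le_sqrt_of_sq_le
      exact hest n m hnm
    · have h1 : Tendsto (fun n => 4 * (|K| * (stp (ev b) n - L))) atTop (nhds (4 * (|K| * (L - L)))) :=
        (((hlim.sub_const L).const_mul |K|).const_mul 4)
      have h2 := (Real.continuous_sqrt.tendsto _).comp h1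
      rw [sub_self, mul_zero, mul_zero, Real.sqrt_zero] at h2
      exact h2
  obtain ⟨H, hH⟩ := cauchySeq_tendsto_of_complete hcau
  have hJ : Tendsto (fun n => J (Hn n)) atTop (nhds (J H)) := (J.continuous.tendsto H).comp hH
  have hpt : ∀ z : ℂ, ‖z‖ < 1 → Tendsto (fun n => ev (Hn n) z) atTop (nhds (ev H z)) := by
    intro z hz
    have h1 : Tendsto (fun n => (inner ℂ (kz z) (Hn n) : ℂ)) atTop (nhds (inner ℂ (kz z) H)) :=
      tendsto_const_nhds.inner hH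
    simpa only [F96.inner_kz hz] using h1
  have hschw : ∀ n, ∀ z : ℂ, ‖z‖ < 1 → ‖ev (Hn n) z‖ ≤ ‖z‖ := by
    intro n z hz
    have h1 := schwarz_pick (selfMap_bd (hbd n)) hz hz0
    rw [hev0 n] at h1
    simpa [mob] using h1
  refine ⟨(J H : ℂ → ℂ), H, ⟨(Lp.stronglyMeasurable (J H)).measurable, ?_, Filter.EventuallyEq.rfl, ?_⟩,
    ?_, ?_⟩
  · obtain ⟨ns, -, hns⟩ := (tendstoInMeasure_of_tendsto_Lp hJ).exists_seq_tendsto_ae
    have h1 : ∀ᵐ ζ ∂mT, ∀ n, ‖(J (Hn n) : ℂ → ℂ) ζ‖ = 1 := by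
      rw [ae_all_iff]
      intro n
      filter_upwards [(hbd n).2.1, (hbd n).2.2.1] with ζ h2 h3
      rw [h3, h2]
    filter_upwards [hns, h1] with ζ h2 h3
    have h4 := h2.norm
    simp only [h3] at h4
    exact tendsto_nhds_unique h4 tendsto_const_nhds |>.symm ▸ rfl
  · intro z hz
    have h1 : ‖ev H z‖ ≤ ‖z‖ := le_of_tendsto (hpt z hz).norm (Eventually.of_forall fun n => hschw n z hz)
    exact h1.trans_lt hz
  · have h1 := hpt 0 hz0
    simp only [hev0] at h1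
    exact tendsto_nhds_unique h1 tendsto_const_nhds
  · intro z hz
    have h1 := hpt z hz
    refine h1.congr ?_
    intro n
    exact hev n z hz

lemma auxS8_den {a z : ℂ} (ha : ‖a‖ < 1) (hz : ‖z‖ < 1) : 1 - conj a * z ≠ 0 := by
  intro h
  have h1 : conj a * z = 1 := (sub_eq_zero.1 h).symm
  have h2 : ‖conj a * z‖ < 1 := by
    rw [norm_mul, RCLike.norm_conj]
    nlinarith [norm_nonneg a, norm_nonneg z]
  rw [h1, norm_one] at h2
  exact lt_irrefl _ h2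

lemma auxS8_comp {a b v : ℂ} (ha : ‖a‖ < 1) (hb : ‖b‖ < 1) (hv : ‖v‖ < 1) :
    mob a (mob (-b) v) = ((1 - a * conj b) / (1 - conj a * b) * v + mob a b) /
      (1 + conj (mob a b) * ((1 - a * conj b) / (1 - conj a * b)) * v) := by
  have h1 : 1 + conj b * v ≠ 0 := by
    have := auxS8_den (a := -b) (z := v) (by rwa [norm_neg]) hv
    rwa [map_neg, neg_mul, sub_neg_eq_add] at this
  have h2 : 1 - conj a * b ≠ 0 := auxS8_den ha hb
  have h3 : 1 - a * conj b ≠ 0 := by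
    have := auxS8_den (a := b) (z := a) hb ha
    rwa [mul_comm] at this
  have hm : ‖mob (-b) v‖ < 1 := mob_lt (by rwa [norm_neg]) hv
  have h4 : 1 - conj a * mob (-b) v ≠ 0 := auxS8_den ha hm
  have e1 : mob (-b) v = (v + b) / (1 + conj b * v) := by
    unfold mob
    rw [map_neg, neg_mul, sub_neg_eq_add, sub_neg_eq_add]
  have e2 : conj (mob a b) = (conj b - conj a) / (1 - a * conj b) := by
    unfold mob
    rw [map_div₀, map_sub, map_sub, map_one, map_mul, Complex.conj_conj]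
  have e3 : conj (mob a b) * ((1 - a * conj b) / (1 - conj a * b)) =
      (conj b - conj a) / (1 - conj a * b) := by
    rw [e2, div_mul_div_comm, mul_comm (1 - a * conj b) (1 - conj a * b),
      mul_div_mul_right _ _ h3]
  have e4 : 1 - conj a * mob (-b) v = ((1 - conj a * b) + (conj b - conj a) * v) / (1 + conj b * v) := by
    rw [e1, eq_div_iff h1, sub_mul, one_mul, mul_assoc, div_mul_cancel₀ _ h1]
    ring
  have h5 : (1 - conj a * b) + (conj b - conj a) * v ≠ 0 := by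
    intro h0
    rw [h0, zero_div] at e4
    exact h4 e4
  have e5 : mob a (mob (-b) v) = ((1 - a * conj b) * v + (b - a)) /
      ((1 - conj a * b) + (conj b - conj a) * v) := by
    have e6 : mob a (mob (-b) v) = (mob (-b) v - a) / (1 - conj a * mob (-b) v) := rfl
    have e9 : mob (-b) v - a = ((1 - a * conj b) * v + (b - a)) / (1 + conj b * v) := by
      rw [e1, eq_div_iff h1, sub_mul, div_mul_cancel₀ _ h1]
      ring
    rw [e6, e4, e9, div_div_div_cancel_right₀ h1]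
  rw [e5, e3]
  have e7 : 1 + (conj b - conj a) / (1 - conj a * b) * v =
      ((1 - conj a * b) + (conj b - conj a) * v) / (1 - conj a * b) := by
    rw [eq_div_iff h2, add_mul, one_mul, mul_right_comm, div_mul_cancel₀ _ h2]
  have e8 : (1 - a * conj b) / (1 - conj a * b) * v + mob a b =
      ((1 - a * conj b) * v + (b - a)) / (1 - conj a * b) := by
    have e10 : mob a b = (b - a) / (1 - conj a * b) := rfl
    rw [e10, eq_div_iff h2, add_mul, mul_right_comm, div_mul_cancel₀ _ h2, div_mul_cancel₀ _ h2]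
  rw [e7, e8, div_div_div_cancel_right₀ h2]

lemma auxS8_step {φ : ℂ → ℂ} (hφ : SelfMap φ) (hs : ∀ n, 0 < stp φ n) (n : ℕ) :
    ∃ ε : ℂ, ‖ε‖ = 1 ∧ ∀ z : ℂ, ‖z‖ < 1 → hseq φ n (φ z) =
      (ε * hseq φ (n + 1) z + stp φ n) / (1 + stp φ n * ε * hseq φ (n + 1) z) := by
  have ha := orb_lt hφ n
  have hb := orb_lt hφ (n + 1)
  obtain ⟨a, haa⟩ : ∃ a, a = orb φ n := ⟨_, rfl⟩
  obtain ⟨b, hbb⟩ : ∃ b, b = orb φ (n + 1) := ⟨_, rfl⟩
  rw [← haa] at ha
  rw [← hbb] at hb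
  obtain ⟨c, hc⟩ : ∃ c : ℂ, c = conj (mob a b) / (stp φ n : ℂ) := ⟨_, rfl⟩
  obtain ⟨c', hc'⟩ : ∃ c' : ℂ, c' = conj (mob b (orb φ (n + 2))) / (stp φ (n + 1) : ℂ) := ⟨_, rfl⟩
  have hsn : stp φ n = ‖mob a b‖ := by rw [haa, hbb]; rfl
  have hsn' : stp φ (n + 1) = ‖mob b (orb φ (n + 2))‖ := by rw [hbb]; rfl
  have hs0 := hs n
  have hs1 := hs (n + 1)
  have hs0c : (stp φ n : ℂ) ≠ 0 := by exact_mod_cast hs0.ne'
  have hs1c : (stp φ (n + 1) : ℂ) ≠ 0 := by exact_mod_cast hs1.ne'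
  have hcn : ‖c‖ = 1 := by
    rw [hc, norm_div, RCLike.norm_conj, ← hsn, Complex.norm_real, Real.norm_eq_abs,
      abs_of_pos hs0, div_self hs0.ne']
  have hcn' : ‖c'‖ = 1 := by
    rw [hc', norm_div, RCLike.norm_conj, ← hsn', Complex.norm_real, Real.norm_eq_abs,
      abs_of_pos hs1, div_self hs1.ne']
  have hc0' : c' ≠ 0 := by
    intro h0
    rw [h0, norm_zero] at hcn'
    exact zero_ne_one hcn'
  have hcm : c * mob a b = stp φ n := by
    rw [hc, div_mul_eq_mul_div, Complex.conj_mul', ← hsn]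
    field_simp
  have hcm2 : conj (mob a b) = c * stp φ n := by
    rw [hc]
    field_simp
  obtain ⟨κ, hκ⟩ : ∃ κ : ℂ, κ = (1 - a * conj b) / (1 - conj a * b) := ⟨_, rfl⟩
  have h2 : 1 - conj a * b ≠ 0 := auxS8_den ha hb
  have hκn : ‖κ‖ = 1 := by
    have e1 : conj (1 - conj a * b) = 1 - a * conj b := by
      rw [map_sub, map_one, map_mul, Complex.conj_conj]
    rw [hκ, norm_div, ← e1, RCLike.norm_conj, div_self (norm_ne_zero_iff.2 h2)]
  refine ⟨c * κ / c', ?_, ?_⟩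
  · rw [norm_div, norm_mul, hcn, hκn, hcn']
    norm_num
  · intro z hz
    have hy : ‖φ^[n + 1] z‖ < 1 := (iter_selfMap hφ (n + 1)).2 z hz
    have hv : ‖mob b (φ^[n + 1] z)‖ < 1 := mob_lt hb hy
    have e1 : hseq φ n (φ z) = c * mob a (mob (-b) (mob b (φ^[n + 1] z))) := by
      rw [mob_inv hb hy, hc, haa, hbb]
      rfl
    have e2 : hseq φ (n + 1) z = c' * mob b (φ^[n + 1] z) := by
      rw [hc', hbb]
      rfl
    rw [e1, e2, auxS8_comp ha hb hv, ← hκ]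
    have e3 : c * κ / c' * (c' * mob b (φ^[n + 1] z)) = c * κ * mob b (φ^[n + 1] z) := by
      field_simp
    have e4 : (stp φ n : ℂ) * (c * κ / c') * (c' * mob b (φ^[n + 1] z)) =
        conj (mob a b) * κ * mob b (φ^[n + 1] z) := by
      rw [hcm2]
      field_simp
    rw [e3, e4, ← hcm, ← mul_div_assoc]
    congr 1
    ring

/-- semi-conjugacy -/
theorem semiconj {τ η : ℂ → ℂ} {b H : H2} (hb : IsBd τ b) {d : ℝ} (hd : 0 < d)
    (hs : ∀ n, d ≤ stp (ev b) n) (hH : IsBd η H) (hH0 : ev H 0 = 0)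
    (hlim : ∀ z : ℂ, ‖z‖ < 1 → Tendsto (fun n => hseq (ev b) n z) atTop (nhds (ev H z))) :
    ∃ (ε : ℂ) (δ : ℝ), ‖ε‖ = 1 ∧ 0 < δ ∧ δ < 1 ∧
      ∀ z : ℂ, ‖z‖ < 1 → ev H (ev b z) = (ε * ev H z + δ) / (1 + δ * ε * ev H z) := by
  have hφ : SelfMap (ev b) := selfMap_bd hb
  have hsp : ∀ n, 0 < stp (ev b) n := fun n => hd.trans_le (hs n)
  choose ε hε1 hε2 using fun n => auxS8_step hφ hsp n
  obtain ⟨e, he, ψ, hψ, hψl⟩ := (isCompact_sphere (0 : ℂ) 1).tendsto_subseq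
    (x := ε) (fun n => mem_sphere_zero_iff_norm.2 (hε1 n))
  have hanti := stp_anti hφ
  have hbdd : BddBelow (Set.range (stp (ev b))) := ⟨d, by rintro _ ⟨n, rfl⟩; exact hs n⟩
  have hδl := tendsto_atTop_ciInf hanti hbdd
  obtain ⟨δ, hδ⟩ : ∃ δ : ℝ, δ = ⨅ n, stp (ev b) n := ⟨_, rfl⟩
  rw [← hδ] at hδl
  have hδd : d ≤ δ := ge_of_tendsto' hδl hs
  have hδ1 : δ < 1 := by
    have h1 : δ ≤ stp (ev b) 0 := le_of_tendsto' hδl (fun n => hanti (Nat.zero_le n))
    exact h1.trans_lt (stp_lt hφ 0)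
  refine ⟨e, δ, mem_sphere_zero_iff_norm.1 he, hd.trans_le hδd, hδ1, ?_⟩
  intro z hz
  have hφz : ‖ev b z‖ < 1 := hφ.2 z hz
  have hHz : ‖ev H z‖ < 1 := hH.2.2.2 z hz
  have hψt : Tendsto ψ atTop atTop := hψ.tendsto_atTop
  have l1 : Tendsto (fun k => hseq (ev b) (ψ k) (ev b z)) atTop (nhds (ev H (ev b z))) :=
    (hlim _ hφz).comp hψt
  have l2 : Tendsto (fun k => hseq (ev b) (ψ k + 1) z) atTop (nhds (ev H z)) :=
    ((tendsto_add_atTop_iff_nat 1).2 (hlim z hz)).comp hψt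
  have l3 : Tendsto (fun k => ((stp (ev b) (ψ k) : ℝ) : ℂ)) atTop (nhds (δ : ℂ)) :=
    (Complex.continuous_ofReal.tendsto δ).comp (hδl.comp hψt)
  have l4 : Tendsto (fun k => ε (ψ k)) atTop (nhds e) := hψl
  have hden : 1 + (δ : ℂ) * e * ev H z ≠ 0 := by
    intro h0
    have h1 : (δ : ℂ) * e * ev H z = -1 := by linear_combination h0
    have h2 : ‖(δ : ℂ) * e * ev H z‖ < 1 := by
      rw [norm_mul, norm_mul, Complex.norm_real, Real.norm_eq_abs,
        abs_of_pos (hd.trans_le hδd), mem_sphere_zero_iff_norm.1 he, mul_one]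
      nlinarith [norm_nonneg (ev H z), hd.trans_le hδd]
    rw [h1, norm_neg, norm_one] at h2
    exact lt_irrefl _ h2
  have l5 : Tendsto (fun k => (ε (ψ k) * hseq (ev b) (ψ k + 1) z + stp (ev b) (ψ k)) /
      (1 + stp (ev b) (ψ k) * ε (ψ k) * hseq (ev b) (ψ k + 1) z)) atTop
      (nhds ((e * ev H z + δ) / (1 + δ * e * ev H z))) :=
    ((l4.mul l2).add l3).div (tendsto_const_nhds.add ((l3.mul l4).mul l2)) hden
  have l6 : Tendsto (fun k => hseq (ev b) (ψ k) (ev b z)) atTop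
      (nhds ((e * ev H z + δ) / (1 + δ * e * ev H z))) := by
    refine l5.congr ?_
    intro k
    rw [hε2 (ψ k) z hz]
  exact tendsto_nhds_unique l1 l6

lemma auxS9_kz {w : ℕ → ℂ} {w0 : ℂ} (hw : ∀ n, ‖w n‖ < 1) (hw0 : ‖w0‖ < 1)
    (hlim : Tendsto w atTop (nhds w0)) : Tendsto (fun n => kz (w n)) atTop (nhds (kz w0)) := by
  rw [tendsto_iff_norm_sub_tendsto_zero]
  have hsq : ∀ n, ‖kz (w n) - kz w0‖ ^ 2 = 1 / (1 - ‖w n‖ ^ 2) -
      2 * (1 / (1 - conj w0 * w n) : ℂ).re + 1 / (1 - ‖w0‖ ^ 2) := by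
    intro n
    rw [@norm_sub_sq ℂ, F96.norm_kz_sq (hw n), F96.norm_kz_sq hw0, F96.inner_kz (hw n),
      F96.ev_kz hw0 (hw n)]
    rfl
  have hne : (1 : ℂ) - conj w0 * w0 ≠ 0 := by
    intro h
    have h1 : conj w0 * w0 = 1 := (sub_eq_zero.1 h).symm
    have h2 : ‖conj w0 * w0‖ = 1 := by rw [h1]; simp
    rw [norm_mul, RCLike.norm_conj] at h2
    nlinarith [norm_nonneg w0]
  have hne2 : (1 : ℝ) - ‖w0‖ ^ 2 ≠ 0 := (F96.one_sub_sq_pos hw0).ne'
  have hn : Tendsto (fun n => ‖w n‖) atTop (nhds ‖w0‖) := hlim.norm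
  have h1 : Tendsto (fun n => 1 / (1 - ‖w n‖ ^ 2)) atTop (nhds (1 / (1 - ‖w0‖ ^ 2))) :=
    Tendsto.div tendsto_const_nhds (tendsto_const_nhds.sub (hn.pow 2)) hne2
  have h2 : Tendsto (fun n => (1 / (1 - conj w0 * w n) : ℂ).re) atTop
      (nhds (1 / (1 - conj w0 * w0) : ℂ).re) :=
    (Complex.continuous_re.tendsto _).comp
      (Tendsto.div tendsto_const_nhds (tendsto_const_nhds.sub (hlim.const_mul _)) hne)
  have h3 : Tendsto (fun n => ‖kz (w n) - kz w0‖ ^ 2) atTop (nhds 0) := by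
    have h4 := (h1.sub (h2.const_mul 2)).add_const (1 / (1 - ‖w0‖ ^ 2))
    have h5 : 1 / (1 - ‖w0‖ ^ 2) - 2 * (1 / (1 - conj w0 * w0) : ℂ).re + 1 / (1 - ‖w0‖ ^ 2) = 0 := by
      have h6 : (1 / (1 - conj w0 * w0) : ℂ) = ((1 / (1 - ‖w0‖ ^ 2) : ℝ) : ℂ) := by
        rw [Complex.conj_mul']
        push_cast
        rfl
      rw [h6, Complex.ofReal_re]
      ring
    rw [h5] at h4
    refine h4.congr fun n => (hsq n).symm
  have h7 : Tendsto (fun n => Real.sqrt (‖kz (w n) - kz w0‖ ^ 2)) atTop (nhds (Real.sqrt 0)) :=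
    (Real.continuous_sqrt.tendsto _).comp h3
  rw [Real.sqrt_zero] at h7
  refine h7.congr fun n => ?_
  rw [Real.sqrt_sq (norm_nonneg _)]

lemma auxS9_adj (C : H2 →L[ℂ] H2) (hC : ∀ f, ‖C f‖ = ‖f‖) (f : H2) :
    ContinuousLinearMap.adjoint C (C f) = f := by
  let Ci : H2 →ₗᵢ[ℂ] H2 := ⟨C.toLinearMap, hC⟩
  refine ext_inner_right ℂ fun y => ?_
  rw [ContinuousLinearMap.adjoint_inner_left]
  exact Ci.inner_map_map f y

lemma auxS9_norm (C : H2 →L[ℂ] H2) (hC : ∀ f, ‖C f‖ = ‖f‖) (f : H2) :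
    ‖ContinuousLinearMap.adjoint C f‖ ≤ ‖f‖ := by
  have h1 : ‖C‖ ≤ 1 := ContinuousLinearMap.opNorm_le_bound _ zero_le_one fun f => by
    rw [hC, one_mul]
  have h2 : ‖ContinuousLinearMap.adjoint C‖ ≤ 1 := by
    rw [LinearIsometryEquiv.norm_map]; exact h1
  calc ‖ContinuousLinearMap.adjoint C f‖ ≤ ‖ContinuousLinearMap.adjoint C‖ * ‖f‖ :=
        ContinuousLinearMap.le_opNorm _ _
    _ ≤ 1 * ‖f‖ := mul_le_mul_of_nonneg_right h2 (norm_nonneg _)
    _ = ‖f‖ := one_mul _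

/-- functions invariant up to a constant factor through the semi-conjugacy -/
theorem factor {τ η : ℂ → ℂ} {b H : H2} (hb : IsBd τ b) {d : ℝ} (hd : 0 < d)
    (hs : ∀ n, d ≤ stp (ev b) n) (hH : IsBd η H) (hH0 : ev H 0 = 0)
    (hlim : ∀ z : ℂ, ‖z‖ < 1 → Tendsto (fun n => hseq (ev b) n z) atTop (nhds (ev H z)))
    (g : H2) (c : ℂ) (hg : ∀ z : ℂ, ‖z‖ < 1 → ev g (ev b z) = ev g z + c) :
    ∃ F : H2, ∀ z : ℂ, ‖z‖ < 1 → ev g z = ev F (ev H z) := by
  have hpos : ∀ n, 0 < stp (ev b) n := fun n => lt_of_lt_of_le hd (hs n)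
  have hφ := selfMap_bd hb
  have key : ∀ (η' : ℂ → ℂ) (H' : H2), IsBd η' H' → ev H' 0 = 0 → ∃ C : H2 →L[ℂ] H2,
      (∀ f, ‖C f‖ = ‖f‖) ∧ ∀ (f : H2) (z : ℂ), ‖z‖ < 1 → ev (C f) z = ev f (ev H' z) := by
    intro η' H' h' h0
    obtain ⟨CL, -, hiso, C, hJ, hev⟩ := exists_CL h'
    refine ⟨C, fun f => ?_, hev⟩
    rw [← J.norm_map (C f), hJ, hiso h0, J.norm_map]
  choose ηn Hn hBd hHev using (fun n => hseq_bd hb hpos n)
  have hH0n : ∀ n, ev (Hn n) 0 = 0 := by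
    intro n
    rw [hHev n 0 (by simp), hseq_zero]
  choose Cn hCniso hCnev using (fun n => key _ _ (hBd n) (hH0n n))
  obtain ⟨C, hCiso, hCev⟩ := key η H hH hH0
  have hgn : ∀ (n : ℕ) (z : ℂ), ‖z‖ < 1 → ev g ((ev b)^[n] z) = ev g z + n * c := by
    intro n z hz
    induction n with
    | zero => simp
    | succ n ih =>
      rw [Function.iterate_succ_apply', hg _ ((iter_selfMap hφ n).2 z hz), ih]
      push_cast
      ring
  have hnorm : ∀ n, ‖ContinuousLinearMap.adjoint (Cn n) g‖ = ‖g‖ := by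
    intro n
    have hakey : ‖orb (ev b) n‖ < 1 := orb_lt hφ n
    obtain ⟨a, ha⟩ : ∃ a, a = orb (ev b) n := ⟨_, rfl⟩
    obtain ⟨κ, hκdef⟩ : ∃ κ : ℂ, κ = conj (mob (orb (ev b) n) (orb (ev b) (n + 1))) /
      (stp (ev b) n : ℂ) := ⟨_, rfl⟩
    have hκ : ‖κ‖ = 1 := by
      rw [hκdef, norm_div, RCLike.norm_conj, Complex.norm_real, Real.norm_eq_abs,
        abs_of_pos (hpos n)]
      exact div_self (hpos n).ne'
    have hκκ : conj κ * κ = 1 := by
      rw [Complex.conj_mul', hκ]; simp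
    have ha1 : ‖a‖ < 1 := by rw [ha]; exact hakey
    obtain ⟨C', hC'⟩ := F96.exists_comp (conj κ) (-(a * κ)) (by rw [RCLike.norm_conj]; exact hκ)
      (by rw [norm_neg, norm_mul, hκ, mul_one]; exact ha1)
    have hFn : Cn n (C' g - ((n : ℂ) * c) • kz 0) = g := by
      refine F96.ev_injective fun z hz => ?_
      have hw1 : ‖ev (Hn n) z‖ < 1 := (hBd n).2.2.2 z hz
      have hy1 : ‖(ev b)^[n] z‖ < 1 := (iter_selfMap hφ n).2 z hz
      have hw : ev (Hn n) z = κ * mob a ((ev b)^[n] z) := by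
        rw [hHev n z hz, hκdef, ha]; rfl
      rw [hCnev n _ z hz, F96.ev_sub hw1, F96.ev_smul hw1, F96.ev_kz (by simp) hw1, hC' g _ hw1]
      have h1 : conj κ * ((ev (Hn n) z - -(a * κ)) / (1 - conj (-(a * κ)) * ev (Hn n) z)) =
          (ev b)^[n] z := by
        have h2 : conj κ * ((ev (Hn n) z - -(a * κ)) / (1 - conj (-(a * κ)) * ev (Hn n) z)) =
            mob (-a) (mob a ((ev b)^[n] z)) := by
          have e1 : conj κ * (ev (Hn n) z - -(a * κ)) = mob a ((ev b)^[n] z) - -a := by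
            rw [hw]
            have : conj κ * (κ * mob a ((ev b)^[n] z) - -(a * κ)) =
              (conj κ * κ) * mob a ((ev b)^[n] z) + a * (conj κ * κ) := by ring
            rw [this, hκκ]; ring
          have e2 : 1 - conj (-(a * κ)) * ev (Hn n) z = 1 - conj (-a) * mob a ((ev b)^[n] z) := by
            rw [hw, map_neg, map_mul, map_neg]
            have : 1 - -(conj a * conj κ) * (κ * mob a ((ev b)^[n] z)) =
              1 + conj a * (conj κ * κ) * mob a ((ev b)^[n] z) := by ring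
            rw [this, hκκ]; ring
          rw [← mul_div_assoc, e1, e2]
          rfl
        rw [h2, mob_inv ha1 hy1]
      rw [h1, hgn n z hz]
      simp
    have h3 : ContinuousLinearMap.adjoint (Cn n) g = C' g - ((n : ℂ) * c) • kz 0 := by
      conv_lhs => rw [← hFn]
      exact auxS9_adj (Cn n) (hCniso n) _
    rw [h3, ← hCniso n, hFn]
  have hlimkz : ∀ z : ℂ, ‖z‖ < 1 → Tendsto (fun n => ContinuousLinearMap.adjoint (Cn n) (kz z))
      atTop (nhds (ContinuousLinearMap.adjoint C (kz z))) := by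
    intro z hz
    have h1 : ∀ n, ContinuousLinearMap.adjoint (Cn n) (kz z) = kz (ev (Hn n) z) := fun n =>
      F96.adj_kz (Cn n) (ev (Hn n)) (hCnev n) z hz ((hBd n).2.2.2 z hz)
    have h2 : ContinuousLinearMap.adjoint C (kz z) = kz (ev H z) :=
      F96.adj_kz C (ev H) hCev z hz (hH.2.2.2 z hz)
    rw [h2]
    simp_rw [h1]
    refine auxS9_kz (fun n => (hBd n).2.2.2 z hz) (hH.2.2.2 z hz) ?_
    refine (hlim z hz).congr fun n => (hHev n z hz).symm
  have hspan : ∀ x ∈ Submodule.span ℂ (kz '' {z | ‖z‖ < 1}),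
      Tendsto (fun n => ContinuousLinearMap.adjoint (Cn n) x)
        atTop (nhds (ContinuousLinearMap.adjoint C x)) := by
    intro x hx
    induction hx using Submodule.span_induction with
    | mem x hx =>
      obtain ⟨z, hz, rfl⟩ := hx
      exact hlimkz z hz
    | zero => simp
    | add x y _ _ hx hy => simpa using hx.add hy
    | smul a x _ hx => simpa using hx.const_smul a
  have hge : ‖g‖ ≤ ‖ContinuousLinearMap.adjoint C g‖ := by
    refine le_of_forall_pos_le_add fun ε hε => ?_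
    obtain ⟨g', hg', hgg⟩ := F96.kz_span_dense g (ε / 2) (by linarith)
    have h1 : ∀ n, ‖g‖ - ε / 2 ≤ ‖ContinuousLinearMap.adjoint (Cn n) g'‖ := by
      intro n
      have h2 : ‖ContinuousLinearMap.adjoint (Cn n) (g - g')‖ ≤ ‖g - g'‖ :=
        auxS9_norm (Cn n) (hCniso n) _
      rw [map_sub] at h2
      have h3 := norm_sub_norm_le (ContinuousLinearMap.adjoint (Cn n) g)
        (ContinuousLinearMap.adjoint (Cn n) g')
      rw [hnorm n] at h3
      linarith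
    have h2 : ‖g‖ - ε / 2 ≤ ‖ContinuousLinearMap.adjoint C g'‖ :=
      ge_of_tendsto (hspan g' hg').norm (Eventually.of_forall h1)
    have h3 : ‖ContinuousLinearMap.adjoint C (g - g')‖ ≤ ‖g - g'‖ := auxS9_norm C hCiso _
    rw [map_sub] at h3
    have h4 := norm_sub_norm_le (ContinuousLinearMap.adjoint C g')
      (ContinuousLinearMap.adjoint C g)
    rw [norm_sub_rev] at h4
    linarith
  have heq : ‖ContinuousLinearMap.adjoint C g‖ = ‖g‖ := le_antisymm (auxS9_norm C hCiso g) hge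
  have hCC : C (ContinuousLinearMap.adjoint C g) = g := by
    rw [← sub_eq_zero, ← norm_eq_zero]
    have h1 : ‖C (ContinuousLinearMap.adjoint C g) - g‖ ^ 2 = 0 := by
      rw [@norm_sub_sq ℂ, hCiso, ← ContinuousLinearMap.adjoint_inner_right,
        inner_self_eq_norm_sq_to_K, heq, ← RCLike.ofReal_pow, RCLike.ofReal_re]
      ring
    exact pow_eq_zero_iff (two_ne_zero) |>.1 h1
  refine ⟨ContinuousLinearMap.adjoint C g, fun z hz => ?_⟩
  rw [← hCev _ z hz, hCC]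

lemma auxS10_star {τ : ℂ → ℂ} {b : H2} (hb : IsBd τ b) (CL : L2 →L[ℂ] L2)
    (hCL : ∀ x : L2, (CL x : ℂ → ℂ) =ᵐ[mT] fun ζ => x (τ ζ)) (w : L2) :
    CL (star w) = star (CL w) := by
  apply Lp.ext
  have h4 : ∀ᵐ ζ ∂mT, ((star w : L2) : ℂ → ℂ) (τ ζ) = conj ((w : ℂ → ℂ) (τ ζ)) :=
    (qi_bd hb).ae (star_coe w)
  filter_upwards [hCL (star w), star_coe (CL w), hCL w, h4] with ζ e1 e2 e3 e4
  rw [e1, e4, e2, e3]

lemma auxS10_star_sub (x y : L2) : star (x - y) = star x - star y := by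
  apply Lp.ext
  filter_upwards [star_coe (x - y), Lp.coeFn_sub x y, Lp.coeFn_sub (star x) (star y), star_coe x,
    star_coe y] with ζ e1 e2 e3 e4 e5
  rw [e1, e2, e3, Pi.sub_apply, Pi.sub_apply, e4, e5, map_sub]

lemma auxS10_star_smul (c : ℂ) (x : L2) : star (c • x) = conj c • star x := by
  apply Lp.ext
  filter_upwards [star_coe (c • x), Lp.coeFn_smul c x, Lp.coeFn_smul (conj c) (star x),
    star_coe x] with ζ e1 e2 e3 e4
  rw [e1, e2, e3, Pi.smul_apply, Pi.smul_apply, e4, smul_eq_mul, smul_eq_mul, map_mul]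

lemma auxS10_mon_inner {n m : ℤ} (h : n ≠ m) : (inner ℂ (mon n) (mon m) : ℂ) = 0 :=
  mon_orthonormal.2 h

lemma auxS10_const {y : L2} (hy : y ∈ Hs) (hsy : star y ∈ Hs) :
    y = (inner ℂ (mon 0) y : ℂ) • mon 0 := by
  rw [← sub_eq_zero]
  apply mon_total
  intro n
  rw [inner_sub_right, inner_smul_right]
  rcases lt_trichotomy n 0 with hn | hn | hn
  · rw [mem_Hs.mp hy n hn, auxS10_mon_inner hn.ne]
    simp
  · rw [hn]
    have h1 : (inner ℂ (mon 0) (mon 0) : ℂ) = 1 := by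
      rw [inner_self_eq_norm_sq_to_K, mon_orthonormal.1 0]
      simp
    rw [h1]
    simp
  · have h2 : (inner ℂ (star (mon n)) (star y) : ℂ) = 0 := by
      rw [mean_mul (mon_mem hn.le) hsy, auxS10_mon_inner hn.ne]
      simp
    rw [inner_star_star] at h2
    have h3 : (inner ℂ (mon n) y : ℂ) = 0 := (map_eq_zero (starRingEnd ℂ)).mp h2
    rw [h3, auxS10_mon_inner hn.ne']
    simp

lemma auxS10_one : ∃ O : H2, J O = mon 0 ∧ ∀ z : ℂ, ‖z‖ < 1 → ev O z = 1 := by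
  obtain ⟨O, hO⟩ := J_surj (mon_mem (le_refl (0 : ℤ)))
  refine ⟨O, hO, fun z hz => ?_⟩
  have hcoef : ∀ n : ℕ, n ≠ 0 → O n = 0 := by
    intro n hn
    rw [← J_coeff O n, hO]
    exact auxS10_mon_inner (by exact_mod_cast hn)
  have hcoef0 : O 0 = 1 := by
    rw [← J_coeff O 0, hO]
    have h1 : (inner ℂ (mon 0) (mon 0) : ℂ) = 1 := by
      rw [inner_self_eq_norm_sq_to_K, mon_orthonormal.1 0]
      simp
    rw [Nat.cast_zero]
    exact h1
  unfold F96.ev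
  rw [tsum_eq_single 0]
  · rw [hcoef0]
    simp
  · intro n hn
    rw [hcoef n hn]
    simp

lemma auxS10_fac {τ η : ℂ → ℂ} {b H : H2} (hb : IsBd τ b) {d : ℝ} (hd : 0 < d)
    (hs : ∀ n, d ≤ stp (ev b) n) (hH : IsBd η H) (hH0 : ev H 0 = 0)
    (hlim : ∀ z : ℂ, ‖z‖ < 1 → Tendsto (fun n => hseq (ev b) n z) atTop (nhds (ev H z)))
    (CE : L2 →L[ℂ] L2) (CH : H2 →L[ℂ] H2) (hCE : ∀ f, J (CH f) = CE (J f))
    (hCH : ∀ (f : H2) (z : ℂ), ‖z‖ < 1 → ev (CH f) z = ev f (ev H z))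
    (C : H2 →L[ℂ] H2) (hC : ∀ (f : H2) (z : ℂ), ‖z‖ < 1 → ev (C f) z = ev f (ev b z))
    (G : H2) (c : ℂ) (hG : J (C G) - J G = c • mon 0) :
    ∃ F : H2, J G = CE (J F) := by
  obtain ⟨O, hO, hO1⟩ := auxS10_one
  have h1 : C G = G + c • O := by
    apply J.injective
    rw [map_add, map_smul, hO, ← hG]
    abel
  have h2 : ∀ z : ℂ, ‖z‖ < 1 → ev G (ev b z) = ev G z + c := by
    intro z hz
    rw [← hC G z hz, h1, F96.ev_add hz, F96.ev_smul hz, hO1 z hz, mul_one]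
  obtain ⟨F, hF⟩ := factor hb hd hs hH hH0 hlim G c h2
  refine ⟨F, ?_⟩
  have h3 : G = CH F := by
    apply F96.ev_injective
    intro z hz
    rw [hF z hz, hCH F z hz]
  rw [← hCE F, ← h3]

/-- invariant functions on the circle are functions of `η` -/
theorem inv_factor {τ η : ℂ → ℂ} {b H : H2} (hb : IsBd τ b) {d : ℝ} (hd : 0 < d)
    (hs : ∀ n, d ≤ stp (ev b) n) (hH : IsBd η H) (hH0 : ev H 0 = 0)
    (hlim : ∀ z : ℂ, ‖z‖ < 1 → Tendsto (fun n => hseq (ev b) n z) atTop (nhds (ev H z)))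
    (CL : L2 →L[ℂ] L2) (hCL : ∀ x : L2, (CL x : ℂ → ℂ) =ᵐ[mT] fun ζ => x (τ ζ))
    (x : L2) (hx : CL x = x) :
    ∃ U : L2, (x : ℂ → ℂ) =ᵐ[mT] fun ζ => U (η ζ) := by
  obtain ⟨CL0, hCL0, -, C, hJC, hC⟩ := exists_CL hb
  obtain ⟨CE, hCE0, -, CH, hCE, hCH⟩ := exists_CL hH
  have hCLeq : ∀ w : L2, CL w = CL0 w := by
    intro w
    apply Lp.ext
    filter_upwards [hCL w, hCL0 w] with ζ e1 e2
    rw [e1, e2]
  obtain ⟨g, hg, r, hr, hxgr⟩ := Submodule.exists_add_mem_mem_orthogonal (K := Hs) x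
  have hr' : ∀ y ∈ Hs, (inner ℂ y r : ℂ) = 0 := fun y hy => (Submodule.mem_orthogonal Hs r).mp hr y hy
  obtain ⟨hsr, -⟩ := star_mem_of_orth hr'
  obtain ⟨G, rfl⟩ := J_surj hg
  obtain ⟨S, hS⟩ := J_surj hsr
  have hrS : r = star (J S) := by
    rw [hS, star_star]
  have hCLr : CL r = star (CL (J S)) := by
    rw [hrS]
    exact auxS10_star hb CL hCL (J S)
  have hCLG : CL (J G) = J (C G) := by rw [hCLeq, hJC]
  have hCLS : CL (J S) = J (C S) := by rw [hCLeq, hJC]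
  have hy1 : CL (J G) - J G = r - CL r := by
    have h1 : CL (J G) + CL r = J G + r := by
      rw [← map_add, ← hxgr, hx]
    rw [sub_eq_sub_iff_add_eq_add, h1]
    abel
  set y : L2 := CL (J G) - J G with hy_def
  have hyH : y ∈ Hs := by
    rw [hy_def, hCLG]
    exact Submodule.sub_mem _ (J_mem _) (J_mem _)
  have hstary : star y = J S - J (C S) := by
    rw [hy1, hCLr, hrS, auxS10_star_sub, star_star, star_star, hCLS]
  have hsyH : star y ∈ Hs := by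
    rw [hstary]
    exact Submodule.sub_mem _ (J_mem _) (J_mem _)
  have hyc := auxS10_const hyH hsyH
  set c : ℂ := (inner ℂ (mon 0) y : ℂ) with hc_def
  obtain ⟨F, hF⟩ := auxS10_fac hb hd hs hH hH0 hlim CE CH hCE hCH C hC G c (by
    rw [← hyc, hy_def, hCLG])
  obtain ⟨F', hF'⟩ := auxS10_fac hb hd hs hH hH0 hlim CE CH hCE hCH C hC S (-(conj c)) (by
    have h2 : J (C S) - J S = -star y := by
      rw [hstary]
      abel
    rw [h2, hyc, auxS10_star_smul, star_mon_zero, neg_smul])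
  refine ⟨J F + star (J F'), ?_⟩
  have hxU : x = CE (J F + star (J F')) := by
    rw [map_add, auxS10_star hH CE hCE0 (J F'), ← hF, ← hF', ← hrS]
    exact hxgr
  have h5 := hCE0 (J F + star (J F'))
  rw [← hxU] at h5
  exact h5


end

end HT
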