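import Pool.Agent.Helper368.HT.S2

open scoped ComplexConjugate
open MeasureTheory Filter

namespace HT

open F96 (H2 ev kz)

noncomputable section

lemma auxT1_ne {a z : ℂ} (ha : ‖a‖ < 1) (hz : ‖z‖ < 1) : 0 < ‖1 - conj a * z‖ := by
  rw [norm_pos_iff]
  intro h
  have h1 : conj a * z = 1 := (sub_eq_zero.1 h).symm
  have h2 : ‖conj a * z‖ = 1 := by rw [h1, norm_one]
  rw [norm_mul, RCLike.norm_conj] at h2
  nlinarith [norm_nonneg a, norm_nonneg z]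

lemma auxT1_mob {a z : ℂ} (ha : ‖a‖ < 1) (hz : ‖z‖ < 1) :
    1 - ‖mob a z‖ ^ 2 = (1 - ‖a‖ ^ 2) * (1 - ‖z‖ ^ 2) / ‖1 - conj a * z‖ ^ 2 := by
  have hp := auxT1_ne ha hz
  have hid : ‖1 - conj a * z‖ ^ 2 - ‖z - a‖ ^ 2 = (1 - ‖a‖ ^ 2) * (1 - ‖z‖ ^ 2) := by
    rw [Complex.sq_norm, Complex.sq_norm, Complex.sq_norm, Complex.sq_norm,
      Complex.normSq_apply, Complex.normSq_apply, Complex.normSq_apply, Complex.normSq_apply]
    simp only [Complex.sub_re, Complex.sub_im, Complex.one_re, Complex.one_im, Complex.mul_re,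
      Complex.mul_im, Complex.conj_re, Complex.conj_im]
    ring
  unfold mob
  rw [norm_div, div_pow, ← hid, sub_div, div_self (by positivity)]

lemma auxT1_core {φ : ℂ → ℂ} (hφ : SelfMap φ) {z u : ℂ} (hz : ‖z‖ < 1) (hu : ‖u‖ < 1) :
    ‖1 - conj (φ u) * φ z‖ ^ 2 / (1 - ‖φ z‖ ^ 2) ≤
      ((1 - ‖φ u‖ ^ 2) / (1 - ‖u‖ ^ 2)) * (‖1 - conj u * z‖ ^ 2 / (1 - ‖z‖ ^ 2)) := by
  have hφz := hφ.2 z hz
  have hφu := hφ.2 u hu
  have h := schwarz_pick hφ hz hu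
  have h1 := auxT1_mob hφu hφz
  have h2 := auxT1_mob hu hz
  have h3 : ‖mob (φ u) (φ z)‖ ^ 2 ≤ ‖mob u z‖ ^ 2 := pow_le_pow_left₀ (norm_nonneg _) h 2
  have h4 : (1 - ‖u‖ ^ 2) * (1 - ‖z‖ ^ 2) / ‖1 - conj u * z‖ ^ 2 ≤
      (1 - ‖φ u‖ ^ 2) * (1 - ‖φ z‖ ^ 2) / ‖1 - conj (φ u) * φ z‖ ^ 2 := by
    rw [← h1, ← h2]; linarith
  have p1 : 0 < ‖1 - conj u * z‖ ^ 2 := pow_pos (auxT1_ne hu hz) 2
  have p2 : 0 < ‖1 - conj (φ u) * φ z‖ ^ 2 := pow_pos (auxT1_ne hφu hφz) 2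
  have p3 := F96.one_sub_sq_pos hz
  have p4 := F96.one_sub_sq_pos hu
  have p5 := F96.one_sub_sq_pos hφz
  rw [div_le_div_iff₀ p1 p2] at h4
  rw [div_mul_div_comm, div_le_div_iff₀ p5 (mul_pos p4 p3)]
  linarith

lemma auxT1_norm {ω w : ℂ} (hω : ‖ω‖ = 1) : ‖1 - conj ω * w‖ = ‖ω - w‖ := by
  have h1 : ω * conj ω = 1 := by
    rw [Complex.mul_conj']
    rw [hω]; simp
  have h2 : ω - w = ω * (1 - conj ω * w) := by
    rw [mul_sub, ← mul_assoc, h1]; ring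
  rw [h2, norm_mul, hω, one_mul]

lemma auxT1_quot {φ : ℂ → ℂ} {ω : ℂ} (hω : ‖ω‖ = 1) {r : ℝ} (hr0 : 0 < r) (hr1 : r < 1) :
    (1 - ‖φ (r * ω)‖ ^ 2) / (1 - ‖(r : ℂ) * ω‖ ^ 2) =
      (2 * ((φ (r * ω) - ω) / ((r - 1) * ω)).re -
        (1 - r) * ‖(φ (r * ω) - ω) / ((r - 1) * ω)‖ ^ 2) / (1 + r) := by
  have hω0 : ω ≠ 0 := by
    intro h
    rw [h, norm_zero] at hω
    exact zero_ne_one hω
  have hr : ((r : ℂ) - 1) ≠ 0 := by
    intro h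
    have h1 : (r : ℂ) = 1 := sub_eq_zero.1 h
    have h2 : r = 1 := by exact_mod_cast h1
    linarith
  obtain ⟨q, hq⟩ : ∃ q, q = (φ (r * ω) - ω) / ((r - 1) * ω) := ⟨_, rfl⟩
  rw [← hq]
  have e1 : φ (r * ω) = ω * (1 + ((r - 1 : ℝ) : ℂ) * q) := by
    rw [hq]
    push_cast
    field_simp
    ring
  have e2 : ‖φ (r * ω)‖ ^ 2 = 1 + 2 * (r - 1) * q.re + (r - 1) ^ 2 * ‖q‖ ^ 2 := by
    rw [e1, norm_mul, hω, one_mul, Complex.sq_norm, Complex.sq_norm, Complex.normSq_apply,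
      Complex.normSq_apply]
    simp only [Complex.add_re, Complex.add_im, Complex.one_re, Complex.one_im, Complex.mul_re,
      Complex.mul_im, Complex.ofReal_re, Complex.ofReal_im]
    ring
  have e3 : ‖(r : ℂ) * ω‖ ^ 2 = r ^ 2 := by
    rw [norm_mul, hω, mul_one, Complex.norm_real, Real.norm_eq_abs, sq_abs]
  rw [e2, e3]
  have h1 : (1 : ℝ) - r ^ 2 ≠ 0 := by nlinarith
  have h2 : (1 : ℝ) + r ≠ 0 := by linarith
  rw [div_eq_div_iff h1 h2]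
  ring

/-- Julia's lemma from the radial angular derivative -/
theorem julia {φ : ℂ → ℂ} (hφ : SelfMap φ) {ω : ℂ} (hω : ‖ω‖ = 1) {α : ℝ}
    (h1 : Tendsto (fun r : ℝ => φ (r * ω)) (nhdsWithin 1 (Set.Iio 1)) (nhds ω))
    (h2 : Tendsto (fun r : ℝ => (φ (r * ω) - ω) / ((r - 1) * ω)) (nhdsWithin 1 (Set.Iio 1))
      (nhds (α : ℂ))) {z : ℂ} (hz : ‖z‖ < 1) :
    ‖ω - φ z‖ ^ 2 / (1 - ‖φ z‖ ^ 2) ≤ α * (‖ω - z‖ ^ 2 / (1 - ‖z‖ ^ 2)) := by
  have hr : Tendsto (fun r : ℝ => r) (nhdsWithin 1 (Set.Iio 1)) (nhds 1) :=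
    tendsto_nhdsWithin_of_tendsto_nhds tendsto_id
  have hL : Tendsto (fun r : ℝ => ‖1 - conj (φ (r * ω)) * φ z‖ ^ 2 / (1 - ‖φ z‖ ^ 2))
      (nhdsWithin 1 (Set.Iio 1)) (nhds (‖ω - φ z‖ ^ 2 / (1 - ‖φ z‖ ^ 2))) := by
    rw [← auxT1_norm hω]
    have hc : Tendsto (fun r : ℝ => conj (φ (r * ω))) (nhdsWithin 1 (Set.Iio 1))
        (nhds (conj ω)) := (Complex.continuous_conj.tendsto ω).comp h1
    exact ((((hc.mul_const (φ z)).const_sub 1).norm.pow 2).div_const _)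
  have hQ : Tendsto (fun r : ℝ => (2 * ((φ (r * ω) - ω) / ((r - 1) * ω)).re -
        (1 - r) * ‖(φ (r * ω) - ω) / ((r - 1) * ω)‖ ^ 2) / (1 + r))
      (nhdsWithin 1 (Set.Iio 1)) (nhds α) := by
    have hre : Tendsto (fun r : ℝ => ((φ (r * ω) - ω) / ((r - 1) * ω)).re)
        (nhdsWithin 1 (Set.Iio 1)) (nhds ((α : ℂ)).re) :=
      (Complex.continuous_re.tendsto _).comp h2
    rw [Complex.ofReal_re] at hre
    have hn := (h2.norm.pow 2)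
    have h5 := ((hre.const_mul 2).sub (((hr.const_sub 1)).mul hn)).div (hr.const_add 1)
      (by norm_num : (1 : ℝ) + 1 ≠ 0)
    have e : (2 * α - (1 - 1) * ‖(α : ℂ)‖ ^ 2) / (1 + 1) = α := by ring
    rw [e] at h5
    exact h5
  have hP : Tendsto (fun r : ℝ => ‖1 - conj ((r : ℂ) * ω) * z‖ ^ 2 / (1 - ‖z‖ ^ 2))
      (nhdsWithin 1 (Set.Iio 1)) (nhds (‖ω - z‖ ^ 2 / (1 - ‖z‖ ^ 2))) := by
    rw [← auxT1_norm hω]
    have hc : Continuous (fun r : ℝ => ‖1 - conj ((r : ℂ) * ω) * z‖ ^ 2 / (1 - ‖z‖ ^ 2)) := by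
      have : Continuous (fun r : ℝ => conj ((r : ℂ) * ω)) :=
        Complex.continuous_conj.comp (by fun_prop)
      fun_prop
    have h3 := (hc.tendsto 1)
    simp only [Complex.ofReal_one, one_mul] at h3
    exact tendsto_nhdsWithin_of_tendsto_nhds h3
  have hR := hQ.mul hP
  refine le_of_tendsto_of_tendsto hL hR ?_
  have hev : ∀ᶠ r : ℝ in nhdsWithin 1 (Set.Iio 1), 0 < r ∧ r < 1 := by
    have h3 : ∀ᶠ r : ℝ in nhdsWithin 1 (Set.Iio 1), 0 < r :=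
      hr.eventually (lt_mem_nhds zero_lt_one)
    filter_upwards [h3, self_mem_nhdsWithin] with r hr3 hr4
    exact ⟨hr3, hr4⟩
  filter_upwards [hev] with r hr3
  have hu : ‖(r : ℂ) * ω‖ < 1 := by
    rw [norm_mul, hω, mul_one, Complex.norm_real, Real.norm_eq_abs, abs_of_pos hr3.1]
    exact hr3.2
  have h6 := auxT1_core hφ hz hu
  rw [auxT1_quot hω hr3.1 hr3.2] at h6
  exact h6

lemma auxT2_key {z z' ω : ℂ} (hz : ‖z‖ < 1) (hz' : ‖z'‖ < 1) (hω : ‖ω‖ = 1) :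
    (1 - ‖mob z z'‖) * (‖ω - z‖ ^ 2 / (1 - ‖z‖ ^ 2)) ≤
      (1 + ‖mob z z'‖) * (‖ω - z'‖ ^ 2 / (1 - ‖z'‖ ^ 2)) := by
  have ha : 0 < 1 - ‖z‖ ^ 2 := by nlinarith [norm_nonneg z]
  have hb : 0 < 1 - ‖z'‖ ^ 2 := by nlinarith [norm_nonneg z']
  obtain ⟨D, hD⟩ : ∃ D : ℝ, D = ‖1 - conj z * z'‖ := ⟨_, rfl⟩
  obtain ⟨N, hN⟩ : ∃ N : ℝ, N = ‖z' - z‖ := ⟨_, rfl⟩
  have hm : ‖mob z z'‖ = N / D := by
    unfold mob
    rw [norm_div, hD, hN]
  have hDN : D ^ 2 - N ^ 2 = (1 - ‖z‖ ^ 2) * (1 - ‖z'‖ ^ 2) := by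
    rw [hD, hN, Complex.sq_norm, Complex.sq_norm, Complex.sq_norm, Complex.sq_norm]
    simp only [Complex.normSq_apply, Complex.sub_re, Complex.sub_im, Complex.mul_re,
      Complex.mul_im, Complex.conj_re, Complex.conj_im, Complex.one_re, Complex.one_im]
    ring
  have hN0 : 0 ≤ N := by rw [hN]; exact norm_nonneg _
  have hD0 : 0 < D := by
    have h1 : 0 ≤ D := by rw [hD]; exact norm_nonneg _
    rcases h1.lt_or_eq with h | h
    · exact h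
    · exfalso
      rw [← h] at hDN
      have : 0 < (1 - ‖z‖ ^ 2) * (1 - ‖z'‖ ^ 2) := mul_pos ha hb
      nlinarith
  have hωω : conj ω * ω = 1 := by
    rw [Complex.conj_mul', hω]; simp
  have hid : ((1 - ‖z'‖ ^ 2 : ℝ) : ℂ) * (ω - z)
      = (ω - z') * (1 - conj z' * z) + (z' - z) * (ω * conj (ω - z')) := by
    have h1 : ((‖z'‖ ^ 2 : ℝ) : ℂ) = conj z' * z' := by
      rw [Complex.conj_mul']; push_cast; rfl
    rw [map_sub]
    have h2 : ω * (conj ω - conj z') = 1 - conj z' * ω := by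
      rw [mul_sub, mul_comm ω (conj ω), hωω]; ring
    rw [h2, Complex.ofReal_sub, h1, Complex.ofReal_one]
    ring
  have hineq : (1 - ‖z'‖ ^ 2) * ‖ω - z‖ ≤ ‖ω - z'‖ * (D + N) := by
    have h1 := congrArg norm hid
    rw [norm_mul, Complex.norm_real, Real.norm_of_nonneg hb.le] at h1
    rw [h1]
    have h2 : ‖1 - conj z' * z‖ = D := by
      rw [hD, ← RCLike.norm_conj (1 - conj z * z')]
      congr 1
      simp [mul_comm]
    calc ‖(ω - z') * (1 - conj z' * z) + (z' - z) * (ω * conj (ω - z'))‖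
        ≤ ‖(ω - z') * (1 - conj z' * z)‖ + ‖(z' - z) * (ω * conj (ω - z'))‖ := norm_add_le _ _
      _ = ‖ω - z'‖ * D + N * ‖ω - z'‖ := by
        rw [norm_mul, norm_mul, norm_mul, h2, RCLike.norm_conj, hω, one_mul, hN]
      _ = _ := by ring
  have hsq : (1 - ‖z'‖ ^ 2) ^ 2 * ‖ω - z‖ ^ 2 ≤ ‖ω - z'‖ ^ 2 * (D + N) ^ 2 := by
    have h1 := pow_le_pow_left₀ (mul_nonneg hb.le (norm_nonneg _)) hineq 2
    rw [mul_pow, mul_pow] at h1
    exact h1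
  rw [hm]
  have e1 : (1 - N / D) * (‖ω - z‖ ^ 2 / (1 - ‖z‖ ^ 2))
      = ((D - N) * ‖ω - z‖ ^ 2) / (D * (1 - ‖z‖ ^ 2)) := by
    field_simp
  have e2 : (1 + N / D) * (‖ω - z'‖ ^ 2 / (1 - ‖z'‖ ^ 2))
      = ((D + N) * ‖ω - z'‖ ^ 2) / (D * (1 - ‖z'‖ ^ 2)) := by
    field_simp
  rw [e1, e2, div_le_div_iff₀ (by positivity) (by positivity)]
  have hDN0 : 0 < D + N := by linarith
  have h3 : (D + N) * ((D - N) * ‖ω - z‖ ^ 2 * (1 - ‖z'‖ ^ 2)) ≤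
      (D + N) * ((D + N) * ‖ω - z'‖ ^ 2 * (1 - ‖z‖ ^ 2)) := by
    calc (D + N) * ((D - N) * ‖ω - z‖ ^ 2 * (1 - ‖z'‖ ^ 2))
        = (D ^ 2 - N ^ 2) * ‖ω - z‖ ^ 2 * (1 - ‖z'‖ ^ 2) := by ring
      _ = (1 - ‖z‖ ^ 2) * ((1 - ‖z'‖ ^ 2) ^ 2 * ‖ω - z‖ ^ 2) := by rw [hDN]; ring
      _ ≤ (1 - ‖z‖ ^ 2) * (‖ω - z'‖ ^ 2 * (D + N) ^ 2) := mul_le_mul_of_nonneg_left hsq ha.le
      _ = (D + N) * ((D + N) * ‖ω - z'‖ ^ 2 * (1 - ‖z‖ ^ 2)) := by ring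
  have h4 := le_of_mul_le_mul_left h3 hDN0
  calc (D - N) * ‖ω - z‖ ^ 2 * (D * (1 - ‖z'‖ ^ 2))
      = D * ((D - N) * ‖ω - z‖ ^ 2 * (1 - ‖z'‖ ^ 2)) := by ring
    _ ≤ D * ((D + N) * ‖ω - z'‖ ^ 2 * (1 - ‖z‖ ^ 2)) := mul_le_mul_of_nonneg_left h4 hD0.le
    _ = _ := by ring

lemma auxT2_pos {z ω : ℂ} (hz : ‖z‖ < 1) (hω : ‖ω‖ = 1) :
    0 < ‖ω - z‖ ^ 2 / (1 - ‖z‖ ^ 2) := by
  have ha : 0 < 1 - ‖z‖ ^ 2 := by nlinarith [norm_nonneg z]
  have h : 0 < ‖ω - z‖ := by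
    rw [norm_pos_iff]
    intro h0
    have : ω = z := sub_eq_zero.mp h0
    rw [this] at hω
    linarith
  positivity

/-- steps are bounded below for hyperbolic type -/
theorem stp_lower {φ : ℂ → ℂ} (hφ : SelfMap φ) {ω : ℂ} (hω : ‖ω‖ = 1) {α : ℝ} (hα : α < 1)
    (hJ : ∀ z : ℂ, ‖z‖ < 1 →
      ‖ω - φ z‖ ^ 2 / (1 - ‖φ z‖ ^ 2) ≤ α * (‖ω - z‖ ^ 2 / (1 - ‖z‖ ^ 2))) :
    0 < α ∧ ∀ n, (1 - α) / (1 + α) ≤ stp φ n := by
  have hα0 : 0 < α := by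
    have h0 : ‖(0 : ℂ)‖ < 1 := by simp
    have h1 := hJ 0 h0
    have h2 := auxT2_pos (hφ.2 0 h0) hω
    rw [sub_zero, hω, norm_zero] at h1
    norm_num at h1
    linarith
  refine ⟨hα0, fun n => ?_⟩
  have hn := orb_lt hφ n
  have hn1 := orb_lt hφ (n + 1)
  have hs : orb φ (n + 1) = φ (orb φ n) := by
    unfold orb
    rw [Function.iterate_succ_apply']
  have h1 := auxT2_key hn hn1 hω
  have h2 := hJ (orb φ n) hn
  rw [← hs] at h2
  have h3 := auxT2_pos hn hω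
  have hst : ‖mob (orb φ n) (orb φ (n + 1))‖ = stp φ n := rfl
  rw [hst] at h1
  have hst0 : 0 ≤ stp φ n := norm_nonneg _
  rw [div_le_iff₀ (by linarith)]
  have h4 : (1 - stp φ n) * (‖ω - orb φ n‖ ^ 2 / (1 - ‖orb φ n‖ ^ 2)) ≤
      ((1 + stp φ n) * α) * (‖ω - orb φ n‖ ^ 2 / (1 - ‖orb φ n‖ ^ 2)) := by
    calc _ ≤ _ := h1
      _ ≤ (1 + stp φ n) * (α * (‖ω - orb φ n‖ ^ 2 / (1 - ‖orb φ n‖ ^ 2))) :=
        mul_le_mul_of_nonneg_left h2 (by linarith)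
      _ = _ := by ring
  have h5 := le_of_mul_le_mul_right h4 h3
  linarith

lemma auxT3_sq (z w : ℂ) : ‖1 - conj z * w‖ ^ 2 = ‖w - z‖ ^ 2 + (1 - ‖z‖ ^ 2) * (1 - ‖w‖ ^ 2) := by
  have hsq : ∀ u : ℂ, ‖u‖ ^ 2 = u.re ^ 2 + u.im ^ 2 := fun u => by
    rw [Complex.sq_norm, Complex.normSq_apply]; ring
  simp only [hsq]
  simp
  ring

lemma auxT3_harnack {z w ω : ℂ} (hz : ‖z‖ < 1) (hw : ‖w‖ < 1) (hω : ‖ω‖ = 1) :
    ‖ω - z‖ ^ 2 / (1 - ‖z‖ ^ 2) ≤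
      (1 + ‖mob z w‖) / (1 - ‖mob z w‖) * (‖ω - w‖ ^ 2 / (1 - ‖w‖ ^ 2)) := by
  have hZ : 0 < 1 - ‖z‖ ^ 2 := F96.one_sub_sq_pos hz
  have hW : 0 < 1 - ‖w‖ ^ 2 := F96.one_sub_sq_pos hw
  have h1 := auxT3_sq z w
  have h2 : ‖1 - conj z * ω‖ = ‖ω - z‖ := by
    have h3 := auxT3_sq z ω
    rw [hω] at h3
    have h4 : ‖1 - conj z * ω‖ ^ 2 = ‖ω - z‖ ^ 2 := by rw [h3]; ring
    exact (pow_left_inj₀ (norm_nonneg _) (norm_nonneg _) two_ne_zero).1 h4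
  have h5 : (ω - z) * (1 - conj z * w) - (w - z) * (1 - conj z * ω)
      = (ω - w) * ((1 - ‖z‖ ^ 2 : ℝ) : ℂ) := by
    have h6 : conj z * z = ((‖z‖ ^ 2 : ℝ) : ℂ) := by
      rw [Complex.conj_mul']; push_cast; rfl
    push_cast at h6 ⊢
    linear_combination (w - ω) * h6
  have h7 : ‖ω - z‖ * (‖1 - conj z * w‖ - ‖w - z‖) ≤ ‖ω - w‖ * (1 - ‖z‖ ^ 2) := by
    have h8 := norm_sub_norm_le ((ω - z) * (1 - conj z * w)) ((w - z) * (1 - conj z * ω))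
    rw [h5, norm_mul, norm_mul, norm_mul, h2, Complex.norm_real, Real.norm_eq_abs,
      abs_of_pos hZ] at h8
    linarith
  have hlt : ‖w - z‖ < ‖1 - conj z * w‖ := by
    have : ‖w - z‖ ^ 2 < ‖1 - conj z * w‖ ^ 2 := by
      rw [h1]
      have := mul_pos hZ hW
      linarith
    exact lt_of_pow_lt_pow_left₀ 2 (norm_nonneg _) this
  have hmob : ‖mob z w‖ = ‖w - z‖ / ‖1 - conj z * w‖ := by
    unfold mob
    rw [norm_div]
  set D := ‖1 - conj z * w‖ with hD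
  set e := ‖w - z‖ with he
  set a := ‖ω - z‖ with ha
  set b := ‖ω - w‖ with hb
  set Z := 1 - ‖z‖ ^ 2 with hZd
  set W' := 1 - ‖w‖ ^ 2 with hWd
  have he0 : 0 ≤ e := norm_nonneg _
  have ha0 : 0 ≤ a := norm_nonneg _
  have hD0 : 0 < D := lt_of_le_of_lt he0 hlt
  rw [hmob]
  have h9 : (1 + e / D) / (1 - e / D) = (D + e) / (D - e) := by
    have : D - e ≠ 0 := by linarith
    field_simp
  rw [h9, div_mul_div_comm, div_le_div_iff₀ hZ (mul_pos (by linarith) hW)]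
  have h10 : (a * (D - e)) ^ 2 ≤ (b * Z) ^ 2 :=
    pow_le_pow_left₀ (mul_nonneg ha0 (by linarith)) h7 2
  have h11 : Z * W' = (D - e) * (D + e) := by linarith [h1, (by ring : (D - e) * (D + e) = D ^ 2 - e ^ 2)]
  -- a^2 * ((D - e) * W') ≤ (D + e) * b^2 * Z
  have h12 : Z * (a ^ 2 * ((D - e) * W')) ≤ Z * ((D + e) * b ^ 2 * Z) := by
    calc Z * (a ^ 2 * ((D - e) * W')) = (a * (D - e)) ^ 2 * (D + e) := by
          have : Z * (a ^ 2 * ((D - e) * W')) = a ^ 2 * (D - e) * (Z * W') := by ring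
          rw [this, h11]; ring
      _ ≤ (b * Z) ^ 2 * (D + e) := mul_le_mul_of_nonneg_right h10 (by linarith)
      _ = Z * ((D + e) * b ^ 2 * Z) := by ring
  exact le_of_mul_le_mul_left h12 hZ

/-- the limit automorphism expands exponentially -/
theorem expand {τ η : ℂ → ℂ} {b H : H2} (hb : IsBd τ b) {ω : ℂ} (hω : ‖ω‖ = 1) {α : ℝ}
    (hα : α < 1)
    (hJ : ∀ z : ℂ, ‖z‖ < 1 →
      ‖ω - ev b z‖ ^ 2 / (1 - ‖ev b z‖ ^ 2) ≤ α * (‖ω - z‖ ^ 2 / (1 - ‖z‖ ^ 2)))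
    (hH : IsBd η H) (hH0 : ev H 0 = 0)
    (hlim : ∀ z : ℂ, ‖z‖ < 1 → Tendsto (fun n => hseq (ev b) n z) atTop (nhds (ev H z)))
    (k : ℕ) : (α⁻¹) ^ k ≤ (1 + ‖ev H (orb (ev b) k)‖) / (1 - ‖ev H (orb (ev b) k)‖) := by
  have hφ : SelfMap (ev b) := selfMap_bd hb
  obtain ⟨hα0, hstp⟩ := stp_lower hφ hω hα hJ
  have hstp0 : ∀ n, 0 < stp (ev b) n := fun n =>
    lt_of_lt_of_le (div_pos (by linarith) (by linarith)) (hstp n)
  have horb : ∀ n, ‖orb (ev b) n‖ < 1 := orb_lt hφ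
  have hd0 : ∀ n, 0 < ‖ω - orb (ev b) n‖ ^ 2 / (1 - ‖orb (ev b) n‖ ^ 2) := by
    intro n
    have h1 : ω - orb (ev b) n ≠ 0 := by
      intro h
      have h2 : ω = orb (ev b) n := sub_eq_zero.1 h
      have h3 := horb n
      rw [← h2, hω] at h3
      exact lt_irrefl _ h3
    have h2 : 0 < ‖ω - orb (ev b) n‖ := norm_pos_iff.2 h1
    exact div_pos (by positivity) (F96.one_sub_sq_pos (horb n))
  have horbs : ∀ n, orb (ev b) (n + 1) = ev b (orb (ev b) n) := by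
    intro n
    unfold orb
    rw [Function.iterate_succ_apply']
  have hdk : ∀ n k, ‖ω - orb (ev b) (n + k)‖ ^ 2 / (1 - ‖orb (ev b) (n + k)‖ ^ 2)
      ≤ α ^ k * (‖ω - orb (ev b) n‖ ^ 2 / (1 - ‖orb (ev b) n‖ ^ 2)) := by
    intro n k
    induction k with
    | zero => simp
    | succ k ih =>
      have h1 := hJ _ (horb (n + k))
      rw [← horbs] at h1
      calc _ ≤ _ := h1
        _ ≤ α * (α ^ k * (‖ω - orb (ev b) n‖ ^ 2 / (1 - ‖orb (ev b) n‖ ^ 2))) :=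
            mul_le_mul_of_nonneg_left ih hα0.le
        _ = _ := by rw [pow_succ]; ring
  have hm : ∀ n, ‖hseq (ev b) n (orb (ev b) k)‖ = ‖mob (orb (ev b) n) (orb (ev b) (n + k))‖ := by
    intro n
    have h1 : (ev b)^[n] (orb (ev b) k) = orb (ev b) (n + k) := by
      unfold orb
      rw [← Function.iterate_add_apply]
    unfold hseq
    rw [h1, norm_mul, norm_div, RCLike.norm_conj, Complex.norm_real, Real.norm_eq_abs,
      abs_of_pos (hstp0 n)]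
    have h2 : ‖mob (orb (ev b) n) (orb (ev b) (n + 1))‖ = stp (ev b) n := rfl
    rw [h2, div_self (hstp0 n).ne', one_mul]
  have hbound : ∀ n, (α⁻¹) ^ k ≤ (1 + ‖hseq (ev b) n (orb (ev b) k)‖) /
      (1 - ‖hseq (ev b) n (orb (ev b) k)‖) := by
    intro n
    rw [hm n]
    have h1 := auxT3_harnack (horb n) (horb (n + k)) hω
    have h2 := hdk n k
    have h3 := hd0 n
    set d := ‖ω - orb (ev b) n‖ ^ 2 / (1 - ‖orb (ev b) n‖ ^ 2) with hd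
    set Q := (1 + ‖mob (orb (ev b) n) (orb (ev b) (n + k))‖) /
      (1 - ‖mob (orb (ev b) n) (orb (ev b) (n + k))‖) with hQ
    have hmlt := mob_lt (horb n) (horb (n + k))
    have hQ0 : 0 < Q := div_pos (by positivity) (by linarith)
    have h4 : d ≤ Q * α ^ k * d := by
      calc d ≤ _ := h1
        _ ≤ Q * (α ^ k * d) := mul_le_mul_of_nonneg_left h2 hQ0.le
        _ = _ := by ring
    have h5 : 1 ≤ Q * α ^ k := by
      by_contra h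
      push_neg at h
      have : Q * α ^ k * d < 1 * d := mul_lt_mul_of_pos_right h h3
      linarith
    rw [inv_pow, inv_le_iff_one_le_mul₀ (pow_pos hα0 k)]
    exact h5
  have hx : ‖ev H (orb (ev b) k)‖ < 1 := hH.2.2.2 _ (horb k)
  have ht := (hlim _ (horb k)).norm
  have ht2 : Tendsto (fun n => (1 + ‖hseq (ev b) n (orb (ev b) k)‖) /
      (1 - ‖hseq (ev b) n (orb (ev b) k)‖)) atTop
      (nhds ((1 + ‖ev H (orb (ev b) k)‖) / (1 - ‖ev H (orb (ev b) k)‖))) :=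
    (tendsto_const_nhds.add ht).div (tendsto_const_nhds.sub ht) (by linarith)
  exact ge_of_tendsto' ht2 hbound

theorem auxT4_bound {x κ : ℝ} (hx0 : 0 ≤ x) (hx1 : x < 1) (hκ : 0 < κ) (h : κ ≤ 1 - x ^ 2) :
    (1 + x) / (1 - x) ≤ 4 / κ := by
  rw [div_le_div_iff₀ (by linarith) hκ]
  have h1 : (1 + x) * κ ≤ (1 + x) * (1 - x ^ 2) := mul_le_mul_of_nonneg_left h (by linarith)
  have h2 : (1 + x) * (1 - x ^ 2) = (1 + x) ^ 2 * (1 - x) := by ring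
  have h3 : (1 + x) ^ 2 * (1 - x) ≤ 4 * (1 - x) := by
    apply mul_le_mul_of_nonneg_right _ (by linarith)
    nlinarith
  linarith

theorem auxT4_mob {a z : ℂ} (ha : ‖a‖ < 1) (hz : ‖z‖ < 1) (hm : ‖mob a z‖ ≤ ‖a‖) :
    (1 - ‖a‖) ^ 2 ≤ 1 - ‖z‖ ^ 2 := by
  have hid : ‖1 - conj a * z‖ ^ 2 - ‖z - a‖ ^ 2 = (1 - ‖a‖ ^ 2) * (1 - ‖z‖ ^ 2) := by
    rw [Complex.sq_norm, Complex.sq_norm, Complex.sq_norm, Complex.sq_norm]
    simp only [Complex.normSq_apply, Complex.sub_re, Complex.sub_im, Complex.mul_re,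
      Complex.mul_im, Complex.conj_re, Complex.conj_im, Complex.one_re, Complex.one_im]
    ring
  have hD : 1 - ‖a‖ ≤ ‖1 - conj a * z‖ := by
    have h1 : ‖(1 : ℂ)‖ - ‖conj a * z‖ ≤ ‖1 - conj a * z‖ := norm_sub_norm_le _ _
    rw [norm_one, norm_mul, RCLike.norm_conj] at h1
    nlinarith [norm_nonneg a, norm_nonneg z]
  have hDpos : 0 < ‖1 - conj a * z‖ := by linarith
  have hN : ‖z - a‖ ≤ ‖a‖ * ‖1 - conj a * z‖ := by
    unfold mob at hm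
    rw [norm_div, div_le_iff₀ hDpos] at hm
    exact hm
  have hN2 : ‖z - a‖ ^ 2 ≤ ‖a‖ ^ 2 * ‖1 - conj a * z‖ ^ 2 := by
    rw [← mul_pow]
    exact pow_le_pow_left₀ (norm_nonneg _) hN 2
  have hpos : 0 < 1 - ‖a‖ ^ 2 := by nlinarith [norm_nonneg a]
  have h5 : (1 - ‖a‖ ^ 2) * ‖1 - conj a * z‖ ^ 2 ≤ (1 - ‖a‖ ^ 2) * (1 - ‖z‖ ^ 2) := by
    nlinarith
  have h6 : ‖1 - conj a * z‖ ^ 2 ≤ 1 - ‖z‖ ^ 2 := le_of_mul_le_mul_left h5 hpos
  have h7 : (1 - ‖a‖) ^ 2 ≤ ‖1 - conj a * z‖ ^ 2 := pow_le_pow_left₀ (by linarith) hD 2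
  linarith

/-- an exponentially expanding automorphism is hyperbolic -/
theorem hyp_form {ε : ℂ} {δ : ℝ} (hε : ‖ε‖ = 1) (hδ0 : 0 < δ) (hδ1 : δ < 1)
    (w : ℕ → ℂ) (hw0 : w 0 = 0) (hw : ∀ n, w (n + 1) = (ε * w n + δ) / (1 + δ * ε * w n))
    {β : ℝ} (hβ : 1 < β) (hexp : ∀ k, β ^ k ≤ (1 + ‖w k‖) / (1 - ‖w k‖)) :
    ∃ η₀ b : ℂ, ‖η₀‖ = 1 ∧ 0 < b.im ∧ ∃ lam : ℝ, 1 < lam ∧
      ∀ s : ℂ, 0 < s.im →
        (ε * F96.zt η₀ b s + δ) / (1 + δ * ε * F96.zt η₀ b s) = F96.zt η₀ b (lam * s) := by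
  have hεc : ε * conj ε = 1 := by
    rw [Complex.mul_conj', hε]; norm_num
  have hδn : ‖-(δ : ℂ)‖ < 1 := by
    rw [norm_neg, Complex.norm_real, Real.norm_of_nonneg hδ0.le]; exact hδ1
  have hp : ‖-(δ : ℂ) * conj ε‖ < 1 := by
    rw [norm_mul, RCLike.norm_conj, hε, mul_one]; exact hδn
  have hA : ∀ z : ℂ, ε * ((z - (-(δ : ℂ) * conj ε)) / (1 - conj (-(δ : ℂ) * conj ε) * z)) =
      (ε * z + δ) / (1 + δ * ε * z) := by
    intro z
    rw [← mul_div_assoc]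
    congr 1
    · calc ε * (z - (-(δ : ℂ) * conj ε)) = ε * z + δ * (ε * conj ε) := by ring
        _ = ε * z + δ := by rw [hεc, mul_one]
    · rw [map_mul, map_neg, Complex.conj_conj, Complex.conj_ofReal]
      ring
  have hAm : ∀ z : ℂ, (ε * z + δ) / (1 + δ * ε * z) = mob (-(δ : ℂ)) (ε * z) := by
    intro z
    unfold mob
    rw [map_neg, Complex.conj_ofReal]
    congr 1
    · ring
    · ring
  have hself : SelfMap (fun z : ℂ => (ε * z + δ) / (1 + δ * ε * z)) := by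
    have hm := mob_selfMap hδn
    have hfun : (fun z : ℂ => (ε * z + δ) / (1 + δ * ε * z)) =
        (mob (-(δ : ℂ))) ∘ fun z => ε * z := funext hAm
    rw [hfun]
    have hmaps : ∀ z : ℂ, ‖z‖ < 1 → ‖ε * z‖ < 1 := by
      intro z hz
      rw [norm_mul, hε, one_mul]; exact hz
    refine ⟨hm.1.comp ?_ ?_, fun z hz => hm.2 _ (hmaps z hz)⟩
    · exact (differentiable_id.const_mul ε).differentiableOn
    · intro z hz
      rw [mem_ball_zero_iff] at hz ⊢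
      exact hmaps z hz
  have hwlt : ∀ n, ‖w n‖ < 1 := by
    intro n
    induction n with
    | zero => rw [hw0]; simp
    | succ n ih => rw [hw]; exact hself.2 _ ih
  have hfix : ∀ z : ℂ, ‖z‖ < 1 →
      ε * ((z - (-(δ : ℂ) * conj ε)) / (1 - conj (-(δ : ℂ) * conj ε) * z)) ≠ z := by
    intro z0 hz0 hfx
    rw [hA] at hfx
    have hle : ∀ n, ‖mob z0 (w n)‖ ≤ ‖z0‖ := by
      intro n
      induction n with
      | zero => rw [hw0]; unfold mob; simp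
      | succ n ih =>
        have h1 := schwarz_pick hself (hwlt n) hz0
        simp only [hfx] at h1
        rw [hw]
        exact h1.trans ih
    have hpos : 0 < (1 - ‖z0‖) ^ 2 := by
      have : 0 < 1 - ‖z0‖ := by linarith
      positivity
    obtain ⟨n, hn⟩ := pow_unbounded_of_one_lt (4 / (1 - ‖z0‖) ^ 2) hβ
    have h2 := auxT4_bound (norm_nonneg _) (hwlt n) hpos (auxT4_mob hz0 (hwlt n) (hle n))
    have h3 := hexp n
    linarith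
  obtain ⟨η, b, hη, hb, lam, t, hcase, heq⟩ := F96.classify ε (-(δ : ℂ) * conj ε) hε hp hfix
  simp only [hA] at heq
  rcases hcase with ⟨hlam, ht⟩ | ⟨hlam, ht⟩
  · refine ⟨η, b, hη, hb, lam, hlam, ?_⟩
    intro s hs
    rw [heq s hs, ht]
    simp
  · exfalso
    have hwn : ∀ n : ℕ, w n = F96.zt η b (b + ((n * t : ℝ) : ℂ)) := by
      intro n
      induction n with
      | zero => rw [hw0]; unfold F96.zt; simp
      | succ n ih =>
        rw [hw, ih, heq _ (by simpa using hb), hlam]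
        congr 1
        push_cast
        ring
    have hbound : ∀ n : ℕ, 1 ≤ n → β ^ n ≤ (n : ℝ) ^ 2 * ((|t| + 2 * b.im) ^ 2 / b.im ^ 2) := by
      intro n hn
      have hn1 : (1 : ℝ) ≤ n := by exact_mod_cast hn
      have him : (b + ((n * t : ℝ) : ℂ)).im = b.im := by simp
      have h1 := F96.one_sub_norm_zt_sq (s := b + ((n * t : ℝ) : ℂ)) hη hb (by rw [him]; exact hb)
      rw [← hwn n, him] at h1
      have hnorm : ‖b + ((n * t : ℝ) : ℂ) - conj b‖ ≤ n * (|t| + 2 * b.im) := by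
        have h2 : b + ((n * t : ℝ) : ℂ) - conj b = ((n * t : ℝ) : ℂ) + ((2 * b.im : ℝ) : ℂ) * Complex.I := by
          apply Complex.ext
          · simp
          · simp; ring
        rw [h2]
        refine (norm_add_le _ _).trans ?_
        rw [norm_mul, Complex.norm_I, mul_one, Complex.norm_real, Complex.norm_real,
          Real.norm_eq_abs, Real.norm_eq_abs, abs_mul, abs_of_pos (by linarith : 0 < 2 * b.im),
          abs_of_nonneg (by linarith : (0 : ℝ) ≤ n)]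
        nlinarith
      have hne : 0 < ‖b + ((n * t : ℝ) : ℂ) - conj b‖ := by
        rw [norm_pos_iff]
        intro h0
        have h3 := congrArg Complex.im h0
        simp at h3
        linarith
      have hκ : 0 < 4 * b.im * b.im / ‖b + ((n * t : ℝ) : ℂ) - conj b‖ ^ 2 := by positivity
      have h2 := auxT4_bound (norm_nonneg _) (hwlt n) hκ h1.symm.le
      refine (hexp n).trans (h2.trans ?_)
      have h4 : 4 / (4 * b.im * b.im / ‖b + ((n * t : ℝ) : ℂ) - conj b‖ ^ 2) =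
          ‖b + ((n * t : ℝ) : ℂ) - conj b‖ ^ 2 / b.im ^ 2 := by
        field_simp
      rw [h4, ← mul_div_assoc, ← mul_pow]
      exact div_le_div_of_nonneg_right (pow_le_pow_left₀ (norm_nonneg _) hnorm 2) (by positivity)
    have hDpos : 0 < (|t| + 2 * b.im) ^ 2 / b.im ^ 2 := by
      have : 0 < |t| := abs_pos.2 ht
      positivity
    have hlim := tendsto_pow_const_div_const_pow_of_one_lt 2 hβ
    have hge : 1 / ((|t| + 2 * b.im) ^ 2 / b.im ^ 2) ≤ 0 := by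
      refine ge_of_tendsto hlim ?_
      filter_upwards [eventually_ge_atTop 1] with n hn
      have hβn : 0 < β ^ n := by positivity
      rw [div_le_div_iff₀ hDpos hβn, one_mul]
      exact hbound n hn
    have : 0 < 1 / ((|t| + 2 * b.im) ^ 2 / b.im ^ 2) := by positivity
    linarith


end

end HT
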